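import Pool.Agent.Lib.MP_0da313_nt.CM.B
import Pool.Agent.Lib.MP_89da58_nt.LargeArith

set_option autoImplicit false

/-!
Project CM, piece LCA: large conductors for the sequences `cv α`.
-/

namespace Pool.Agent.CM.B

open Finset Filter
open Pool.Agent.MP89da58 (tri primChars)

/-- The coefficients of the first variable. -/
noncomputable def cm_LCA_a (α : ℕ → ℝ) (s k : ℕ) : ℝ := if k.Coprime s then α k else 0

/-- The coefficients of the second variable. -/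
noncomputable def cm_LCA_b (s p : ℕ) : ℝ := if p.Prime ∧ p.Coprime s then 1 else 0

/-- The bilinear summand. -/
noncomputable def cm_LCA_f (α : ℕ → ℝ) (lam X : ℝ) (s : ℕ) {r : ℕ} (χ : DirichletCharacter ℂ r)
    (m n : ℕ) : ℂ :=
  (cm_LCA_a α s m : ℂ) * (cm_LCA_b s n : ℂ) * χ ((m * n : ℕ) : ZMod r) * (wd lam X (m * n) : ℂ)

theorem cm_LCA_tri {u : ℝ} (h : 1 ≤ |u|) : tri u = 0 := by
  unfold tri
  exact max_eq_left (by linarith)

theorem cm_LCA_log3 : 1 < Real.log 3 := by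
  rw [Real.lt_log_iff_exp_lt (by norm_num)]
  linarith [Real.exp_one_lt_d9]

theorem cm_LCA_wd_hi {lam X : ℝ} (hl : 1 ≤ lam) (hX : 0 < X) {n : ℕ} (h : 3 * X < n) :
    wd lam X n = 0 := by
  have h1 : (3 : ℝ) ≤ n / X := by
    rw [le_div_iff₀ hX]
    exact h.le
  have h2 : Real.log 3 ≤ Real.log (n / X) := Real.log_le_log (by norm_num) h1
  have h3 := cm_LCA_log3
  unfold wd
  apply cm_LCA_tri
  rw [abs_of_nonneg (by nlinarith)]
  nlinarith

theorem cm_LCA_wd_lo {lam X : ℝ} (hl : 1 ≤ lam) (hX : 0 < X) {n : ℕ} (hn : 1 ≤ n)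
    (h : 3 * (n : ℝ) ≤ X) : wd lam X n = 0 := by
  have hn0 : (0 : ℝ) < n := by exact_mod_cast hn
  have h1 : (n : ℝ) / X ≤ 3⁻¹ := by
    rw [div_le_iff₀ hX]
    linarith
  have h2 : Real.log (n / X) ≤ Real.log 3⁻¹ := Real.log_le_log (by positivity) h1
  rw [Real.log_inv] at h2
  have h3 := cm_LCA_log3
  unfold wd
  apply cm_LCA_tri
  rw [abs_of_nonpos (by nlinarith)]
  nlinarith

/-- The twisted sum as a double sum. -/
theorem cm_LCA_Tw (α : ℕ → ℝ) (lam X : ℝ) (hl : 1 ≤ lam) (hX : 0 < X) (s r : ℕ)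
    (χ : DirichletCharacter ℂ r) :
    Tw (cv α) lam X s χ =
      ∑ m ∈ Icc 1 ⌊3 * X⌋₊, ∑ n ∈ Icc 1 ⌊3 * X⌋₊, cm_LCA_f α lam X s χ m n := by
  have h1 : ∑ m ∈ Icc 1 ⌊3 * X⌋₊, ∑ n ∈ Icc 1 ⌊3 * X⌋₊, cm_LCA_f α lam X s χ m n =
      ∑ d ∈ Icc 1 ⌊3 * X⌋₊, ∑ m ∈ Icc 1 ⌊3 * X⌋₊,
        if d * m ≤ ⌊3 * X⌋₊ then cm_LCA_f α lam X s χ d m else 0 := by
    refine Finset.sum_congr rfl fun d _ => Finset.sum_congr rfl fun m _ => ?_
    split_ifs with h
    · rfl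
    · have h2 : 3 * X < ((d * m : ℕ) : ℝ) := (Nat.floor_lt (by positivity)).1 (not_le.1 h)
      unfold cm_LCA_f
      rw [cm_LCA_wd_hi hl hX h2]
      simp
  rw [h1, ← Pool.Agent.MP89da58.sum_dA]
  unfold Tw
  rw [Finset.sum_filter]
  refine Finset.sum_congr rfl fun n _ => ?_
  have h2 : ∑ x ∈ n.divisorsAntidiagonal, cm_LCA_f α lam X s χ x.1 x.2 =
      (∑ x ∈ n.divisorsAntidiagonal, ((cm_LCA_a α s x.1 * cm_LCA_b s x.2 : ℝ) : ℂ)) *
        χ (n : ZMod r) * (wd lam X n : ℂ) := by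
    rw [Finset.sum_mul, Finset.sum_mul]
    refine Finset.sum_congr rfl fun x hx => ?_
    rw [Nat.mem_divisorsAntidiagonal] at hx
    unfold cm_LCA_f
    rw [hx.1]
    push_cast
    ring
  rw [h2]
  split_ifs with hc
  · have h3 : ∑ x ∈ n.divisorsAntidiagonal, ((cm_LCA_a α s x.1 * cm_LCA_b s x.2 : ℝ) : ℂ) =
        (cv α n : ℂ) := by
      unfold cv
      rw [← Nat.sum_divisorsAntidiagonal (fun a b => α a * (if b.Prime then (1 : ℝ) else 0))]
      push_cast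
      refine Finset.sum_congr rfl fun x hx => ?_
      rw [Nat.mem_divisorsAntidiagonal] at hx
      rw [← hx.1] at hc
      have hc1 : x.1.Coprime s := Nat.Coprime.coprime_mul_right hc
      have hc2 : x.2.Coprime s := Nat.Coprime.coprime_mul_left hc
      unfold cm_LCA_a cm_LCA_b
      rw [if_pos hc1]
      by_cases hp : x.2.Prime
      · rw [if_pos ⟨hp, hc2⟩, if_pos hp]
      · rw [if_neg (fun h => hp h.1), if_neg hp]
    rw [h3]
  · have h3 : ∑ x ∈ n.divisorsAntidiagonal, ((cm_LCA_a α s x.1 * cm_LCA_b s x.2 : ℝ) : ℂ) = 0 := by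
      refine Finset.sum_eq_zero fun x hx => ?_
      rw [Nat.mem_divisorsAntidiagonal] at hx
      rw [← hx.1] at hc
      unfold cm_LCA_a cm_LCA_b
      by_cases hc1 : x.1.Coprime s
      · have hc2 : ¬ x.2.Coprime s := fun h => hc (Nat.Coprime.mul_left hc1 h)
        simp [hc2]
      · simp [hc1]
    rw [h3]
    simp

/-- One block. -/
theorem cm_LCA_blk (α : ℕ → ℝ) (lam X : ℝ) (s R M N : ℕ) (K : ℝ) (hL : 1 ≤ Real.log X)
    (hα0 : ∀ k, 0 ≤ α k) (hα1 : ∀ k, α k ≤ 1)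
    (hc : ∀ (a b : ℕ → ℂ),
      ∑ m ∈ Icc 1 (2 * M), ‖a m‖ ^ 2 ≤ M * (Real.log X) ^ 6 →
      ∑ n ∈ Icc 1 (2 * N), ‖b n‖ ^ 2 ≤ N * (Real.log X) ^ 6 →
      ∑ p ∈ primChars R, ‖∑ m ∈ Icc 1 (2 * M), ∑ n ∈ Icc 1 (2 * N),
        a m * b n * p.2 ((m * n : ℕ) : ZMod p.1) * (wd lam X (m * n) : ℂ)‖ ≤ K) :
    ∑ p ∈ primChars R, ‖∑ m ∈ Ioc M (2 * M), ∑ n ∈ Ioc N (2 * N),
      cm_LCA_f α lam X s p.2 m n‖ ≤ K := by
  set a' : ℕ → ℂ := fun m => if M < m then (cm_LCA_a α s m : ℂ) else 0 with ha'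
  set b' : ℕ → ℂ := fun n => if N < n then (cm_LCA_b s n : ℂ) else 0 with hb'
  have hI : ∀ M : ℕ, (Icc 1 (2 * M)).filter (fun m => M < m) = Ioc M (2 * M) := by
    intro M
    ext m; simp only [Finset.mem_filter, Finset.mem_Icc, Finset.mem_Ioc]; omega
  have hL6 : (1 : ℝ) ≤ (Real.log X) ^ 6 := one_le_pow₀ hL
  have hsum : ∀ (M : ℕ) (g : ℕ → ℝ), (∀ m, |g m| ≤ 1) →
      ∑ m ∈ Icc 1 (2 * M), ‖(if M < m then (g m : ℂ) else 0)‖ ^ 2 ≤ M * (Real.log X) ^ 6 := by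
    intro M g hg
    calc ∑ m ∈ Icc 1 (2 * M), ‖(if M < m then (g m : ℂ) else 0)‖ ^ 2
        = ∑ m ∈ Ioc M (2 * M), |g m| ^ 2 := by
          rw [← hI, Finset.sum_filter]
          refine Finset.sum_congr rfl fun m _ => ?_
          split_ifs
          · rw [Complex.norm_real, Real.norm_eq_abs]
          · simp
      _ ≤ ∑ m ∈ Ioc M (2 * M), (1 : ℝ) := by
          refine Finset.sum_le_sum fun m _ => ?_
          exact pow_le_one₀ (abs_nonneg _) (hg m)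
      _ = M * 1 := by
          rw [Finset.sum_const, Nat.card_Ioc, nsmul_eq_mul]
          congr 1
          have : 2 * M - M = M := by omega
          rw [this]
      _ ≤ M * (Real.log X) ^ 6 := mul_le_mul_of_nonneg_left hL6 (Nat.cast_nonneg _)
  have h := hc a' b' (hsum M (cm_LCA_a α s) fun m => ?_) (hsum N (cm_LCA_b s) fun m => ?_)
  · refine le_trans (le_of_eq ?_) h
    refine Finset.sum_congr rfl fun p _ => ?_
    congr 1
    rw [← hI M, Finset.sum_filter]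
    refine Finset.sum_congr rfl fun m _ => ?_
    by_cases hMm : M < m
    · rw [if_pos hMm, ← hI N, Finset.sum_filter]
      refine Finset.sum_congr rfl fun n _ => ?_
      simp only [ha', hb', if_pos hMm, cm_LCA_f]
      by_cases hNn : N < n
      · rw [if_pos hNn, if_pos hNn]
      · rw [if_neg hNn, if_neg hNn]; simp
    · rw [if_neg hMm]
      simp only [ha', if_neg hMm]
      simp
  · unfold cm_LCA_a
    split_ifs
    · rw [abs_of_nonneg (hα0 m)]; exact hα1 m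
    · simp
  · unfold cm_LCA_b
    split_ifs <;> simp

theorem p_LCA : S_LCA := by
  intro hblk hdya lam hlam A ε hε
  obtain ⟨B, hB⟩ := hblk lam (A + 4) (1 / 6) ε hlam (by norm_num) hε
  refine ⟨B, ?_⟩
  have e1 : ∀ᶠ X : ℝ in atTop, 1 ≤ Real.log X :=
    Real.tendsto_log_atTop.eventually_ge_atTop 1
  have e2 : ∀ᶠ X : ℝ in atTop, (3 : ℝ) < X ^ (1 / 20 : ℝ) :=
    (tendsto_rpow_atTop (by norm_num : (0 : ℝ) < 1 / 20)).eventually_gt_atTop 3
  have e3 : ∀ᶠ X : ℝ in atTop, (2 : ℝ) ≤ X ^ (1 / 30 : ℝ) :=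
    (tendsto_rpow_atTop (by norm_num : (0 : ℝ) < 1 / 30)).eventually_ge_atTop 2
  filter_upwards [hB, hdya lam hlam, e1, e2, e3, eventually_ge_atTop 1]
    with X hBX hdX hL h3 h2 hX1
  rintro f ⟨α, hα, rfl⟩ R s hR1 hR2 hs1 hs2
  have hX0 : 0 < X := by linarith
  have hL0 : 0 < Real.log X := by linarith
  -- the powers
  have p15 : 0 < X ^ (1 / 5 : ℝ) := Real.rpow_pos_of_pos hX0 _
  have p16 : 1 ≤ X ^ (1 / 6 : ℝ) := Real.one_le_rpow hX1 (by norm_num)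
  have q1 : X ^ (1 / 5 : ℝ) * X ^ (1 / 20 : ℝ) = X ^ (1 / 4 : ℝ) := by
    rw [← Real.rpow_add hX0]; norm_num
  have q2 : X ^ (1 / 6 : ℝ) * X ^ (1 / 30 : ℝ) = X ^ (1 / 5 : ℝ) := by
    rw [← Real.rpow_add hX0]; norm_num
  have q3 : 3 * X ^ (1 / 5 : ℝ) < X ^ (1 / 4 : ℝ) := by
    rw [← q1, mul_comm]
    exact mul_lt_mul_of_pos_left h3 p15
  have q4 : X ^ (1 / 4 : ℝ) * X ^ (3 / 4 : ℝ) = X := by
    rw [← Real.rpow_add hX0]; norm_num
  set U : ℕ := ⌊X ^ (1 / 5 : ℝ)⌋₊ with hU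
  have hUle : (U : ℝ) ≤ X ^ (1 / 5 : ℝ) := Nat.floor_le p15.le
  have hUge : X ^ (1 / 6 : ℝ) ≤ U := by
    have h5 : X ^ (1 / 5 : ℝ) < U + 1 := Nat.lt_floor_add_one _
    nlinarith
  have hU1 : 1 ≤ U := by
    have : (1 : ℝ) ≤ U := p16.trans hUge
    exact_mod_cast this
  have key := hdX R U U (fun p m n => cm_LCA_f α lam X s p.2 m n)
    (R * X / (Real.log X) ^ (A + 4)) hU1 hU1 (by positivity) ?_ ?_
  · calc ∑ p ∈ primChars R, ‖Tw (cv α) lam X s p.2‖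
        = ∑ p ∈ primChars R, ‖∑ m ∈ Icc 1 ⌊3 * X⌋₊, ∑ n ∈ Icc 1 ⌊3 * X⌋₊,
            cm_LCA_f α lam X s p.2 m n‖ := by
          refine Finset.sum_congr rfl fun p _ => ?_
          rw [cm_LCA_Tw α lam X hlam hX0]
      _ ≤ (Real.log X) ^ 3 * (R * X / (Real.log X) ^ (A + 4)) := key
      _ ≤ R * X / (Real.log X) ^ A := by
          have h6 : (Real.log X) ^ (A + 4) = (Real.log X) ^ A * (Real.log X) ^ 4 := pow_add _ _ _
          have h7 : (Real.log X) ^ 3 ≤ (Real.log X) ^ 4 :=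
            pow_le_pow_right₀ hL (by norm_num)
          have hA : 0 < (Real.log X) ^ A := by positivity
          have h4 : 0 < (Real.log X) ^ 4 := by positivity
          rw [mul_div_assoc', div_le_div_iff₀ (by positivity) hA, h6]
          have hRX : 0 ≤ (R : ℝ) * X := by positivity
          calc (Real.log X) ^ 3 * (R * X) * (Real.log X) ^ A
              ≤ (Real.log X) ^ 4 * (R * X) * (Real.log X) ^ A := by gcongr
            _ = R * X * ((Real.log X) ^ A * (Real.log X) ^ 4) := by ring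
  · intro p m n hne
    have hne' : cm_LCA_f α lam X s p.2 m n ≠ 0 := hne
    unfold cm_LCA_f at hne'
    have hw : wd lam X (m * n) ≠ 0 := by
      intro h0
      rw [h0] at hne'
      simp at hne'
    have ha : α m ≠ 0 := by
      intro h0
      apply hne'
      unfold cm_LCA_a
      rw [h0]
      simp
    have hb : n.Prime := by
      by_contra h0
      apply hne'
      unfold cm_LCA_b
      simp [h0]
    have hm1 := hα.lo m ha
    have hm2 := hα.hi m ha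
    have hUm : (U : ℝ) < m := by nlinarith
    have hm0 : 1 ≤ m := by
      have : (0 : ℝ) < m := lt_of_le_of_lt (Nat.cast_nonneg _) hUm
      exact_mod_cast this
    have hn0 : 1 ≤ n := hb.one_lt.le
    have h8 : ((m * n : ℕ) : ℝ) ≤ 3 * X := by
      by_contra h9
      exact hw (cm_LCA_wd_hi hlam hX0 (not_le.1 h9))
    have h10 : X < 3 * ((m * n : ℕ) : ℝ) := by
      by_contra h9
      exact hw (cm_LCA_wd_lo hlam hX0 (Nat.mul_pos hm0 hn0) (not_lt.1 h9))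
    refine ⟨by exact_mod_cast hUm, ?_, h8⟩
    have h11 : (U : ℝ) < n := by
      by_contra h9
      have h12 : (n : ℝ) ≤ X ^ (1 / 5 : ℝ) := (not_lt.1 h9).trans hUle
      have p34 : 0 < X ^ (3 / 4 : ℝ) := Real.rpow_pos_of_pos hX0 _
      have h13 : 3 * ((m * n : ℕ) : ℝ) ≤ X ^ (3 / 4 : ℝ) * (3 * X ^ (1 / 5 : ℝ)) := by
        push_cast
        calc 3 * ((m : ℝ) * n) = m * (3 * n) := by ring
          _ ≤ X ^ (3 / 4 : ℝ) * (3 * X ^ (1 / 5 : ℝ)) := by gcongr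
      have h14 : X ^ (3 / 4 : ℝ) * (3 * X ^ (1 / 5 : ℝ)) < X ^ (3 / 4 : ℝ) * X ^ (1 / 4 : ℝ) :=
        mul_lt_mul_of_pos_left q3 p34
      rw [mul_comm (X ^ (3 / 4 : ℝ)) (X ^ (1 / 4 : ℝ)), q4] at h14
      linarith
    exact_mod_cast h11
  · intro M N hM hN hMN
    have hM' : X ^ (1 / 6 : ℝ) ≤ M := hUge.trans (by exact_mod_cast hM)
    have hN' : X ^ (1 / 6 : ℝ) ≤ N := hUge.trans (by exact_mod_cast hN)
    exact cm_LCA_blk α lam X s R M N _ hL hα.nn hα.le fun a b ha hb =>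
      hBX R M N a b hR1 hR2 hM' hN' hMN ha hb

end Pool.Agent.CM.B
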