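import Pool.Agent.Lib.MP_0da313_nt.CM.B
import Mathlib.NumberTheory.Chebyshev

set_option autoImplicit false

/-!
[CM LCP] Large conductors for `log p` on the primes.
-/

namespace Pool.Agent.CM.B

open Finset Filter
open ArithmeticFunction (vonMangoldt)
open Pool.Agent.MP89da58 (tri primChars card_primChars)
open Pool.Agent.CH (thP)

private theorem cm_LCP_tri0 (u : ℝ) : 0 ≤ tri u := le_max_left _ _

private theorem cm_LCP_tri1 (u : ℝ) : tri u ≤ 1 := by
  unfold tri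
  exact max_le (by norm_num) (by linarith [abs_nonneg u])

private theorem cm_LCP_le (n : ℕ) : thP n ≤ vonMangoldt n := by
  unfold thP
  split_ifs with h
  · rw [ArithmeticFunction.vonMangoldt_apply_prime h]
  · exact ArithmeticFunction.vonMangoldt_nonneg

/-- the window is contained in `n > X/3` -/
private theorem cm_LCP_win {lam X : ℝ} (hlam : 1 ≤ lam) (hX : 0 < X) {n : ℕ} (hn : 1 ≤ n)
    (hw : wd lam X n ≠ 0) : X / 3 < n := by
  by_contra hc
  push Not at hc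
  apply hw
  have hn0 : (0 : ℝ) < n := by exact_mod_cast hn
  have h1 : Real.log (n / X) ≤ -1 := by
    have h2 : (n : ℝ) / X ≤ 1 / 3 := by
      rw [div_le_iff₀ hX]
      linarith
    have h3 : Real.log (n / X) ≤ Real.log (1 / 3) :=
      Real.log_le_log (div_pos hn0 hX) h2
    have h4 : Real.log (1 / 3) ≤ -1 := by
      rw [one_div, Real.log_inv]
      have h5 : (1 : ℝ) ≤ Real.log 3 := by
        rw [Real.le_log_iff_exp_le (by norm_num)]
        have := Real.exp_one_lt_d9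
        linarith
      linarith
    linarith
  have h6 : 1 ≤ |lam * Real.log (n / X)| := by
    rw [abs_mul, abs_of_nonneg (by linarith : (0 : ℝ) ≤ lam)]
    have h7 : 1 ≤ |Real.log (n / X)| := by
      rw [abs_of_nonpos (by linarith)]
      linarith
    nlinarith
  unfold wd tri
  exact max_eq_left (by linarith)

/-- the coprimality condition can be dropped -/
private theorem cm_LCP_Tw {lam X : ℝ} (hlam : 1 ≤ lam) (hX : 0 < X) {s : ℕ} (hs1 : 1 ≤ s)
    (hs : (s : ℝ) ≤ X / 3) {r : ℕ} (χ : DirichletCharacter ℂ r) :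
    Tw thP lam X s χ = ∑ n ∈ Icc 1 ⌊3 * X⌋₊, (thP n : ℂ) * χ (n : ZMod r) *
      (wd lam X n : ℂ) := by
  unfold Tw
  rw [sum_filter]
  apply sum_congr rfl
  intro n hn
  rw [mem_Icc] at hn
  split_ifs with h
  · rfl
  · symm
    by_cases hp : n.Prime
    · by_cases hw : wd lam X n = 0
      · rw [hw]
        simp
      · exfalso
        apply h
        rw [hp.coprime_iff_not_dvd]
        intro hd
        have h1 := cm_LCP_win hlam hX hn.1 hw
        have h2 : n ≤ s := Nat.le_of_dvd (by omega) hd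
        have h3 : (n : ℝ) ≤ s := by exact_mod_cast h2
        linarith
    · unfold thP
      rw [if_neg hp]
      simp

/-- the sum over the proper prime powers -/
private theorem cm_LCP_psi {Y : ℝ} (hY : 1 ≤ Y) :
    ∑ n ∈ Icc 1 ⌊Y⌋₊, (vonMangoldt n - thP n) ≤ 2 * √Y * Real.log Y := by
  refine le_trans (le_of_eq ?_) (Chebyshev.psi_sub_theta_le hY)
  rw [sum_sub_distrib]
  unfold Chebyshev.psi Chebyshev.theta
  congr 1
  rw [sum_filter]
  apply sum_congr rfl
  intro n _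
  unfold thP
  rfl

/-- one character -/
private theorem cm_LCP_chi {lam X : ℝ} (hlam : 1 ≤ lam) (hX : 1 ≤ X) {s : ℕ} (hs1 : 1 ≤ s)
    (hs : (s : ℝ) ≤ X / 3) {r : ℕ} (χ : DirichletCharacter ℂ r) :
    ‖Tw thP lam X s χ‖ ≤ ‖∑ n ∈ Icc 1 ⌊3 * X⌋₊, (vonMangoldt n : ℂ) * χ (n : ZMod r) *
      (wd lam X n : ℂ)‖ + 2 * √(3 * X) * Real.log (3 * X) := by
  rw [cm_LCP_Tw hlam (by linarith) hs1 hs χ]
  have e : ∑ n ∈ Icc 1 ⌊3 * X⌋₊, (thP n : ℂ) * χ (n : ZMod r) * (wd lam X n : ℂ) =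
      ∑ n ∈ Icc 1 ⌊3 * X⌋₊, (vonMangoldt n : ℂ) * χ (n : ZMod r) * (wd lam X n : ℂ) -
      ∑ n ∈ Icc 1 ⌊3 * X⌋₊, ((vonMangoldt n - thP n : ℝ) : ℂ) * χ (n : ZMod r) *
        (wd lam X n : ℂ) := by
    rw [← sum_sub_distrib]
    apply sum_congr rfl
    intro n _
    push_cast
    ring
  rw [e]
  refine (norm_sub_le _ _).trans ?_
  have h1 : ‖∑ n ∈ Icc 1 ⌊3 * X⌋₊, ((vonMangoldt n - thP n : ℝ) : ℂ) * χ (n : ZMod r) *
        (wd lam X n : ℂ)‖ ≤ 2 * √(3 * X) * Real.log (3 * X) := by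
    refine (norm_sum_le _ _).trans (le_trans ?_ (cm_LCP_psi (by linarith : (1 : ℝ) ≤ 3 * X)))
    apply sum_le_sum
    intro n _
    have h2 := cm_LCP_le n
    have h3 : ‖χ (n : ZMod r)‖ ≤ 1 := DirichletCharacter.norm_le_one χ _
    have h4 : wd lam X n ≤ 1 := cm_LCP_tri1 _
    have h5 : 0 ≤ wd lam X n := cm_LCP_tri0 _
    rw [norm_mul, norm_mul, Complex.norm_real, Complex.norm_real, Real.norm_eq_abs,
      Real.norm_eq_abs, abs_of_nonneg (by linarith : (0 : ℝ) ≤ vonMangoldt n - thP n),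
      abs_of_nonneg h5]
    have h6 : 0 ≤ vonMangoldt n - thP n := by linarith
    calc (vonMangoldt n - thP n) * ‖χ (n : ZMod r)‖ * wd lam X n
        ≤ (vonMangoldt n - thP n) * 1 * 1 := by gcongr
      _ = _ := by ring
  linarith

theorem p_LCP : S_LCP := by
  intro hLL lam hlam A ε hε
  obtain ⟨B, hB⟩ := hLL lam (A + 1) ε hlam hε
  refine ⟨B, ?_⟩
  have hlog : ∀ᶠ x : ℝ in atTop, 14 * (Real.log x) ^ (A + 1) ≤ x ^ ε := by
    have h := (isLittleO_log_rpow_rpow_atTop ((A + 1 : ℕ) : ℝ) hε).bound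
      (c := 1 / 14) (by norm_num)
    filter_upwards [h, eventually_ge_atTop (1 : ℝ)] with x hx hx1
    rw [Real.norm_eq_abs, Real.norm_eq_abs, Real.rpow_natCast,
      abs_of_nonneg (pow_nonneg (Real.log_nonneg hx1) _),
      abs_of_nonneg (Real.rpow_nonneg (by linarith) _)] at hx
    linarith
  have hX13 : ∀ᶠ x : ℝ in atTop, x ^ (2 / 3 : ℝ) ≤ x / 3 := by
    filter_upwards [eventually_ge_atTop (27 : ℝ)] with x hx
    have hx0 : (0 : ℝ) < x := by linarith
    have h1 : (3 : ℝ) ≤ x ^ (1 / 3 : ℝ) := by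
      have h2 : (27 : ℝ) ^ (1 / 3 : ℝ) ≤ x ^ (1 / 3 : ℝ) :=
        Real.rpow_le_rpow (by norm_num) hx (by norm_num)
      have h3 : (27 : ℝ) ^ (1 / 3 : ℝ) = 3 := by
        rw [show (27 : ℝ) = 3 ^ (3 : ℝ) by norm_num, ← Real.rpow_mul (by norm_num)]
        norm_num
      linarith
    have h4 : x = x ^ (2 / 3 : ℝ) * x ^ (1 / 3 : ℝ) := by
      rw [← Real.rpow_add hx0]
      norm_num
    have h5 : 0 ≤ x ^ (2 / 3 : ℝ) := Real.rpow_nonneg hx0.le _
    rw [le_div_iff₀ (by norm_num)]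
    calc x ^ (2 / 3 : ℝ) * 3 ≤ x ^ (2 / 3 : ℝ) * x ^ (1 / 3 : ℝ) := by gcongr
      _ = x := h4.symm
  filter_upwards [hB, hlog, hX13, eventually_ge_atTop (27 : ℝ),
    Real.tendsto_log_atTop.eventually_ge_atTop 2] with X hX1 hX2 hX3 hX4 hX5 f hf R s hR1 hR2 hs1 hs2
  have hf' : f = thP := hf
  subst hf'
  have hX0 : (0 : ℝ) < X := by linarith
  have hs : (s : ℝ) ≤ X / 3 := hs2.trans hX3
  set L : ℝ := Real.log X with hL
  have hLp : 0 < L := by linarith
  have hR0 : (0 : ℝ) ≤ R := Nat.cast_nonneg R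
  have h1 : ∑ p ∈ primChars R, ‖Tw thP lam X s p.2‖ ≤
      ∑ p ∈ primChars R, (‖∑ n ∈ Icc 1 ⌊3 * X⌋₊, (vonMangoldt n : ℂ) * p.2 (n : ZMod p.1) *
        (wd lam X n : ℂ)‖ + 2 * √(3 * X) * Real.log (3 * X)) :=
    sum_le_sum fun p _ => cm_LCP_chi hlam (by linarith) hs1 hs p.2
  rw [sum_add_distrib, sum_const, nsmul_eq_mul] at h1
  have h2 := hX1 R hR1 hR2
  have h3 : ((primChars R).card : ℝ) ≤ (R : ℝ) ^ 2 := by exact_mod_cast card_primChars R
  have h4 : Real.log (3 * X) ≤ 2 * L := by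
    rw [Real.log_mul (by norm_num) (by linarith)]
    have : Real.log 3 ≤ Real.log X := Real.log_le_log (by norm_num) (by linarith)
    linarith
  have h5 : √(3 * X) ≤ (7 / 4) * X ^ (1 / 2 : ℝ) := by
    rw [Real.sqrt_mul (by norm_num), Real.sqrt_eq_rpow X]
    have h6 : √(3 : ℝ) ≤ 7 / 4 := by
      rw [Real.sqrt_le_left (by norm_num)]
      norm_num
    have : 0 ≤ X ^ (1 / 2 : ℝ) := Real.rpow_nonneg hX0.le _
    nlinarith
  have h40 : 0 ≤ Real.log (3 * X) := Real.log_nonneg (by linarith)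
  have hLA : 0 < L ^ A := by positivity
  have h7 : ((primChars R).card : ℝ) * (2 * √(3 * X) * Real.log (3 * X)) ≤
      R * X / (2 * L ^ A) := by
    calc ((primChars R).card : ℝ) * (2 * √(3 * X) * Real.log (3 * X))
        ≤ (R : ℝ) ^ 2 * (2 * ((7 / 4) * X ^ (1 / 2 : ℝ)) * (2 * L)) := by gcongr
      _ = R * R * (7 * L * X ^ (1 / 2 : ℝ)) := by ring
      _ ≤ R * X ^ (1 / 2 - ε : ℝ) * (7 * L * X ^ (1 / 2 : ℝ)) := by gcongr
      _ = R * (7 * L) * (X ^ (1 / 2 - ε : ℝ) * X ^ (1 / 2 : ℝ)) := by ring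
      _ = R * (7 * L) * X ^ (1 - ε : ℝ) := by
          rw [← Real.rpow_add hX0]
          congr 2
          ring
      _ ≤ R * X / (2 * L ^ A) := by
          rw [le_div_iff₀ (by positivity)]
          have h8 : X = X ^ (1 - ε : ℝ) * X ^ ε := by
            rw [← Real.rpow_add hX0]
            simp
          have h9 : 0 ≤ X ^ (1 - ε : ℝ) := Real.rpow_nonneg hX0.le _
          calc R * (7 * L) * X ^ (1 - ε : ℝ) * (2 * L ^ A)
              = R * (X ^ (1 - ε : ℝ) * (14 * L ^ (A + 1))) := by ring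
            _ ≤ R * (X ^ (1 - ε : ℝ) * X ^ ε) := by gcongr
            _ = R * X := by rw [← h8]
  have h10 : R * X / L ^ (A + 1) ≤ R * X / (2 * L ^ A) := by
    apply div_le_div_of_nonneg_left (by positivity) (by positivity)
    rw [pow_succ]
    nlinarith
  have h11 : R * X / (2 * L ^ A) + R * X / (2 * L ^ A) = R * X / L ^ A := by
    field_simp
    ring
  linarith

end Pool.Agent.CM.B
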