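import Pool.Agent.Lib.MP_0da313_nt.CM.F

set_option autoImplicit false

/-!
Project CM: common lemmas for the three sums, and the upper bound for the full sum.
-/

namespace Pool.Agent.CM.F

open Finset Filter Polynomial
open ArithmeticFunction (cardFactors)
open Pool.Agent.MP89da58 (bil pw nn supp part kapD op tm wt bil_bounds)
open Pool.Agent.MT (PJf ZI Dl)
open Pool.Agent.BVall (om rhoW PK lev RepB Dens mem_PK)
open Pool.Agent.Lib.MP_0da313_nt (Admissible lineRestrict val singV W small)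
open Pool.Agent.CH (thP)
open Pool.Agent.CH.S (th Pr gd RepC V)
open Pool.Agent.CM.W (WPk yM)

variable {ι : Type} [Fintype ι] [DecidableEq ι] {D : ℕ}

theorem cm_S0_congr {P : Finset ℕ} {Q : Finset ℕ → Prop} {F : (ℕ → ℝ) → ℝ} (h : RepB P Q F)
    {ρ ρ' : ℕ → ℝ} (h' : ∀ p ∈ P, ρ p = ρ' p) : F ρ = F ρ' := by
  obtain ⟨c, h1, -, -⟩ := h
  rw [h1, h1]
  refine Finset.sum_congr rfl fun T hT => ?_
  rw [Finset.mem_powerset] at hT
  rw [Finset.prod_congr rfl fun p hp => h' p (hT hp)]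

theorem cm_S0_W_congr {P : Finset ℕ} {ρ ρ' : ℕ → ℝ} (h' : ∀ p ∈ P, ρ p = ρ' p) :
    W ρ P = W ρ' P := by
  unfold W
  exact Finset.prod_congr rfl fun p hp => by rw [h' p hp]

/-- `z0 ≤ lev`. -/
theorem cm_S0_z_le_lev (D n' : ℕ) : z0 D n' ≤ lev (2 * D) n' := by
  unfold z0 lev
  have h1 : 1 ≤ ∏ p ∈ small (2 * D), p := by
    refine Nat.one_le_iff_ne_zero.2 (Finset.prod_ne_zero_iff.2 fun p hp => ?_)
    unfold small at hp
    exact (Finset.mem_filter.1 hp).2.ne_zero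
  have h2 : (2 : ℕ) ^ (2 ^ (2 * D + n')) ≤ 2 ^ (2 ^ (2 * D + n') * (16 * (2 * D) + 6)) :=
    Nat.pow_le_pow_right (by norm_num) (Nat.le_mul_of_pos_right _ (by omega))
  calc (2 : ℕ) ^ (2 ^ (2 * D + n')) ≤ 1 * 2 ^ (2 ^ (2 * D + n') * (16 * (2 * D) + 6)) := by
        rw [one_mul]; exact h2
    _ ≤ _ := Nat.mul_le_mul_right _ h1

theorem cm_S0_small (F : Fam ι D) (B0 M T : ℕ) : ∀ᶠ n : ℕ in atTop,
    ∀ (n' : ℕ) (P : Finset ℕ), Par F B0 M n n' P →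
    ((z0 D n' : ℕ) : ℝ) ≤ (n : ℝ) ^ (1 / 1000 : ℝ) ∧ T ≤ z0 D n' ∧ z0 D n' + 1 ≤ n ∧ 3 ≤ n ∧
      F.N0 ≤ n ∧ 1 ≤ z0 D n' := by
  filter_upwards [eventually_ge_atTop (T ^ B0 + 4), eventually_ge_atTop F.N0] with n hn hN0 n' P hp
  have hn4 : 4 ≤ n := by omega
  have hn4' : (4 : ℝ) ≤ n := by exact_mod_cast hn4
  have hz1 : 1 ≤ z0 D n' := by unfold z0; exact Nat.one_le_two_pow
  have hlz := cm_S0_z_le_lev D n'
  have hl1 : (1 : ℝ) ≤ (lev (2 * D) n' : ℝ) := by exact_mod_cast le_trans hz1 hlz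
  have h1 : ((z0 D n' : ℕ) : ℝ) ≤ (n : ℝ) ^ (1 / 1000 : ℝ) := by
    calc ((z0 D n' : ℕ) : ℝ) ≤ (lev (2 * D) n' : ℝ) := by exact_mod_cast hlz
      _ ≤ (lev (2 * D) n' : ℝ) ^ 3 := le_self_pow₀ hl1 (by norm_num)
      _ ≤ _ := hp.hlev
  refine ⟨h1, ?_, ?_, by omega, hN0, hz1⟩
  · by_contra hcon
    push Not at hcon
    have h2 := Nat.pow_le_pow_left hcon.le B0
    have h3 := hp.hzB
    omega
  · have h2 : (n : ℝ) ^ (1 / 1000 : ℝ) ≤ (n : ℝ) ^ (1 / 2 : ℝ) :=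
      Real.rpow_le_rpow_of_exponent_le (by linarith) (by norm_num)
    rw [← Real.sqrt_eq_rpow] at h2
    have h3 : Real.sqrt n ≤ n / 2 := by
      rw [Real.sqrt_le_left (by positivity)]
      nlinarith
    have h4 : ((z0 D n' : ℕ) : ℝ) + 1 ≤ n := by linarith
    exact_mod_cast h4

/-- Positivity of the quadratic form. -/
theorem cm_S0_qf {P : Finset ℕ} (g : (PJf P → Option ι) → ℝ)
    (h : ∀ p ∈ P, Fintype.card ι + 1 ≤ p) : 0 ≤ qf g := by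
  have hx : ∀ j : PJf P, 0 ≤ (1 / (((j : ℕ) : ℝ) - 1)) ∧
      (Fintype.card ι : ℝ) * (1 / (((j : ℕ) : ℝ) - 1)) ≤ 1 := by
    intro j
    have h1 : ((Fintype.card ι : ℝ) + 1) ≤ ((j : ℕ) : ℝ) := by exact_mod_cast h j j.2
    have h0 : (0 : ℝ) ≤ (Fintype.card ι : ℝ) := Nat.cast_nonneg _
    refine ⟨one_div_nonneg.2 (by linarith), ?_⟩
    rcases eq_or_lt_of_le (show (0 : ℝ) ≤ ((j : ℕ) : ℝ) - 1 by linarith) with h2 | h2
    · rw [← h2]; simp
    · rw [mul_one_div, div_le_one h2]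
      linarith
  have h1 := (bil_bounds (fun j : PJf P => 1 / (((j : ℕ) : ℝ) - 1)) hx g).1
  refine le_trans (Finset.sum_nonneg fun u _ => ?_) h1
  refine mul_nonneg (sq_nonneg _) (Finset.prod_nonneg fun j _ => ?_)
  rcases u j with _ | l
  · simp [wt]
  · simp only [wt]
    exact mul_nonneg (hx j).1 (by linarith [(hx j).2])

theorem cm_S0_kap_pos (z : ℕ) : 0 < kapD z := by
  unfold kapD
  refine Finset.prod_pos fun p hp => ?_
  have h1 : 2 ≤ p := (Finset.mem_filter.1 hp).2.two_le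
  have h2 : (2 : ℝ) ≤ p := by exact_mod_cast h1
  have h3 : 1 / (p : ℝ) ≤ 1 / 2 := one_div_le_one_div_of_le (by norm_num) h2
  linarith

/-- The facts about the densities. -/
theorem cm_S0_facts (hdns : L.R_dns) (hP : L.R_P) (F : Fam ι D) (hD : 1 ≤ D) (B0 M : ℕ)
    (hB0 : 1 ≤ B0) : ∀ᶠ n : ℕ in atTop, ∀ (n' : ℕ) (P : Finset ℕ), Par F B0 M n n' P →
    (∀ l, W (F.rd n (z0 D n') l) (PK (2 * D) n') / (Nat.totient (F.u l).natAbs : ℝ) =
      F.V n n' / (kapD (z0 D n') * |(F.u l : ℝ)|)) ∧ 0 ≤ F.V n n' ∧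
    (∀ l Fp Fm, Pre D n' Fp Fm → 0 ≤ W (F.rd n (z0 D n') l) (PK (2 * D) n') ∧
      W (F.rd n (z0 D n') l) (PK (2 * D) n') ≤ Fp (F.rd n (z0 D n') l) ∧
      Fp (F.rd n (z0 D n') l) ≤ (1 + 1 / 1000) * W (F.rd n (z0 D n') l) (PK (2 * D) n') ∧
      (1 - 1 / 1000) * W (F.rd n (z0 D n') l) (PK (2 * D) n') ≤ Fm (F.rd n (z0 D n') l) ∧
      Fm (F.rd n (z0 D n') l) ≤ W (F.rd n (z0 D n') l) (PK (2 * D) n')) ∧
    ∀ g : (PJf P → Option ι) → ℝ, 0 ≤ qf g := by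
  filter_upwards [cm_S0_small F B0 M (Fintype.card ι), hP ι D F B0 hB0] with n h1 h2 n' P hp
  obtain ⟨ha, hb, hc, hd, he, hf⟩ := h1 n' P hp
  obtain ⟨k1, -, -⟩ := h2 (z0 D n') 0 hp.hzB
  obtain ⟨-, -, -, m4, m5, m6⟩ := hdns ι D F hD n n' he k1
  refine ⟨m5, m6, ?_, ?_⟩
  · intro l Fp Fm hpre
    have hd := m4 l
    set ρ' : ℕ → ℝ := fun p => if p.Prime ∧ p ≤ z0 D n' then F.rd n (z0 D n') l p else 0 with hρ'
    have hcg : ∀ p ∈ PK (2 * D) n', F.rd n (z0 D n') l p = ρ' p := by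
      intro p hp'
      have h3 : p.Prime ∧ p ≤ z0 D n' := mem_PK.1 hp'
      simp only [hρ']
      rw [if_pos h3]
    have hb0 : ∀ p ∈ PK (2 * D) n', 0 ≤ ρ' p ∧ ρ' p ≤ 1 := by
      intro p hp'
      refine ⟨hd.nonneg p, (hd.lt p (mem_PK.1 hp').1).trans ?_⟩
      have : (0 : ℝ) ≤ 1 / p := by positivity
      linarith
    rw [cm_S0_congr hpre.rp hcg, cm_S0_congr hpre.rm hcg, cm_S0_W_congr hcg]
    obtain ⟨e1, e2⟩ := hpre.pt ρ' hb0
    obtain ⟨e3, e4⟩ := hpre.mt ρ' hd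
    refine ⟨?_, e2, e3, e4, e1⟩
    unfold W
    exact Finset.prod_nonneg fun p hp' => by linarith [(hb0 p hp').2]
  · intro g
    refine cm_S0_qf g fun p hp' => ?_
    have := (hp.hP p hp').2.1
    omega

/-- The general expansion over the integers `x`. -/
theorem cm_S0_seq (happ : R_app) (hcnv : R_cnv) [Nonempty ι] (F : Fam ι D) (B0 M B A : ℕ)
    (hD : 1 ≤ D) (hB0 : 1 ≤ B0) (hM : 1 ≤ M) (l : Option ι) (a : ℕ → ℕ → ℝ) (N : ℕ → ℕ)
    (h0 : ∀ n, a n 0 = 0)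
    (h1 : ∀ᶠ n : ℕ in atTop, ∀ x : ℤ, a n (F.L n l x).toNat ≠ 0 →
      0 < x ∧ x < n ∧ (F.L n l x).toNat ≤ N n)
    (h2 : ∀ᶠ n : ℕ in atTop, 0 ≤ sT (a n) (N n) ∧ sT (a n) (N n) ≤ n * Real.log n)
    (h3 : ∀ b A' : ℕ, ∀ᶠ n : ℕ in atTop, ∀ c : ℕ → ℕ,
      (∀ q, (c q).Coprime ((F.u l).natAbs * q)) →
      ∑ q ∈ (Icc 1 ⌊(n : ℝ) ^ (4995 / 10000 : ℝ)⌋₊).filter Squarefree,
        (b : ℝ) ^ q.primeFactors.card *
        er (a n) (N n) ((F.u l).natAbs * q) (c q) ≤ n / (Real.log n) ^ A') :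
    ∀ᶠ n : ℕ in atTop, ∀ (n' : ℕ) (P : Finset ℕ), Par F B0 M n n' P →
    ∀ (l' : Option ι) (y : ℕ) (Ff : (ℕ → ℝ) → ℝ),
    (l ≠ l' ∨ y ≤ z0 D n' + 1) → y ≤ n →
    RepC (PK (2 * D) n' ∪ Pr (z0 D n' + 1) y)
      (fun T => ∏ p ∈ T, (p : ℝ) ≤ (n : ℝ) ^ (4974 / 10000 : ℝ)) Ff →
    ∀ g : (PJf P → Option ι) → ℝ, Wts B (yM M n) l l' g →
    |∑ x ∈ Ioo 0 n, a n (F.L n l x).toNat *
        (Ff (F.ri n (z0 D n') l l' x) * ZI (DF F n P) g x ^ 2) -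
      sT (a n) (N n) / (Nat.totient (F.u l).natAbs : ℝ) * Ff (F.rd n (z0 D n') l) * qf g| ≤
    n / (Real.log n) ^ A := by
  obtain ⟨b, A', happ⟩ := happ ι D F B0 M B A hD hB0 hM
  filter_upwards [happ, h1, h2, h3 b A'] with n happ h1 h2 h3 n' P hp l' y Ff hl hy hF g hg
  have key := happ n' P hp l l' y Ff hl hy hF (a n) (N n) h2.1 h2.2 h3 g hg
  have hc := hcnv (F.u l) (F.v n l) n (N n) (a n)
    (fun x => Ff (F.ri n (z0 D n') l l' x) * ZI (DF F n P) g x ^ 2) (F.hu l) (h0 n) h1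
  simp only [mul_assoc] at key hc ⊢
  rw [hc] at key
  exact key

/-- `c * n ≤ n log n`. -/
theorem cm_S0_log (c : ℝ) : ∀ᶠ n : ℕ in atTop, 1 ≤ Real.log n ∧ c * n ≤ n * Real.log n := by
  have h1 : ∀ᶠ n : ℕ in atTop, max c 1 ≤ Real.log n :=
    (Real.tendsto_log_atTop.comp tendsto_natCast_atTop_atTop).eventually_ge_atTop _
  filter_upwards [h1] with n hn
  refine ⟨(le_max_right _ _).trans hn, ?_⟩
  rw [mul_comm c]
  exact mul_le_mul_of_nonneg_left ((le_max_left _ _).trans hn) (Nat.cast_nonneg _)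

/-- Location of the points. -/
theorem cm_S0_loc {F : Fam ι D} {n : ℕ} {l : Option ι}
    (hw : ∀ (l : Option ι) (x : ℤ), 0 < F.L n l x → F.wi n l (F.L n l x).toNat ≠ 0 →
      0 < x ∧ x < n ∧ ∀ l', F.X n l' / 3 ≤ F.L n l' x ∧ (F.L n l' x : ℝ) ≤ 3 * F.X n l')
    {x : ℤ} (h0 : (F.L n l x).toNat ≠ 0) (h1 : F.wi n l (F.L n l x).toNat ≠ 0) :
    0 < x ∧ x < n ∧ (F.L n l x).toNat ≤ F.NX n l := by
  have hpos : 0 < F.L n l x := by omega
  obtain ⟨e1, e2, e3⟩ := hw l x hpos h1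
  refine ⟨e1, e2, ?_⟩
  unfold Fam.NX
  refine Nat.le_floor ?_
  have e4 := (e3 l).2
  have e5 : (((F.L n l x).toNat : ℕ) : ℝ) = (F.L n l x : ℝ) := by
    have : (((F.L n l x).toNat : ℕ) : ℤ) = F.L n l x := Int.toNat_of_nonneg hpos.le
    exact_mod_cast congrArg (fun t : ℤ => (t : ℝ)) this
  rw [e5]
  exact e4

theorem cm_S0_cv_zero (α : ℕ → ℝ) : cv α 0 = 0 := by
  simp [cv]

/-- The expansion for the form `none`. -/
theorem cm_S0_seq0 (happ : R_app) (hcnv : R_cnv) (hmass : L.R_mass) (hbv : L.R_bvF)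
    (hwin : L.R_win) [Nonempty ι] (F : Fam ι D) (B0 M B A : ℕ)
    (hD : 1 ≤ D) (hB0 : 1 ≤ B0) (hM : 1 ≤ M) :
    ∀ᶠ n : ℕ in atTop, ∀ (n' : ℕ) (P : Finset ℕ), Par F B0 M n n' P →
    ∀ (l' : Option ι) (y : ℕ) (Ff : (ℕ → ℝ) → ℝ),
    (none ≠ l' ∨ y ≤ z0 D n' + 1) → y ≤ n →
    RepC (PK (2 * D) n' ∪ Pr (z0 D n' + 1) y)
      (fun T => ∏ p ∈ T, (p : ℝ) ≤ (n : ℝ) ^ (4974 / 10000 : ℝ)) Ff →
    ∀ g : (PJf P → Option ι) → ℝ, Wts B (yM M n) none l' g →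
    |∑ x ∈ Ioo 0 n, F.a0 n (F.L n none x).toNat *
        (Ff (F.ri n (z0 D n') none l' x) * ZI (DF F n P) g x ^ 2) -
      sT (F.a0 n) (F.NX n none) / (Nat.totient (F.u none).natAbs : ℝ) *
        Ff (F.rd n (z0 D n') none) * qf g| ≤
    n / (Real.log n) ^ A := by
  refine cm_S0_seq happ hcnv F B0 M B A hD hB0 hM none (F.a0) (fun n => F.NX n none) ?_ ?_ ?_ ?_
  · intro n
    simp [Fam.a0, thP]
  · filter_upwards [(hwin ι D F).2] with n hn x hx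
    unfold Fam.a0 at hx
    have h1 : thP (F.L n none x).toNat ≠ 0 := left_ne_zero_of_mul hx
    have h2 : F.wi n none (F.L n none x).toNat ≠ 0 := right_ne_zero_of_mul hx
    have h3 : (F.L n none x).toNat ≠ 0 := by
      intro h
      apply h1
      rw [h]
      simp [thP]
    exact cm_S0_loc hn.2.1 h3 h2
  · filter_upwards [hmass ι D F 1 le_rfl, cm_S0_log (1002 / 1000 * (F.hw * |(F.u none : ℝ)|))]
      with n hn hlog
    have hpos : 0 ≤ F.hw * n * |(F.u none : ℝ)| := by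
      have := F.hhw
      positivity
    refine ⟨by linarith [hn.1], hn.2.1.trans (le_trans (le_of_eq ?_) hlog.2)⟩
    ring
  · intro b A'
    filter_upwards [hbv ι D F 1 b A' le_rfl] with n hn c hc
    exact (hn c).1 hc

/-- The expansion for the forms `some i`. -/
theorem cm_S0_seq3 (happ : R_app) (hcnv : R_cnv) (hmass : L.R_mass) (hbv : L.R_bvF)
    (hwin : L.R_win) [Nonempty ι] (F : Fam ι D) (C B0 M B A : ℕ) (hC : 1 ≤ C)
    (hD : 1 ≤ D) (hB0 : 1 ≤ B0) (hM : 1 ≤ M) :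
    ∀ᶠ n : ℕ in atTop, ∀ i : ι, ∀ (n' : ℕ) (P : Finset ℕ), Par F B0 M n n' P →
    ∀ (l' : Option ι) (y : ℕ) (Ff : (ℕ → ℝ) → ℝ),
    (some i ≠ l' ∨ y ≤ z0 D n' + 1) → y ≤ n →
    RepC (PK (2 * D) n' ∪ Pr (z0 D n' + 1) y)
      (fun T => ∏ p ∈ T, (p : ℝ) ≤ (n : ℝ) ^ (4974 / 10000 : ℝ)) Ff →
    ∀ g : (PJf P → Option ι) → ℝ, Wts B (yM M n) (some i) l' g →
    |∑ x ∈ Ioo 0 n, F.a3 C n i (F.L n (some i) x).toNat *
        (Ff (F.ri n (z0 D n') (some i) l' x) * ZI (DF F n P) g x ^ 2) -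
      sT (F.a3 C n i) (F.NX n (some i)) / (Nat.totient (F.u (some i)).natAbs : ℝ) *
        Ff (F.rd n (z0 D n') (some i)) * qf g| ≤
    n / (Real.log n) ^ A := by
  rw [eventually_all]
  intro i
  refine cm_S0_seq happ hcnv F B0 M B A hD hB0 hM (some i) (fun n => F.a3 C n i)
    (fun n => F.NX n (some i)) ?_ ?_ ?_ ?_
  · intro n
    simp [Fam.a3, cm_S0_cv_zero]
  · filter_upwards [(hwin ι D F).2] with n hn x hx
    unfold Fam.a3 at hx
    have h1 : cv (al C n) (F.L n (some i) x).toNat ≠ 0 := left_ne_zero_of_mul hx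
    have h2 : F.wi n (some i) (F.L n (some i) x).toNat ≠ 0 := right_ne_zero_of_mul hx
    have h3 : (F.L n (some i) x).toNat ≠ 0 := by
      intro h
      apply h1
      rw [h, cm_S0_cv_zero]
    exact cm_S0_loc hn.2.1 h3 h2
  · filter_upwards [hmass ι D F C hC, cm_S0_log (583 / 1000 * (F.hw * |(F.u (some i) : ℝ)|))]
      with n hn hlog
    have hpos : 0 ≤ F.hw * n * |(F.u (some i) : ℝ)| := by
      have := F.hhw
      positivity
    refine ⟨(hn.2.2 i).1, (hn.2.2 i).2.trans ((div_le_self (by positivity) hlog.1).trans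
      (le_trans (le_of_eq ?_) hlog.2))⟩
    ring
  · intro b A'
    filter_upwards [hbv ι D F C b A' hC] with n hn c hc
    exact (hn c).2 i hc

theorem p_S0 : S_S0 := by
  intro happ hcnv hdns hmass hbv hwin hP ι _ _ _ D F B0 M B A hD hB0 hM
  filter_upwards [cm_S0_seq0 happ hcnv hmass hbv hwin F B0 M B A hD hB0 hM,
    cm_S0_small F B0 M 0, cm_S0_facts hdns hP F hD B0 M hB0, hmass ι D F 1 le_rfl]
    with n hseq hsm hfa hma n' P hp Fp Fm hpre g hg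
  obtain ⟨ha, -, hc, hd, -, hf⟩ := hsm n' P hp
  obtain ⟨f1, f2, f3, f4⟩ := hfa n' P hp
  obtain ⟨g0, g1, g2, g3, g4⟩ := f3 none Fp Fm hpre
  have hn1 : (1 : ℝ) ≤ n := by
    have : 1 ≤ n := by omega
    exact_mod_cast this
  have hrep : RepC (PK (2 * D) n' ∪ Pr (z0 D n' + 1) (z0 D n' + 1))
      (fun T => ∏ p ∈ T, (p : ℝ) ≤ (n : ℝ) ^ (4974 / 10000 : ℝ)) Fp := by
    have hemp : Pr (z0 D n' + 1) (z0 D n' + 1) = ∅ := by
      unfold Pr
      rw [Finset.filter_eq_empty_iff]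
      intro p hp' h
      rw [Finset.mem_range] at hp'
      omega
    rw [hemp, Finset.union_empty]
    obtain ⟨c, c1, c2, c3⟩ := hpre.rp
    refine ⟨c, c1, fun T => (c2 T).trans (by norm_num), fun T hT h => ?_⟩
    have h5 := c3 T hT h
    calc (∏ p ∈ T, (p : ℝ)) = ((∏ p ∈ T, p : ℕ) : ℝ) := by push_cast; rfl
      _ ≤ ((lev (2 * D) n' ^ 3 : ℕ) : ℝ) := by exact_mod_cast h5
      _ = (lev (2 * D) n' : ℝ) ^ 3 := by push_cast; rfl
      _ ≤ (n : ℝ) ^ (1 / 1000 : ℝ) := hp.hlev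
      _ ≤ _ := Real.rpow_le_rpow_of_exponent_le hn1 (by norm_num)
  have key := hseq n' P hp none (z0 D n' + 1) Fp (Or.inr le_rfl) hc hrep g hg
  have key2 := (abs_le.1 key).2
  have hq := f4 g
  have hkap := cm_S0_kap_pos (z0 D n')
  have hu : 0 < |(F.u none : ℝ)| := abs_pos.2 (by exact_mod_cast F.hu none)
  have hsT0 : 0 ≤ sT (F.a0 n) (F.NX n none) := by
    have hpos : 0 ≤ F.hw * n * |(F.u none : ℝ)| := by
      have := F.hhw
      positivity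
    linarith [hma.1]
  have hphi : (0 : ℝ) ≤ (Nat.totient (F.u none).natAbs : ℝ) := Nat.cast_nonneg _
  have hmain : sT (F.a0 n) (F.NX n none) / (Nat.totient (F.u none).natAbs : ℝ) *
        Fp (F.rd n (z0 D n') none) * qf g ≤
      101 / 100 * (F.hw * n * (F.V n n' / kapD (z0 D n'))) * qf g := by
    refine mul_le_mul_of_nonneg_right ?_ hq
    calc sT (F.a0 n) (F.NX n none) / (Nat.totient (F.u none).natAbs : ℝ) *
          Fp (F.rd n (z0 D n') none)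
        ≤ sT (F.a0 n) (F.NX n none) / (Nat.totient (F.u none).natAbs : ℝ) *
          ((1 + 1 / 1000) * W (F.rd n (z0 D n') none) (PK (2 * D) n')) :=
          mul_le_mul_of_nonneg_left g2 (div_nonneg hsT0 hphi)
      _ = (1 + 1 / 1000) * sT (F.a0 n) (F.NX n none) *
          (W (F.rd n (z0 D n') none) (PK (2 * D) n') /
            (Nat.totient (F.u none).natAbs : ℝ)) := by ring
      _ = (1 + 1 / 1000) * sT (F.a0 n) (F.NX n none) *
          (F.V n n' / (kapD (z0 D n') * |(F.u none : ℝ)|)) := by rw [f1 none]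
      _ ≤ (1 + 1 / 1000) * (1002 / 1000 * (F.hw * n * |(F.u none : ℝ)|)) *
          (F.V n n' / (kapD (z0 D n') * |(F.u none : ℝ)|)) := by
          refine mul_le_mul_of_nonneg_right ?_ (by positivity)
          exact mul_le_mul_of_nonneg_left hma.2.1 (by norm_num)
      _ = (1001 / 1000 * (1002 / 1000)) * (F.hw * n * (F.V n n' / kapD (z0 D n'))) := by
          field_simp
          ring
      _ ≤ 101 / 100 * (F.hw * n * (F.V n n' / kapD (z0 D n'))) := by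
          refine mul_le_mul_of_nonneg_right (by norm_num) ?_
          have := F.hhw
          positivity
  linarith

end Pool.Agent.CM.F
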