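import Pool.Agent.Lib.MP_0da313_nt.CM.B

set_option autoImplicit false

/-!
Project CM, piece SCA: small conductors for the sequences `cv α`.
-/

namespace Pool.Agent.CM.B

open Finset Filter
open Pool.Agent.MP89da58 (tri primChars)

private theorem cm_SCA_mono {a b : ℝ} (h : |b| ≤ |a|) : tri a ≤ tri b := by
  unfold tri
  exact max_le_max le_rfl (by linarith)

private theorem cm_SCA_nonneg (a : ℝ) : 0 ≤ tri a := le_max_left _ _

private theorem cm_SCA_le_one (a : ℝ) : tri a ≤ 1 := by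
  unfold tri
  exact max_le (by norm_num) (by linarith [abs_nonneg a])

private theorem cm_SCA_up (c X : ℝ) (hc : 0 ≤ c) (d n : ℕ) (hd : 1 ≤ d) (hn : 1 ≤ n)
    (h : ((d * (n + 1) : ℕ) : ℝ) ≤ X) :
    tri (c * Real.log (((d * n : ℕ) : ℝ) / X)) ≤ tri (c * Real.log (((d * (n + 1) : ℕ) : ℝ) / X)) := by
  have h0 : (0 : ℝ) < ((d * n : ℕ) : ℝ) := by
    have : 0 < d * n := Nat.mul_pos hd hn
    exact_mod_cast this
  have h1 : ((d * n : ℕ) : ℝ) ≤ ((d * (n + 1) : ℕ) : ℝ) := by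
    exact_mod_cast Nat.mul_le_mul_left d (Nat.le_succ n)
  have hX : 0 < X := lt_of_lt_of_le (lt_of_lt_of_le h0 h1) h
  have e1 : Real.log (((d * n : ℕ) : ℝ) / X) ≤ Real.log (((d * (n + 1) : ℕ) : ℝ) / X) :=
    Real.log_le_log (div_pos h0 hX) (div_le_div_of_nonneg_right h1 hX.le)
  have e2 : Real.log (((d * (n + 1) : ℕ) : ℝ) / X) ≤ 0 :=
    Real.log_nonpos (div_nonneg (h0.le.trans h1) hX.le) ((div_le_one hX).2 h)
  apply cm_SCA_mono
  rw [abs_mul, abs_mul, abs_of_nonneg hc, abs_of_nonpos e2, abs_of_nonpos (e1.trans e2)]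
  exact mul_le_mul_of_nonneg_left (by linarith) hc

private theorem cm_SCA_down (c X : ℝ) (hc : 0 ≤ c) (hX : 0 < X) (d n : ℕ)
    (h : X < ((d * n : ℕ) : ℝ)) :
    tri (c * Real.log (((d * (n + 1) : ℕ) : ℝ) / X)) ≤ tri (c * Real.log (((d * n : ℕ) : ℝ) / X)) := by
  have h0 : (0 : ℝ) < ((d * n : ℕ) : ℝ) := hX.trans h
  have h1 : ((d * n : ℕ) : ℝ) ≤ ((d * (n + 1) : ℕ) : ℝ) := by
    exact_mod_cast Nat.mul_le_mul_left d (Nat.le_succ n)
  have e1 : Real.log (((d * n : ℕ) : ℝ) / X) ≤ Real.log (((d * (n + 1) : ℕ) : ℝ) / X) :=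
    Real.log_le_log (div_pos h0 hX) (div_le_div_of_nonneg_right h1 hX.le)
  have e2 : 0 ≤ Real.log (((d * n : ℕ) : ℝ) / X) :=
    Real.log_nonneg ((one_le_div hX).2 h.le)
  apply cm_SCA_mono
  rw [abs_mul, abs_mul, abs_of_nonneg hc, abs_of_nonneg e2, abs_of_nonneg (e2.trans e1)]
  exact mul_le_mul_of_nonneg_left e1 hc

/-- the variation of the window -/
private theorem cm_SCA_var (c X : ℝ) (hc : 0 ≤ c) (hX : 0 < X) (d : ℕ) (hd : 1 ≤ d) (g : ℕ → ℝ)
    (hg : ∀ n, g n = tri (c * Real.log (((d * n : ℕ) : ℝ) / X))) (N : ℕ) (hN : 1 ≤ N) :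
    (((d * N : ℕ) : ℝ) ≤ X → ∑ n ∈ Ico 1 N, |g n - g (n + 1)| ≤ g N) ∧
      (X < ((d * N : ℕ) : ℝ) → ∑ n ∈ Ico 1 N, |g n - g (n + 1)| + g N ≤ 3) := by
  have g0 : ∀ n, 0 ≤ g n := fun n => by rw [hg]; exact cm_SCA_nonneg _
  have g1 : ∀ n, g n ≤ 1 := fun n => by rw [hg]; exact cm_SCA_le_one _
  induction N, hN using Nat.le_induction with
  | base =>
    rw [Ico_self, sum_empty]
    exact ⟨fun _ => g0 1, fun _ => by linarith [g1 1]⟩
  | succ N hN ih =>
    rw [sum_Ico_succ_top hN]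
    have hle : ((d * N : ℕ) : ℝ) ≤ ((d * (N + 1) : ℕ) : ℝ) := by
      exact_mod_cast Nat.mul_le_mul_left d (Nat.le_succ N)
    refine ⟨fun h => ?_, fun h => ?_⟩
    · have hm : g N ≤ g (N + 1) := by
        rw [hg, hg]
        exact cm_SCA_up c X hc d N hd hN h
      have := ih.1 (hle.trans h)
      rw [abs_of_nonpos (by linarith)]
      linarith
    · rcases le_or_gt ((d * N : ℕ) : ℝ) X with h2 | h2
      · have h3 := ih.1 h2
        have h4 : |g N - g (N + 1)| ≤ 1 := by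
          rw [abs_le]
          constructor
          · linarith [g0 N, g1 (N + 1)]
          · linarith [g1 N, g0 (N + 1)]
        linarith [g1 N, g1 (N + 1)]
      · have hm : g (N + 1) ≤ g N := by
          rw [hg, hg]
          exact cm_SCA_down c X hc hX d N h2
        have := ih.2 h2
        rw [abs_of_nonneg (by linarith)]
        linarith

private theorem cm_SCA_var' (c X : ℝ) (hc : 0 ≤ c) (hX : 0 < X) (d : ℕ) (hd : 1 ≤ d) (g : ℕ → ℝ)
    (hg : ∀ n, g n = tri (c * Real.log (((d * n : ℕ) : ℝ) / X))) (N : ℕ) (hN : 1 ≤ N) :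
    ∑ n ∈ Ico 1 N, |g n - g (n + 1)| + g N ≤ 3 := by
  have h := cm_SCA_var c X hc hX d hd g hg N hN
  have g1 : g N ≤ 1 := by rw [hg]; exact cm_SCA_le_one _
  rcases le_or_gt ((d * N : ℕ) : ℝ) X with h2 | h2
  · linarith [h.1 h2]
  · exact h.2 h2

/-- Abel summation -/
private theorem cm_SCA_abel (x : ℕ → ℂ) (g : ℕ → ℝ) (N : ℕ) :
    ∑ n ∈ Icc 1 N, x n * (g n : ℂ) =
      (∑ m ∈ Icc 1 N, x m) * (g N : ℂ) +
        ∑ n ∈ range N, (∑ m ∈ Icc 1 n, x m) * ((g n - g (n + 1) : ℝ) : ℂ) := by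
  induction N with
  | zero => simp
  | succ N ih =>
    rw [sum_Icc_succ_top (by omega), ih, sum_Icc_succ_top (by omega), sum_range_succ]
    push_cast
    ring

private theorem cm_SCA_abel_le (x : ℕ → ℂ) (g : ℕ → ℝ) (r : ℝ) (N : ℕ) (hN : 1 ≤ N)
    (hx : ∀ n ≤ N, ‖∑ m ∈ Icc 1 n, x m‖ ≤ r) :
    ‖∑ n ∈ Icc 1 N, x n * (g n : ℂ)‖ ≤
      r * (∑ n ∈ Ico 1 N, |g n - g (n + 1)| + |g N|) := by
  rw [cm_SCA_abel]
  refine (norm_add_le _ _).trans ?_
  have h1 : ‖(∑ m ∈ Icc 1 N, x m) * (g N : ℂ)‖ ≤ r * |g N| := by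
    rw [norm_mul, Complex.norm_real, Real.norm_eq_abs]
    exact mul_le_mul_of_nonneg_right (hx N le_rfl) (abs_nonneg _)
  have h2 : ‖∑ n ∈ range N, (∑ m ∈ Icc 1 n, x m) * ((g n - g (n + 1) : ℝ) : ℂ)‖ ≤
      r * ∑ n ∈ Ico 1 N, |g n - g (n + 1)| := by
    rw [range_eq_Ico, sum_eq_sum_Ico_succ_bot (by omega), mul_sum]
    simp only [Icc_eq_empty_of_lt Nat.zero_lt_one, sum_empty, zero_mul, zero_add]
    refine (norm_sum_le _ _).trans (sum_le_sum fun n hn => ?_)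
    rw [norm_mul, Complex.norm_real, Real.norm_eq_abs]
    rw [mem_Ico] at hn
    exact mul_le_mul_of_nonneg_right (hx n hn.2.le) (abs_nonneg _)
  linarith

/-- The inner sum over the primes. -/
private theorem cm_SCA_inner (lam X : ℝ) (hlam : 0 ≤ lam) (hX : 0 < X) (k N s : ℕ) (hk : 1 ≤ k)
    (hs : 1 ≤ s) {r : ℕ} (χ : DirichletCharacter ℂ r) (T : ℝ) (hT : 0 ≤ T)
    (hP : ∀ n ≤ N, ‖∑ m ∈ Icc 1 n, (if m.Prime then χ (m : ZMod r) else 0)‖ ≤ T) :
    ‖∑ m ∈ Icc 1 N, (if m.Coprime s ∧ m.Prime then χ (m : ZMod r) * (wd lam X (k * m) : ℂ) else 0)‖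
      ≤ 3 * T + s.primeFactors.card := by
  have g0 : ∀ n, 0 ≤ wd lam X (k * n) := fun n => cm_SCA_nonneg _
  have g1 : ∀ n, wd lam X (k * n) ≤ 1 := fun n => cm_SCA_le_one _
  rcases Nat.eq_zero_or_pos N with rfl | hN
  · simp only [Icc_eq_empty_of_lt Nat.zero_lt_one, sum_empty, norm_zero]
    positivity
  have e : ∑ m ∈ Icc 1 N, (if m.Coprime s ∧ m.Prime then
        χ (m : ZMod r) * (wd lam X (k * m) : ℂ) else 0) =
      ∑ m ∈ Icc 1 N, (if m.Prime then χ (m : ZMod r) else 0) * (wd lam X (k * m) : ℂ) -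
      ∑ m ∈ Icc 1 N, (if ¬ m.Coprime s ∧ m.Prime then
        χ (m : ZMod r) * (wd lam X (k * m) : ℂ) else 0) := by
    rw [← sum_sub_distrib]
    refine sum_congr rfl fun m _ => ?_
    by_cases h1 : m.Prime <;> by_cases h2 : m.Coprime s <;> simp [h1, h2]
  rw [e]
  refine (norm_sub_le _ _).trans (add_le_add ?_ ?_)
  · have h := cm_SCA_abel_le (fun m => if m.Prime then χ (m : ZMod r) else 0)
      (fun m => wd lam X (k * m)) T N hN hP
    have hV := cm_SCA_var' lam X hlam hX k hk (fun m => wd lam X (k * m)) (fun n => rfl) N hN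
    rw [abs_of_nonneg (g0 N)] at h
    calc _ ≤ _ := h
      _ ≤ T * 3 := mul_le_mul_of_nonneg_left hV hT
      _ = 3 * T := by ring
  · rw [← sum_filter]
    calc _ ≤ ∑ m ∈ (Icc 1 N).filter (fun m => ¬ m.Coprime s ∧ m.Prime),
          ‖χ (m : ZMod r) * (wd lam X (k * m) : ℂ)‖ := norm_sum_le _ _
      _ ≤ ∑ m ∈ (Icc 1 N).filter (fun m => ¬ m.Coprime s ∧ m.Prime), (1 : ℝ) := by
          refine sum_le_sum fun m _ => ?_
          rw [norm_mul, Complex.norm_real, Real.norm_eq_abs, abs_of_nonneg (g0 m)]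
          exact mul_le_one₀ (DirichletCharacter.norm_le_one χ _) (g0 m) (g1 m)
      _ = (((Icc 1 N).filter (fun m => ¬ m.Coprime s ∧ m.Prime)).card : ℝ) := by simp
      _ ≤ (s.primeFactors.card : ℝ) := by
          rw [Nat.cast_le]
          refine card_le_card fun m hm => ?_
          rw [mem_filter] at hm
          rw [Nat.mem_primeFactors]
          refine ⟨hm.2.2, ?_, by omega⟩
          by_contra h
          exact hm.2.1 ((Nat.Prime.coprime_iff_not_dvd hm.2.2).2 h)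

/-- The number of prime factors. -/
private theorem cm_SCA_card (s : ℕ) (hs : 1 ≤ s) :
    (s.primeFactors.card : ℝ) ≤ 2 * Real.log s := by
  have h1 : 2 ^ s.primeFactors.card ≤ s := by
    calc 2 ^ s.primeFactors.card = ∏ _p ∈ s.primeFactors, 2 := by rw [prod_const]
      _ ≤ ∏ p ∈ s.primeFactors, p := prod_le_prod' fun p hp => (Nat.prime_of_mem_primeFactors hp).two_le
      _ ≤ s := Nat.le_of_dvd hs (Nat.prod_primeFactors_dvd s)
  have h2 : ((2 : ℝ) ^ s.primeFactors.card) ≤ s := by exact_mod_cast h1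
  have h3 : Real.log ((2 : ℝ) ^ s.primeFactors.card) ≤ Real.log s :=
    Real.log_le_log (by positivity) h2
  rw [Real.log_pow] at h3
  have h4 : (1 / 2 : ℝ) ≤ Real.log 2 := by
    have := Real.log_two_gt_d9
    linarith
  have h5 : (0 : ℝ) ≤ s.primeFactors.card := Nat.cast_nonneg _
  nlinarith

/-- The twisted sum as a double sum. -/
private theorem cm_SCA_Tw (α : ℕ → ℝ) (lam X : ℝ) (s : ℕ) {r : ℕ} (χ : DirichletCharacter ℂ r) :
    Tw (cv α) lam X s χ = ∑ k ∈ Icc 1 ⌊3 * X⌋₊, (if k.Coprime s then (α k : ℂ) * χ (k : ZMod r) else 0) *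
      ∑ m ∈ Icc 1 (⌊3 * X⌋₊ / k), (if m.Coprime s ∧ m.Prime then
        χ (m : ZMod r) * (wd lam X (k * m) : ℂ) else 0) := by
  unfold Tw
  rw [sum_filter]
  have h1 : ∀ n ∈ Icc 1 ⌊3 * X⌋₊, (if n.Coprime s then
      (cv α n : ℂ) * χ (n : ZMod r) * (wd lam X n : ℂ) else 0) =
      ∑ x ∈ n.divisorsAntidiagonal, (fun k m : ℕ => (if k.Coprime s then (α k : ℂ) * χ (k : ZMod r) else 0) *
        (if m.Coprime s ∧ m.Prime then χ (m : ZMod r) * (wd lam X (k * m) : ℂ) else 0)) x.1 x.2 := by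
    intro n hn
    have e1 : (cv α n : ℂ) = ∑ x ∈ n.divisorsAntidiagonal,
        (α x.1 : ℂ) * (if x.2.Prime then 1 else 0) := by
      rw [Nat.sum_divisorsAntidiagonal (fun k m => (α k : ℂ) * (if m.Prime then 1 else 0))]
      unfold cv
      push_cast
      refine sum_congr rfl fun k _ => ?_
      split_ifs <;> simp
    by_cases hc : n.Coprime s
    · rw [if_pos hc, e1, sum_mul, sum_mul]
      refine sum_congr rfl fun x hx => ?_
      rw [Nat.mem_divisorsAntidiagonal] at hx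
      obtain ⟨hx, _⟩ := hx
      subst hx
      have hc1 : x.1.Coprime s := Nat.Coprime.coprime_mul_right hc
      have hc2 : x.2.Coprime s := Nat.Coprime.coprime_mul_left hc
      by_cases hp : x.2.Prime
      · beta_reduce
        rw [if_pos hp, if_pos hc1, if_pos (show x.2.Coprime s ∧ x.2.Prime from ⟨hc2, hp⟩)]
        push_cast
        rw [map_mul]
        ring
      · beta_reduce
        rw [if_neg hp, if_neg (show ¬ (x.2.Coprime s ∧ x.2.Prime) from fun h => hp h.2)]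
        ring
    · rw [if_neg hc]
      symm
      refine sum_eq_zero fun x hx => ?_
      rw [Nat.mem_divisorsAntidiagonal] at hx
      obtain ⟨hx, _⟩ := hx
      subst hx
      rw [Nat.coprime_mul_iff_left, not_and_or] at hc
      rcases hc with hc | hc
      · simp only [hc, if_false, zero_mul]
      · simp only [hc, false_and, if_false, mul_zero]
  refine (sum_congr rfl h1).trans ((Pool.Agent.MP89da58.sum_dA (fun k m : ℕ =>
    (if k.Coprime s then (α k : ℂ) * χ (k : ZMod r) else 0) *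
      (if m.Coprime s ∧ m.Prime then χ (m : ZMod r) * (wd lam X (k * m) : ℂ) else 0)) _).trans ?_)
  refine sum_congr rfl fun k hk => ?_
  rw [mem_Icc] at hk
  rw [← sum_filter, mul_sum]
  refine sum_congr ?_ fun m _ => rfl
  ext m
  rw [mem_filter, mem_Icc, mem_Icc, Nat.le_div_iff_mul_le hk.1, mul_comm m k]
  constructor
  · rintro ⟨⟨h1, _⟩, h2⟩
    exact ⟨h1, h2⟩
  · rintro ⟨h1, h2⟩
    exact ⟨⟨h1, (Nat.le_mul_of_pos_left m hk.1).trans h2⟩, h2⟩

/-- For large `X`. -/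
private theorem cm_SCA_ev (A B : ℕ) (M0 : ℝ) : ∀ᶠ X : ℝ in atTop, 1 ≤ X ∧ M0 ≤ X ^ (1 / 4 : ℝ) ∧
    (4 : ℝ) ^ (B + 1) ≤ Real.log X ∧ 36 * (4 : ℝ) ^ (A + 2) ≤ Real.log X ∧
    4 * Real.log X ^ (A + 1) ≤ X ^ (1 / 4 : ℝ) := by
  have h1 : Tendsto (fun X : ℝ => X ^ (1 / 4 : ℝ)) atTop atTop :=
    tendsto_rpow_atTop (by norm_num)
  have h2 : (fun X : ℝ => Real.log X ^ (((A + 1 : ℕ) : ℝ))) =o[atTop] fun X : ℝ => X ^ (1 / 4 : ℝ) :=
    isLittleO_log_rpow_rpow_atTop _ (by norm_num)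
  have h3 := h2.bound (c := 1 / 4) (by norm_num)
  filter_upwards [eventually_ge_atTop 1, h1.eventually_ge_atTop M0,
    Real.tendsto_log_atTop.eventually_ge_atTop ((4 : ℝ) ^ (B + 1)),
    Real.tendsto_log_atTop.eventually_ge_atTop (36 * (4 : ℝ) ^ (A + 2)), h3] with X a1 a2 a3 a4 a5
  refine ⟨a1, a2, a3, a4, ?_⟩
  rw [Real.rpow_natCast, Real.norm_eq_abs, Real.norm_eq_abs,
    abs_of_nonneg (by have := Real.log_nonneg a1; positivity),
    abs_of_nonneg (by positivity)] at a5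
  linarith

theorem p_SCA : S_SCA := by
  intro hpwp lam hlam A B
  obtain ⟨C0, h0⟩ := hpwp (A + 2) (B + 1) 1 le_rfl
  rw [eventually_atTop] at h0
  obtain ⟨M0, hM0⟩ := h0
  filter_upwards [cm_SCA_ev A B M0] with X hX
  obtain ⟨hX1, hXM, hLB, hLA, hXL⟩ := hX
  rintro f ⟨α, hα, rfl⟩ s hs hsX r χ hr hrL hχ
  have hX0 : 0 < X := by linarith
  have hL1 : (1 : ℝ) ≤ Real.log X := by
    refine le_trans ?_ hLB
    exact one_le_pow₀ (by norm_num)
  have hL0 : (0 : ℝ) < Real.log X := by linarith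
  set L := Real.log X with hL
  -- the bound for one k
  have hk1 : ∀ k : ℕ, 1 ≤ k → (k : ℝ) ≤ X ^ (3 / 4 : ℝ) →
      X ^ (1 / 4 : ℝ) ≤ 3 * X / k ∧ L / 4 ≤ Real.log (3 * X / k) := by
    intro k hk hkX
    have hk0 : (0 : ℝ) < k := by exact_mod_cast hk
    have e1 : X ^ (1 / 4 : ℝ) * X ^ (3 / 4 : ℝ) = X := by
      rw [← Real.rpow_add hX0]
      norm_num
    have e2 : X ^ (1 / 4 : ℝ) ≤ 3 * X / k := by
      rw [le_div_iff₀ hk0]
      have : X ^ (1 / 4 : ℝ) * k ≤ X ^ (1 / 4 : ℝ) * X ^ (3 / 4 : ℝ) :=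
        mul_le_mul_of_nonneg_left hkX (by positivity)
      linarith
    refine ⟨e2, ?_⟩
    have e3 := Real.log_le_log (by positivity) e2
    rw [Real.log_rpow hX0] at e3
    linarith
  have hlogs : (s.primeFactors.card : ℝ) ≤ 2 * L := by
    refine (cm_SCA_card s hs).trans ?_
    have hs0 : (0 : ℝ) < s := by exact_mod_cast hs
    have : Real.log s ≤ Real.log X := by
      refine Real.log_le_log hs0 (hsX.trans ?_)
      calc X ^ (2 / 3 : ℝ) ≤ X ^ (1 : ℝ) := Real.rpow_le_rpow_of_exponent_le hX1 (by norm_num)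
        _ = X := Real.rpow_one X
    linarith
  have hterm : ∀ k ∈ Icc 1 ⌊3 * X⌋₊, ‖(if k.Coprime s then (α k : ℂ) * χ (k : ZMod r) else 0) *
      ∑ m ∈ Icc 1 (⌊3 * X⌋₊ / k), (if m.Coprime s ∧ m.Prime then
        χ (m : ZMod r) * (wd lam X (k * m) : ℂ) else 0)‖ ≤
      if (k : ℝ) ≤ X ^ (3 / 4 : ℝ) then 2 * L + 9 * (4 : ℝ) ^ (A + 2) * X / L ^ (A + 2) * (k : ℝ)⁻¹
      else 0 := by
    intro k hk
    rw [mem_Icc] at hk
    have hk0 : (0 : ℝ) < k := by exact_mod_cast hk.1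
    by_cases hα0 : α k = 0
    · have : (if k.Coprime s then (α k : ℂ) * χ (k : ZMod r) else 0) = 0 := by
        rw [hα0]
        simp
      rw [this, zero_mul, norm_zero]
      split_ifs
      · positivity
      · exact le_rfl
    · have hkX := hα.hi k hα0
      rw [if_pos hkX]
      obtain ⟨g1, g2⟩ := hk1 k hk.1 hkX
      have hM : M0 ≤ 3 * X / k := hXM.trans g1
      have hlogM : 0 < Real.log (3 * X / k) := by linarith
      have hrM : (r : ℝ) ≤ Real.log (3 * X / k) ^ (B + 1) := by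
        refine hrL.trans ?_
        calc L ^ B ≤ (L / 4) ^ (B + 1) := by
              rw [div_pow, le_div_iff₀ (by positivity), pow_succ L B]
              exact mul_le_mul_of_nonneg_left hLB (by positivity)
          _ ≤ _ := pow_le_pow_left₀ (by positivity) g2 _
      have hP : ∀ n ≤ ⌊3 * X⌋₊ / k, ‖∑ m ∈ Icc 1 n, (if m.Prime then χ (m : ZMod r) else 0)‖ ≤
          (3 * X / k) / Real.log (3 * X / k) ^ (A + 2) := by
        intro n hn
        have hnM : (n : ℝ) ≤ 3 * X / k := by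
          rw [le_div_iff₀ hk0]
          rw [Nat.le_div_iff_mul_le hk.1] at hn
          have e1 : ((n * k : ℕ) : ℝ) ≤ (⌊3 * X⌋₊ : ℝ) := by exact_mod_cast hn
          push_cast at e1
          exact e1.trans (Nat.floor_le (by positivity))
        have h := hM0 (3 * X / k) hM r χ (by omega) hrM hχ 0 (by rw [abs_zero]; positivity)
          (Or.inl hr) 0 n hnM
        have e2 : ∑ m ∈ (Ioc 0 n).filter Nat.Prime, χ (m : ZMod r) * Pool.Agent.CH.V.pz (-0) m =
            ∑ m ∈ Icc 1 n, (if m.Prime then χ (m : ZMod r) else 0) := by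
          rw [sum_filter]
          refine sum_congr (by ext m; simp [mem_Ioc, mem_Icc, Nat.succ_le_iff]) fun m _ => ?_
          have : Pool.Agent.CH.V.pz (-0) (m : ℝ) = 1 := by
            unfold Pool.Agent.CH.V.pz
            simp
          rw [this, mul_one]
        rw [e2] at h
        exact h
      have hin := cm_SCA_inner lam X (by linarith) hX0 k (⌊3 * X⌋₊ / k) s hk.1 hs χ
        ((3 * X / k) / Real.log (3 * X / k) ^ (A + 2)) (by positivity) hP
      have hco : ‖(if k.Coprime s then (α k : ℂ) * χ (k : ZMod r) else 0)‖ ≤ 1 := by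
        split_ifs
        · rw [norm_mul, Complex.norm_real, Real.norm_eq_abs, abs_of_nonneg (hα.nn k)]
          exact mul_le_one₀ (hα.le k) (norm_nonneg _) (DirichletCharacter.norm_le_one χ _)
        · simp
      rw [norm_mul]
      have hT : (3 * X / k) / Real.log (3 * X / k) ^ (A + 2) ≤
          3 * (4 : ℝ) ^ (A + 2) * X / L ^ (A + 2) * (k : ℝ)⁻¹ := by
        calc (3 * X / k) / Real.log (3 * X / k) ^ (A + 2) ≤ (3 * X / k) / (L / 4) ^ (A + 2) := by
              refine div_le_div_of_nonneg_left (by positivity) (by positivity) ?_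
              exact pow_le_pow_left₀ (by positivity) g2 _
          _ = _ := by
              rw [div_pow]
              field_simp
      calc _ ≤ 1 * (3 * ((3 * X / k) / Real.log (3 * X / k) ^ (A + 2)) + s.primeFactors.card) :=
            mul_le_mul hco hin (norm_nonneg _) zero_le_one
        _ ≤ 1 * (3 * (3 * (4 : ℝ) ^ (A + 2) * X / L ^ (A + 2) * (k : ℝ)⁻¹) + 2 * L) := by
            rw [one_mul, one_mul]
            linarith
        _ = _ := by ring
  rw [cm_SCA_Tw]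
  refine (norm_sum_le _ _).trans ((sum_le_sum hterm).trans ?_)
  rw [← sum_filter]
  have hsub : (Icc 1 ⌊3 * X⌋₊).filter (fun k : ℕ => (k : ℝ) ≤ X ^ (3 / 4 : ℝ)) ⊆
      Icc 1 ⌊X ^ (3 / 4 : ℝ)⌋₊ := by
    intro k hk
    rw [mem_filter, mem_Icc] at hk
    rw [mem_Icc]
    exact ⟨hk.1.1, Nat.le_floor hk.2⟩
  refine (sum_le_sum_of_subset_of_nonneg hsub fun k _ _ => by positivity).trans ?_
  rw [sum_add_distrib, sum_const, Nat.card_Icc, nsmul_eq_mul, ← mul_sum]
  have hK : ((⌊X ^ (3 / 4 : ℝ)⌋₊ : ℕ) : ℝ) ≤ X ^ (3 / 4 : ℝ) := Nat.floor_le (by positivity)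
  have hinv := Pool.Agent.MP89da58.sum_inv_le ⌊X ^ (3 / 4 : ℝ)⌋₊
  have hlogK : Real.log ((⌊X ^ (3 / 4 : ℝ)⌋₊ : ℕ) : ℝ) ≤ L := by
    rcases Nat.eq_zero_or_pos ⌊X ^ (3 / 4 : ℝ)⌋₊ with h | h
    · rw [h]
      simp only [Nat.cast_zero, Real.log_zero]
      exact hL0.le
    · refine Real.log_le_log (by exact_mod_cast h) (hK.trans ?_)
      calc X ^ (3 / 4 : ℝ) ≤ X ^ (1 : ℝ) := Real.rpow_le_rpow_of_exponent_le hX1 (by norm_num)
        _ = X := Real.rpow_one X
  have hX34 : X ^ (3 / 4 : ℝ) * X ^ (1 / 4 : ℝ) = X := by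
    rw [← Real.rpow_add hX0]
    norm_num
  have t1 : (((⌊X ^ (3 / 4 : ℝ)⌋₊ + 1 - 1 : ℕ) : ℕ) : ℝ) * (2 * L) ≤ X / L ^ A / 2 := by
    rw [Nat.add_sub_cancel]
    have e1 : X ^ (3 / 4 : ℝ) * (2 * L) ≤ X / L ^ A / 2 := by
      rw [div_div, le_div_iff₀ (by positivity)]
      calc X ^ (3 / 4 : ℝ) * (2 * L) * (L ^ A * 2) = X ^ (3 / 4 : ℝ) * (4 * L ^ (A + 1)) := by ring
        _ ≤ X ^ (3 / 4 : ℝ) * X ^ (1 / 4 : ℝ) := mul_le_mul_of_nonneg_left hXL (by positivity)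
        _ = X := hX34
    refine le_trans ?_ e1
    exact mul_le_mul_of_nonneg_right hK (by positivity)
  have t2 : 9 * (4 : ℝ) ^ (A + 2) * X / L ^ (A + 2) * ∑ i ∈ Icc 1 ⌊X ^ (3 / 4 : ℝ)⌋₊, (i : ℝ)⁻¹ ≤
      X / L ^ A / 2 := by
    have e1 : ∑ i ∈ Icc 1 ⌊X ^ (3 / 4 : ℝ)⌋₊, (i : ℝ)⁻¹ ≤ 2 * L := by linarith
    calc _ ≤ 9 * (4 : ℝ) ^ (A + 2) * X / L ^ (A + 2) * (2 * L) :=
          mul_le_mul_of_nonneg_left e1 (by positivity)
      _ = (36 * (4 : ℝ) ^ (A + 2)) * (X / L ^ (A + 1) / 2) := by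
          rw [pow_succ L (A + 1)]
          field_simp
          ring
      _ ≤ L * (X / L ^ (A + 1) / 2) := mul_le_mul_of_nonneg_right hLA (by positivity)
      _ = X / L ^ A / 2 := by
          rw [pow_succ L A]
          field_simp
  linarith

end Pool.Agent.CM.B
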