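import Pool.Agent.Lib.MP_0da313_nt.CM.F
import Pool.Agent.Lib.MP_0da313_nt.BV.T1c
import Pool.Agent.Lib.MP_89da58_nt.Op

set_option autoImplicit false
set_option linter.unusedSectionVars false

/-!
[CM T3] The upper bound for the switched sum.
-/

namespace Pool.Agent.CM.F

open Finset Filter Polynomial
open Pool.Agent.MP89da58 (bil pw nn supp part kapD wt bil_bounds)
open Pool.Agent.MT (PJf ZI Dl)
open Pool.Agent.BVall (om rhoW PK lev RepB Dens mem_PK)
open Pool.Agent.Lib.MP_0da313_nt (Admissible lineRestrict val singV W)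
open Pool.Agent.CH (thP)
open Pool.Agent.CH.S (th Pr gd RepC V)
open Pool.Agent.CM.W (WPk yM)

/-- the sizes of the limits -/
lemma cm_T3_lim (C : ℕ) (hC : 1 ≤ C) : ∀ᶠ n : ℕ in atTop, ∀ z : ℕ, 1 ≤ z →
    (z : ℝ) ≤ (n : ℝ) ^ (1 / 1000 : ℝ) → z + 1 ≤ kz n ∧ kz n ≤ ky C n ∧ k3 n ≤ ky C n ∧
      (k3 n : ℝ) ≤ lD n ∧ (kz n : ℝ) * ky C n < lD n ∧ ky C n ≤ n := by
  have hlog : Tendsto (fun n : ℕ => Real.log (n : ℝ)) atTop atTop :=
    Real.tendsto_log_atTop.comp tendsto_natCast_atTop_atTop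
  filter_upwards [hlog.eventually_ge_atTop (100 * (1 + Real.log C))] with n hn1
  intro z hz1 hz2
  have hC1 : (1 : ℝ) ≤ C := by exact_mod_cast hC
  have hC0 : (0 : ℝ) < C := by linarith
  have hlC : 0 ≤ Real.log C := Real.log_nonneg hC1
  set L : ℝ := Real.log n with hL
  have hL100 : 100 ≤ L := by linarith
  have hn0 : (0 : ℝ) < n := by
    rcases Nat.eq_zero_or_pos n with h | h
    · exfalso
      rw [h, Nat.cast_zero, Real.log_zero] at hL
      linarith
    · exact_mod_cast h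
  have hn1' : (1 : ℝ) ≤ n := by
    have : 0 < n := by exact_mod_cast hn0
    exact_mod_cast this
  have hlg2 := Real.log_two_lt_d9
  have hlg20 : 0 < Real.log 2 := Real.log_pos (by norm_num)
  set w : ℝ := (n : ℝ) ^ (1 / 11 : ℝ) with hw
  set w' : ℝ := (n : ℝ) ^ (91 / 550 : ℝ) with hw'
  set y : ℝ := ((C * n : ℕ) : ℝ) ^ (1 / 3 : ℝ) with hy
  have hw0 : 0 < w := Real.rpow_pos_of_pos hn0 _
  have hw'0 : 0 < w' := Real.rpow_pos_of_pos hn0 _
  have hCn : (0 : ℝ) < ((C * n : ℕ) : ℝ) := by push_cast; positivity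
  have hy0 : 0 < y := Real.rpow_pos_of_pos hCn _
  have hD0 : 0 < lD n := Real.rpow_pos_of_pos hn0 _
  have hlw : Real.log w = L / 11 := by
    rw [hw, Real.log_rpow hn0]
    ring
  have hlw' : Real.log w' = 91 / 550 * L := by
    rw [hw', Real.log_rpow hn0]
  have hly : Real.log y = (Real.log C + L) / 3 := by
    rw [hy, Real.log_rpow hCn]
    push_cast
    rw [Real.log_mul hC0.ne' hn0.ne']
    ring
  have hlD : Real.log (lD n) = 273 / 550 * L := by
    unfold lD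
    rw [Real.log_rpow hn0]
  have hx0 : 0 < (n : ℝ) ^ (1 / 1000 : ℝ) := Real.rpow_pos_of_pos hn0 _
  have hw1 : 1 ≤ w := Real.one_le_rpow hn1' (by norm_num)
  have hw'1 : 1 ≤ w' := Real.one_le_rpow hn1' (by norm_num)
  have hCn1 : (1 : ℝ) ≤ ((C * n : ℕ) : ℝ) := by
    push_cast
    nlinarith
  have hy1 : 1 ≤ y := Real.one_le_rpow hCn1 (by norm_num)
  have hcz : kz n = ⌈w⌉₊ := rfl
  have hc3 : k3 n = ⌈w'⌉₊ := rfl
  have hcy : ky C n = ⌈y⌉₊ := rfl
  have e1 : (⌈w⌉₊ : ℝ) ≤ 2 * w := by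
    have := (Nat.ceil_lt_add_one hw0.le).le
    linarith
  have e2 : (⌈w'⌉₊ : ℝ) ≤ 2 * w' := by
    have := (Nat.ceil_lt_add_one hw'0.le).le
    linarith
  have e3 : (⌈y⌉₊ : ℝ) ≤ 2 * y := by
    have := (Nat.ceil_lt_add_one hy0.le).le
    linarith
  refine ⟨?_, ?_, ?_, ?_, ?_, ?_⟩
  · have h1 : 2 * (n : ℝ) ^ (1 / 1000 : ℝ) ≤ w := by
      rw [← Real.log_le_log_iff (by positivity) hw0, hlw,
        Real.log_mul (by norm_num) hx0.ne', Real.log_rpow hn0]
      linarith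
    have h2 : (1 : ℝ) ≤ z := by exact_mod_cast hz1
    have h3 : ((z + 1 : ℕ) : ℝ) ≤ w := by
      push_cast
      linarith
    rw [hcz]
    have : ((z + 1 : ℕ) : ℝ) ≤ (⌈w⌉₊ : ℝ) := h3.trans (Nat.le_ceil w)
    exact_mod_cast this
  · rw [hcz, hcy]
    apply Nat.ceil_le_ceil
    rw [← Real.log_le_log_iff hw0 hy0, hlw, hly]
    linarith
  · rw [hc3, hcy]
    apply Nat.ceil_le_ceil
    rw [← Real.log_le_log_iff hw'0 hy0, hlw', hly]
    linarith
  · rw [hc3]
    refine e2.trans ?_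
    rw [← Real.log_le_log_iff (by positivity) hD0, hlD, Real.log_mul (by norm_num) hw'0.ne', hlw']
    linarith
  · rw [hcz, hcy]
    have h1 : (⌈w⌉₊ : ℝ) * ⌈y⌉₊ ≤ (2 * w) * (2 * y) :=
      mul_le_mul e1 e3 (Nat.cast_nonneg _) (by positivity)
    refine lt_of_le_of_lt h1 ?_
    rw [← Real.log_lt_log_iff (by positivity) hD0, hlD, Real.log_mul (by positivity) (by positivity),
      Real.log_mul (by norm_num) hw0.ne', Real.log_mul (by norm_num) hy0.ne', hlw, hly]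
    linarith
  · have h1 : (⌈y⌉₊ : ℝ) ≤ n := by
      refine e3.trans ?_
      rw [← Real.log_le_log_iff (by positivity) hn0, Real.log_mul (by norm_num) hy0.ne', hly]
      linarith
    rw [hcy]
    exact_mod_cast h1

/-- the logarithm of the end of the window -/
lemma cm_T3_log (t c : ℝ) : ∀ᶠ n : ℕ in atTop, 1 ≤ t * n + c →
    Real.log (3 * (t * n + c)) ≤ 10005 / 10000 * Real.log n := by
  have hlog : Tendsto (fun n : ℕ => Real.log (n : ℝ)) atTop atTop :=
    Real.tendsto_log_atTop.comp tendsto_natCast_atTop_atTop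
  filter_upwards [hlog.eventually_ge_atTop (2000 * Real.log (3 * (|t| + |c|) + 1)),
    eventually_ge_atTop 1] with n hn1 hn2 h1
  have hn : (1 : ℝ) ≤ n := by exact_mod_cast hn2
  have hK : 0 < 3 * (|t| + |c|) + 1 := by positivity
  have h2 : 3 * (t * n + c) ≤ (3 * (|t| + |c|) + 1) * n := by
    have h3 : t * n ≤ |t| * n := mul_le_mul_of_nonneg_right (le_abs_self t) (by linarith)
    have h4 : c ≤ |c| * n := (le_abs_self c).trans (le_mul_of_one_le_right (abs_nonneg c) hn)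
    nlinarith
  have h5 := Real.log_le_log (by linarith) h2
  rw [Real.log_mul hK.ne' (by linarith)] at h5
  linarith

/-- the quadratic form is nonnegative -/
lemma cm_T3_qf {ι : Type} [Fintype ι] [DecidableEq ι] {P : Finset ℕ} (z : ℕ)
    (hz : Fintype.card ι ≤ z) (hP : ∀ p ∈ P, z < p) (g : (PJf P → Option ι) → ℝ) :
    0 ≤ qf g := by
  have hx : ∀ j : PJf P, 0 ≤ 1 / (((j : ℕ) : ℝ) - 1) ∧
      (Fintype.card ι : ℝ) * (1 / (((j : ℕ) : ℝ) - 1)) ≤ 1 := by
    intro j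
    have h1 : z < (j : ℕ) := hP j.1 j.2
    rcases Nat.eq_zero_or_pos z with h0 | h0
    · have hc : Fintype.card ι = 0 := by omega
      rw [hc]
      have h2 : (1 : ℝ) ≤ ((j : ℕ) : ℝ) := by exact_mod_cast (by omega : 1 ≤ (j : ℕ))
      refine ⟨div_nonneg zero_le_one (by linarith), ?_⟩
      simp
    · have h2 : (z : ℝ) ≤ ((j : ℕ) : ℝ) - 1 := by
        have : ((z + 1 : ℕ) : ℝ) ≤ ((j : ℕ) : ℝ) := by exact_mod_cast h1
        push_cast at this
        linarith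
      have h3 : (0 : ℝ) < z := by exact_mod_cast h0
      have h4 : (0 : ℝ) < ((j : ℕ) : ℝ) - 1 := by linarith
      have h5 : (Fintype.card ι : ℝ) ≤ z := by exact_mod_cast hz
      refine ⟨div_nonneg zero_le_one h4.le, ?_⟩
      rw [mul_one_div, div_le_one h4]
      linarith
  refine le_trans ?_ (bil_bounds (fun j : PJf P => 1 / (((j : ℕ) : ℝ) - 1)) hx g).1
  apply Finset.sum_nonneg
  intro u _
  apply mul_nonneg (sq_nonneg _)
  apply Finset.prod_nonneg
  intro j _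
  cases u j with
  | none => exact zero_le_one
  | some i =>
    show 0 ≤ 1 / (((j : ℕ) : ℝ) - 1) * (1 - (Fintype.card ι : ℝ) * (1 / (((j : ℕ) : ℝ) - 1)))
    exact mul_nonneg (hx j).1 (by linarith [(hx j).2])

/-- the presieve functions only depend on the values at the small primes -/
lemma cm_T3_repB {P : Finset ℕ} {Q : Finset ℕ → Prop} {Ff : (ℕ → ℝ) → ℝ} (h : RepB P Q Ff)
    {ρ ρ' : ℕ → ℝ} (hρ : ∀ p ∈ P, ρ p = ρ' p) : Ff ρ = Ff ρ' := by
  obtain ⟨c, h1, -, -⟩ := h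
  rw [h1, h1]
  apply Finset.sum_congr rfl
  intro T hT
  rw [Finset.prod_congr rfl (fun p hp => hρ p (Finset.mem_powerset.1 hT hp))]

lemma cm_T3_W {P : Finset ℕ} {ρ ρ' : ℕ → ℝ} (hρ : ∀ p ∈ P, ρ p = ρ' p) : W ρ P = W ρ' P := by
  unfold W
  exact Finset.prod_congr rfl (fun p hp => by rw [hρ p hp])

lemma cm_T3_mono {P : Finset ℕ} {Q Q' : Finset ℕ → Prop} {Ff : (ℕ → ℝ) → ℝ} (h : RepC P Q Ff)
    (hQ : ∀ T ∈ P.powerset, Q T → Q' T) : RepC P Q' Ff := by
  obtain ⟨c, h1, h2, h3⟩ := h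
  exact ⟨c, h1, h2, fun T hT hc => hQ T hT (h3 T hT hc)⟩

lemma cm_T3_monoB {P : Finset ℕ} {Q Q' : Finset ℕ → Prop} {Ff : (ℕ → ℝ) → ℝ} (h : RepB P Q Ff)
    (hQ : ∀ T ∈ P.powerset, Q T → Q' T) : RepB P Q' Ff := by
  obtain ⟨c, h1, h2, h3⟩ := h
  exact ⟨c, h1, h2, fun T hT hc => hQ T hT (h3 T hT hc)⟩

lemma cm_T3_z0_le (D n' : ℕ) : z0 D n' ≤ lev (2 * D) n' := by
  unfold z0 lev
  have h0 : 0 < ∏ p ∈ Pool.Agent.Lib.MP_0da313_nt.small (2 * D), p :=
    Finset.prod_pos fun p hp => (Finset.mem_filter.1 hp).2.pos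
  have h1 : 1 ≤ ∏ p ∈ Pool.Agent.Lib.MP_0da313_nt.small (2 * D), p := h0
  calc 2 ^ (2 ^ (2 * D + n')) = 1 * 2 ^ (2 ^ (2 * D + n') * 1) := by ring
    _ ≤ (∏ p ∈ Pool.Agent.Lib.MP_0da313_nt.small (2 * D), p) *
          2 ^ (2 ^ (2 * D + n') * (16 * (2 * D) + 6)) :=
        Nat.mul_le_mul h1 (Nat.pow_le_pow_right (by norm_num)
        (Nat.mul_le_mul_left _ (by omega)))

lemma cm_T3_V_nonneg (a w : ℕ) : 0 ≤ V a w := by
  unfold V
  apply Finset.prod_nonneg
  intro p hp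
  unfold Pr at hp
  have hp2 : (2 : ℝ) ≤ p := by exact_mod_cast (Finset.mem_filter.1 hp).2.1.two_le
  unfold gd
  have : 1 / ((p : ℝ) - 1) ≤ 1 := by
    rw [div_le_one (by linarith)]
    linarith
  linarith

/-- `n ≤ z ^ B0` forces `z` to be large -/
lemma cm_T3_large (B0 K : ℕ) : ∀ᶠ n : ℕ in atTop, ∀ z : ℕ, n ≤ z ^ B0 → K ≤ z := by
  filter_upwards [eventually_ge_atTop (K ^ B0 + 1)] with n hn z hz
  by_contra h
  have h1 : z ^ B0 ≤ K ^ B0 := Nat.pow_le_pow_left (by omega) _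
  omega

/-- the total mass is at most `n log n` -/
lemma cm_T3_sT (h : ℝ) : ∀ᶠ n : ℕ in atTop, 583 / 1000 * (h * n) / Real.log n ≤
    n * Real.log n := by
  have hlog : Tendsto (fun n : ℕ => Real.log (n : ℝ)) atTop atTop :=
    Real.tendsto_log_atTop.comp tendsto_natCast_atTop_atTop
  filter_upwards [hlog.eventually_ge_atTop (|h| + 1)] with n hn1
  have h0 := abs_nonneg h
  have h1 := le_abs_self h
  have hn : (0 : ℝ) ≤ n := Nat.cast_nonneg n
  rw [div_le_iff₀ (by linarith)]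
  have h3 : 583 / 1000 * h ≤ Real.log n * Real.log n := by nlinarith
  nlinarith

open Classical in
theorem p_T3 : S_T3 := by
  intro happ hcnv hmain hrc hdns hmass hbvF hwin hP ι _ _ _ D F C B0 M B A hC hD hB0 hM
  obtain ⟨b, A', hap⟩ := happ ι D F B0 M B (A + 2) hD hB0 hM
  obtain ⟨-, hw2⟩ := hwin ι D F
  have hsTev : ∀ᶠ n : ℕ in atTop, ∀ i : ι, 583 / 1000 * ((F.hw * |(F.u (some i) : ℝ)|) * n) /
      Real.log n ≤ n * Real.log n := eventually_all.2 fun i => cm_T3_sT _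
  filter_upwards [hap, hmain B0 C hB0 hC, hmass ι D F C hC, hbvF ι D F C b A' hC, hw2,
    hP ι D F B0 hB0, eventually_ge_atTop F.N0, eventually_ge_atTop 4, cm_T3_lim C hC,
    cm_T3_log (F.t none) (F.c none), cm_T3_large B0 (Fintype.card ι), hsTev] with n hap hmain hmass
    hbvF hw2 hPn hN0 hn4 hlim hlogX hlarge hsTe
  intro n' P hpar Fp Fm hpre i g hg
  obtain ⟨hX1, hwinx, -⟩ := hw2
  obtain ⟨hPu, -, -⟩ := hPn (z0 D n') 0 hpar.hzB
  obtain ⟨d1, d2, d3, d4, d5, d6⟩ := hdns ι D F hD n n' hN0 hPu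
  set z := z0 D n' with hz
  have hn4' : (4 : ℝ) ≤ n := by exact_mod_cast hn4
  have hn0 : (0 : ℝ) < n := by linarith
  have hn1 : (1 : ℝ) ≤ n := by linarith
  have hlog4 : 12 / 10 ≤ Real.log n := by
    have h1 : Real.log 4 ≤ Real.log n := Real.log_le_log (by norm_num) hn4'
    have h2 : Real.log 4 = 2 * Real.log 2 := by
      rw [show (4 : ℝ) = 2 ^ 2 by norm_num, Real.log_pow]
      norm_num
    have := Real.log_two_gt_d9
    linarith
  have hL0 : 0 < Real.log n := by linarith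
  have hz2 : 2 ≤ z := by
    rw [hz]
    unfold z0
    calc 2 = 2 ^ 1 := by norm_num
      _ ≤ 2 ^ (2 ^ (2 * D + n')) := Nat.pow_le_pow_right (by norm_num) Nat.one_le_two_pow
  have hlev1 : (1 : ℝ) ≤ (lev (2 * D) n' : ℝ) := by
    have h1 : (2 : ℝ) ≤ lev (2 * D) n' := by exact_mod_cast hz2.trans (cm_T3_z0_le D n')
    linarith
  have hlev3 : (1 : ℝ) ≤ (lev (2 * D) n' : ℝ) ^ 3 := one_le_pow₀ hlev1
  have hzl : (z : ℝ) ≤ (n : ℝ) ^ (1 / 1000 : ℝ) := by
    have h1 : (z : ℝ) ≤ lev (2 * D) n' := by exact_mod_cast cm_T3_z0_le D n'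
    have h3 : (lev (2 * D) n' : ℝ) ≤ (lev (2 * D) n' : ℝ) ^ 3 := by
      calc (lev (2 * D) n' : ℝ) = (lev (2 * D) n' : ℝ) ^ 1 := (pow_one _).symm
        _ ≤ (lev (2 * D) n' : ℝ) ^ 3 := pow_le_pow_right₀ hlev1 (by norm_num)
    exact h1.trans (h3.trans hpar.hlev)
  obtain ⟨l1, l2, l3, l4, l5, l6⟩ := hlim z (by omega) hzl
  have hpm : ∀ p, p ∈ PK (2 * D) n' ↔ p.Prime ∧ p ≤ z := fun p => mem_PK
  have hdis : Disjoint (PK (2 * D) n') (Pr (z + 1) (ky C n)) := by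
    rw [Finset.disjoint_left]
    intro p hp1 hp2
    have h1 := ((hpm p).1 hp1).2
    have h2 := (Finset.mem_filter.1 hp2).2.2
    omega
  -- representation
  have hrB : ∀ Ff : (ℕ → ℝ) → ℝ, RepB (PK (2 * D) n')
      (fun T => ∏ p ∈ T, p ≤ lev (2 * D) n' ^ 3) Ff → RepB (PK (2 * D) n')
      (fun T => ∏ p ∈ T, (p : ℝ) ≤ (lev (2 * D) n' : ℝ) ^ 3) Ff := by
    intro Ff h
    refine cm_T3_monoB h fun T _ hT => ?_
    beta_reduce at hT ⊢
    have h1 : ((∏ p ∈ T, p : ℕ) : ℝ) ≤ ((lev (2 * D) n' ^ 3 : ℕ) : ℝ) := Nat.cast_le.2 hT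
    push_cast at h1
    exact h1
  have hrep := (hrc (PK (2 * D) n') (z + 1) (kz n) (ky C n) (k3 n) ((lev (2 * D) n' : ℝ) ^ 3)
    (lD n) Fp Fm (by omega) l1 l2 hdis l4 l5 hlev3 (hrB Fp hpre.rp) (hrB Fm hpre.rm)).2 l3
  have hrep' : RepC (PK (2 * D) n' ∪ Pr (z + 1) (ky C n))
      (fun T => ∏ p ∈ T, (p : ℝ) ≤ (n : ℝ) ^ (4974 / 10000 : ℝ)) (F3 Fp (z + 1) (k3 n) (lD n)) := by
    refine cm_T3_mono hrep fun T _ hT => ?_
    beta_reduce at hT ⊢
    refine hT.trans ?_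
    calc (lev (2 * D) n' : ℝ) ^ 3 * lD n ≤ (n : ℝ) ^ (1 / 1000 : ℝ) * (n : ℝ) ^ (273 / 550 : ℝ) :=
          mul_le_mul_of_nonneg_right hpar.hlev (Real.rpow_nonneg hn0.le _)
      _ = (n : ℝ) ^ (1 / 1000 + 273 / 550 : ℝ) := by rw [Real.rpow_add hn0]
      _ ≤ (n : ℝ) ^ (4974 / 10000 : ℝ) := Real.rpow_le_rpow_of_exponent_le hn1 (by norm_num)
  -- the mass
  obtain ⟨-, -, hm3⟩ := hmass
  obtain ⟨hsT0, hsT1⟩ := hm3 i
  have hsT2 : sT (F.a3 C n i) (F.NX n (some i)) ≤ n * Real.log n := by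
    refine hsT1.trans (le_trans (le_of_eq ?_) (hsTe i))
    ring
  have hW : 0 < (F.u (some i)).natAbs := Int.natAbs_pos.2 (F.hu (some i))
  -- the expansion
  have hexp := hap n' P hpar (some i) none (ky C n) (F3 Fp (z + 1) (k3 n) (lD n))
    (Or.inl (by simp)) l6 hrep' (F.a3 C n i) (F.NX n (some i)) hsT0 hsT2
    (fun c hc => (hbvF c).2 i hc) g
    ⟨hg.bd, hg.sup, fun α hα j i' hi' => ⟨(hg.ne α hα j i' hi').2, (hg.ne α hα j i' hi').1⟩⟩
  have ha0 : F.a3 C n i 0 = 0 := by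
    unfold Fam.a3 cv
    simp
  have hax : ∀ x : ℤ, F.a3 C n i (F.u (some i) * x + F.v n (some i)).toNat ≠ 0 →
      0 < x ∧ x < n ∧ (F.u (some i) * x + F.v n (some i)).toNat ≤ F.NX n (some i) := by
    intro x hx
    have h1 : (F.L n (some i) x).toNat ≠ 0 := by
      intro h
      apply hx
      unfold Fam.L at h
      rw [h, ha0]
    have h2 : 0 < F.L n (some i) x := by
      by_contra h
      exact h1 (Int.toNat_of_nonpos (by omega))
    have h3 : F.wi n (some i) (F.L n (some i) x).toNat ≠ 0 := by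
      intro h
      apply hx
      unfold Fam.L at h
      unfold Fam.a3
      rw [h, mul_zero]
    obtain ⟨h4, h5, h6⟩ := hwinx (some i) x h2 h3
    refine ⟨h4, h5, ?_⟩
    have h7 := (h6 (some i)).2
    show (F.L n (some i) x).toNat ≤ ⌊3 * F.X n (some i)⌋₊
    apply Nat.le_floor
    have h8 : (((F.L n (some i) x).toNat : ℕ) : ℝ) = (F.L n (some i) x : ℝ) := by
      have : (((F.L n (some i) x).toNat : ℕ) : ℤ) = F.L n (some i) x := Int.toNat_of_nonneg h2.le
      exact_mod_cast this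
    rw [h8]
    exact h7
  have hcv := hcnv (F.u (some i)) (F.v n (some i)) n (F.NX n (some i)) (F.a3 C n i)
    (fun y => F3 Fp (z + 1) (k3 n) (lD n) (F.ri n z (some i) none y) * ZI (DF F n P) g y ^ 2)
    (F.hu (some i)) ha0 hax
  -- the main term
  set ρ := F.rd n z (some i) with hρ
  have hρeq : ∀ p ∈ PK (2 * D) n', ρ p =
      (fun p => if p.Prime ∧ p ≤ z then F.rd n z (some i) p else 0) p := by
    intro p hp
    simp only
    rw [if_pos ((hpm p).1 hp)]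
  have hDens := d4 (some i)
  have hρ01 : ∀ p ∈ PK (2 * D) n', 0 ≤ ρ p ∧ ρ p ≤ 1 := by
    intro p hp
    have h1 := hDens.nonneg p
    have h2 := hDens.lt p ((hpm p).1 hp).1
    have h3 : (0 : ℝ) ≤ 1 / (p : ℝ) := by positivity
    have e := hρeq p hp
    beta_reduce at e h1 h2
    rw [← e] at h1 h2
    exact ⟨h1, by linarith⟩
  have hpt := hpre.pt ρ hρ01
  have hmt := hpre.mt _ hDens
  rw [← cm_T3_repB hpre.rp hρeq, ← cm_T3_repB hpre.rm hρeq, ← cm_T3_W hρeq] at hmt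
  have hV00 : 0 ≤ W ρ (PK (2 * D) n') := by
    unfold W
    exact Finset.prod_nonneg fun p hp => by linarith [(hρ01 p hp).2]
  have hmt1 : F3 Fp (z + 1) (k3 n) (lD n) ρ ≤
      67 / 100 * (W ρ (PK (2 * D) n') * V (z + 1) (kz n)) := by
    refine (hmain z hpar.hzB hzl Fp Fm ρ (W ρ (PK (2 * D) n')) hV00 hpt.2 hmt.1 hmt.2 hpt.1 ?_).2
    intro p hp
    rw [hρ]
    unfold Fam.rd
    rw [if_neg (not_le.2 hp)]
  have hV1 := cm_T3_V_nonneg (z + 1) (kz n)
  have hqf : 0 ≤ qf g := cm_T3_qf z (hlarge z hpar.hzB) (fun p hp => (hpar.hP p hp).2.1) g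
  have hφ : (0 : ℝ) < Nat.totient (F.u (some i)).natAbs := by
    exact_mod_cast Nat.totient_pos.2 hW
  have hu0 : (0 : ℝ) < |(F.u (some i) : ℝ)| := by
    rw [abs_pos]
    exact_mod_cast F.hu (some i)
  have hd5 := d5 (some i)
  have hkap : 0 < kapD z := by
    unfold kapD
    apply Finset.prod_pos
    intro p hp
    have hp2 : (2 : ℝ) ≤ p := by exact_mod_cast (Finset.mem_filter.1 hp).2.two_le
    have : 1 / (p : ℝ) < 1 := by
      rw [div_lt_one (by linarith)]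
      linarith
    linarith
  set S := ∑ x ∈ Ioo 0 n, F.a3 C n i (F.L n (some i) x).toNat *
      (F3 Fp (z + 1) (k3 n) (lD n) (F.ri n z (some i) none x) * ZI (DF F n P) g x ^ 2) with hS
  have hSle : S ≤ sT (F.a3 C n i) (F.NX n (some i)) / (Nat.totient (F.u (some i)).natAbs : ℝ) *
      F3 Fp (z + 1) (k3 n) (lD n) ρ * qf g + n / (Real.log n) ^ (A + 2) := by
    have h1 := (abs_le.1 hexp).2
    have h2 : S = ∑ k ∈ (Icc 1 (F.NX n (some i))).filter
        (fun k : ℕ => F.u (some i) ∣ (k : ℤ) - F.v n (some i)),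
        F.a3 C n i k * F3 Fp (z + 1) (k3 n) (lD n) (F.ri n z (some i) none
          (((k : ℤ) - F.v n (some i)) / F.u (some i))) *
          ZI (DF F n P) g (((k : ℤ) - F.v n (some i)) / F.u (some i)) ^ 2 := by
      rw [hS]
      refine hcv.symm.trans ?_
      apply Finset.sum_congr rfl
      intro k _
      ring
    rw [h2]
    linarith
  have hmainle : sT (F.a3 C n i) (F.NX n (some i)) / (Nat.totient (F.u (some i)).natAbs : ℝ) *
      F3 Fp (z + 1) (k3 n) (lD n) ρ * qf g ≤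
      (583 / 1000 * (67 / 100)) * ((F.hw * n * (F.V n n' / kapD z)) *
        (V (z + 1) (kz n) * qf g)) / Real.log n := by
    apply le_trans (mul_le_mul_of_nonneg_right (mul_le_mul_of_nonneg_left hmt1
      (div_nonneg hsT0 hφ.le)) hqf)
    have h1 : sT (F.a3 C n i) (F.NX n (some i)) / (Nat.totient (F.u (some i)).natAbs : ℝ) *
        (67 / 100 * (W ρ (PK (2 * D) n') * V (z + 1) (kz n))) * qf g =
        sT (F.a3 C n i) (F.NX n (some i)) * (67 / 100 * ((W ρ (PK (2 * D) n') /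
          (Nat.totient (F.u (some i)).natAbs : ℝ)) * (V (z + 1) (kz n) * qf g))) := by ring
    rw [h1, hd5]
    have h2 : 0 ≤ 67 / 100 * ((F.V n n' / (kapD z * |(F.u (some i) : ℝ)|)) *
        (V (z + 1) (kz n) * qf g)) := by positivity
    refine (mul_le_mul_of_nonneg_right hsT1 h2).trans (le_of_eq ?_)
    field_simp
  have hlog0 : 0 ≤ Real.log (3 * F.X n none) := by
    apply Real.log_nonneg
    linarith [hX1 none]
  have hlogX' : Real.log (3 * F.X n none) ≤ 10005 / 10000 * Real.log n := hlogX (hX1 none)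
  have hT0 : 0 ≤ (F.hw * n * (F.V n n' / kapD z)) * (V (z + 1) (kz n) * qf g) := by
    have := F.hhw
    positivity
  set T := (F.hw * n * (F.V n n' / kapD z)) * (V (z + 1) (kz n) * qf g) with hT
  have hE0 : 0 ≤ n / (Real.log n) ^ (A + 2) := by positivity
  calc Real.log (3 * F.X n none) * S ≤ Real.log (3 * F.X n none) *
        ((583 / 1000 * (67 / 100)) * T / Real.log n + n / (Real.log n) ^ (A + 2)) :=
        mul_le_mul_of_nonneg_left (by linarith) hlog0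
    _ ≤ (10005 / 10000 * Real.log n) *
        ((583 / 1000 * (67 / 100)) * T / Real.log n + n / (Real.log n) ^ (A + 2)) :=
        mul_le_mul_of_nonneg_right hlogX' (by positivity)
    _ = (10005 / 10000 * (583 / 1000 * (67 / 100))) * T +
        (10005 / 10000 / Real.log n) * (n / (Real.log n) ^ A) := by
        rw [pow_add]
        field_simp
    _ ≤ 391 / 1000 * T + 1 * (n / (Real.log n) ^ A) := by
        apply add_le_add
        · apply mul_le_mul_of_nonneg_right _ hT0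
          norm_num
        · apply mul_le_mul_of_nonneg_right _ (by positivity)
          rw [div_le_one hL0]
          linarith
    _ = 391 / 1000 * (F.hw * n * (F.V n n' / kapD z)) * (V (z + 1) (kz n) * qf g) +
        n / (Real.log n) ^ A := by
        rw [hT]
        ring

end Pool.Agent.CM.F
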