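import Pool.Agent.Lib.MP_0da313_nt.CM.P.S0
import Pool.Agent.Lib.MP_0da313_nt.CM.P.T3

set_option autoImplicit false

/-!
[CM T12] The lower bound for the sum with the sieve and the first Chen weight.
-/

namespace Pool.Agent.CM.F

open Finset Filter Polynomial
open ArithmeticFunction (cardFactors)
open Pool.Agent.MP89da58 (bil pw nn supp part kapD)
open Pool.Agent.MT (PJf ZI Dl)
open Pool.Agent.BVall (om rhoW PK lev RepB Dens mem_PK)
open Pool.Agent.Lib.MP_0da313_nt (Admissible lineRestrict val singV W)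
open Pool.Agent.CH (thP)
open Pool.Agent.CH.S (th Pr gd RepC V)
open Pool.Agent.CM.W (WPk yM)

theorem p_T12 : S_T12 := by
  intro happ hcnv hmain hrc hdns hmass hbv hwin hP ι _ _ _ D F C B0 M B A hC hD hB0 hM
  filter_upwards [cm_S0_seq0 happ hcnv hmass hbv hwin F B0 M B A hD hB0 hM,
    cm_S0_small F B0 M 0, cm_S0_facts hdns hP F hD B0 M hB0, hmass ι D F 1 le_rfl,
    cm_T3_lim C hC, hmain B0 C hB0 hC]
    with n hseq hsm hfa hma hlim hmain n' P hp Fp Fm hpre i g hg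
  obtain ⟨ha, -, hc, hd, -, hf⟩ := hsm n' P hp
  obtain ⟨f1, f2, f3, f4⟩ := hfa n' P hp
  obtain ⟨g0, g1, g2, g3, g4⟩ := f3 none Fp Fm hpre
  obtain ⟨l1, l2, l3, l4, l5, l6⟩ := hlim (z0 D n') hf ha
  have hn1 : (1 : ℝ) ≤ n := by
    have : 1 ≤ n := by omega
    exact_mod_cast this
  have hn0 : (0 : ℝ) < n := by linarith
  have hlev3 : (1 : ℝ) ≤ (lev (2 * D) n' : ℝ) ^ 3 := by
    refine one_le_pow₀ ?_
    exact_mod_cast hf.trans (cm_S0_z_le_lev D n')
  have hdis : Disjoint (PK (2 * D) n') (Pr (z0 D n' + 1) (ky C n)) := by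
    rw [Finset.disjoint_left]
    intro p hp1 hp2
    have h1 : p ≤ z0 D n' := (mem_PK.1 hp1).2
    have h2 := (Finset.mem_filter.1 hp2).2.2
    omega
  have hrB : ∀ Ff : (ℕ → ℝ) → ℝ, RepB (PK (2 * D) n')
      (fun T => ∏ p ∈ T, p ≤ lev (2 * D) n' ^ 3) Ff → RepB (PK (2 * D) n')
      (fun T => ∏ p ∈ T, (p : ℝ) ≤ (lev (2 * D) n' : ℝ) ^ 3) Ff := by
    intro Ff h
    refine cm_T3_monoB h fun T _ hT => ?_
    beta_reduce at hT ⊢
    have h1 : ((∏ p ∈ T, p : ℕ) : ℝ) ≤ ((lev (2 * D) n' ^ 3 : ℕ) : ℝ) := Nat.cast_le.2 hT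
    push_cast at h1
    exact h1
  have hrep := (hrc (PK (2 * D) n') (z0 D n' + 1) (kz n) (ky C n) (k3 n)
    ((lev (2 * D) n' : ℝ) ^ 3)
    (lD n) Fp Fm (by omega) l1 l2 hdis l4 l5 hlev3 (hrB Fp hpre.rp) (hrB Fm hpre.rm)).1
  have hrep' : RepC (PK (2 * D) n' ∪ Pr (z0 D n' + 1) (ky C n))
      (fun T => ∏ p ∈ T, (p : ℝ) ≤ (n : ℝ) ^ (4974 / 10000 : ℝ))
      (F12 Fp Fm (z0 D n' + 1) (kz n) (ky C n) (lD n)) := by
    refine cm_T3_mono hrep fun T _ hT => ?_
    beta_reduce at hT ⊢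
    refine hT.trans ?_
    calc (lev (2 * D) n' : ℝ) ^ 3 * lD n ≤ (n : ℝ) ^ (1 / 1000 : ℝ) * (n : ℝ) ^ (273 / 550 : ℝ) :=
          mul_le_mul_of_nonneg_right hp.hlev (Real.rpow_nonneg hn0.le _)
      _ = (n : ℝ) ^ (1 / 1000 + 273 / 550 : ℝ) := by rw [Real.rpow_add hn0]
      _ ≤ (n : ℝ) ^ (4974 / 10000 : ℝ) := Real.rpow_le_rpow_of_exponent_le hn1 (by norm_num)
  have key := hseq n' P hp (some i) (ky C n) (F12 Fp Fm (z0 D n' + 1) (kz n) (ky C n) (lD n))
    (Or.inl (by simp)) l6 hrep' g hg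
  have key2 := (abs_le.1 key).1
  have hmt := (hmain (z0 D n') hp.hzB ha Fp Fm (F.rd n (z0 D n') none)
    (W (F.rd n (z0 D n') none) (PK (2 * D) n')) g0 g1 g2 g3 g4 (by
      intro p hp'
      unfold Fam.rd
      rw [if_neg (not_le.2 hp')])).1
  have hV1 := cm_T3_V_nonneg (z0 D n' + 1) (kz n)
  have hq := f4 g
  have hkap := cm_S0_kap_pos (z0 D n')
  have hu : 0 < |(F.u none : ℝ)| := abs_pos.2 (by exact_mod_cast F.hu none)
  have hh := F.hhw
  have hsT0 : 0 ≤ sT (F.a0 n) (F.NX n none) := by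
    have hpos : 0 ≤ F.hw * n * |(F.u none : ℝ)| := by positivity
    linarith [hma.1]
  have hphi : (0 : ℝ) ≤ (Nat.totient (F.u none).natAbs : ℝ) := Nat.cast_nonneg _
  have hmain2 : 2105 / 10000 * (F.hw * n * (F.V n n' / kapD (z0 D n'))) *
        (V (z0 D n' + 1) (kz n) * qf g) ≤
      sT (F.a0 n) (F.NX n none) / (Nat.totient (F.u none).natAbs : ℝ) *
        F12 Fp Fm (z0 D n' + 1) (kz n) (ky C n) (lD n) (F.rd n (z0 D n') none) * qf g := by
    rw [← mul_assoc]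
    refine mul_le_mul_of_nonneg_right ?_ hq
    calc 2105 / 10000 * (F.hw * n * (F.V n n' / kapD (z0 D n'))) * V (z0 D n' + 1) (kz n)
        ≤ (211 / 1000 * (998 / 1000)) * (F.hw * n * (F.V n n' / kapD (z0 D n'))) *
          V (z0 D n' + 1) (kz n) := by
          refine mul_le_mul_of_nonneg_right (mul_le_mul_of_nonneg_right (by norm_num) ?_) hV1
          positivity
      _ = (998 / 1000 * (F.hw * n * |(F.u none : ℝ)|)) *
          (F.V n n' / (kapD (z0 D n') * |(F.u none : ℝ)|)) *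
          (211 / 1000 * V (z0 D n' + 1) (kz n)) := by
          field_simp
      _ ≤ sT (F.a0 n) (F.NX n none) *
          (F.V n n' / (kapD (z0 D n') * |(F.u none : ℝ)|)) *
          (211 / 1000 * V (z0 D n' + 1) (kz n)) := by
          refine mul_le_mul_of_nonneg_right (mul_le_mul_of_nonneg_right hma.1 ?_) ?_
          · positivity
          · positivity
      _ = sT (F.a0 n) (F.NX n none) *
          (W (F.rd n (z0 D n') none) (PK (2 * D) n') /
            (Nat.totient (F.u none).natAbs : ℝ)) *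
          (211 / 1000 * V (z0 D n' + 1) (kz n)) := by rw [f1 none]
      _ = sT (F.a0 n) (F.NX n none) / (Nat.totient (F.u none).natAbs : ℝ) *
          (211 / 1000 * (W (F.rd n (z0 D n') none) (PK (2 * D) n') *
            V (z0 D n' + 1) (kz n))) := by ring
      _ ≤ _ := mul_le_mul_of_nonneg_left hmt (div_nonneg hsT0 hphi)
  linarith

end Pool.Agent.CM.F
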