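import Pool.Agent.Lib.MP_0da313_nt.CM.F
import Pool.Agent.Lib.MP_0da313_nt.BV.T1c

set_option autoImplicit false
set_option linter.unusedSectionVars false

/-!
Project CM, piece app: application of the general expansion to a family.
-/

namespace Pool.Agent.CM.F

open Finset Filter Polynomial
open Pool.Agent.MP89da58 (bil pw nn supp part kapD)
open Pool.Agent.MT (PJf LocD ZI Dl Dl_loc Dl_cop)
open Pool.Agent.BVall (om rhoW PK lev RepB Dens mem_PK)
open Pool.Agent.CH.S (Pr gd RepC)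
open Pool.Agent.CM.W (WPk yM)

lemma er_congr (a : ℕ → ℝ) (N : ℕ) {q b b' : ℕ} (h : b ≡ b' [MOD q]) : er a N q b = er a N q b' := by
  unfold er sA
  have h1 : (Icc 1 N).filter (fun n => n ≡ b [MOD q]) = (Icc 1 N).filter (fun n => n ≡ b' [MOD q]) := by
    apply Finset.filter_congr
    intro n _
    exact ⟨fun h' => h'.trans h, fun h' => h'.trans h.symm⟩
  rw [h1]

/-- the largest error modulo `W q` over the coprime classes -/
lemma exists_worstG (a : ℕ → ℝ) (N W : ℕ) (hW : 0 < W) : ∃ c : ℕ → ℕ,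
    (∀ q, (c q).Coprime (W * q)) ∧ ∀ q b, 0 < q → b.Coprime (W * q) →
      er a N (W * q) b ≤ er a N (W * q) (c q) := by
  classical
  have key : ∀ q, ∃ c : ℕ, c.Coprime (W * q) ∧ (0 < q → ∀ b : ℕ, b.Coprime (W * q) →
      er a N (W * q) b ≤ er a N (W * q) c) := by
    intro q
    rcases Nat.eq_zero_or_pos q with h0 | hq
    · exact ⟨1, Nat.coprime_one_left _, fun h => by omega⟩
    have hWq : 0 < W * q := Nat.mul_pos hW hq
    set Sf := (range (W * q)).filter (fun a => a.Coprime (W * q)) with hSf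
    have hmem : ∀ b : ℕ, b.Coprime (W * q) → b % (W * q) ∈ Sf := by
      intro b hb
      rw [hSf, Finset.mem_filter, Finset.mem_range]
      refine ⟨Nat.mod_lt _ hWq, ?_⟩
      rw [Nat.Coprime, ← Nat.gcd_rec, Nat.gcd_comm]
      exact hb
    have hne : Sf.Nonempty := ⟨1 % (W * q), hmem 1 (Nat.coprime_one_left _)⟩
    obtain ⟨c, hc, hmax⟩ := Finset.exists_max_image Sf (fun b => er a N (W * q) b) hne
    refine ⟨c, (Finset.mem_filter.1 hc).2, fun _ b hb => ?_⟩
    have := hmax _ (hmem b hb)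
    rwa [er_congr a N (Nat.mod_modEq b (W * q))] at this
  choose c hc using key
  exact ⟨c, fun q => (hc q).1, fun q b hq hb => (hc q).2 hq b hb⟩

lemma yM_le {M : ℕ} (hM : 1 ≤ M) (n : ℕ) : (yM M n : ℝ) ≤ (n : ℝ) ^ (1 / 1000 : ℝ) := by
  unfold yM
  push_cast
  have hM0 : (M : ℝ) ≠ 0 := by
    have : (0 : ℝ) < M := by exact_mod_cast hM
    exact this.ne'
  have hn : (0 : ℝ) ≤ n := Nat.cast_nonneg n
  have h1 : (⌊(n : ℝ) ^ (1 / (1000 * M) : ℝ)⌋₊ : ℝ) ≤ (n : ℝ) ^ (1 / (1000 * M) : ℝ) :=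
    Nat.floor_le (Real.rpow_nonneg hn _)
  calc (⌊(n : ℝ) ^ (1 / (1000 * M) : ℝ)⌋₊ : ℝ) ^ M ≤ ((n : ℝ) ^ (1 / (1000 * M) : ℝ)) ^ M :=
        pow_le_pow_left₀ (Nat.cast_nonneg _) h1 M
    _ = (n : ℝ) ^ (1 / 1000 : ℝ) := by
        rw [← Real.rpow_natCast, ← Real.rpow_mul hn]
        congr 1
        field_simp

lemma z0_le_lev (D n' : ℕ) : z0 D n' ≤ lev (2 * D) n' := by
  unfold z0 lev
  have h0 : 0 < ∏ p ∈ Pool.Agent.Lib.MP_0da313_nt.small (2 * D), p :=
    Finset.prod_pos fun p hp => (Finset.mem_filter.1 hp).2.pos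
  have h1 : 1 ≤ ∏ p ∈ Pool.Agent.Lib.MP_0da313_nt.small (2 * D), p := h0
  calc 2 ^ (2 ^ (2 * D + n')) = 1 * 2 ^ (2 ^ (2 * D + n') * 1) := by ring
    _ ≤ (∏ p ∈ Pool.Agent.Lib.MP_0da313_nt.small (2 * D), p) *
          2 ^ (2 ^ (2 * D + n') * (16 * (2 * D) + 6)) :=
        Nat.mul_le_mul h1 (Nat.pow_le_pow_right (by norm_num)
        (Nat.mul_le_mul_left _ (by omega)))

lemma prod_le_of_subset {s t : Finset ℕ} (h : s ⊆ t) (f : ℕ → ℝ) (hf : ∀ i ∈ t, 1 ≤ f i) :
    ∏ i ∈ s, f i ≤ ∏ i ∈ t, f i := by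
  classical
  rw [← Finset.prod_sdiff h]
  have h1 : (1 : ℝ) ≤ ∏ i ∈ t \ s, f i := by
    have : ∏ i ∈ t \ s, (1 : ℝ) ≤ ∏ i ∈ t \ s, f i :=
      Finset.prod_le_prod (fun _ _ => zero_le_one) (fun i hi => hf i (Finset.mem_sdiff.1 hi).1)
    simpa using this
  have h2 : 0 ≤ ∏ i ∈ s, f i := Finset.prod_nonneg fun i hi => by linarith [hf i (h hi)]
  exact le_mul_of_one_le_left h2 h1

lemma ev_log_nat (C : ℝ) (k : ℕ) {s : ℝ} (hs : 0 < s) :
    ∀ᶠ n : ℕ in atTop, C * (Real.log n) ^ k ≤ (n : ℝ) ^ s := by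
  have h := isLittleO_log_rpow_rpow_atTop (s := s) (k : ℝ) hs
  have h2 := h.bound (show (0 : ℝ) < 1 / (|C| + 1) by positivity)
  have h3 := tendsto_natCast_atTop_atTop (R := ℝ) |>.eventually h2
  filter_upwards [h3, eventually_ge_atTop 1] with n h4 hn
  have hn' : (1 : ℝ) ≤ n := by exact_mod_cast hn
  have hl : 0 ≤ Real.log n := Real.log_nonneg hn'
  rw [Real.rpow_natCast, Real.norm_of_nonneg (by positivity),
    Real.norm_of_nonneg (by positivity)] at h4
  rw [div_mul_eq_mul_div, one_mul, le_div_iff₀ (by positivity)] at h4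
  have h5 : C * (Real.log n) ^ k ≤ (|C| + 1) * (Real.log n) ^ k := by
    apply mul_le_mul_of_nonneg_right _ (by positivity)
    linarith [le_abs_self C]
  linarith

/-- the second error term -/
lemma tail_ev (B0 A k1 k2 : ℕ) (B C1 C2 : ℝ) (hB0 : 1 ≤ B0) (hC1 : 0 < C1) (hC2 : 0 < C2) :
    ∀ᶠ n : ℕ in atTop, ∀ z : ℕ, n ≤ z ^ B0 →
      B ^ 2 * ((n * Real.log n) * (3 * (2 / z) * (C1 * (Real.log n) ^ k1)) *
        (((B0 + 1 : ℝ) + 2 * Real.log n) * (C2 * (Real.log n) ^ k2))) ≤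
      1 / 2 * (n / (Real.log n) ^ A) := by
  have hs : (0 : ℝ) < 1 / B0 := by
    have : (0 : ℝ) < B0 := by exact_mod_cast hB0
    positivity
  filter_upwards [ev_log_nat (12 * B ^ 2 * C1 * C2 * (B0 + 3)) (k1 + k2 + 2 + A) hs,
    eventually_ge_atTop 3] with n hn hn3 z hz
  have hn3' : (3 : ℝ) ≤ n := by exact_mod_cast hn3
  have hn0 : (0 : ℝ) < n := by linarith
  set L := Real.log n with hL
  have hL1 : 1 ≤ L := by
    rw [hL, Real.le_log_iff_exp_le hn0]
    have := Real.exp_one_lt_d9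
    linarith
  have hz0 : 0 < z := by
    rcases Nat.eq_zero_or_pos z with h | h
    · rw [h, zero_pow (by omega)] at hz
      omega
    · exact h
  have hzR : (0 : ℝ) < z := by exact_mod_cast hz0
  have hzn : (n : ℝ) ^ (1 / B0 : ℝ) ≤ z := by
    have h1 : (n : ℝ) ≤ (z : ℝ) ^ B0 := by exact_mod_cast hz
    have h2 : (n : ℝ) ^ (1 / B0 : ℝ) ≤ ((z : ℝ) ^ B0) ^ (1 / B0 : ℝ) :=
      Real.rpow_le_rpow hn0.le h1 hs.le
    rw [← Real.rpow_natCast, ← Real.rpow_mul hzR.le] at h2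
    have h3 : ((B0 : ℕ) : ℝ) * (1 / B0 : ℝ) = 1 := by
      have : (B0 : ℝ) ≠ 0 := by
        have : (0 : ℝ) < B0 := by exact_mod_cast hB0
        exact this.ne'
      field_simp
    rwa [h3, Real.rpow_one] at h2
  have h4 := hn.trans hzn
  have h5 : (B0 + 1 : ℝ) + 2 * L ≤ (B0 + 3) * L := by nlinarith [(Nat.cast_nonneg B0 : (0 : ℝ) ≤ B0)]
  have hLA : 0 < L ^ A := by positivity
  calc B ^ 2 * ((n * L) * (3 * (2 / z) * (C1 * L ^ k1)) *
        (((B0 + 1 : ℝ) + 2 * L) * (C2 * L ^ k2)))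
      ≤ B ^ 2 * ((n * L) * (3 * (2 / z) * (C1 * L ^ k1)) *
        (((B0 + 3) * L) * (C2 * L ^ k2))) := by
        apply mul_le_mul_of_nonneg_left _ (sq_nonneg B)
        apply mul_le_mul_of_nonneg_left _ (by positivity)
        exact mul_le_mul_of_nonneg_right h5 (by positivity)
    _ = 1 / 2 * (n / L ^ A) * ((12 * B ^ 2 * C1 * C2 * (B0 + 3) * L ^ (k1 + k2 + 2 + A)) / z) := by
        field_simp
        ring
    _ ≤ 1 / 2 * (n / L ^ A) * 1 := by
        apply mul_le_mul_of_nonneg_left _ (by positivity)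
        rw [div_le_one hzR]
        exact h4
    _ = _ := by ring

open Classical in
theorem p_app : S_app := by
  intro hgen hdns hP hpr ι _ _ _ D F B0 M B A hD hB0 hM
  obtain ⟨C1, hC1, hpr1⟩ := hpr (2 * D)
  obtain ⟨C2, hC2, hpr2⟩ := hpr (3 * Fintype.card ι)
  refine ⟨6 * Fintype.card ι * D, A + 1, ?_⟩
  filter_upwards [hP ι D F B0 hB0, eventually_ge_atTop F.N0, eventually_ge_atTop 3,
    tail_ev B0 A (2 * D) (3 * Fintype.card ι) B C1 C2 hB0 hC1 hC2,
    (Real.tendsto_log_atTop.comp tendsto_natCast_atTop_atTop).eventually_ge_atTop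
      (6 * (B : ℝ) ^ 2)] with n hPn hN0 hn3 htail hfirst
  intro n' P hpar l l' y Ff hll hyn hRep a N hsT0 hsT1 hbv g hg
  simp only [Function.comp] at hfirst
  set z := z0 D n' with hz
  obtain ⟨hPu, hcard, -⟩ := hPn z (yM M n) hpar.hzB
  obtain ⟨d1, d2, d3, d4, d5, d6⟩ := hdns ι D F hD n n' hN0 hPu
  rw [← hz] at d1 d2 d3 d4 d5
  have hn3' : (3 : ℝ) ≤ n := by exact_mod_cast hn3
  have hn0 : (0 : ℝ) < n := by linarith
  have hn1 : (1 : ℝ) ≤ n := by linarith
  have hL1 : 1 ≤ Real.log n := by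
    rw [Real.le_log_iff_exp_le hn0]
    have := Real.exp_one_lt_d9
    linarith
  have hz2 : 2 ≤ z := by
    rw [hz]
    unfold z0
    calc 2 = 2 ^ 1 := by norm_num
      _ ≤ 2 ^ (2 ^ (2 * D + n')) := Nat.pow_le_pow_right (by norm_num) Nat.one_le_two_pow
  have hzR : (0 : ℝ) < z := by exact_mod_cast (by omega : 0 < z)
  have hpow1 : (n : ℝ) ^ (1 / 1000 : ℝ) ≤ n := by
    calc (n : ℝ) ^ (1 / 1000 : ℝ) ≤ (n : ℝ) ^ (1 : ℝ) :=
          Real.rpow_le_rpow_of_exponent_le hn1 (by norm_num)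
      _ = n := Real.rpow_one _
  have hzn : z ≤ n := by
    have h1 : (z : ℝ) ≤ lev (2 * D) n' := by exact_mod_cast z0_le_lev D n'
    have h2 : (1 : ℝ) ≤ z := by exact_mod_cast (by omega : 1 ≤ z)
    have h3 : (lev (2 * D) n' : ℝ) ≤ (lev (2 * D) n' : ℝ) ^ 3 := by
      have h4 : (1 : ℝ) ≤ lev (2 * D) n' := h2.trans h1
      nlinarith [mul_self_nonneg ((lev (2 * D) n' : ℝ)), mul_self_nonneg ((lev (2 * D) n' : ℝ) - 1)]
    have h5 : (z : ℝ) ≤ n := h1.trans (h3.trans (hpar.hlev.trans hpow1))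
    exact_mod_cast h5
  have hyMn : yM M n ≤ n := by
    have h1 : (yM M n : ℝ) ≤ n := (yM_le hM n).trans hpow1
    exact_mod_cast h1
  set P1 := PK (2 * D) n' ∪ Pr (z + 1) y with hP1
  have hPKm : ∀ p, p ∈ PK (2 * D) n' ↔ p.Prime ∧ p ≤ z := fun p => mem_PK
  have hPrm : ∀ p, p ∈ Pr (z + 1) y ↔ p < y ∧ p.Prime ∧ z + 1 ≤ p := by
    intro p
    unfold Pr
    rw [Finset.mem_filter, Finset.mem_range]
  have hP1p : ∀ p ∈ P1, p.Prime := by
    intro p hp
    rcases Finset.mem_union.1 hp with h | h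
    · exact ((hPKm p).1 h).1
    · exact ((hPrm p).1 h).2.1
  have hP1n : ∀ p ∈ P1, p ≤ n := by
    intro p hp
    rcases Finset.mem_union.1 hp with h | h
    · exact ((hPKm p).1 h).2.trans hzn
    · exact ((hPrm p).1 h).1.le.trans hyn
  have hPp : ∀ p ∈ P, p.Prime := fun p hp => (hpar.hP p hp).1
  -- the local conditions
  have hdvdL : ∀ (p : ℕ) (m : Option ι) (x x' : ℤ), (p : ℤ) ∣ x - x' →
      ((p : ℤ) ∣ F.L n m x ↔ (p : ℤ) ∣ F.L n m x') := by
    intro p m x x' h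
    unfold Fam.L
    have e : (F.u m * x + F.v n m) - (F.u m * x' + F.v n m) = F.u m * (x - x') := by ring
    have h1 : (p : ℤ) ∣ (F.u m * x + F.v n m) - (F.u m * x' + F.v n m) := by
      rw [e]; exact h.mul_left _
    exact (dvd_sub_comm.1 h1 |> fun h2 => by
      constructor
      · intro h3
        have := dvd_add h2 h3
        rwa [sub_add_cancel] at this
      · intro h3
        have := dvd_add h1 h3
        rwa [sub_add_cancel] at this)
  have hdet2 : ∀ (p : ℕ) (m m' : Option ι) (x : ℤ), (p : ℤ) ∣ F.L n m x → (p : ℤ) ∣ F.L n m' x →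
      (p : ℤ) ∣ F.u m * F.v n m' - F.u m' * F.v n m := by
    intro p m m' x h1 h2
    unfold Fam.L at h1 h2
    have e : F.u m * F.v n m' - F.u m' * F.v n m =
        F.u m * (F.u m' * x + F.v n m') - F.u m' * (F.u m * x + F.v n m) := by ring
    rw [e]
    exact dvd_sub (h2.mul_left _) (h1.mul_left _)
  have hGH : G.GH P P1 (DF F n P) (F.Q n z l l') (fun i => some i ≠ l ∧ some i ≠ l') (F.u l)
      (F.v n l) D z := by
    refine ⟨F.hu l, F.huv n hN0 l, hz2, fun p hp => ⟨(hpar.hP p hp).1, (hpar.hP p hp).2.1⟩,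
      fun p hp => hPu l p (hpar.hP p hp).1 (hpar.hP p hp).2.1, hP1p, ?_, ?_, ?_, ?_, ?_, ?_, hD,
      fun p hp => d1 l l' p hp⟩
    · exact Dl_loc hPp (fun p hp i => hPu (some i) p (hpar.hP p hp).1 (hpar.hP p hp).2.1)
        (fun i => F.huv n hN0 (some i)) _
    · intro j i i' x hii
      exact Dl_cop (fun p hp i i' hii => hpar.hdet p hp (some i) (some i')
        (fun h => hii (Option.some.inj h))) j i i' x hii
    · intro j i x hi hd h2
      exact hpar.hdet j.1 j.2 (some i) l hi.1 (hdet2 j.1 (some i) l x hd h2)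
    · intro p x x' h
      unfold Fam.Q
      rw [hdvdL p l x x' h]
      split_ifs
      · rw [Pool.Agent.BVall.dvd_eval_congr (F.Gc n l) h]
      · rw [hdvdL p l' x x' h]
    · intro p x h
      exact h.2
    · intro j i x hi hd hq
      have hjz : ¬ (j : ℕ) ≤ z := not_le.2 (hpar.hP j.1 j.2).2.1
      unfold Fam.Q at hq
      rw [if_neg hjz] at hq
      exact hpar.hdet j.1 j.2 (some i) l' hi.2 (hdet2 j.1 (some i) l' x hd hq.1)
  -- the sieve function
  have hRep' : RepC P1 (fun T => ∏ p ∈ T, p ≤ ⌊(n : ℝ) ^ (4974 / 10000 : ℝ)⌋₊) Ff := by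
    obtain ⟨c, hc1, hc2, hc3⟩ := hRep
    refine ⟨c, hc1, hc2, fun T hT hcT => ?_⟩
    have h1 := hc3 T hT hcT
    apply Nat.le_floor
    push_cast
    exact h1
  -- the densities
  set X1 : Finset ℕ := if l = l' then ∅ else (Pr (z + 1) y).filter
    (fun p => (p : ℤ) ∣ F.u l * F.v n l' - F.u l' * F.v n l) with hX1
  have hsmall : l = l' → ∀ p ∈ P1, p ≤ z := by
    intro hl p hp
    rcases hll with h | h
    · exact absurd hl h
    · rcases Finset.mem_union.1 hp with h1 | h1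
      · exact ((hPKm p).1 h1).2
      · have := (hPrm p).1 h1
        omega
  have hrd0 : ∀ p ∈ P1, z < p → F.rd n z l p = 1 / ((p : ℝ) - 1) := by
    intro p hp hzp
    unfold Fam.rd gd
    rw [if_neg (not_le.2 hzp)]
  have hp1 : ∀ p ∈ P1, (1 : ℝ) ≤ (p : ℝ) - 1 := by
    intro p hp
    have : (2 : ℝ) ≤ p := by exact_mod_cast (hP1p p hp).two_le
    linarith
  have h1 : ∀ p ∈ P1, 0 ≤ F.rd n z l p ∧
      rhoW (F.u l).natAbs (F.Q n z l l') p ≤ F.rd n z l p := by
    intro p hp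
    rcases le_or_gt p z with hpz | hpz
    · rw [d2 l l' p (hP1p p hp) hpz]
      refine ⟨?_, le_rfl⟩
      rw [← d2 l l' p (hP1p p hp) hpz]
      unfold rhoW
      positivity
    · have hne : l ≠ l' := fun h => absurd (hsmall h p hp) (not_le.2 hpz)
      rw [hrd0 p hp hpz, d3 l l' p hne (hP1p p hp) hpz]
      have h2 := hp1 p hp
      have h3 : (0 : ℝ) ≤ 1 / ((p : ℝ) - 1) := div_nonneg zero_le_one (by linarith)
      refine ⟨h3, ?_⟩
      split_ifs
      · exact h3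
      · exact le_rfl
  have h2 : ∀ p ∈ P1, p ∉ X1 → rhoW (F.u l).natAbs (F.Q n z l l') p = F.rd n z l p := by
    intro p hp hpX
    rcases le_or_gt p z with hpz | hpz
    · exact d2 l l' p (hP1p p hp) hpz
    · have hne : l ≠ l' := fun h => absurd (hsmall h p hp) (not_le.2 hpz)
      rw [hrd0 p hp hpz, d3 l l' p hne (hP1p p hp) hpz, if_neg]
      intro hd
      apply hpX
      rw [hX1, if_neg hne, Finset.mem_filter]
      refine ⟨?_, hd⟩
      rcases Finset.mem_union.1 hp with h3 | h3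
      · exact absurd ((hPKm p).1 h3).2 (not_le.2 hpz)
      · exact h3
  have h3 : ∀ p ∈ X1, z < p := by
    intro p hp
    rw [hX1] at hp
    split_ifs at hp
    · exact absurd hp (Finset.notMem_empty p)
    · have := (hPrm p).1 (Finset.mem_filter.1 hp).1
      omega
  have h4 : ∀ p ∈ P1, z < p → F.rd n z l p ≤ 2 / z := by
    intro p hp hpz
    rw [hrd0 p hp hpz]
    have h5 : (z : ℝ) ≤ (p : ℝ) - 1 := by
      have : (z : ℝ) + 1 ≤ p := by exact_mod_cast hpz
      linarith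
    calc 1 / ((p : ℝ) - 1) ≤ 1 / z := one_div_le_one_div_of_le hzR h5
      _ ≤ 2 / z := by
        apply div_le_div_of_nonneg_right _ hzR.le
        norm_num
  have hX1c : X1.card ≤ B0 + 1 := by
    rw [hX1]
    split_ifs with hl
    · simp
    · apply hcard l l' hl
      intro p hp
      rw [Finset.mem_filter] at hp
      have := (hPrm p).1 hp.1
      exact ⟨this.2.1, by omega, hp.2⟩
  -- the worst classes
  have hW : 0 < (F.u l).natAbs := Int.natAbs_pos.2 (F.hu l)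
  obtain ⟨c, hc1, hc2⟩ := exists_worstG a N (F.u l).natAbs hW
  have hY : ((yM M n * yM M n : ℕ) : ℝ) ≤ 2 ^ (2 * Real.log n) := by
    have h5 := yM_le hM n
    have h6 : ((yM M n * yM M n : ℕ) : ℝ) ≤ (n : ℝ) ^ (1 / 1000 : ℝ) * (n : ℝ) ^ (1 / 1000 : ℝ) := by
      push_cast
      exact mul_le_mul h5 h5 (Nat.cast_nonneg _) (Real.rpow_nonneg hn0.le _)
    refine h6.trans ?_
    rw [← Real.rpow_add hn0]
    calc (n : ℝ) ^ (1 / 1000 + 1 / 1000 : ℝ) ≤ (n : ℝ) ^ (1 : ℝ) :=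
          Real.rpow_le_rpow_of_exponent_le hn1 (by norm_num)
      _ = Real.exp (Real.log n * 1) := by rw [Real.rpow_def_of_pos hn0]
      _ ≤ Real.exp (Real.log 2 * (2 * Real.log n)) := by
          apply Real.exp_le_exp.2
          have := Real.log_two_gt_d9
          nlinarith
      _ = 2 ^ (2 * Real.log n) := by rw [Real.rpow_def_of_pos (by norm_num : (0 : ℝ) < 2)]
  have key := hgen ι P P1 (DF F n P) (F.Q n z l l') _ (F.u l) (F.v n l) D z hGH
    ⌊(n : ℝ) ^ (4974 / 10000 : ℝ)⌋₊ Ff hRep' (F.rd n z l) X1 h1 h2 h3 h4 a N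
    (fun q => er a N ((F.u l).natAbs * q) (c q)) hsT0 hc2 (fun q => abs_nonneg _) g B
    (2 * Real.log n) (yM M n) hg.bd hg.sup (fun α hα j i hi => hg.ne α hα j i hi) hY
    (by linarith)
  refine (le_trans (le_of_eq ?_) key).trans ?_
  · rfl
  -- the errors
  have hfin1 : (B : ℝ) ^ 2 * (3 * ∑ q ∈ (Icc 1 (yM M n * yM M n *
      ⌊(n : ℝ) ^ (4974 / 10000 : ℝ)⌋₊)).filter Squarefree,
      ((6 * Fintype.card ι * D : ℕ) : ℝ) ^ q.primeFactors.card *
        er a N ((F.u l).natAbs * q) (c q)) ≤ 1 / 2 * (n / (Real.log n) ^ A) := by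
    have h5 : yM M n * yM M n * ⌊(n : ℝ) ^ (4974 / 10000 : ℝ)⌋₊ ≤
        ⌊(n : ℝ) ^ (4995 / 10000 : ℝ)⌋₊ := by
      apply Nat.le_floor
      have h5 := yM_le hM n
      have h6 : (⌊(n : ℝ) ^ (4974 / 10000 : ℝ)⌋₊ : ℝ) ≤ (n : ℝ) ^ (4974 / 10000 : ℝ) :=
        Nat.floor_le (Real.rpow_nonneg hn0.le _)
      push_cast
      calc (yM M n : ℝ) * yM M n * ⌊(n : ℝ) ^ (4974 / 10000 : ℝ)⌋₊ ≤
            (n : ℝ) ^ (1 / 1000 : ℝ) * (n : ℝ) ^ (1 / 1000 : ℝ) * (n : ℝ) ^ (4974 / 10000 : ℝ) := by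
            apply mul_le_mul _ h6 (Nat.cast_nonneg _) (by positivity)
            exact mul_le_mul h5 h5 (Nat.cast_nonneg _) (Real.rpow_nonneg hn0.le _)
        _ = (n : ℝ) ^ (1 / 1000 + 1 / 1000 + 4974 / 10000 : ℝ) := by
            rw [Real.rpow_add hn0, Real.rpow_add hn0]
        _ ≤ (n : ℝ) ^ (4995 / 10000 : ℝ) :=
            Real.rpow_le_rpow_of_exponent_le hn1 (by norm_num)
    have h6 : ∑ q ∈ (Icc 1 (yM M n * yM M n *
        ⌊(n : ℝ) ^ (4974 / 10000 : ℝ)⌋₊)).filter Squarefree,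
        ((6 * Fintype.card ι * D : ℕ) : ℝ) ^ q.primeFactors.card *
          er a N ((F.u l).natAbs * q) (c q) ≤ n / (Real.log n) ^ (A + 1) := by
      refine le_trans ?_ (hbv c hc1)
      apply Finset.sum_le_sum_of_subset_of_nonneg
      · apply Finset.filter_subset_filter
        exact Finset.Icc_subset_Icc le_rfl h5
      · intro q _ _
        exact mul_nonneg (by positivity) (abs_nonneg _)
    have hL0 : 0 < Real.log n := by linarith
    calc (B : ℝ) ^ 2 * (3 * ∑ q ∈ (Icc 1 (yM M n * yM M n *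
        ⌊(n : ℝ) ^ (4974 / 10000 : ℝ)⌋₊)).filter Squarefree,
        ((6 * Fintype.card ι * D : ℕ) : ℝ) ^ q.primeFactors.card *
          er a N ((F.u l).natAbs * q) (c q)) ≤
          (B : ℝ) ^ 2 * (3 * (n / (Real.log n) ^ (A + 1))) := by
          apply mul_le_mul_of_nonneg_left _ (sq_nonneg _)
          exact mul_le_mul_of_nonneg_left h6 (by norm_num)
      _ = (6 * (B : ℝ) ^ 2) * (1 / 2 * (n / (Real.log n) ^ (A + 1))) := by ring
      _ ≤ Real.log n * (1 / 2 * (n / (Real.log n) ^ (A + 1))) := by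
          apply mul_le_mul_of_nonneg_right hfirst (by positivity)
      _ = _ := by
          rw [pow_succ]
          field_simp
  have hfin2 : (B : ℝ) ^ 2 * (sT a N / (Nat.totient (F.u l).natAbs : ℝ) *
      (3 * (2 / z) * ∏ p ∈ P1, (1 + F.rd n z l p)) * ((X1.card + 2 * Real.log n) *
      ∏ j : PJf P, (1 + (3 * Fintype.card ι : ℝ) * (1 / (((j : ℕ) : ℝ) - 1))))) ≤
      1 / 2 * (n / (Real.log n) ^ A) := by
    refine le_trans ?_ (htail z hpar.hzB)
    have hφ : (1 : ℝ) ≤ Nat.totient (F.u l).natAbs := by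
      exact_mod_cast Nat.totient_pos.2 hW
    have e1 : sT a N / (Nat.totient (F.u l).natAbs : ℝ) ≤ n * Real.log n :=
      (div_le_self hsT0 hφ).trans hsT1
    have e10 : 0 ≤ sT a N / (Nat.totient (F.u l).natAbs : ℝ) := div_nonneg hsT0 (by linarith)
    have e2 : ∏ p ∈ P1, (1 + F.rd n z l p) ≤ C1 * (Real.log n) ^ (2 * D) := by
      have e3 : ∏ p ∈ P1, (1 + F.rd n z l p) ≤
          ∏ p ∈ P1, (1 + ((2 * D : ℕ) : ℝ) / ((p : ℝ) - 1)) := by
        apply Finset.prod_le_prod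
        · intro p hp
          linarith [(h1 p hp).1]
        · intro p hp
          have h5 := hp1 p hp
          have hD1 : (1 : ℝ) ≤ D := by exact_mod_cast hD
          rcases le_or_gt p z with hpz | hpz
          · have h6 := (d4 l).le p (hP1p p hp)
            rw [if_pos ⟨hP1p p hp, hpz⟩] at h6
            have h7 : ((2 * D : ℕ) : ℝ) / (p : ℝ) ≤ ((2 * D : ℕ) : ℝ) / ((p : ℝ) - 1) :=
              div_le_div_of_nonneg_left (by positivity) (by linarith) (by linarith)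
            linarith
          · rw [hrd0 p hp hpz]
            have h7 : 1 / ((p : ℝ) - 1) ≤ ((2 * D : ℕ) : ℝ) / ((p : ℝ) - 1) := by
              apply div_le_div_of_nonneg_right _ (by linarith)
              push_cast
              linarith
            linarith
      refine e3.trans (le_trans ?_ (hpr1 n hn3))
      apply prod_le_of_subset
      · intro p hp
        rw [Finset.mem_filter, Finset.mem_Icc]
        exact ⟨⟨(hP1p p hp).one_le, hP1n p hp⟩, hP1p p hp⟩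
      · intro p hp
        have h5 : (2 : ℝ) ≤ p := by exact_mod_cast (Finset.mem_filter.1 hp).2.two_le
        have h6 : 0 ≤ ((2 * D : ℕ) : ℝ) / ((p : ℝ) - 1) := div_nonneg (by positivity) (by linarith)
        linarith
    have e20 : 0 ≤ ∏ p ∈ P1, (1 + F.rd n z l p) := Finset.prod_nonneg fun p hp => by
      linarith [(h1 p hp).1]
    have e4 : ∏ j : PJf P, (1 + (3 * Fintype.card ι : ℝ) * (1 / (((j : ℕ) : ℝ) - 1))) ≤
        C2 * (Real.log n) ^ (3 * Fintype.card ι) := by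
      have e5 : ∏ j : PJf P, (1 + (3 * Fintype.card ι : ℝ) * (1 / (((j : ℕ) : ℝ) - 1))) =
          ∏ p ∈ P, (1 + ((3 * Fintype.card ι : ℕ) : ℝ) / ((p : ℝ) - 1)) := by
        rw [← Finset.prod_coe_sort P (fun p => 1 + ((3 * Fintype.card ι : ℕ) : ℝ) / ((p : ℝ) - 1))]
        apply Finset.prod_congr rfl
        intro j _
        push_cast
        ring
      rw [e5]
      refine le_trans ?_ (hpr2 n hn3)
      apply prod_le_of_subset
      · intro p hp
        rw [Finset.mem_filter, Finset.mem_Icc]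
        exact ⟨⟨(hPp p hp).one_le, (hpar.hP p hp).2.2.trans hyMn⟩, hPp p hp⟩
      · intro p hp
        have h5 : (2 : ℝ) ≤ p := by exact_mod_cast (Finset.mem_filter.1 hp).2.two_le
        have h6 : 0 ≤ ((3 * Fintype.card ι : ℕ) : ℝ) / ((p : ℝ) - 1) :=
          div_nonneg (by positivity) (by linarith)
        linarith
    have e40 : 0 ≤ ∏ j : PJf P, (1 + (3 * Fintype.card ι : ℝ) * (1 / (((j : ℕ) : ℝ) - 1))) := by
      apply Finset.prod_nonneg
      intro j _
      have h5 : (2 : ℝ) ≤ ((j : ℕ) : ℝ) := by exact_mod_cast (hPp j.1 j.2).two_le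
      have h6 : 0 ≤ 1 / (((j : ℕ) : ℝ) - 1) := div_nonneg zero_le_one (by linarith)
      positivity
    have e6 : (X1.card : ℝ) + 2 * Real.log n ≤ (B0 + 1 : ℝ) + 2 * Real.log n := by
      have : (X1.card : ℝ) ≤ (B0 : ℝ) + 1 := by exact_mod_cast hX1c
      linarith
    have hL0 : 0 ≤ Real.log n := by linarith
    apply mul_le_mul_of_nonneg_left _ (sq_nonneg _)
    apply mul_le_mul
    · apply mul_le_mul e1 _ (mul_nonneg (by positivity) e20) (by positivity)
      exact mul_le_mul_of_nonneg_left e2 (by positivity)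
    · exact mul_le_mul e6 e4 e40 (by positivity)
    · exact mul_nonneg (add_nonneg (Nat.cast_nonneg _) (by linarith)) e40
    · positivity
  have hfin : (B : ℝ) ^ 2 * (3 * ∑ q ∈ (Icc 1 (yM M n * yM M n *
      ⌊(n : ℝ) ^ (4974 / 10000 : ℝ)⌋₊)).filter Squarefree,
      ((6 * Fintype.card ι * D : ℕ) : ℝ) ^ q.primeFactors.card *
        er a N ((F.u l).natAbs * q) (c q) + sT a N / (Nat.totient (F.u l).natAbs : ℝ) *
      (3 * (2 / z) * ∏ p ∈ P1, (1 + F.rd n z l p)) * ((X1.card + 2 * Real.log n) *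
      ∏ j : PJf P, (1 + (3 * Fintype.card ι : ℝ) * (1 / (((j : ℕ) : ℝ) - 1))))) ≤
      n / (Real.log n) ^ A := by
    rw [mul_add]
    linarith
  exact hfin

end Pool.Agent.CM.F
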