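import Pool.Agent.Lib.MP_0da313_nt.CM.B
import Pool.Agent.Lib.MP_d610d0_nt.CH.D.p_ms

set_option autoImplicit false

/-!
Project CM, piece bil: the bilinear large sieve with a window.
-/

namespace Pool.Agent.CM.B

open Finset Filter
open Pool.Agent.MP89da58 (tri primChars)
open Pool.Agent.CH.D (dp kap ms_pz_norm ms_dp_cont ms_dp_le ms_fourier)
open Pool.Agent.CH.V (pz)

theorem cm_bil_wd (lam X : ℝ) (hX : 0 < X) {m n : ℕ} (hm : 1 ≤ m) (hn : 1 ≤ n) :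
    wd lam X (m * n) = tri (lam * (Real.log m + Real.log n - Real.log X)) := by
  have hm0 : (m : ℝ) ≠ 0 := by positivity
  have hn0 : (n : ℝ) ≠ 0 := by positivity
  rw [wd, Nat.cast_mul, Real.log_div (mul_ne_zero hm0 hn0) hX.ne', Real.log_mul hm0 hn0]

/-- the large sieve for Dirichlet polynomials -/
theorem cm_bil_ls {C : ℝ} (hls : ∀ (R K N : ℕ) (x : ℕ → ℂ),
    ∑ p ∈ primChars R, ‖∑ n ∈ Ioc K (K + N), x n * p.2 (n : ZMod p.1)‖ ^ 2
      ≤ C * ((N : ℝ) + (R : ℝ) ^ 2) * ∑ n ∈ Ioc K (K + N), ‖x n‖ ^ 2) (R M : ℕ) (a : ℕ → ℂ)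
    (θ : ℝ) :
    ∑ p ∈ primChars R, ‖dp (fun m => a m * p.2 (m : ZMod p.1)) M θ‖ ^ 2 ≤
      C * ((M : ℝ) + (R : ℝ) ^ 2) * ∑ m ∈ Icc 1 M, ‖a m‖ ^ 2 := by
  have h := hls R 0 M (fun m => a m * pz (-θ) m)
  have h0 : Ioc 0 (0 + M) = Icc 1 M := by
    ext x
    simp only [mem_Ioc, mem_Icc]
    omega
  rw [h0] at h
  refine le_trans (le_of_eq ?_) (h.trans (le_of_eq ?_))
  · refine sum_congr rfl fun p _ => ?_
    rw [dp]
    congr 2
    refine sum_congr rfl fun m _ => ?_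
    ring
  · congr 1
    refine sum_congr rfl fun m _ => ?_
    rw [norm_mul, ms_pz_norm, mul_one]

theorem p_bil : S_bil := by
  rintro ⟨C, hC, hls⟩ hkf hkb
  refine ⟨C, hC, fun lam X M N R a b hlam hX => ?_⟩
  obtain ⟨hint, htri⟩ := hkf lam hlam
  have hk0 := (hkb lam hlam).1
  set SA : ℝ := ∑ m ∈ Icc 1 M, ‖a m‖ ^ 2 with hSA
  set SB : ℝ := ∑ n ∈ Icc 1 N, ‖b n‖ ^ 2 with hSB
  have hSA0 : 0 ≤ SA := sum_nonneg fun _ _ => by positivity
  have hSB0 : 0 ≤ SB := sum_nonneg fun _ _ => by positivity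
  set KA : ℝ := C * ((M : ℝ) + (R : ℝ) ^ 2) * SA with hKA
  set KB : ℝ := C * ((N : ℝ) + (R : ℝ) ^ 2) * SB with hKB
  have hKA0 : 0 ≤ KA := by positivity
  have hKB0 : 0 ≤ KB := by positivity
  -- the twisted sequences
  set A : (Σ q, DirichletCharacter ℂ q) → ℝ → ℂ :=
    fun p θ => dp (fun m => a m * p.2 (m : ZMod p.1)) M θ with hA
  set B : (Σ q, DirichletCharacter ℂ q) → ℝ → ℂ :=
    fun p θ => dp (fun n => b n * p.2 (n : ZMod p.1)) N θ with hB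
  have h1 : ∀ p ∈ primChars R, ‖∑ m ∈ Icc 1 M, ∑ n ∈ Icc 1 N,
      a m * b n * p.2 ((m * n : ℕ) : ZMod p.1) * (wd lam X (m * n) : ℂ)‖ ≤
      ∫ θ : ℝ, kap lam θ * (‖A p θ‖ * ‖B p θ‖) := by
    intro p _
    have e : ∑ m ∈ Icc 1 M, ∑ n ∈ Icc 1 N,
        a m * b n * p.2 ((m * n : ℕ) : ZMod p.1) * (wd lam X (m * n) : ℂ) =
        ∑ m ∈ Icc 1 M, ∑ n ∈ Icc 1 N, (a m * p.2 (m : ZMod p.1)) * (b n * p.2 (n : ZMod p.1)) *
          ((tri (lam * (Real.log m + Real.log n - Real.log X)) : ℝ) : ℂ) := by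
      refine sum_congr rfl fun m hm => sum_congr rfl fun n hn => ?_
      rw [cm_bil_wd lam X hX (mem_Icc.1 hm).1 (mem_Icc.1 hn).1, Nat.cast_mul, map_mul]
      ring
    rw [e, ms_fourier hkf hlam]
    refine (MeasureTheory.norm_integral_le_integral_norm _).trans (le_of_eq ?_)
    refine MeasureTheory.integral_congr_ae (MeasureTheory.ae_of_all _ fun θ => ?_)
    change ‖(kap lam θ : ℂ) * (A p θ * B p θ) * Complex.exp (-(Complex.I * ((θ * Real.log X : ℝ) : ℂ)))‖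
      = kap lam θ * (‖A p θ‖ * ‖B p θ‖)
    have e2 : ‖Complex.exp (-(Complex.I * ((θ * Real.log X : ℝ) : ℂ)))‖ = 1 := by
      rw [Complex.norm_exp]
      simp
    rw [norm_mul, norm_mul, norm_mul, e2, mul_one, Complex.norm_real, Real.norm_of_nonneg (hk0 θ)]
  have hcont : ∀ p, Continuous fun θ => ‖A p θ‖ * ‖B p θ‖ := fun p =>
    (ms_dp_cont _ _).norm.mul (ms_dp_cont _ _).norm
  have hI : ∀ p, MeasureTheory.Integrable fun θ : ℝ => kap lam θ * (‖A p θ‖ * ‖B p θ‖) := by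
    intro p
    refine hint.mul_bdd (c := (∑ m ∈ Icc 1 M, ‖a m * p.2 (m : ZMod p.1)‖) *
      ∑ n ∈ Icc 1 N, ‖b n * p.2 (n : ZMod p.1)‖) (hcont p).aestronglyMeasurable
      (MeasureTheory.ae_of_all _ fun θ => ?_)
    rw [Real.norm_of_nonneg (by positivity)]
    exact mul_le_mul (ms_dp_le _ _ θ) (ms_dp_le _ _ θ) (norm_nonneg _)
      (sum_nonneg fun _ _ => norm_nonneg _)
  have hone : ∫ θ : ℝ, kap lam θ = 1 := by
    have h := htri 0
    simp only [mul_zero, Complex.ofReal_zero, Complex.exp_zero, mul_one] at h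
    rw [integral_complex_ofReal] at h
    have h2 : (tri 0 : ℝ) = 1 := by simp [tri]
    rw [h2] at h
    exact_mod_cast h
  have hpt : ∀ θ : ℝ, ∑ p ∈ primChars R, ‖A p θ‖ * ‖B p θ‖ ≤ Real.sqrt KA * Real.sqrt KB := by
    intro θ
    have hcs := Real.sum_mul_le_sqrt_mul_sqrt (primChars R) (fun p => ‖A p θ‖) (fun p => ‖B p θ‖)
    refine hcs.trans (mul_le_mul (Real.sqrt_le_sqrt ?_) (Real.sqrt_le_sqrt ?_) (Real.sqrt_nonneg _)
      (Real.sqrt_nonneg _))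
    · exact cm_bil_ls hls R M a θ
    · exact cm_bil_ls hls R N b θ
  calc ∑ p ∈ primChars R, ‖∑ m ∈ Icc 1 M, ∑ n ∈ Icc 1 N,
        a m * b n * p.2 ((m * n : ℕ) : ZMod p.1) * (wd lam X (m * n) : ℂ)‖
      ≤ ∑ p ∈ primChars R, ∫ θ : ℝ, kap lam θ * (‖A p θ‖ * ‖B p θ‖) := sum_le_sum h1
    _ = ∫ θ : ℝ, ∑ p ∈ primChars R, kap lam θ * (‖A p θ‖ * ‖B p θ‖) :=
        (MeasureTheory.integral_finsetSum _ fun p _ => hI p).symm
    _ ≤ ∫ θ : ℝ, kap lam θ * (Real.sqrt KA * Real.sqrt KB) := by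
        refine MeasureTheory.integral_mono (MeasureTheory.integrable_finsetSum _ fun p _ => hI p)
          (hint.mul_const _) fun θ => ?_
        change ∑ p ∈ primChars R, kap lam θ * (‖A p θ‖ * ‖B p θ‖) ≤ _
        rw [← mul_sum]
        exact mul_le_mul_of_nonneg_left (hpt θ) (hk0 θ)
    _ = Real.sqrt KA * Real.sqrt KB := by
        rw [MeasureTheory.integral_mul_const, hone, one_mul]
    _ = C * Real.sqrt (((M : ℝ) + (R : ℝ) ^ 2) * ((N : ℝ) + (R : ℝ) ^ 2)) *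
          Real.sqrt (SA * SB) := by
        have hC0 : (0 : ℝ) ≤ C := by linarith
        rw [← Real.sqrt_mul hKA0, hKA, hKB]
        have e : C * ((M : ℝ) + (R : ℝ) ^ 2) * SA * (C * ((N : ℝ) + (R : ℝ) ^ 2) * SB) =
          C ^ 2 * ((((M : ℝ) + (R : ℝ) ^ 2) * ((N : ℝ) + (R : ℝ) ^ 2)) * (SA * SB)) := by ring
        rw [e, Real.sqrt_mul (by positivity), Real.sqrt_sq hC0, Real.sqrt_mul (by positivity),
          mul_assoc]

end Pool.Agent.CM.B
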