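import Pool.Agent.Lib.MP_0da313_nt.CM.B

set_option autoImplicit false

/-!
Project CM, section B: one block, large conductors.
-/

namespace Pool.Agent.CM.B

open Finset Filter
open Pool.Agent.MP89da58 (tri primChars)

private theorem cm_blk_log (K : ℝ) (n : ℕ) {s : ℝ} (hs : 0 < s) :
    ∀ᶠ X : ℝ in atTop, K * (Real.log X) ^ n ≤ X ^ s := by
  have h := isLittleO_log_rpow_rpow_atTop (n : ℝ) hs
  have hc : (0 : ℝ) < 1 / (|K| + 1) := by positivity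
  filter_upwards [h.def hc, eventually_ge_atTop (1 : ℝ)] with X hX h1
  have hL : 0 ≤ Real.log X := Real.log_nonneg h1
  rw [Real.rpow_natCast, Real.norm_of_nonneg (pow_nonneg hL n),
    Real.norm_of_nonneg (Real.rpow_nonneg (by linarith) _)] at hX
  have hK : 0 < |K| + 1 := by positivity
  have h2 : (|K| + 1) * (Real.log X) ^ n ≤ X ^ s := by
    calc (|K| + 1) * (Real.log X) ^ n ≤ (|K| + 1) * (1 / (|K| + 1) * X ^ s) :=
          mul_le_mul_of_nonneg_left hX hK.le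
      _ = X ^ s := by field_simp
  have h3 : K * (Real.log X) ^ n ≤ (|K| + 1) * (Real.log X) ^ n :=
    mul_le_mul_of_nonneg_right (by linarith [le_abs_self K]) (pow_nonneg hL n)
  exact h3.trans h2

/-- The main inequality, for the squares. -/
private theorem cm_blk_main {C L X R M N Xd Xe Sa Sb : ℝ} {A : ℕ} (hC : 1 ≤ C) (hL : 0 < L)
    (hX : 0 < X) (hM : 0 ≤ M) (hN : 0 ≤ N) (hXd : 0 < Xd) (hXe : 0 < Xe)
    (hR : L ^ (A + 7) ≤ R) (h1 : 108 * C ^ 2 ≤ L ^ 2)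
    (h2 : 108 * C ^ 2 * L ^ (12 + 2 * A) ≤ Xd) (h3 : 108 * C ^ 2 * L ^ (12 + 2 * A) ≤ Xe)
    (hMN : M * N ≤ 3 * X) (hM' : Xd ≤ M) (hN' : Xd ≤ N) (hR' : R ^ 2 * Xe ≤ X)
    (hSa : Sa ≤ M * L ^ 6) (hSb : Sb ≤ N * L ^ 6) (hSa0 : 0 ≤ Sa) (hSb0 : 0 ≤ Sb) :
    C ^ 2 * ((2 * M + R ^ 2) * (2 * N + R ^ 2)) * (Sa * Sb) * L ^ (2 * A) ≤ (R * X) ^ 2 := by
  have hR0 : 0 < R := lt_of_lt_of_le (pow_pos hL _) hR
  have hMN0 : 0 ≤ M * N := mul_nonneg hM hN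
  have hP : 0 ≤ L ^ (12 + 2 * A) := (pow_pos hL _).le
  -- replace the sums
  have e1 : Sa * Sb ≤ M * N * L ^ 12 := by
    calc Sa * Sb ≤ (M * L ^ 6) * (N * L ^ 6) := mul_le_mul hSa hSb hSb0 (by positivity)
      _ = M * N * L ^ 12 := by ring
  have e2 : C ^ 2 * ((2 * M + R ^ 2) * (2 * N + R ^ 2)) * (Sa * Sb) * L ^ (2 * A) ≤
      C ^ 2 * ((2 * M + R ^ 2) * (2 * N + R ^ 2)) * (M * N * L ^ 12) * L ^ (2 * A) := by
    gcongr
  refine e2.trans ?_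
  -- three terms
  have t1 : C ^ 2 * L ^ (12 + 2 * A) * (4 * (M * N) ^ 2) ≤ (R * X) ^ 2 / 3 := by
    have a1 : (M * N) ^ 2 ≤ (3 * X) ^ 2 := pow_le_pow_left₀ hMN0 hMN 2
    have a2 : (L ^ (A + 7)) ^ 2 ≤ R ^ 2 := pow_le_pow_left₀ (pow_pos hL _).le hR 2
    have a3 : 108 * C ^ 2 * L ^ (12 + 2 * A) ≤ R ^ 2 := by
      calc 108 * C ^ 2 * L ^ (12 + 2 * A) ≤ L ^ 2 * L ^ (12 + 2 * A) :=
            mul_le_mul_of_nonneg_right h1 hP
        _ = (L ^ (A + 7)) ^ 2 := by ring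
        _ ≤ R ^ 2 := a2
    calc C ^ 2 * L ^ (12 + 2 * A) * (4 * (M * N) ^ 2)
        ≤ C ^ 2 * L ^ (12 + 2 * A) * (4 * (3 * X) ^ 2) := by gcongr
      _ = (108 * C ^ 2 * L ^ (12 + 2 * A)) * X ^ 2 / 3 := by ring
      _ ≤ R ^ 2 * X ^ 2 / 3 := by gcongr
      _ = (R * X) ^ 2 / 3 := by ring
  have t2 : C ^ 2 * L ^ (12 + 2 * A) * (2 * R ^ 2 * (M * N) * (M + N)) ≤ (R * X) ^ 2 / 3 := by
    have a1 : M * Xd ≤ 3 * X := (mul_le_mul_of_nonneg_left hN' hM).trans hMN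
    have a2 : N * Xd ≤ 3 * X := by
      have := mul_le_mul_of_nonneg_right hM' hN
      nlinarith
    have a3 : (M + N) * (108 * C ^ 2 * L ^ (12 + 2 * A)) ≤ 6 * X := by
      calc (M + N) * (108 * C ^ 2 * L ^ (12 + 2 * A)) ≤ (M + N) * Xd := by gcongr
        _ ≤ 6 * X := by linarith
    calc C ^ 2 * L ^ (12 + 2 * A) * (2 * R ^ 2 * (M * N) * (M + N))
        ≤ C ^ 2 * L ^ (12 + 2 * A) * (2 * R ^ 2 * (3 * X) * (M + N)) := by gcongr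
      _ = R ^ 2 * X * ((M + N) * (108 * C ^ 2 * L ^ (12 + 2 * A))) / 18 := by ring
      _ ≤ R ^ 2 * X * (6 * X) / 18 := by gcongr
      _ = (R * X) ^ 2 / 3 := by ring
  have t3 : C ^ 2 * L ^ (12 + 2 * A) * (R ^ 4 * (M * N)) ≤ (R * X) ^ 2 / 3 := by
    calc C ^ 2 * L ^ (12 + 2 * A) * (R ^ 4 * (M * N))
        ≤ C ^ 2 * L ^ (12 + 2 * A) * (R ^ 4 * (3 * X)) := by gcongr
      _ = R ^ 2 * X * (R ^ 2 * (108 * C ^ 2 * L ^ (12 + 2 * A))) / 36 := by ring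
      _ ≤ R ^ 2 * X * (R ^ 2 * Xe) / 36 := by gcongr
      _ ≤ R ^ 2 * X * X / 36 := by gcongr
      _ ≤ (R * X) ^ 2 / 3 := by nlinarith [sq_nonneg (R * X)]
  calc C ^ 2 * ((2 * M + R ^ 2) * (2 * N + R ^ 2)) * (M * N * L ^ 12) * L ^ (2 * A)
      = C ^ 2 * L ^ (12 + 2 * A) * (4 * (M * N) ^ 2) +
        C ^ 2 * L ^ (12 + 2 * A) * (2 * R ^ 2 * (M * N) * (M + N)) +
        C ^ 2 * L ^ (12 + 2 * A) * (R ^ 4 * (M * N)) := by ring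
    _ ≤ (R * X) ^ 2 := by linarith

/-- [CM blk] -/
theorem p_blk : S_blk := by
  rintro ⟨C, hC, hb⟩ lam A δ ε hlam hδ hε
  refine ⟨A + 7, ?_⟩
  have hlog : ∀ᶠ X : ℝ in atTop, 108 * C ^ 2 ≤ Real.log X :=
    Real.tendsto_log_atTop.eventually_ge_atTop _
  filter_upwards [cm_blk_log (108 * C ^ 2) (12 + 2 * A) hδ,
    cm_blk_log (108 * C ^ 2) (12 + 2 * A) (show 0 < 2 * ε by linarith), hlog,
    eventually_ge_atTop (1 : ℝ)] with X h2 h3 h1 hX1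
  intro R M N a b hR hR' hM hN hMN hSa hSb
  have hX : 0 < X := by linarith
  have hL : 1 ≤ Real.log X := by
    have : (1 : ℝ) ≤ C ^ 2 := one_le_pow₀ hC
    linarith
  have hL0 : 0 < Real.log X := by linarith
  have h1' : 108 * C ^ 2 ≤ Real.log X ^ 2 := by nlinarith
  have hbb := hb lam X (2 * M) (2 * N) R a b (by linarith) hX
  have hR2 : (R : ℝ) ^ 2 * X ^ (2 * ε) ≤ X := by
    have e1 : (R : ℝ) ^ 2 ≤ (X ^ (1 / 2 - ε : ℝ)) ^ 2 :=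
      pow_le_pow_left₀ (Nat.cast_nonneg R) hR' 2
    have e2 : (X ^ (1 / 2 - ε : ℝ)) ^ 2 * X ^ (2 * ε) = X := by
      rw [← Real.rpow_natCast, ← Real.rpow_mul hX.le, ← Real.rpow_add hX]
      have : (1 / 2 - ε) * ((2 : ℕ) : ℝ) + 2 * ε = 1 := by push_cast; ring
      rw [this, Real.rpow_one]
    calc (R : ℝ) ^ 2 * X ^ (2 * ε) ≤ (X ^ (1 / 2 - ε : ℝ)) ^ 2 * X ^ (2 * ε) := by
          gcongr
      _ = X := e2
  have hMN' : (M : ℝ) * N ≤ 3 * X := by exact_mod_cast hMN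
  have hSa0 : 0 ≤ ∑ m ∈ Icc 1 (2 * M), ‖a m‖ ^ 2 := sum_nonneg fun _ _ => by positivity
  have hSb0 : 0 ≤ ∑ n ∈ Icc 1 (2 * N), ‖b n‖ ^ 2 := sum_nonneg fun _ _ => by positivity
  have key := cm_blk_main (A := A) hC hL0 hX (Nat.cast_nonneg M) (Nat.cast_nonneg N)
    (Real.rpow_pos_of_pos hX δ) (Real.rpow_pos_of_pos hX (2 * ε)) hR h1' h2 h3 hMN' hM hN hR2
    hSa hSb hSa0 hSb0
  refine hbb.trans ?_
  rw [le_div_iff₀ (pow_pos hL0 A)]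
  have hRX : 0 ≤ (R : ℝ) * X := by positivity
  rw [← pow_le_pow_iff_left₀ (by positivity) hRX (two_ne_zero)]
  refine le_trans (le_of_eq ?_) key
  rw [mul_pow, mul_pow, mul_pow, Real.sq_sqrt (by positivity), Real.sq_sqrt (by positivity)]
  push_cast
  ring

end Pool.Agent.CM.B
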