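import Pool.Agent.Lib.MP_0da313_nt.CM.W

set_option autoImplicit false

/-!
Project CM, section W: replacing `1/p` by `1/(p-1)` in the quadratic form.
-/

namespace Pool.Agent.CM.W

open Finset Filter
open Pool.Agent.MP89da58 (bil pw nn supp part compat join prod_kap_compat prod_kap_not_compat)
open Pool.Agent.MT (PJf err_sum_leI)

/-- comparison of the products -/
lemma bp_pw {J : Type} (p : J → ℕ) (z : ℕ) (hz : 2 ≤ z) (hp : ∀ j, z < p j) (A : Finset J) :
    0 ≤ pw (fun j => 1 / ((p j : ℝ) - 1)) A - pw (fun j => 1 / (p j : ℝ)) A ∧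
      pw (fun j => 1 / ((p j : ℝ) - 1)) A - pw (fun j => 1 / (p j : ℝ)) A ≤
        pw (fun j => 1 / ((p j : ℝ) - 1)) A * (A.card * (1 / z)) := by
  classical
  have hz0 : (0 : ℝ) < z := by exact_mod_cast (show 0 < z by omega)
  have hpr : ∀ j, (2 : ℝ) < p j := fun j => by exact_mod_cast (lt_of_le_of_lt hz (hp j))
  have hpz : ∀ j, 1 / (p j : ℝ) ≤ 1 / z := fun j =>
    one_div_le_one_div_of_le hz0 (by exact_mod_cast (hp j).le)
  unfold pw
  induction A using Finset.induction_on with
  | empty => simp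
  | insert j A hj ih =>
    obtain ⟨ih1, ih2⟩ := ih
    rw [Finset.prod_insert hj, Finset.prod_insert hj, Finset.card_insert_of_notMem hj]
    set U := ∏ j ∈ A, 1 / ((p j : ℝ) - 1) with hU
    set V := ∏ j ∈ A, 1 / (p j : ℝ) with hV
    have hU0 : 0 ≤ U := Finset.prod_nonneg fun i _ => by
      have := hpr i
      apply div_nonneg zero_le_one
      linarith
    have h2 := hpr j
    have hx' : 0 < 1 / ((p j : ℝ) - 1) := by
      apply div_pos one_pos
      linarith
    have hx : 0 < 1 / (p j : ℝ) := by positivity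
    have hd : 1 / ((p j : ℝ) - 1) - 1 / (p j : ℝ) = 1 / ((p j : ℝ) - 1) * (1 / (p j : ℝ)) := by
      have h3 : (p j : ℝ) ≠ 0 := by linarith
      have h4 : (p j : ℝ) - 1 ≠ 0 := by linarith
      field_simp
      ring
    have hdle : 1 / ((p j : ℝ) - 1) - 1 / (p j : ℝ) ≤ 1 / ((p j : ℝ) - 1) * (1 / z) := by
      rw [hd]
      exact mul_le_mul_of_nonneg_left (hpz j) hx'.le
    have hd0 : 0 ≤ 1 / ((p j : ℝ) - 1) - 1 / (p j : ℝ) := by
      rw [hd]
      positivity
    have e : 1 / ((p j : ℝ) - 1) * U - 1 / (p j : ℝ) * V =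
        (1 / ((p j : ℝ) - 1) - 1 / (p j : ℝ)) * U + 1 / (p j : ℝ) * (U - V) := by ring
    rw [e]
    constructor
    · exact add_nonneg (mul_nonneg hd0 hU0) (mul_nonneg hx.le ih1)
    · have h5 : (1 / ((p j : ℝ) - 1) - 1 / (p j : ℝ)) * U ≤ 1 / ((p j : ℝ) - 1) * (1 / z) * U :=
        mul_le_mul_of_nonneg_right hdle hU0
      have h6 : 1 / (p j : ℝ) * (U - V) ≤ 1 / ((p j : ℝ) - 1) * (U * (A.card * (1 / z))) := by
        apply mul_le_mul _ ih2 ih1 hx'.le
        linarith
      push_cast
      nlinarith [h5, h6]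

theorem p_bp : S_bp := by
  classical
  intro ι _ _ P z hz hPz lam B r Y hB hs hY hr
  set p : PJf P → ℕ := fun j => (j : ℕ) with hp
  have hpz : ∀ j, z < p j := fun j => hPz _ j.2
  have hz0 : (0 : ℝ) < z := by exact_mod_cast (show 0 < z by omega)
  set x' : PJf P → ℝ := fun j => 1 / (((j : ℕ) : ℝ) - 1) with hx'
  set x : PJf P → ℝ := fun j => 1 / ((j : ℕ) : ℝ) with hx
  have hx'0 : ∀ j, 0 ≤ x' j := fun j => by
    have h1 : (2 : ℝ) < ((j : ℕ) : ℝ) := by exact_mod_cast (lt_of_le_of_lt hz (hpz j))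
    simp only [hx']
    apply div_nonneg zero_le_one
    linarith
  set E : Finset (PJf P) → ℝ := fun a => if nn p a ≤ Y * Y then pw x' a * (r * (1 / z)) else 0
    with hE
  have hpw0 : ∀ a, 0 ≤ pw x' a := fun a => Finset.prod_nonneg fun j _ => hx'0 j
  have hE0 : ∀ a, 0 ≤ E a := by
    intro a
    simp only [hE]
    split_ifs
    · have := hpw0 a
      positivity
    · exact le_rfl
  -- the cardinality of the sets
  have hcard : ∀ a : Finset (PJf P), nn p a ≤ Y * Y → (a.card : ℝ) ≤ r := by
    intro a ha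
    have h1 : 2 ^ a.card ≤ nn p a := by
      unfold nn
      rw [← Finset.prod_const]
      exact Finset.prod_le_prod' fun j _ => by have := hpz j; omega
    have h2 : ((2 : ℝ)) ^ (a.card : ℝ) ≤ 2 ^ r := by
      refine le_trans ?_ hY
      rw [Real.rpow_natCast]
      exact_mod_cast h1.trans ha
    exact (Real.rpow_le_rpow_left_iff (by norm_num)).1 h2
  have hdiff : ∀ a : Finset (PJf P), nn p a ≤ Y * Y → |pw x' a - pw x a| ≤ E a := by
    intro a ha
    obtain ⟨h1, h2⟩ := bp_pw p z hz hpz a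
    simp only [hE]
    rw [if_pos ha, abs_of_nonneg h1]
    refine h2.trans ?_
    apply mul_le_mul_of_nonneg_left _ (hpw0 a)
    exact mul_le_mul_of_nonneg_right (hcard a ha) (by positivity)
  have h1 : |bil x' lam lam - bil x lam lam| ≤
      ∑ α : PJf P → Option ι, ∑ β : PJf P → Option ι,
      if lam α ≠ 0 ∧ lam β ≠ 0 ∧ compat α β then |lam α| * |lam β| *
        E (supp (join α β)) else 0 := by
    unfold bil
    rw [← Finset.sum_sub_distrib]
    refine (Finset.abs_sum_le_sum_abs _ _).trans (Finset.sum_le_sum fun α _ => ?_)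
    rw [← Finset.sum_sub_distrib]
    refine (Finset.abs_sum_le_sum_abs _ _).trans (Finset.sum_le_sum fun β _ => ?_)
    by_cases hc : compat α β
    · rw [prod_kap_compat _ α β hc, prod_kap_compat _ α β hc]
      by_cases hα : lam α = 0
      · simp [hα]
      · by_cases hβ : lam β = 0
        · simp [hβ]
        · rw [if_pos ⟨hα, hβ, hc⟩, ← mul_sub, abs_mul, abs_mul]
          apply mul_le_mul_of_nonneg_left _ (by positivity)
          apply hdiff
          rw [MP89da58.supp_join]
          exact le_trans (MP89da58.nn_union_le (fun j => by have := hpz j; omega) _ _)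
            (Nat.mul_le_mul (hs _ hα) (hs _ hβ))
    · rw [prod_kap_not_compat _ α β hc, prod_kap_not_compat _ α β hc, if_neg (by tauto)]
      simp
  have h2 := err_sum_leI p (fun j => by have := hpz j; omega) lam B Y hB hs E hE0
  refine (h1.trans h2).trans ?_
  apply mul_le_mul_of_nonneg_left _ (sq_nonneg B)
  have h3 : ∏ j : PJf P, (1 + (3 * Fintype.card ι : ℝ) * x' j) =
      ∑ a : Finset (PJf P), ((3 * Fintype.card ι : ℕ) : ℝ) ^ a.card * pw x' a := by
    rw [Finset.prod_one_add, Finset.powerset_univ]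
    apply Finset.sum_congr rfl
    intro a _
    unfold pw
    rw [Finset.prod_mul_distrib, Finset.prod_const]
    push_cast
    rfl
  rw [h3, Finset.mul_sum]
  calc ∑ a ∈ (Finset.univ : Finset (Finset (PJf P))).filter (fun a => nn p a ≤ Y * Y),
      ((3 * Fintype.card ι : ℕ) : ℝ) ^ a.card * E a ≤
      ∑ a ∈ (Finset.univ : Finset (Finset (PJf P))).filter (fun a => nn p a ≤ Y * Y),
        (2 / z * r) * (((3 * Fintype.card ι : ℕ) : ℝ) ^ a.card * pw x' a) := by
        apply Finset.sum_le_sum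
        intro a ha
        rw [Finset.mem_filter] at ha
        simp only [hE]
        rw [if_pos ha.2]
        have h4 : 0 ≤ ((3 * Fintype.card ι : ℕ) : ℝ) ^ a.card * pw x' a :=
          mul_nonneg (by positivity) (hpw0 a)
        have h5 : 0 ≤ r * (1 / (z : ℝ)) := by positivity
        have h6 : (2 / (z : ℝ) * r) = 2 * (r * (1 / z)) := by ring
        rw [h6]
        nlinarith [mul_nonneg h4 h5]
    _ ≤ ∑ a : Finset (PJf P), (2 / z * r) *
        (((3 * Fintype.card ι : ℕ) : ℝ) ^ a.card * pw x' a) := by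
        apply Finset.sum_le_sum_of_subset_of_nonneg (Finset.filter_subset _ _)
        intro a _ _
        have h4 : 0 ≤ ((3 * Fintype.card ι : ℕ) : ℝ) ^ a.card * pw x' a :=
          mul_nonneg (by positivity) (hpw0 a)
        positivity

end Pool.Agent.CM.W
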