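import Pool.Agent.Lib.MP_0da313_nt.CM.B
import Pool.Agent.Lib.MP_89da58_nt.BvW

set_option autoImplicit false

/-!
Project CM, section B, piece bv: the Bombieri-Vinogradov estimate with the weights `b ^ ω(q)` and a
fixed factor `W` of the moduli.
-/

namespace Pool.Agent.CM.B

open Finset Filter
open Pool.Agent.MP89da58 (tri tri_nonneg tri_le_one inv_totient_le sum_omega_le card_modEq_le)

/-- The trivial bound for one modulus. -/
private theorem cm_bv_triv {lam X : ℝ} {f : ℕ → ℝ} (hL : 4 ≤ Real.log X) (hX3 : 3 ≤ X)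
    (hf0 : ∀ n, 0 ≤ f n) (hf1 : ∀ n ∈ Icc 1 ⌊3 * X⌋₊, f n ≤ 2 * Real.log X) (q a : ℕ) (hq : 0 < q)
    (hqX : (q : ℝ) ≤ X ^ (1 / 2 : ℝ)) :
    er (fun n => f n * wd lam X n) ⌊3 * X⌋₊ q a ≤ 14 * (Real.log X) ^ 2 * X / q := by
  classical
  have hXpos : 0 < X := by linarith
  have hq' : (0 : ℝ) < q := by exact_mod_cast hq
  have hφ : (0 : ℝ) < Nat.totient q := by exact_mod_cast Nat.totient_pos.2 hq
  set L := Real.log X with hLdef
  have hqX' : (q : ℝ) ≤ X := by
    refine hqX.trans ?_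
    calc X ^ (1 / 2 : ℝ) ≤ X ^ (1 : ℝ) :=
          Real.rpow_le_rpow_of_exponent_le (by linarith) (by norm_num)
      _ = X := Real.rpow_one X
  have hΛ : ∀ n ∈ Icc 1 ⌊3 * X⌋₊, f n * wd lam X n ≤ 2 * L := by
    intro n hn
    calc f n * wd lam X n ≤ 2 * L * 1 :=
          mul_le_mul (hf1 n hn) (tri_le_one _) (tri_nonneg _) (by linarith)
      _ = 2 * L := mul_one _
  have hterm : ∀ n, 0 ≤ f n * wd lam X n := fun n => mul_nonneg (hf0 n) (tri_nonneg _)
  have hN : ((⌊3 * X⌋₊ : ℕ) : ℝ) ≤ 3 * X := Nat.floor_le (by positivity)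
  have h0 : 0 ≤ sA (fun n => f n * wd lam X n) ⌊3 * X⌋₊ q a := Finset.sum_nonneg fun n _ => hterm n
  have h1 : sA (fun n => f n * wd lam X n) ⌊3 * X⌋₊ q a ≤ 8 * L * X / q := by
    unfold sA
    refine (Finset.sum_le_sum fun n hn => hΛ n (Finset.mem_filter.1 hn).1).trans ?_
    rw [Finset.sum_const, nsmul_eq_mul]
    have h2 : ((((Icc 1 ⌊3 * X⌋₊).filter (fun n => n ≡ a [MOD q])).card : ℕ) : ℝ) ≤
        4 * X / q := by
      have h3 := card_modEq_le ⌊3 * X⌋₊ q a hq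
      have h4 : ((⌊3 * X⌋₊ / q + 1 : ℕ) : ℝ) ≤ 3 * X / q + 1 := by
        push_cast
        have : ((⌊3 * X⌋₊ / q : ℕ) : ℝ) ≤ (⌊3 * X⌋₊ : ℝ) / q := Nat.cast_div_le
        have := div_le_div_of_nonneg_right hN hq'.le
        linarith
      have h5 : (1 : ℝ) ≤ X / q := by
        rw [le_div_iff₀ hq', one_mul]; exact hqX'
      calc _ ≤ ((⌊3 * X⌋₊ / q + 1 : ℕ) : ℝ) := by exact_mod_cast h3
        _ ≤ 3 * X / q + 1 := h4
        _ ≤ 3 * X / q + X / q := by linarith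
        _ = 4 * X / q := by ring
    calc _ ≤ 4 * X / q * (2 * L) := by
          apply mul_le_mul_of_nonneg_right h2
          linarith
      _ = 8 * L * X / q := by ring
  have h2 : 0 ≤ sT (fun n => f n * wd lam X n) ⌊3 * X⌋₊ := Finset.sum_nonneg fun n _ => hterm n
  have h3 : sT (fun n => f n * wd lam X n) ⌊3 * X⌋₊ ≤ 6 * L * X := by
    unfold sT
    refine (Finset.sum_le_sum hΛ).trans ?_
    rw [Finset.sum_const, nsmul_eq_mul, Nat.card_Icc, Nat.add_sub_cancel]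
    calc _ ≤ 3 * X * (2 * L) := by
          apply mul_le_mul_of_nonneg_right hN
          linarith
      _ = 6 * L * X := by ring
  have h4 : 1 / (Nat.totient q : ℝ) ≤ L / q := by
    refine (inv_totient_le q hq.ne').trans ?_
    apply div_le_div_of_nonneg_right _ hq'.le
    have hlogq : Real.log q ≤ 1 / 2 * L := by
      have := Real.log_le_log hq' hqX
      rwa [Real.log_rpow hXpos] at this
    have hlog2 : (0.69 : ℝ) < Real.log 2 := lt_trans (by norm_num) Real.log_two_gt_d9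
    have h5 : Real.log q / Real.log 2 ≤ 1 / 2 * L / 0.69 :=
      div_le_div₀ (by positivity) hlogq (by norm_num) hlog2.le
    have h6 : 1 / 2 * L / 0.69 ≤ 0.73 * L := by
      rw [div_le_iff₀ (by norm_num)]
      linarith
    linarith
  have h5 : sT (fun n => f n * wd lam X n) ⌊3 * X⌋₊ / (Nat.totient q : ℝ) ≤ 6 * L ^ 2 * X / q := by
    calc sT (fun n => f n * wd lam X n) ⌊3 * X⌋₊ / (Nat.totient q : ℝ)
        = sT (fun n => f n * wd lam X n) ⌊3 * X⌋₊ * (1 / (Nat.totient q : ℝ)) := by ring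
      _ ≤ 6 * L * X * (L / q) := mul_le_mul h3 h4 (by positivity) (by positivity)
      _ = _ := by ring
  have h6 : 0 ≤ sT (fun n => f n * wd lam X n) ⌊3 * X⌋₊ / (Nat.totient q : ℝ) :=
    div_nonneg h2 hφ.le
  have h7 : 8 * L * X / q ≤ 8 * L ^ 2 * X / q := by
    apply div_le_div_of_nonneg_right _ hq'.le
    have h12 := mul_le_mul_of_nonneg_left (by linarith : (1 : ℝ) ≤ L)
      (by positivity : 0 ≤ 8 * L * X)
    clear * - h12
    linarith
  have h8 : 0 ≤ 8 * L ^ 2 * X / q := by positivity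
  have h9 : 0 ≤ 6 * L ^ 2 * X / q := by positivity
  have h10 : 14 * L ^ 2 * X / q = 8 * L ^ 2 * X / q + 6 * L ^ 2 * X / q := by ring
  unfold er
  rw [h10, abs_le]
  constructor <;> linarith

theorem p_bv : S_bv := by
  classical
  intro hbv1 C lam hLC hSC hOk A W b ε hW hε
  have hW' : 0 < W := hW
  have hbv := hbv1 C lam hLC hSC hOk (2 * A + b ^ 2 + 3) (ε / 2) (by linarith)
  have hWlim : ∀ᶠ X : ℝ in atTop, (W : ℝ) ≤ X ^ (ε / 2) :=
    (tendsto_rpow_atTop (by linarith)).eventually_ge_atTop _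
  filter_upwards [hbv, hWlim, hOk, eventually_ge_atTop (Real.exp 14)] with X hX hXW hXOk hXe
  intro f hf a ha
  have hXpos : 0 < X := lt_of_lt_of_le (Real.exp_pos 14) hXe
  have hL14 : 14 ≤ Real.log X := by
    rw [Real.le_log_iff_exp_le hXpos]; exact hXe
  have hX3 : 3 ≤ X := by
    have := Real.add_one_le_exp (14 : ℝ)
    linarith
  obtain ⟨hf0, hf1, -⟩ := hXOk f hf
  set L := Real.log X with hLdef
  have hLpos : 0 < L := by linarith
  set N := ⌊X ^ (1 / 2 - ε : ℝ)⌋₊ with hN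
  have hXp : 0 ≤ X ^ (1 / 2 - ε : ℝ) := Real.rpow_nonneg hXpos.le _
  have hNle : (N : ℝ) ≤ X ^ (1 / 2 - ε : ℝ) := Nat.floor_le hXp
  rcases Nat.eq_zero_or_pos N with hN0 | hN1
  · rw [hN0]
    simp only [Finset.Icc_eq_empty_of_lt (by norm_num : (0 : ℕ) < 1), Finset.filter_empty,
      Finset.sum_empty]
    positivity
  have hNpos : (0 : ℝ) < N := by exact_mod_cast hN1
  have hN1' : (1 : ℝ) ≤ N := by exact_mod_cast hN1
  have hlogN : Real.log N ≤ 1 / 2 * L := by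
    have h1 := Real.log_le_log hNpos hNle
    rw [Real.log_rpow hXpos] at h1
    have h2 : (1 / 2 - ε) * Real.log X ≤ 1 / 2 * L := by
      apply mul_le_mul_of_nonneg_right _ hLpos.le
      linarith
    linarith
  have hWN : ∀ q ≤ N, ((W * q : ℕ) : ℝ) ≤ X ^ (1 / 2 - ε / 2 : ℝ) := by
    intro q hq
    push_cast
    have h1 : X ^ (1 / 2 - ε / 2 : ℝ) = X ^ (ε / 2 : ℝ) * X ^ (1 / 2 - ε : ℝ) := by
      rw [← Real.rpow_add hXpos]
      congr 1
      ring
    rw [h1]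
    have h2 : (q : ℝ) ≤ X ^ (1 / 2 - ε : ℝ) := le_trans (by exact_mod_cast hq) hNle
    exact mul_le_mul hXW h2 (Nat.cast_nonneg _) (Real.rpow_nonneg hXpos.le _)
  have hWN2 : ∀ q ≤ N, ((W * q : ℕ) : ℝ) ≤ X ^ (1 / 2 : ℝ) := fun q hq =>
    (hWN q hq).trans (Real.rpow_le_rpow_of_exponent_le (by linarith) (by linarith))
  set E : ℕ → ℝ := fun q => er (fun n => f n * wd lam X n) ⌊3 * X⌋₊ (W * q) (a q) with hE
  have hE0 : ∀ q, 0 ≤ E q := fun q => abs_nonneg _
  have hsum1 : ∑ q ∈ (Icc 1 N).filter Squarefree, E q ≤ X / L ^ (2 * A + b ^ 2 + 3) := by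
    let a' : ℕ → ℕ := fun Q => if W ∣ Q then a (Q / W) else 1
    have ha' : ∀ Q, (a' Q).Coprime Q := by
      intro Q
      by_cases h : W ∣ Q
      · simp only [a', h, if_true]
        have := ha (Q / W)
        rwa [Nat.mul_div_cancel' h] at this
      · simp only [a', h, if_false]
        exact Nat.coprime_one_left Q
    refine le_trans ?_ (hX f hf ⌊X ^ (1 / 2 - ε / 2 : ℝ)⌋₊ a'
      (Nat.floor_le (Real.rpow_nonneg hXpos.le _)) ha')
    have hinj : Set.InjOn (fun q => W * q) ((Icc 1 N).filter Squarefree : Finset ℕ) :=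
      fun q _ q' _ h => Nat.eq_of_mul_eq_mul_left hW' h
    have h1 : ∑ q ∈ (Icc 1 N).filter Squarefree, E q =
        ∑ Q ∈ ((Icc 1 N).filter Squarefree).image (fun q => W * q),
          er (fun n => f n * wd lam X n) ⌊3 * X⌋₊ Q (a' Q) := by
      rw [Finset.sum_image hinj]
      refine Finset.sum_congr rfl fun q _ => ?_
      simp only [hE, a', dvd_mul_right, if_true, Nat.mul_div_cancel_left q hW']
    rw [h1]
    refine Finset.sum_le_sum_of_subset_of_nonneg ?_ fun _ _ _ => abs_nonneg _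
    intro Q hQ
    obtain ⟨q, hq, rfl⟩ := Finset.mem_image.1 hQ
    obtain ⟨hq1, hq2⟩ := Finset.mem_Icc.1 (Finset.mem_filter.1 hq).1
    exact Finset.mem_Icc.2 ⟨Nat.mul_pos hW' hq1, Nat.le_floor (hWN q hq2)⟩
  -- the weighted trivial bound
  have hsum2 : ∑ q ∈ (Icc 1 N).filter Squarefree, ((b : ℝ) ^ q.primeFactors.card) ^ 2 * E q ≤
      14 * L ^ 2 * X * L ^ (b ^ 2) := by
    have h1 : ∀ q ∈ (Icc 1 N).filter Squarefree, ((b : ℝ) ^ q.primeFactors.card) ^ 2 * E q ≤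
        14 * L ^ 2 * X * (((b ^ 2 : ℕ) : ℝ) ^ q.primeFactors.card / q) := by
      intro q hq
      obtain ⟨hq1, hq2⟩ := Finset.mem_Icc.1 (Finset.mem_filter.1 hq).1
      have hq' : (0 : ℝ) < q := by exact_mod_cast hq1
      have h2 := cm_bv_triv (lam := lam) (X := X) (f := f) (by linarith) hX3 hf0 hf1 (W * q) (a q)
        (Nat.mul_pos hW' hq1) (hWN2 q hq2)
      have h3 : E q ≤ 14 * L ^ 2 * X / q := by
        refine h2.trans ?_
        apply div_le_div_of_nonneg_left (by positivity) hq'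
        push_cast
        have : (1 : ℝ) ≤ W := by exact_mod_cast hW
        exact le_mul_of_one_le_left hq'.le this
      calc ((b : ℝ) ^ q.primeFactors.card) ^ 2 * E q
          ≤ ((b : ℝ) ^ q.primeFactors.card) ^ 2 * (14 * L ^ 2 * X / q) :=
            mul_le_mul_of_nonneg_left h3 (by positivity)
        _ = _ := by
            push_cast
            rw [← pow_mul, ← pow_mul, mul_comm 2]
            ring
    refine (Finset.sum_le_sum h1).trans ?_
    rw [← Finset.mul_sum]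
    apply mul_le_mul_of_nonneg_left _ (by positivity)
    refine (sum_omega_le (b ^ 2) N hN1).trans ?_
    have hlogN0 : 0 ≤ Real.log N := Real.log_nonneg hN1'
    exact pow_le_pow_left₀ (by linarith) (by linarith) _
  -- Cauchy-Schwarz
  have hCS := Finset.sum_mul_sq_le_sq_mul_sq ((Icc 1 N).filter Squarefree)
    (fun q => (b : ℝ) ^ q.primeFactors.card * Real.sqrt (E q)) (fun q => Real.sqrt (E q))
  have h1 : ∑ q ∈ (Icc 1 N).filter Squarefree,
      ((b : ℝ) ^ q.primeFactors.card * Real.sqrt (E q)) * Real.sqrt (E q) =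
      ∑ q ∈ (Icc 1 N).filter Squarefree, (b : ℝ) ^ q.primeFactors.card * E q := by
    refine Finset.sum_congr rfl fun q _ => ?_
    rw [mul_assoc, Real.mul_self_sqrt (hE0 q)]
  have h2 : ∑ q ∈ (Icc 1 N).filter Squarefree,
      ((b : ℝ) ^ q.primeFactors.card * Real.sqrt (E q)) ^ 2 =
      ∑ q ∈ (Icc 1 N).filter Squarefree, ((b : ℝ) ^ q.primeFactors.card) ^ 2 * E q := by
    refine Finset.sum_congr rfl fun q _ => ?_
    rw [mul_pow, Real.sq_sqrt (hE0 q)]
  have h3 : ∑ q ∈ (Icc 1 N).filter Squarefree, Real.sqrt (E q) ^ 2 =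
      ∑ q ∈ (Icc 1 N).filter Squarefree, E q :=
    Finset.sum_congr rfl fun q _ => Real.sq_sqrt (hE0 q)
  rw [h1, h2, h3] at hCS
  have h4 : (∑ q ∈ (Icc 1 N).filter Squarefree, ((b : ℝ) ^ q.primeFactors.card) ^ 2 * E q) *
      (∑ q ∈ (Icc 1 N).filter Squarefree, E q) ≤
      14 * L ^ 2 * X * L ^ (b ^ 2) * (X / L ^ (2 * A + b ^ 2 + 3)) :=
    mul_le_mul hsum2 hsum1 (Finset.sum_nonneg fun q _ => hE0 q) (by positivity)
  have h5 : 14 * L ^ 2 * X * L ^ (b ^ 2) * (X / L ^ (2 * A + b ^ 2 + 3)) ≤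
      (X / L ^ A) ^ 2 := by
    have h6 : L ^ (2 * A + b ^ 2 + 3) = L ^ A * L ^ A * L ^ (b ^ 2) * L ^ 2 * L := by
      ring
    rw [h6]
    have h7 : 14 * L ^ 2 * X * L ^ (b ^ 2) *
        (X / (L ^ A * L ^ A * L ^ (b ^ 2) * L ^ 2 * L)) = 14 / L * (X / L ^ A) ^ 2 := by
      field_simp
    rw [h7]
    have h8 : 14 / L ≤ 1 := by
      rw [div_le_one hLpos]; exact hL14
    have h9 : 0 ≤ (X / L ^ A) ^ 2 := sq_nonneg _
    exact mul_le_of_le_one_left h9 h8
  have h6 : (∑ q ∈ (Icc 1 N).filter Squarefree, (b : ℝ) ^ q.primeFactors.card * E q) ^ 2 ≤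
      (X / L ^ A) ^ 2 := hCS.trans (h4.trans h5)
  have h7 : 0 ≤ X / L ^ A := by positivity
  exact abs_le_of_sq_le_sq' h6 h7 |>.2

end Pool.Agent.CM.B
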