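import Pool.Agent.Lib.MP_0da313_nt.CM.L

set_option autoImplicit false

/-!
Project CM, section L: the Bombieri-Vinogradov theorem for the sequences of the family.
-/

namespace Pool.Agent.CM.L

open Finset Filter Polynomial
open Pool.Agent.MP89da58 (tri)
open Pool.Agent.CH (thP)

lemma bf_low {c s : ℝ} (hc : 0 < c) (hs : s < 1) :
    ∀ᶠ n : ℕ in atTop, (n : ℝ) ^ s ≤ c * n := by
  have hcast : Tendsto (fun n : ℕ => (n : ℝ)) atTop atTop := tendsto_natCast_atTop_atTop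
  have h1 := (tendsto_rpow_atTop (show 0 < 1 - s by linarith)).comp hcast
  filter_upwards [h1.eventually (eventually_ge_atTop (1 / c)), eventually_gt_atTop 0] with n h2 h3
  have hn : (0 : ℝ) < n := by exact_mod_cast h3
  have h4 : 1 / c ≤ (n : ℝ) ^ (1 - s) := h2
  rw [div_le_iff₀ hc] at h4
  have h5 : 0 < (n : ℝ) ^ s := Real.rpow_pos_of_pos hn s
  calc (n : ℝ) ^ s = (n : ℝ) ^ s * 1 := (mul_one _).symm
    _ ≤ (n : ℝ) ^ s * ((n : ℝ) ^ (1 - s) * c) := mul_le_mul_of_nonneg_left h4 h5.le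
    _ = (n : ℝ) ^ (s + (1 - s)) * c := by rw [Real.rpow_add hn]; ring
    _ = c * n := by rw [add_sub_cancel, Real.rpow_one]; ring

lemma bf_up (c : ℝ) {s : ℝ} (hs : 1 < s) :
    ∀ᶠ n : ℕ in atTop, c * n ≤ (n : ℝ) ^ s := by
  have hcast : Tendsto (fun n : ℕ => (n : ℝ)) atTop atTop := tendsto_natCast_atTop_atTop
  have h1 := (tendsto_rpow_atTop (show 0 < s - 1 by linarith)).comp hcast
  filter_upwards [h1.eventually (eventually_ge_atTop c), eventually_gt_atTop 0] with n h2 h3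
  have hn : (0 : ℝ) < n := by exact_mod_cast h3
  have h4 : c ≤ (n : ℝ) ^ (s - 1) := h2
  calc c * n ≤ (n : ℝ) ^ (s - 1) * n := mul_le_mul_of_nonneg_right h4 hn.le
    _ = (n : ℝ) ^ (s - 1) * (n : ℝ) ^ (1 : ℝ) := by rw [Real.rpow_one]
    _ = (n : ℝ) ^ s := by rw [← Real.rpow_add hn, sub_add_cancel]

section

variable {ι : Type} [Fintype ι] [DecidableEq ι] {D : ℕ} (F : Fam ι D)

lemma bf_tpos (l : Option ι) : 0 < F.t l := by
  have h1 : 1000 * (|(F.u l : ℝ)| * F.hw) ≤ F.t l := F.hth l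
  have h2 : 0 < |(F.u l : ℝ)| := by
    rw [abs_pos]
    exact_mod_cast F.hu l
  have h3 := mul_pos h2 F.hhw
  linarith

lemma bf_tend (l : Option ι) : Tendsto (fun n : ℕ => F.X n l) atTop atTop := by
  have hcast : Tendsto (fun n : ℕ => (n : ℝ)) atTop atTop := tendsto_natCast_atTop_atTop
  have h1 : Tendsto (fun n : ℕ => F.t l * (n : ℝ)) atTop atTop :=
    hcast.const_mul_atTop (bf_tpos F l)
  exact tendsto_atTop_add_const_right _ _ h1

lemma bf_ev (l : Option ι) : ∀ᶠ n : ℕ in atTop,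
    F.t l / 2 * n ≤ F.X n l ∧ F.X n l ≤ 2 * F.t l * n := by
  have hcast : Tendsto (fun n : ℕ => (n : ℝ)) atTop atTop := tendsto_natCast_atTop_atTop
  have ht := bf_tpos F l
  filter_upwards [hcast.eventually (eventually_ge_atTop (|(F.c l : ℝ)| * 2 / F.t l))] with n h1
  rw [div_le_iff₀ ht] at h1
  have h2 := abs_le.1 (show |(F.c l : ℝ)| ≤ n * F.t l / 2 by linarith)
  have h3 : F.X n l = F.t l * n + F.c l := rfl
  have h4 : 0 ≤ F.t l * n := by positivity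
  rw [h3]
  constructor
  · nlinarith [h2.1]
  · nlinarith [h2.2]

/-- the size of the centre -/
lemma bf_size (l : Option ι) : ∀ᶠ n : ℕ in atTop,
    (n : ℝ) ^ (4999 / 5000 : ℝ) ≤ F.X n l ∧ F.X n l ≤ (n : ℝ) ^ (5001 / 5000 : ℝ) := by
  have ht := bf_tpos F l
  filter_upwards [bf_ev F l, bf_low (c := F.t l / 2) (s := 4999 / 5000) (by positivity)
    (by norm_num), bf_up (2 * F.t l) (s := 5001 / 5000) (by norm_num)] with n h1 h2 h3
  exact ⟨h2.trans h1.1, h1.2.trans h3⟩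

lemma bf_main (l : Option ι) (C : ℝ → (ℕ → ℝ) → Prop) (b A : ℕ) (hB : BVc C (F.la l))
    (f : ℕ → ℕ → ℝ) (hf : ∀ᶠ n : ℕ in atTop, C (F.X n l) (f n)) :
    ∀ᶠ n : ℕ in atTop, ∀ a : ℕ → ℕ, (∀ q, (a q).Coprime ((F.u l).natAbs * q)) →
      ∑ q ∈ (Icc 1 ⌊(n : ℝ) ^ (4995 / 10000 : ℝ)⌋₊).filter Squarefree,
        (b : ℝ) ^ q.primeFactors.card *
        er (fun N => f n N * F.wi n l N) (F.NX n l) ((F.u l).natAbs * q) (a q) ≤
          n / (Real.log n) ^ A := by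
  have hu : 1 ≤ (F.u l).natAbs := Int.natAbs_pos.2 (F.hu l)
  have ht := bf_tpos F l
  have hcast : Tendsto (fun n : ℕ => (n : ℝ)) atTop atTop := tendsto_natCast_atTop_atTop
  have h1 := (bf_tend F l).eventually (hB (A + 1) (F.u l).natAbs b (1 / 10000) hu (by norm_num))
  have h5 : ∀ᶠ n : ℕ in atTop, 2 * F.t l * 2 ^ (A + 1) ≤ Real.log n :=
    hcast.eventually (Real.tendsto_log_atTop.eventually_ge_atTop _)
  filter_upwards [h1, hf, bf_size F l, bf_ev F l, h5, eventually_ge_atTop 3] with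
    n h1 hf hs he h5 hn3 a ha
  have hn1 : (1 : ℝ) < n := by exact_mod_cast (show 1 < n by omega)
  have hn : (0 : ℝ) < n := by linarith
  have hlog : 0 < Real.log n := Real.log_pos hn1
  have h2 := h1 (f n) hf a ha
  have hX0 : 0 < F.X n l := lt_of_lt_of_le (by positivity) hs.1
  -- the level
  have hlev : (n : ℝ) ^ (4995 / 10000 : ℝ) ≤ F.X n l ^ (1 / 2 - 1 / 10000 : ℝ) := by
    calc (n : ℝ) ^ (4995 / 10000 : ℝ) ≤
          (n : ℝ) ^ ((4999 / 5000 : ℝ) * (1 / 2 - 1 / 10000 : ℝ)) :=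
          Real.rpow_le_rpow_of_exponent_le hn1.le (by norm_num)
      _ = ((n : ℝ) ^ (4999 / 5000 : ℝ)) ^ (1 / 2 - 1 / 10000 : ℝ) := Real.rpow_mul hn.le _ _
      _ ≤ _ := Real.rpow_le_rpow (by positivity) hs.1 (by norm_num)
  have hfl : ⌊(n : ℝ) ^ (4995 / 10000 : ℝ)⌋₊ ≤ ⌊F.X n l ^ (1 / 2 - 1 / 10000 : ℝ)⌋₊ :=
    Nat.floor_le_floor hlev
  refine le_trans (Finset.sum_le_sum_of_subset_of_nonneg ?_ ?_) (h2.trans ?_)
  · intro q hq
    rw [Finset.mem_filter, Finset.mem_Icc] at hq ⊢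
    exact ⟨⟨hq.1.1, hq.1.2.trans hfl⟩, hq.2⟩
  · intro q _ _
    apply mul_nonneg (by positivity)
    exact abs_nonneg _
  · -- the size of the bound
    have hlX : Real.log n / 2 ≤ Real.log (F.X n l) := by
      have h6 := Real.log_le_log (by positivity) hs.1
      rw [Real.log_rpow hn] at h6
      linarith
    have h7 : (Real.log n / 2) ^ (A + 1) ≤ Real.log (F.X n l) ^ (A + 1) :=
      pow_le_pow_left₀ (by positivity) hlX _
    calc F.X n l / Real.log (F.X n l) ^ (A + 1) ≤ 2 * F.t l * n / (Real.log n / 2) ^ (A + 1) := by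
          apply div_le_div₀ (by positivity) he.2 (by positivity) h7
      _ = (2 * F.t l * 2 ^ (A + 1)) * n / (Real.log n) ^ (A + 1) := by
          rw [div_pow]
          field_simp
      _ ≤ Real.log n * n / (Real.log n) ^ (A + 1) := by
          apply div_le_div_of_nonneg_right _ (by positivity)
          exact mul_le_mul_of_nonneg_right h5 hn.le
      _ = n / (Real.log n) ^ A := by
          rw [pow_succ]
          field_simp

/-- the coefficients of the switched sum -/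
lemma bf_alp (C : ℕ) (hC : 1 ≤ C) (l : Option ι) :
    ∀ᶠ n : ℕ in atTop, Alp (F.X n l) (al C n) := by
  filter_upwards [bf_size F l, bf_up (C : ℝ) (s := 5001 / 5000) (by norm_num),
    eventually_ge_atTop 3] with n hs hCn hn3
  have hn1 : (1 : ℝ) < n := by exact_mod_cast (show 1 < n by omega)
  have hn : (0 : ℝ) < n := by linarith
  have hX0 : 0 < F.X n l := lt_of_lt_of_le (by positivity) hs.1
  have hC1 : (1 : ℝ) ≤ C := by exact_mod_cast hC
  have hnCn : (n : ℝ) ≤ ((C * n : ℕ) : ℝ) := by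
    push_cast
    nlinarith
  have hCn0 : (0 : ℝ) < ((C * n : ℕ) : ℝ) := by linarith
  have hex : ∀ k, al C n k ≠ 0 → ∃ p1 p2 : ℕ, p1.Prime ∧ p2.Prime ∧ k = p1 * p2 ∧
      kz n ≤ p1 ∧ p1 < ky C n ∧ ky C n ≤ p2 ∧ p1 * p2 ^ 2 ≤ C * n := by
    intro k hk
    unfold al at hk
    by_contra h
    rw [if_neg h] at hk
    exact hk rfl
  have hzr : ∀ p1 : ℕ, kz n ≤ p1 → (n : ℝ) ^ (1 / 11 : ℝ) ≤ p1 := by
    intro p1 h
    exact (Nat.le_ceil _).trans (by exact_mod_cast h)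
  have hyr : ∀ p2 : ℕ, ky C n ≤ p2 → (n : ℝ) ^ (1 / 3 : ℝ) ≤ p2 := by
    intro p2 h
    refine le_trans ?_ ((Nat.le_ceil _).trans (by exact_mod_cast h))
    exact Real.rpow_le_rpow hn.le hnCn (by norm_num)
  have h20 : F.X n l ^ (1 / 20 : ℝ) ≤ (n : ℝ) ^ (1 / 11 : ℝ) := by
    calc F.X n l ^ (1 / 20 : ℝ) ≤ ((n : ℝ) ^ (5001 / 5000 : ℝ)) ^ (1 / 20 : ℝ) :=
          Real.rpow_le_rpow hX0.le hs.2 (by norm_num)
      _ = (n : ℝ) ^ ((5001 / 5000 : ℝ) * (1 / 20 : ℝ)) := (Real.rpow_mul hn.le _ _).symm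
      _ ≤ _ := Real.rpow_le_rpow_of_exponent_le hn1.le (by norm_num)
  refine ⟨?_, ?_, ?_, ?_, ?_⟩
  · intro k
    unfold al
    split_ifs <;> norm_num
  · intro k
    unfold al
    split_ifs <;> norm_num
  · intro k hk
    obtain ⟨p1, p2, hp1, hp2, rfl, h1, h2, h3, h4⟩ := hex k hk
    have g1 := hzr p1 h1
    have g2 := hyr p2 h3
    calc F.X n l ^ (1 / 4 : ℝ) ≤ ((n : ℝ) ^ (5001 / 5000 : ℝ)) ^ (1 / 4 : ℝ) :=
          Real.rpow_le_rpow hX0.le hs.2 (by norm_num)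
      _ = (n : ℝ) ^ ((5001 / 5000 : ℝ) * (1 / 4 : ℝ)) := (Real.rpow_mul hn.le _ _).symm
      _ ≤ (n : ℝ) ^ ((1 / 11 : ℝ) + 1 / 3) :=
          Real.rpow_le_rpow_of_exponent_le hn1.le (by norm_num)
      _ = (n : ℝ) ^ (1 / 11 : ℝ) * (n : ℝ) ^ (1 / 3 : ℝ) := Real.rpow_add hn _ _
      _ ≤ (p1 : ℝ) * p2 := mul_le_mul g1 g2 (by positivity) (by positivity)
      _ = ((p1 * p2 : ℕ) : ℝ) := by push_cast; ring
  · intro k hk
    obtain ⟨p1, p2, hp1, hp2, rfl, h1, h2, h3, h4⟩ := hex k hk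
    have g1 : (p1 : ℝ) < ((C * n : ℕ) : ℝ) ^ (1 / 3 : ℝ) := by
      unfold ky at h2
      exact Nat.lt_ceil.1 h2
    have g2 : ((p1 * p2 : ℕ) : ℝ) ^ 2 ≤ ((C * n : ℕ) : ℝ) ^ (4 / 3 : ℝ) := by
      have g3 : ((p1 * p2 ^ 2 : ℕ) : ℝ) ≤ ((C * n : ℕ) : ℝ) := by exact_mod_cast h4
      calc ((p1 * p2 : ℕ) : ℝ) ^ 2 = (p1 : ℝ) * ((p1 * p2 ^ 2 : ℕ) : ℝ) := by push_cast; ring
        _ ≤ ((C * n : ℕ) : ℝ) ^ (1 / 3 : ℝ) * ((C * n : ℕ) : ℝ) :=
            mul_le_mul g1.le g3 (by positivity) (by positivity)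
        _ = ((C * n : ℕ) : ℝ) ^ (1 / 3 : ℝ) * ((C * n : ℕ) : ℝ) ^ (1 : ℝ) := by
            rw [Real.rpow_one]
        _ = ((C * n : ℕ) : ℝ) ^ (4 / 3 : ℝ) := by
            rw [← Real.rpow_add hCn0]
            norm_num
    have g4 : ((C * n : ℕ) : ℝ) ^ (4 / 3 : ℝ) ≤ (F.X n l ^ (3 / 4 : ℝ)) ^ 2 := by
      have hCn' : ((C * n : ℕ) : ℝ) ≤ (n : ℝ) ^ (5001 / 5000 : ℝ) := by
        push_cast
        exact hCn
      calc ((C * n : ℕ) : ℝ) ^ (4 / 3 : ℝ) ≤ ((n : ℝ) ^ (5001 / 5000 : ℝ)) ^ (4 / 3 : ℝ) :=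
            Real.rpow_le_rpow hCn0.le hCn' (by norm_num)
        _ = (n : ℝ) ^ ((5001 / 5000 : ℝ) * (4 / 3 : ℝ)) := (Real.rpow_mul hn.le _ _).symm
        _ ≤ (n : ℝ) ^ ((4999 / 5000 : ℝ) * (3 / 2 : ℝ)) :=
            Real.rpow_le_rpow_of_exponent_le hn1.le (by norm_num)
        _ = ((n : ℝ) ^ (4999 / 5000 : ℝ)) ^ (3 / 2 : ℝ) := Real.rpow_mul hn.le _ _
        _ ≤ F.X n l ^ (3 / 2 : ℝ) := Real.rpow_le_rpow (by positivity) hs.1 (by norm_num)
        _ = (F.X n l ^ (3 / 4 : ℝ)) ^ 2 := by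
            rw [← Real.rpow_natCast, ← Real.rpow_mul hX0.le]
            norm_num
    exact le_of_sq_le_sq (g2.trans g4) (by positivity)
  · intro k hk p hp hpk
    obtain ⟨p1, p2, hp1, hp2, rfl, h1, h2, h3, h4⟩ := hex k hk
    refine h20.trans ?_
    rcases (hp.dvd_mul.1 hpk) with h | h
    · rw [(Nat.prime_dvd_prime_iff_eq hp hp1).1 h]
      exact hzr p1 h1
    · rw [(Nat.prime_dvd_prime_iff_eq hp hp2).1 h]
      exact hzr p2 (by omega)

end

lemma bf_la {ι : Type} [Fintype ι] [DecidableEq ι] {D : ℕ} (F : Fam ι D) (hwin : R_win)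
    (l : Option ι) : 1 ≤ F.la l := by
  have := ((hwin ι D F).1 l).2
  linarith

theorem p_bvF : S_bvF := by
  intro hB hwin ι _ _ D F C b A hC
  have h0 := bf_main F none CP b A (hB _ (bf_la F hwin none)).1 (fun _ => thP)
    (Eventually.of_forall fun n => rfl)
  have h1 : ∀ i : ι, _ := fun i => bf_main F (some i) CA b A (hB _ (bf_la F hwin (some i))).2
    (fun n => cv (al C n)) (by
      filter_upwards [bf_alp F C hC (some i)] with n hn
      exact ⟨al C n, hn, rfl⟩)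
  filter_upwards [h0, eventually_all.2 h1] with n h0 h1 a
  exact ⟨fun ha => h0 a ha, fun i ha => h1 i a ha⟩

end Pool.Agent.CM.L
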