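import Pool.Agent.Lib.MP_0da313_nt.CM.F

set_option autoImplicit false

/-!
Project CM, piece chn: Chen's weight.
-/

namespace Pool.Agent.CM.F

open Finset
open ArithmeticFunction (cardFactors)
open Pool.Agent.CH.S (Pr)

theorem cm_chn_list (y : ℕ) (l : List ℕ) (h : ∀ p ∈ l, y ≤ p) : y ^ l.length ≤ l.prod := by
  induction l with
  | nil => simp
  | cons a l ih =>
    rw [List.length_cons, List.prod_cons, pow_succ, mul_comm]
    exact Nat.mul_le_mul (h a List.mem_cons_self)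
      (ih fun p hp => h p (List.mem_cons_of_mem _ hp))

theorem cm_chn_pow (y m : ℕ) (hm : m ≠ 0) (h : ∀ p : ℕ, p.Prime → p ∣ m → y ≤ p) :
    y ^ cardFactors m ≤ m := by
  rw [ArithmeticFunction.cardFactors_apply]
  conv_rhs => rw [← Nat.prod_primeFactorsList hm]
  exact cm_chn_list y _ fun p hp => h p (Nat.prime_of_mem_primeFactorsList hp)
    (Nat.dvd_of_mem_primeFactorsList hp)

theorem cm_chn_ky (C n : ℕ) : C * n ≤ ky C n ^ 3 := by
  have h1 : (((C * n : ℕ) : ℝ)) ^ (1 / 3 : ℝ) ≤ (ky C n : ℝ) := Nat.le_ceil _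
  have h0 : (0 : ℝ) ≤ ((C * n : ℕ) : ℝ) := Nat.cast_nonneg _
  have h2 : ((((C * n : ℕ) : ℝ)) ^ (1 / 3 : ℝ)) ^ 3 ≤ (ky C n : ℝ) ^ 3 :=
    pow_le_pow_left₀ (Real.rpow_nonneg h0 _) h1 3
  rw [← Real.rpow_natCast, ← Real.rpow_mul h0] at h2
  norm_num at h2
  exact_mod_cast h2

theorem cm_chn_cv_nonneg (α : ℕ → ℝ) (h : ∀ k, 0 ≤ α k) (m : ℕ) : 0 ≤ cv α m := by
  rw [cv]
  refine sum_nonneg fun k _ => mul_nonneg (h k) ?_
  split_ifs <;> norm_num

theorem cm_chn_al_nonneg (C n k : ℕ) : 0 ≤ al C n k := by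
  rw [al]
  split_ifs <;> norm_num

theorem p_chn : S_chn := by
  classical
  intro C n m hm hmC hkz hp
  have hm0 : m ≠ 0 := by omega
  have hcv := cm_chn_cv_nonneg (al C n) (cm_chn_al_nonneg C n) m
  have hcard : (0 : ℝ) ≤ (((Pr (kz n) (ky C n)).filter (fun q => q ∣ m)).card : ℝ) :=
    Nat.cast_nonneg _
  have hy : m < ky C n ^ 3 := lt_of_lt_of_le hmC (cm_chn_ky C n)
  by_cases h2 : ∃ q : ℕ, q.Prime ∧ kz n ≤ q ∧ q ^ 2 ∣ m
  · rw [if_pos h2]
    split_ifs <;> linarith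
  by_cases h3 : cardFactors m ≤ 2
  · rw [if_pos h3]
    split_ifs <;> linarith
  rw [if_neg h2, if_neg h3, add_zero]
  push Not at h3
  -- membership in the set
  have hS : ∀ p : ℕ, p.Prime → p ∣ m → p < ky C n →
      p ∈ (Pr (kz n) (ky C n)).filter (fun q => q ∣ m) := by
    intro p hpp hpm hpy
    rw [mem_filter, Pr, mem_filter, mem_range]
    exact ⟨⟨hpy, hpp, hp p hpp hpm⟩, hpm⟩
  by_cases hc2 : 2 ≤ ((Pr (kz n) (ky C n)).filter (fun q => q ∣ m)).card
  · have : (2 : ℝ) ≤ (((Pr (kz n) (ky C n)).filter (fun q => q ∣ m)).card : ℝ) := by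
      exact_mod_cast hc2
    linarith
  by_cases hc0 : ((Pr (kz n) (ky C n)).filter (fun q => q ∣ m)).card = 0
  · exfalso
    rw [card_eq_zero] at hc0
    have h4 : ∀ p : ℕ, p.Prime → p ∣ m → ky C n ≤ p := by
      intro p hpp hpm
      by_contra h5
      have := hS p hpp hpm (not_le.1 h5)
      rw [hc0] at this
      exact notMem_empty _ this
    have h5 := cm_chn_pow (ky C n) m hm0 h4
    have h6 : ky C n ^ 3 ≤ ky C n ^ cardFactors m := by
      rcases Nat.eq_zero_or_pos (ky C n) with h | h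
      · rw [h] at hy
        simp at hy
      · exact Nat.pow_le_pow_right h h3
    omega
  have hc1 : ((Pr (kz n) (ky C n)).filter (fun q => q ∣ m)).card = 1 := by omega
  obtain ⟨p1, hp1⟩ := card_eq_one.1 hc1
  have hp1m : p1 ∈ (Pr (kz n) (ky C n)).filter (fun q => q ∣ m) := by
    rw [hp1]; exact mem_singleton_self _
  rw [mem_filter, Pr, mem_filter, mem_range] at hp1m
  obtain ⟨⟨hp1y, hp1p, hp1k⟩, hp1d⟩ := hp1m
  obtain ⟨m', rfl⟩ := hp1d
  have hm'0 : m' ≠ 0 := by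
    rintro rfl
    exact hm0 (mul_zero _)
  have hnd : ¬ p1 ∣ m' := by
    intro h
    apply h2
    refine ⟨p1, hp1p, hp1k, ?_⟩
    rw [pow_two]
    exact Nat.mul_dvd_mul_left _ h
  have h4 : ∀ p : ℕ, p.Prime → p ∣ m' → ky C n ≤ p := by
    intro p hpp hpm
    by_contra h5
    have h6 := hS p hpp (Dvd.dvd.mul_left hpm _) (not_le.1 h5)
    rw [hp1, mem_singleton] at h6
    rw [h6] at hpm
    exact hnd hpm
  have hΩ : cardFactors (p1 * m') = 1 + cardFactors m' := by
    rw [ArithmeticFunction.cardFactors_mul hp1p.ne_zero hm'0,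
      ArithmeticFunction.cardFactors_apply_prime hp1p]
  have h5 := cm_chn_pow (ky C n) m' hm'0 h4
  have hle : m' ≤ p1 * m' := Nat.le_mul_of_pos_left _ hp1p.pos
  have h6 : cardFactors m' = 2 := by
    by_contra h7
    have h8 : 3 ≤ cardFactors m' := by omega
    have h9 : ky C n ^ 3 ≤ ky C n ^ cardFactors m' := by
      rcases Nat.eq_zero_or_pos (ky C n) with h | h
      · rw [h] at hy
        simp at hy
      · exact Nat.pow_le_pow_right h h8
    omega
  -- the two other primes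
  have h7 : ∃ p2 p3 : ℕ, p2.Prime ∧ p3.Prime ∧ p2 ≤ p3 ∧ m' = p2 * p3 := by
    rw [ArithmeticFunction.cardFactors_apply, List.length_eq_two] at h6
    obtain ⟨a, b, hab⟩ := h6
    have ha : a.Prime := Nat.prime_of_mem_primeFactorsList (by rw [hab]; simp : a ∈ m'.primeFactorsList)
    have hb : b.Prime := Nat.prime_of_mem_primeFactorsList (by rw [hab]; simp : b ∈ m'.primeFactorsList)
    have h8 := Nat.prod_primeFactorsList hm'0
    rw [hab] at h8
    simp only [List.prod_cons, List.prod_nil, mul_one] at h8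
    rcases le_total a b with h | h
    · exact ⟨a, b, ha, hb, h, h8.symm⟩
    · exact ⟨b, a, hb, ha, h, by rw [← h8, mul_comm]⟩
  obtain ⟨p2, p3, hp2, hp3, h23, rfl⟩ := h7
  have h8 : al C n (p1 * p2) = 1 := by
    rw [al, if_pos]
    refine ⟨p1, p2, hp1p, hp2, rfl, hp1k, hp1y, h4 p2 hp2 (Dvd.intro _ rfl), ?_⟩
    calc p1 * p2 ^ 2 = p1 * (p2 * p2) := by rw [pow_two]
      _ ≤ p1 * (p2 * p3) := Nat.mul_le_mul_left _ (Nat.mul_le_mul_left _ h23)
      _ ≤ C * n := hmC.le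
  have h9 : (1 : ℝ) ≤ cv (al C n) (p1 * (p2 * p3)) := by
    rw [cv]
    have hk : p1 * p2 ∈ (p1 * (p2 * p3)).divisors := by
      rw [Nat.mem_divisors]
      exact ⟨⟨p3, by ring⟩, hm0⟩
    refine le_trans ?_ (single_le_sum (f := fun k => al C n k *
      (if ((p1 * (p2 * p3)) / k).Prime then (1 : ℝ) else 0)) (fun k _ => ?_) hk)
    · have h10 : p1 * (p2 * p3) / (p1 * p2) = p3 := by
        rw [← mul_assoc]
        exact Nat.mul_div_cancel_left _ (Nat.mul_pos hp1p.pos hp2.pos)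
      simp only [h10, if_pos hp3, h8, mul_one, le_refl]
    · refine mul_nonneg (cm_chn_al_nonneg C n k) ?_
      split_ifs <;> norm_num
  have h10 : (((Pr (kz n) (ky C n)).filter (fun q => q ∣ p1 * (p2 * p3))).card : ℝ) = 1 := by
    rw [hc1]; norm_num
  rw [h10]
  linarith

end Pool.Agent.CM.F
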