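import Pool.Agent.Lib.MP_0da313_nt.CM.G

set_option autoImplicit false

/-!
Project CM, piece cls: a general sequence on residue classes.
-/

namespace Pool.Agent.CM.G

open Finset
open Pool.Agent.BVall (om rhoW rr rr_modEq dvd_iff_class rr_coprime totient_mul_prod)
open Pool.Agent.Lib.MP_0da313_nt

section classes

variable {u v : ℤ} (hu : u ≠ 0)

include hu

/-- decomposition of a sum over `N = u x + v` into residue classes -/
lemma sum_classesG (Q : ℕ → ℤ → Prop) [∀ p, DecidablePred (Q p)]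
    (hQ : ∀ (p : ℕ) (x y : ℤ), (p : ℤ) ∣ x - y → (Q p x ↔ Q p y)) (T : Finset ℕ)
    (hT : ∀ p ∈ T, p.Prime) (a : ℕ → ℝ) (N0 : ℕ) :
    ∑ N ∈ (Icc 1 N0).filter (fun N : ℕ => u ∣ (N : ℤ) - v),
      a N *
        ∏ p ∈ T, (if Q p (((N : ℤ) - v) / u) then (1 : ℝ) else 0) =
      ∑ ρ ∈ (range (∏ p ∈ T, p)).filter (fun ρ : ℕ => ∀ p ∈ T, Q p ρ),
        sA a N0 (u.natAbs * ∏ p ∈ T, p) (rr u v (∏ p ∈ T, p) ρ) := by
  classical
  set D := ∏ p ∈ T, p with hD
  have hD0 : 0 < D := Finset.prod_pos fun p hp => (hT p hp).pos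
  have hD0' : (0 : ℤ) < D := by exact_mod_cast hD0
  unfold sA
  simp only [Finset.sum_filter]
  rw [show (∑ ρ ∈ range D, if (∀ p ∈ T, Q p (ρ : ℤ)) then
      ∑ N ∈ Icc 1 N0, (if N ≡ rr u v D ρ [MOD u.natAbs * D] then
        a N else 0) else 0) =
      ∑ N ∈ Icc 1 N0, ∑ ρ ∈ range D,
        (if (∀ p ∈ T, Q p (ρ : ℤ)) ∧ N ≡ rr u v D ρ [MOD u.natAbs * D] then
        a N else 0) by
    rw [Finset.sum_comm]
    apply Finset.sum_congr rfl
    intro ρ _
    split_ifs with h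
    · apply Finset.sum_congr rfl
      intro N _
      by_cases h2 : N ≡ rr u v D ρ [MOD u.natAbs * D]
      · rw [if_pos h2, if_pos ⟨h, h2⟩]
      · rw [if_neg h2, if_neg (fun h' => h2 h'.2)]
    · symm
      apply Finset.sum_eq_zero
      intro N _
      rw [if_neg (fun h' => h h'.1)]]
  apply Finset.sum_congr rfl
  intro N _
  rw [Finset.prod_ite_zero, Finset.prod_const_one]
  by_cases hN : u ∣ (N : ℤ) - v
  · rw [if_pos hN]
    set x : ℤ := ((N : ℤ) - v) / u with hx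
    set ρ0 : ℕ := (x % (D : ℤ)).toNat with hρ0
    have hρ0' : (ρ0 : ℤ) = x % (D : ℤ) := Int.toNat_of_nonneg (Int.emod_nonneg _ hD0'.ne')
    have hρ0lt : ρ0 ∈ range D := by
      rw [Finset.mem_range]
      have := Int.emod_lt_of_pos x hD0'
      omega
    have hdvd0 : (D : ℤ) ∣ (ρ0 : ℤ) - x := by
      rw [hρ0']
      have := Int.dvd_self_sub_emod (x := x) (m := (D : ℤ))
      have h2 := dvd_neg.2 this
      rwa [neg_sub] at h2
    rw [Finset.sum_eq_single ρ0]
    · have e1 : N ≡ rr u v D ρ0 [MOD u.natAbs * D] := by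
        rw [rr_modEq hu hD0, dvd_iff_class hu]
        exact ⟨hN, hdvd0⟩
      have e2 : (∀ p ∈ T, Q p x) ↔ (∀ p ∈ T, Q p (ρ0 : ℤ)) := by
        have : ∀ p ∈ T, (Q p x ↔ Q p (ρ0 : ℤ)) := by
          intro p hp
          symm
          apply hQ
          have h1 : (p : ℤ) ∣ (D : ℤ) := by
            rw [hD]
            exact_mod_cast Finset.dvd_prod_of_mem (fun p => p) hp
          exact h1.trans hdvd0
        exact ⟨fun h p hp => (this p hp).1 (h p hp), fun h p hp => (this p hp).2 (h p hp)⟩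
      by_cases h : ∀ p ∈ T, Q p x
      · rw [if_pos h, if_pos ⟨e2.1 h, e1⟩, mul_one]
      · rw [if_neg h, if_neg (fun h' => h (e2.2 h'.1)), mul_zero]
    · intro ρ hρ hne
      rw [if_neg]
      rintro ⟨_, h2⟩
      rw [rr_modEq hu hD0, dvd_iff_class hu] at h2
      apply hne
      have h3 := dvd_sub h2.2 hdvd0
      have h4 : (ρ : ℤ) - x - ((ρ0 : ℤ) - x) = (ρ : ℤ) - ρ0 := by ring
      rw [h4] at h3
      have h5 : ρ0 ≡ ρ [MOD D] := by
        rw [← Int.natCast_modEq_iff]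
        exact Int.modEq_iff_dvd.2 h3
      exact (Nat.ModEq.eq_of_lt_of_lt h5 (Finset.mem_range.1 hρ0lt) (Finset.mem_range.1 hρ)).symm
    · intro h
      exact absurd hρ0lt h
  · rw [if_neg hN]
    symm
    apply Finset.sum_eq_zero
    intro ρ _
    rw [if_neg]
    rintro ⟨_, h2⟩
    rw [rr_modEq hu hD0, dvd_iff_class hu] at h2
    exact hN h2.1

end classes

open Classical in
theorem p_cls : S_cls := by
  intro u v hu huv Q hQ hQu T hT K hK a N E hE
  have hD0 : 0 < ∏ p ∈ T, p := Finset.prod_pos fun p hp => (hT p hp).pos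
  rw [sum_classesG hu Q hQ T hT]
  have hcount : ((range (∏ p ∈ T, p)).filter (fun ρ : ℕ => ∀ p ∈ T, Q p (ρ : ℤ))).card =
      ∏ p ∈ T, om Q p := by
    apply count_primes (fun p x => Q p (x : ℤ)) _ T hT
    intro p x
    apply hQ
    have := Nat.div_add_mod x p
    refine ⟨-((x / p : ℕ) : ℤ), ?_⟩
    have h3 : (p : ℤ) * ((x / p : ℕ) : ℤ) + ((x % p : ℕ) : ℤ) = x := by exact_mod_cast this
    linear_combination h3
  have hW : 0 < u.natAbs := Int.natAbs_pos.2 hu
  have hφW : (0 : ℝ) < Nat.totient u.natAbs := by exact_mod_cast Nat.totient_pos.2 hW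
  have hmain : sT a N / (Nat.totient u.natAbs : ℝ) * ∏ p ∈ T, rhoW u.natAbs Q p =
      ∑ ρ ∈ (range (∏ p ∈ T, p)).filter (fun ρ : ℕ => ∀ p ∈ T, Q p (ρ : ℤ)),
        sT a N / (Nat.totient (u.natAbs * ∏ p ∈ T, p) : ℝ) := by
    rw [Finset.sum_const, hcount, nsmul_eq_mul, totient_mul_prod u.natAbs T hT]
    unfold rhoW
    rw [Finset.prod_div_distrib]
    push_cast
    have hne : (∏ p ∈ T, ((if p ∣ u.natAbs then p else p - 1 : ℕ) : ℝ)) ≠ 0 := by
      rw [Finset.prod_ne_zero_iff]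
      intro p hp
      have hpp := hT p hp
      have := hpp.two_le
      split_ifs
      · exact_mod_cast hpp.ne_zero
      · have : p - 1 ≠ 0 := by omega
        exact_mod_cast this
    field_simp
  rw [hmain, ← Finset.sum_sub_distrib]
  refine (Finset.abs_sum_le_sum_abs _ _).trans ?_
  have h1 : ∀ ρ ∈ (range (∏ p ∈ T, p)).filter (fun ρ : ℕ => ∀ p ∈ T, Q p (ρ : ℤ)),
      |sA a N (u.natAbs * ∏ p ∈ T, p) (rr u v (∏ p ∈ T, p) ρ) -
        sT a N / (Nat.totient (u.natAbs * ∏ p ∈ T, p) : ℝ)| ≤ E := by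
    intro ρ hρ
    apply hE
    apply rr_coprime hu huv T hT
    intro p hp
    exact hQu p ρ ((Finset.mem_filter.1 hρ).2 p hp)
  have hE0 : 0 ≤ E := (abs_nonneg _).trans (hE 1 (Nat.coprime_one_left _))
  refine (Finset.sum_le_sum h1).trans ?_
  rw [Finset.sum_const, hcount, nsmul_eq_mul]
  apply mul_le_mul_of_nonneg_right _ hE0
  push_cast
  rw [← Finset.prod_const]
  apply Finset.prod_le_prod
  · intro p _; positivity
  · intro p hp; exact_mod_cast hK p hp

end Pool.Agent.CM.G
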