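import Pool.Agent.Lib.MP_0da313_nt.CM.F
import Pool.Agent.Lib.MP_0da313_nt.MT.Mertens
import Pool.Agent.Lib.MP_0da313_nt.MT.Sharp
import Pool.Agent.Lib.MP_0da313_nt.MT.Level

set_option autoImplicit false

/-!
[CM cnt]: the number of good points.
-/

namespace Pool.Agent.CM.F

open Finset Filter Polynomial
open ArithmeticFunction (cardFactors)
open Pool.Agent.MP89da58 (bil pw nn supp part kapD tri)
open Pool.Agent.MT (PJf ZI Dl)
open Pool.Agent.BVall (om rhoW PK lev RepB Dens mem_PK)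
open Pool.Agent.Lib.MP_0da313_nt (Admissible lineRestrict val singV W small)
open Pool.Agent.CH (thP)
open Pool.Agent.CH.S (th Pr gd RepC V)
open Pool.Agent.CM.W (WPk yM)

/-- The combinatorial core. -/
theorem cnt_core {ι : Type} [Fintype ι] [DecidableEq ι] [Nonempty ι] (S : Finset ℕ) (w : ℕ → ℝ)
    (hw : ∀ x ∈ S, 0 ≤ w x) (g : ι → ℕ → Prop) [∀ i, DecidablePred (g i)] {Y τ H : ℝ}
    (hY : 0 ≤ Y) (hτ : 0 ≤ τ)
    (h1 : ∀ i, 14 / 1000 * (τ * Y) ≤ ∑ x ∈ S, w x * (if g i x then (1 : ℝ) else 0))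
    (h2 : ∑ x ∈ S, w x ≤ 203 / 100 * Y) (h3 : ∀ x ∈ S, w x ≤ H) :
    7 / 1000 * (τ * Y) ≤ H * ((S.filter (fun x => w x ≠ 0 ∧
      3 / 1000 * (Fintype.card ι * τ) ≤ ((univ.filter (fun i => g i x)).card : ℝ) ∧
      1 ≤ (univ.filter (fun i => g i x)).card)).card : ℝ) := by
  classical
  set K : ℝ := (Fintype.card ι : ℝ) with hK
  have hK1 : 1 ≤ K := by
    rw [hK]
    exact_mod_cast Fintype.card_pos
  set N : ℕ → ℕ := fun x => (univ.filter (fun i => g i x)).card with hN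
  have hNK : ∀ x, (N x : ℝ) ≤ K := by
    intro x
    rw [hK]
    exact_mod_cast Finset.card_le_univ _
  set s : ℝ := 3 / 1000 * (K * τ) with hs
  have hs0 : 0 ≤ s := by positivity
  have e1 : K * (14 / 1000 * (τ * Y)) ≤ ∑ x ∈ S, w x * N x := by
    calc K * (14 / 1000 * (τ * Y)) = ∑ _i : ι, 14 / 1000 * (τ * Y) := by
          rw [Finset.sum_const, nsmul_eq_mul, Finset.card_univ]
      _ ≤ ∑ i : ι, ∑ x ∈ S, w x * (if g i x then (1 : ℝ) else 0) :=
          Finset.sum_le_sum fun i _ => h1 i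
      _ = ∑ x ∈ S, w x * N x := by
          rw [Finset.sum_comm]
          apply Finset.sum_congr rfl
          intro x _
          rw [← Finset.mul_sum]
          congr 1
          simp only [hN, Finset.card_filter]
          push_cast
          rfl
  set P : ℕ → Prop := fun x => s ≤ (N x : ℝ) ∧ 1 ≤ N x with hP
  have e2 : ∀ x ∈ S, w x * N x ≤ s * w x + K * (w x * (if P x then (1 : ℝ) else 0)) := by
    intro x hx
    have h0 := hw x hx
    by_cases hp : P x
    · rw [if_pos hp, mul_one]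
      have := mul_le_mul_of_nonneg_left (hNK x) h0
      nlinarith [mul_nonneg hs0 h0]
    · rw [if_neg hp, mul_zero, mul_zero, add_zero]
      have h4 : (N x : ℝ) ≤ s := by
        rw [hP] at hp
        simp only [not_and, not_le, Nat.lt_one_iff] at hp
        by_contra hc
        rw [not_le] at hc
        have := hp hc.le
        rw [this] at hc
        push_cast at hc
        linarith
      nlinarith
  have e3 : ∑ x ∈ S, w x * N x ≤ s * (203 / 100 * Y) +
      K * ∑ x ∈ S, w x * (if P x then (1 : ℝ) else 0) := by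
    calc ∑ x ∈ S, w x * N x ≤ ∑ x ∈ S, (s * w x + K * (w x * (if P x then (1 : ℝ) else 0))) :=
          Finset.sum_le_sum e2
      _ = s * ∑ x ∈ S, w x + K * ∑ x ∈ S, w x * (if P x then (1 : ℝ) else 0) := by
          rw [Finset.sum_add_distrib, Finset.mul_sum, Finset.mul_sum]
      _ ≤ _ := by
          have := mul_le_mul_of_nonneg_left h2 hs0
          linarith
  have e4 : ∑ x ∈ S, w x * (if P x then (1 : ℝ) else 0) ≤
      H * ((S.filter (fun x => w x ≠ 0 ∧ s ≤ (N x : ℝ) ∧ 1 ≤ N x)).card : ℝ) := by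
    calc ∑ x ∈ S, w x * (if P x then (1 : ℝ) else 0) =
          ∑ x ∈ S.filter (fun x => w x ≠ 0 ∧ s ≤ (N x : ℝ) ∧ 1 ≤ N x), w x := by
          rw [Finset.sum_filter]
          apply Finset.sum_congr rfl
          intro x _
          by_cases h0 : w x = 0
          · simp [h0]
          · simp only [hP, h0, ne_eq, not_false_eq_true, true_and, mul_ite, mul_one, mul_zero]
      _ ≤ ∑ _x ∈ S.filter (fun x => w x ≠ 0 ∧ s ≤ (N x : ℝ) ∧ 1 ≤ N x), H :=
          Finset.sum_le_sum fun x hx => h3 x (Finset.mem_filter.1 hx).1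
      _ = _ := by rw [Finset.sum_const, nsmul_eq_mul, mul_comm]
  have e5 : K * (14 / 1000 * (τ * Y)) ≤ s * (203 / 100 * Y) +
      K * ∑ x ∈ S, w x * (if P x then (1 : ℝ) else 0) := e1.trans e3
  have e6 : 7 / 1000 * (τ * Y) ≤ ∑ x ∈ S, w x * (if P x then (1 : ℝ) else 0) := by
    have hτY : 0 ≤ τ * Y := mul_nonneg hτ hY
    have h5 : K * (7 / 1000 * (τ * Y)) ≤ K * ∑ x ∈ S, w x * (if P x then (1 : ℝ) else 0) := by
      have h6 : s * (203 / 100 * Y) = K * (609 / 100000 * (τ * Y)) := by rw [hs]; ring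
      rw [h6] at e5
      nlinarith
    exact le_of_mul_le_mul_left h5 (by linarith)
  exact e6.trans e4

/-- The presieve function majorises the indicator function. -/
theorem cnt_ind {ι : Type} [Fintype ι] [DecidableEq ι] {D : ℕ} (F : Fam ι D) {n n' : ℕ}
    (hn : F.N0 ≤ n) {Fp Fm : (ℕ → ℝ) → ℝ} (hF : Pre D n' Fp Fm) (x : ℤ)
    [Decidable (F.Rg n (z0 D n') x)] :
    (if F.Rg n (z0 D n') x then (1 : ℝ) else 0) ≤ Fp (F.ri n (z0 D n') none none x) := by
  classical
  have h01 : ∀ p, 0 ≤ F.ri n (z0 D n') none none x p ∧ F.ri n (z0 D n') none none x p ≤ 1 := by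
    intro p
    unfold Fam.ri
    split_ifs <;> norm_num
  refine le_trans ?_ (hF.pt _ (fun p _ => h01 p)).2
  unfold W
  split_ifs with hR
  · apply le_of_eq
    symm
    apply Finset.prod_eq_one
    intro p hp
    have hp' := mem_PK.1 hp
    have h0 : F.ri n (z0 D n') none none x p = 0 := by
      unfold Fam.ri
      rw [if_neg]
      intro hQ
      have hpz : p ≤ z0 D n' := hp'.2
      have h1 := hQ.1
      rw [if_pos hpz] at h1
      apply hR p hp'.1 hpz
      rw [F.hG n hn none, eval_mul]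
      exact dvd_mul_of_dvd_right h1 _
    rw [h0, sub_zero]
  · exact Finset.prod_nonneg fun p _ => by linarith [(h01 p).2]

theorem cnt_z_le_lev (D n' : ℕ) : z0 D n' ≤ lev (2 * D) n' := by
  unfold z0 lev
  have h1 : 1 ≤ ∏ p ∈ small (2 * D), p := by
    apply Nat.one_le_iff_ne_zero.2
    rw [Finset.prod_ne_zero_iff]
    intro p hp
    exact (Finset.mem_filter.1 hp).2.ne_zero
  calc 2 ^ (2 ^ (2 * D + n')) ≤ 1 * 2 ^ (2 ^ (2 * D + n') * (16 * (2 * D) + 6)) := by
        rw [one_mul]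
        apply Nat.pow_le_pow_right (by norm_num)
        exact Nat.le_mul_of_pos_right _ (by omega)
    _ ≤ _ := Nat.mul_le_mul_right _ h1

theorem cnt_z_pos (D n' : ℕ) : 1 ≤ z0 D n' := Nat.one_le_two_pow

/-- `F.V` is bounded from below. -/
theorem cnt_V {ι : Type} [Fintype ι] [DecidableEq ι] {D : ℕ} (F : Fam ι D) (hD : 1 ≤ D) {n n' : ℕ}
    (hn : F.N0 ≤ n) (hl : (2 : ℝ) ^ (2 * D + n') ≤ Real.log n) :
    (∏ p ∈ small (2 * D), (1 / (p : ℝ))) * (1 / (Real.log n) ^ (8 * D)) ≤ F.V n n' := by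
  classical
  have hdens := Pool.Agent.MT.dens_poly (F.G n) D (2 * D) (F.hdeg n hn) (by omega) (F.hloc n hn)
  have h := Pool.Agent.MT.W_ge hdens n' hl
  rw [show 4 * (2 * D) = 8 * D by ring] at h
  exact h

/-- The bound `a0 ≤ 2 log n`. -/
theorem cnt_a0 {ι : Type} [Fintype ι] [DecidableEq ι] {D : ℕ} (F : Fam ι D) {n C : ℕ}
    (hn1 : 1 ≤ n) (hC : C ≤ n) (hC1 : 3 * F.X n none < C * n)
    (hwin : ∀ (x : ℤ), 0 < F.L n none x → F.wi n none (F.L n none x).toNat ≠ 0 →
      (F.L n none x : ℝ) ≤ 3 * F.X n none) (x : ℤ) :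
    0 ≤ F.a0 n (F.L n none x).toNat ∧ F.a0 n (F.L n none x).toNat ≤ 2 * Real.log n ∧
    (F.a0 n (F.L n none x).toNat ≠ 0 → 0 < F.L n none x ∧ (F.L n none x).natAbs.Prime ∧
      F.wi n none (F.L n none x).toNat ≠ 0) := by
  have hnR : (1 : ℝ) ≤ n := by exact_mod_cast hn1
  have hlog : 0 ≤ Real.log n := Real.log_nonneg hnR
  have hw0 : 0 ≤ F.wi n none (F.L n none x).toNat := le_max_left _ _
  have hw1 : F.wi n none (F.L n none x).toNat ≤ 1 := by
    unfold Fam.wi wd tri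
    apply max_le zero_le_one
    have := abs_nonneg (F.la none * Real.log (((F.L n none x).toNat : ℝ) / F.X n none))
    linarith
  have ht0 : 0 ≤ thP (F.L n none x).toNat := by
    unfold thP
    split_ifs with hp
    · exact Real.log_nonneg (by exact_mod_cast hp.one_lt.le)
    · exact le_rfl
  have h3 : F.a0 n (F.L n none x).toNat ≠ 0 → 0 < F.L n none x ∧ (F.L n none x).natAbs.Prime ∧
      F.wi n none (F.L n none x).toNat ≠ 0 := by
    intro h
    unfold Fam.a0 at h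
    have h1 := left_ne_zero_of_mul h
    have h2 := right_ne_zero_of_mul h
    have hp : (F.L n none x).toNat.Prime := by
      by_contra hc
      apply h1
      unfold thP
      rw [if_neg hc]
    have h4 : 0 < (F.L n none x).toNat := hp.pos
    have h5 : 0 < F.L n none x := by omega
    refine ⟨h5, ?_, h2⟩
    have h6 : (F.L n none x).natAbs = (F.L n none x).toNat := by omega
    rw [h6]
    exact hp
  refine ⟨mul_nonneg ht0 hw0, ?_, h3⟩
  by_cases h0 : F.a0 n (F.L n none x).toNat = 0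
  · rw [h0]; positivity
  obtain ⟨h5, hp, h2⟩ := h3 h0
  have h7 := hwin x h5 h2
  have h6 : (F.L n none x).natAbs = (F.L n none x).toNat := by omega
  rw [h6] at hp
  have h8 : (((F.L n none x).toNat : ℕ) : ℝ) = F.L n none x := by
    have : (((F.L n none x).toNat : ℕ) : ℤ) = F.L n none x := Int.toNat_of_nonneg h5.le
    exact_mod_cast this
  have h9 : (((F.L n none x).toNat : ℕ) : ℝ) ≤ (n : ℝ) ^ 2 := by
    rw [h8]
    have : ((C : ℕ) : ℝ) ≤ n := by exact_mod_cast hC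
    nlinarith
  have h10 : thP (F.L n none x).toNat ≤ 2 * Real.log n := by
    unfold thP
    rw [if_pos hp]
    have h11 := Real.log_le_log (by exact_mod_cast hp.pos) h9
    rw [Real.log_pow] at h11
    exact_mod_cast h11
  calc F.a0 n (F.L n none x).toNat ≤ 2 * Real.log n * 1 :=
        mul_le_mul h10 hw1 hw0 (by positivity)
    _ = _ := mul_one _

/-- The pointwise comparison. -/
theorem cnt_pt {α f12 zi zz g3 cc om sq : ℝ} (R : Prop) [Decidable R] (hα0 : 0 ≤ α)
    (hzi : 0 ≤ zi) (q1 : α ≠ 0 → f12 * zi - 1 / 2 * ((if R then cc else 0) * zi) ≤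
      if R then zz * (om + sq) else 0)
    (q3 : (if R then α * cc else 0) ≤ g3) :
    α * (f12 * zi) ≤ 1 / 2 * (g3 * zi) +
      (α * (if R then zz else 0) * om + α * (if R then zz * sq else 0)) := by
  have q4 := mul_le_mul_of_nonneg_right q3 hzi
  by_cases hα1 : α = 0
  · subst hα1
    split_ifs at q4 ⊢ <;> nlinarith
  · have q5 := mul_le_mul_of_nonneg_left (q1 hα1) hα0
    by_cases hR : R
    · simp only [if_pos hR] at q4 q5 ⊢
      nlinarith
    · simp only [if_neg hR] at q4 q5 ⊢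
      nlinarith

theorem p_cnt : S_cnt := by
  classical
  intro hT12 hT3 hS0 hpw1 hpw3 hwm hsq hpre hP hwin hwp
  obtain ⟨c', hc'0, hc'1, hwp⟩ := hwp
  refine ⟨3 / 1000 * c', by positivity, ?_⟩
  intro ι _ _ _
  obtain ⟨M, hM1, hwp⟩ := hwp ι
  refine ⟨M, hM1, ?_⟩
  intro D B0 h hD hB0 hh
  obtain ⟨K, hK⟩ : ∃ K : ℝ, K = (Fintype.card ι : ℝ) := ⟨_, rfl⟩
  have hK1 : 1 ≤ K := by
    rw [hK]
    exact_mod_cast Fintype.card_pos
  have hB0r : (1 : ℝ) ≤ B0 := by exact_mod_cast hB0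
  obtain ⟨B, hB⟩ : ∃ B : ℕ, B = B0 ^ Fintype.card ι := ⟨_, rfl⟩
  have hB1 : (1 : ℝ) ≤ B := by
    rw [hB]
    push_cast
    exact one_le_pow₀ hB0r
  obtain ⟨H, hH⟩ : ∃ H : ℝ, H = (2 ^ (Fintype.card ι * (B0 + 1)) * (B : ℝ)) ^ 2 := ⟨_, rfl⟩
  have hH0 : 0 < H := by rw [hH]; positivity
  refine ⟨7 / 2000 * c' * h / (K * B0 ^ 2 * H), by positivity, ?_⟩
  intro F hFh
  have hwinF := hwin ι D F
  obtain ⟨C, hC1, hC⟩ : ∃ C : ℕ, 1 ≤ C ∧ ∀ᶠ n : ℕ in atTop, ∀ l, 3 * F.X n l < C * n := by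
    obtain ⟨C, hC⟩ := exists_nat_gt (∑ l, 3 * (|F.t l| + |(F.c l : ℝ)|))
    refine ⟨C + 1, by omega, ?_⟩
    filter_upwards [eventually_ge_atTop 1] with n hn l
    have hnR : (1 : ℝ) ≤ n := by exact_mod_cast hn
    have h1 : 3 * (|F.t l| + |(F.c l : ℝ)|) ≤ ∑ l, 3 * (|F.t l| + |(F.c l : ℝ)|) :=
      Finset.single_le_sum (f := fun l => 3 * (|F.t l| + |(F.c l : ℝ)|))
        (fun i _ => by positivity) (Finset.mem_univ l)
    unfold Fam.X
    push_cast
    have h2 := le_abs_self (F.t l)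
    have h3 := le_abs_self (F.c l : ℝ)
    have h4 := abs_nonneg (F.c l : ℝ)
    nlinarith
  set c1 : ℝ := ∏ p ∈ small (2 * D), (1 / (p : ℝ)) with hc1
  have hc1pos : 0 < c1 := by
    apply Finset.prod_pos
    intro p hp
    have hpp : p.Prime := (Finset.mem_filter.mp hp).2
    have : (0 : ℝ) < p := by exact_mod_cast hpp.pos
    positivity
  have hcast : Tendsto (fun n : ℕ => (n : ℝ)) atTop atTop := tendsto_natCast_atTop_atTop
  have evlog : ∀ᶠ n : ℕ in atTop, 1 + 2500 * K * B0 / (c' * h * c1) ≤ Real.log n :=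
    hcast.eventually (Real.tendsto_log_atTop.eventually_ge_atTop _)
  filter_upwards [hT12 ι D F C B0 M B (8 * D + 2) hC1 hD hB0 hM1,
    hT3 ι D F C B0 M B (8 * D + 2) hC1 hD hB0 hM1,
    hS0 ι D F B0 M B (8 * D + 2) hD hB0 hM1, hpw1 ι D F C B0 M hD hB0 hM1 hC,
    hpw3 ι D F C B0 M hD hB0 hM1 hC1, hwm ι D F B0 M B hD hB0 hM1,
    hsq ι D F B0 M B (8 * D + 2) hD hB0 hM1, hP ι D F B0 hB0, hwinF.2, hwp B0 hB0, hC, evlog,
    eventually_ge_atTop (F.N0 + C + 3)] with n hT12 hT3 hS0 hpw1 hpw3 hwm hsq hP hwin hwp hC evlog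
    hnN
  intro n' hzB hlev hl
  have hn1 : 1 ≤ n := by omega
  have hnR : (1 : ℝ) ≤ n := by exact_mod_cast hn1
  have hn0 : (0 : ℝ) < n := by linarith
  have hE0 : 0 ≤ 2500 * K * B0 / (c' * h * c1) := by positivity
  have hlog1 : 1 ≤ Real.log n := by linarith
  -- the parameters
  have hzlev := cnt_z_le_lev D n'
  have hz1 := cnt_z_pos D n'
  have hlev1 : (1 : ℝ) ≤ lev (2 * D) n' := by exact_mod_cast hz1.trans hzlev
  have hzlevR : (z0 D n' : ℝ) ≤ lev (2 * D) n' := by exact_mod_cast hzlev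
  have hzM : (z0 D n' : ℝ) ^ M ≤ (n : ℝ) ^ (1 / 1000 : ℝ) := by
    refine le_trans ?_ hlev
    calc (z0 D n' : ℝ) ^ M ≤ (lev (2 * D) n' : ℝ) ^ M := pow_le_pow_left₀ (by positivity) hzlevR _
      _ ≤ _ := pow_le_pow_right₀ hlev1 (by omega)
  have hlev3 : (lev (2 * D) n' : ℝ) ^ 3 ≤ (n : ℝ) ^ (1 / 1000 : ℝ) :=
    le_trans (pow_le_pow_right₀ hlev1 (by omega)) hlev
  obtain ⟨_, _, P, Ex, hP1, hP2, hP3, hP4⟩ := hP (z0 D n') (yM M n) hzB
  obtain ⟨lam, lami, A, τ, hW, hτ1, hτ2⟩ := hwp (z0 D n') hzB hzM P Ex hP1 hP3 hP4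
  obtain ⟨Fp, Fm, hFp, hFm, hpt, hmt⟩ := hpre (2 * D) (by omega) n'
  have hPre : Pre D n' Fp Fm := ⟨hFp, hFm, hpt, hmt⟩
  have hPar : Par F B0 M n n' P := ⟨hzB, hlev3, hP1, hP2⟩
  have hBr : (B : ℝ) = (B0 : ℝ) ^ Fintype.card ι := by rw [hB]; push_cast; rfl
  have hWts0 : Wts B (yM M n) none none lam := by
    refine ⟨fun α => ?_, hW.sup, fun α _ j i _ => ⟨by simp, by simp⟩⟩
    rw [hBr]
    exact hW.bd α
  have hWts1 : ∀ i, Wts B (yM M n) none (some i) (lami i) := by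
    intro i
    refine ⟨fun α => ?_, fun α hα => (hW.supi i α hα).2, fun α hα j i' hj => ⟨by simp, ?_⟩⟩
    · rw [hBr]
      exact hW.bdi i α
    · intro hii
      have h1 := (hW.supi i α hα).1
      rw [Option.some.inj hii] at hj
      have h2 : j ∈ part α i := by
        unfold part
        simp [hj]
      rw [h1] at h2
      simp at h2
  -- abbreviations
  set z := z0 D n' with hz
  set κ := kapD z with hκ
  have hκ0 : 0 < κ := Pool.Agent.MT.kapD_pos z
  have hκ1 : κ ≤ 1 := Pool.Agent.MT.kapD_le_one z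
  have hκz : κ * Real.log z ≤ 1 := Pool.Agent.MT.kapD_mul_log_le z hz1
  have hlognz : Real.log n ≤ B0 * Real.log z := by
    have h1 : (n : ℝ) ≤ (z : ℝ) ^ B0 := by exact_mod_cast hzB
    have h2 := Real.log_le_log hn0 h1
    rwa [Real.log_pow] at h2
  have hκn : κ * Real.log n ≤ B0 := by
    calc κ * Real.log n ≤ κ * (B0 * Real.log z) := mul_le_mul_of_nonneg_left hlognz hκ0.le
      _ = B0 * (κ * Real.log z) := by ring
      _ ≤ B0 * 1 := mul_le_mul_of_nonneg_left hκz (by linarith)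
      _ = B0 := mul_one _
  have hV := cnt_V F hD (by omega : F.N0 ≤ n) hl
  rw [← hc1] at hV
  have hV0 : 0 < F.V n n' := lt_of_lt_of_le (by positivity) hV
  set Φ : ℝ := F.hw * n * (F.V n n' / κ) with hΦ
  have hΦ0 : 0 < Φ := by rw [hΦ, hFh]; positivity
  set e : ℝ := n / (Real.log n) ^ (8 * D + 2) with he
  have he0 : 0 ≤ e := by rw [he]; positivity
  have hA1 : 1 ≤ A := hW.one
  have hτ0 : 0 < τ := lt_of_lt_of_le (by positivity) hτ1
  rw [← hK] at hτ1 hτ2
  -- `e` is small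
  have hΦe : 2500 * (K * B0 / c') * e ≤ Φ := by
    have h1 : h * n * (c1 * (1 / Real.log n ^ (8 * D))) ≤ Φ := by
      rw [hΦ, hFh]
      apply mul_le_mul_of_nonneg_left _ (by positivity)
      refine hV.trans ?_
      rw [le_div_iff₀ hκ0]
      nlinarith
    refine le_trans ?_ h1
    have h4 : 2500 * K * B0 / (c' * h * c1) ≤ Real.log n ^ 2 := by nlinarith
    rw [div_le_iff₀ (by positivity)] at h4
    have h5 : 2500 * (K * B0 / c') * e = 2500 * K * B0 * (n / (c' * Real.log n ^ (8 * D + 2))) := by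
      rw [he]; field_simp
    have h6 : h * n * (c1 * (1 / Real.log n ^ (8 * D))) =
        Real.log n ^ 2 * (c' * h * c1) * (n / (c' * Real.log n ^ (8 * D + 2))) := by
      rw [pow_add]
      field_simp
    rw [h5, h6]
    exact mul_le_mul_of_nonneg_right h4 (by positivity)
  have hq1 : 1 ≤ K * B0 / c' := by
    rw [le_div_iff₀ hc'0]
    nlinarith
  have hsmall0 : 2500 * e ≤ Φ := by nlinarith
  have hsmall : 2500 * e ≤ τ * (Φ * A) := by
    have h2 : c' / (K * B0) ≤ τ * A := by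
      calc c' / (K * B0) ≤ τ := hτ1
        _ = τ * 1 := (mul_one _).symm
        _ ≤ τ * A := mul_le_mul_of_nonneg_left hA1 hτ0.le
    have h3 : Φ * (c' / (K * B0)) ≤ Φ * (τ * A) := mul_le_mul_of_nonneg_left h2 hΦ0.le
    have h4 : 2500 * (K * B0 / c') * e * (c' / (K * B0)) ≤ Φ * (c' / (K * B0)) :=
      mul_le_mul_of_nonneg_right hΦe (by positivity)
    have h5 : 2500 * (K * B0 / c') * e * (c' / (K * B0)) = 2500 * e := by
      field_simp
    calc 2500 * e ≤ Φ * (τ * A) := by linarith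
      _ = _ := by ring
  -- the point functions
  set a : ℕ → ℝ := fun x => F.a0 n (F.L n none (x : ℤ)).toNat with ha
  have hX3 : ∀ x : ℤ, 0 < F.L n none x → F.wi n none (F.L n none x).toNat ≠ 0 →
      (F.L n none x : ℝ) ≤ 3 * F.X n none := fun x h1 h2 => ((hwin.2.1 none x h1 h2).2.2 none).2
  have hafact := fun x : ℤ => cnt_a0 F hn1 (by omega : C ≤ n) (hC none) hX3 x
  set Z : ℕ → ℝ := fun x => ZI (DF F n P) lam (x : ℤ) ^ 2 with hZ
  have hZ0 : ∀ x, 0 ≤ Z x := fun x => sq_nonneg _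
  set w : ℕ → ℝ := fun x => a x * (if F.Rg n z (x : ℤ) then Z x else 0) with hw
  have hw0 : ∀ x, 0 ≤ w x := by
    intro x
    apply mul_nonneg (hafact x).1
    split_ifs
    · exact hZ0 x
    · exact le_rfl
  have hwH : ∀ x ∈ Ioo 0 n, w x ≤ 2 * Real.log n * H := by
    intro x _
    by_cases h0 : a x = 0
    · simp only [hw, h0, zero_mul]; positivity
    · simp only [hw]
      split_ifs with hR
      · have h1 := hwm n' P hPar lam hWts0 x h0 hR
        rw [← hH] at h1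
        exact mul_le_mul (hafact x).2.1 h1 (sq_nonneg _) (by positivity)
      · rw [mul_zero]; positivity
  -- the total sum
  have h2 : ∑ x ∈ Ioo 0 n, w x ≤ 203 / 100 * (Φ * A) := by
    have h3 := hS0 n' P hPar Fp Fm hPre lam hWts0
    have h4 : ∑ x ∈ Ioo 0 n, w x ≤ ∑ x ∈ Ioo 0 n, F.a0 n (F.L n none x).toNat *
        (Fp (F.ri n (z0 D n') none none x) * ZI (DF F n P) lam x ^ 2) := by
      apply Finset.sum_le_sum
      intro x _
      simp only [hw, ha]
      apply mul_le_mul_of_nonneg_left _ (hafact x).1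
      have h5 := cnt_ind F (by omega : F.N0 ≤ n) hPre (x : ℤ)
      calc (if F.Rg n z (x : ℤ) then Z x else 0) = (if F.Rg n z (x : ℤ) then 1 else 0) * Z x := by
            split_ifs <;> simp
        _ ≤ _ := mul_le_mul_of_nonneg_right h5 (hZ0 x)
    have h5 : qf lam ≤ 2 * A := hW.up
    have h6 : 101 / 100 * Φ * qf lam ≤ 101 / 100 * Φ * (2 * A) :=
      mul_le_mul_of_nonneg_left h5 (by positivity)
    have h7 : e ≤ 1 / 100 * (Φ * A) := by
      have h8 : Φ * 1 ≤ Φ * A := mul_le_mul_of_nonneg_left hA1 hΦ0.le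
      linarith
    calc ∑ x ∈ Ioo 0 n, w x ≤ _ := h4
      _ ≤ 101 / 100 * Φ * qf lam + e := h3
      _ ≤ _ := by linarith
  -- the sums for the single members
  have h1 : ∀ i : ι, 14 / 1000 * (τ * (Φ * A)) ≤ ∑ x ∈ Ioo 0 n, w x *
      (if cardFactors (F.L n (some i) (x : ℤ)).toNat ≤ 2 then (1 : ℝ) else 0) := by
    intro i
    have kk1 := hT12 n' P hPar Fp Fm hPre i (lami i) (hWts1 i)
    have kk3 := hT3 n' P hPar Fp Fm hPre i (lami i) (hWts1 i)
    have kk4 := hsq n' P hPar lam hWts0 i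
    have hb : τ * A ≤ V (z + 1) (kz n) * qf (lami i) := hW.lo i
    have kk2 : ∑ x ∈ Ioo 0 n, F.a0 n (F.L n none x).toNat *
        (F12 Fp Fm (z0 D n' + 1) (kz n) (ky C n) (lD n) (F.ri n (z0 D n') none (some i) x) *
          ZI (DF F n P) (lami i) x ^ 2) ≤
        1 / 2 * (Real.log (3 * F.X n none) * ∑ x ∈ Ioo 0 n, F.a3 C n i (F.L n (some i) x).toNat *
          (F3 Fp (z0 D n' + 1) (k3 n) (lD n) (F.ri n (z0 D n') (some i) none x) *
            ZI (DF F n P) (lami i) x ^ 2)) +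
        (∑ x ∈ Ioo 0 n, w x *
          (if cardFactors (F.L n (some i) (x : ℤ)).toNat ≤ 2 then (1 : ℝ) else 0) +
        ∑ x ∈ Ioo 0 n, F.a0 n (F.L n none x).toNat *
          (if F.Rg n (z0 D n') x then ZI (DF F n P) lam x ^ 2 *
            (if ∃ q : ℕ, q.Prime ∧ kz n ≤ q ∧ q ^ 2 ∣ (F.L n (some i) x).toNat then 1 else 0)
            else 0)) := by
      rw [Finset.mul_sum, Finset.mul_sum, ← Finset.sum_add_distrib, ← Finset.sum_add_distrib]
      apply Finset.sum_le_sum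
      intro x _
      have hα0 := (hafact (x : ℤ)).1
      have q1 := hpw1 n' P hPar Fp Fm hPre _ _ _ _ lam lami hW (x : ℤ) i
      have q3 := hpw3 n' P hPar Fp Fm hPre (x : ℤ) i
      simp only [hw, ha, hZ]
      refine le_trans (cnt_pt (om := (if cardFactors (F.L n (some i) (x : ℤ)).toNat ≤ 2 then (1 : ℝ)
        else 0)) (sq := (if ∃ q : ℕ, q.Prime ∧ kz n ≤ q ∧ q ^ 2 ∣ (F.L n (some i) x).toNat
        then (1 : ℝ) else 0)) (zz := ZI (DF F n P) lam (x : ℤ) ^ 2)
        (F.Rg n (z0 D n') (x : ℤ)) hα0 (sq_nonneg (ZI (DF F n P) (lami i) (x : ℤ))) q1 q3)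
        (le_of_eq ?_)
      congr 1
      ring
    have kk5 : Φ * (τ * A) ≤ Φ * (V (z + 1) (kz n) * qf (lami i)) :=
      mul_le_mul_of_nonneg_left hb hΦ0.le
    have kk6 : Φ * (τ * A) = τ * (Φ * A) := by ring
    rw [kk6] at kk5
    have kk7 : 0 ≤ τ * (Φ * A) := by positivity
    rw [← hz] at kk2 kk4
    linarith
  have hfin := cnt_core (Ioo 0 n) w (fun x _ => hw0 x)
    (fun i x => cardFactors (F.L n (some i) (x : ℤ)).toNat ≤ 2) (Y := Φ * A) (τ := τ)
    (H := 2 * Real.log n * H) (by positivity) hτ0.le h1 h2 hwH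
  -- comparison of the sets
  have hsub : (((Ioo 0 n).filter (fun x => w x ≠ 0 ∧
      3 / 1000 * (Fintype.card ι * τ) ≤ ((univ.filter (fun i : ι =>
        cardFactors (F.L n (some i) (x : ℤ)).toNat ≤ 2)).card : ℝ) ∧
      1 ≤ (univ.filter (fun i : ι => cardFactors (F.L n (some i) (x : ℤ)).toNat ≤ 2)).card)).card : ℝ)
      ≤ (((Ioo 0 n).filter (fun x : ℕ => F.Rg n (z0 D n') x ∧
    (F.L n none x).natAbs.Prime ∧
    3 / 1000 * c' * Real.log (Fintype.card ι) ≤
      ((univ.filter (fun i : ι => cardFactors (F.L n (some i) x).natAbs ≤ 2)).card : ℝ) ∧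
    1 ≤ (univ.filter (fun i : ι => cardFactors (F.L n (some i) x).natAbs ≤ 2)).card)).card : ℝ) := by
    have : ((Ioo 0 n).filter (fun x => w x ≠ 0 ∧
      3 / 1000 * (Fintype.card ι * τ) ≤ ((univ.filter (fun i : ι =>
        cardFactors (F.L n (some i) (x : ℤ)).toNat ≤ 2)).card : ℝ) ∧
      1 ≤ (univ.filter (fun i : ι => cardFactors (F.L n (some i) (x : ℤ)).toNat ≤ 2)).card)).card
      ≤ ((Ioo 0 n).filter (fun x : ℕ => F.Rg n (z0 D n') x ∧
    (F.L n none x).natAbs.Prime ∧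
    3 / 1000 * c' * Real.log (Fintype.card ι) ≤
      ((univ.filter (fun i : ι => cardFactors (F.L n (some i) x).natAbs ≤ 2)).card : ℝ) ∧
    1 ≤ (univ.filter (fun i : ι => cardFactors (F.L n (some i) x).natAbs ≤ 2)).card)).card := by
      apply Finset.card_le_card
      intro x hx
      rw [Finset.mem_filter] at hx ⊢
      obtain ⟨hxI, hwx, hN1, hN2⟩ := hx
      have hαx : a x ≠ 0 := left_ne_zero_of_mul hwx
      have hRx : F.Rg n (z0 D n') (x : ℤ) := by
        by_contra hc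
        apply right_ne_zero_of_mul hwx
        rw [if_neg hc]
      obtain ⟨g1, g2, g3⟩ := (hafact (x : ℤ)).2.2 hαx
      have g4 : ∀ i : ι, (F.L n (some i) (x : ℤ)).toNat = (F.L n (some i) (x : ℤ)).natAbs := by
        intro i
        have g5 := ((hwin.2.1 none (x : ℤ) g1 g3).2.2 (some i)).1
        have g6 := hwin.1 (some i)
        have g7 : (0 : ℝ) < F.L n (some i) (x : ℤ) := by linarith
        have g8 : 0 < F.L n (some i) (x : ℤ) := by exact_mod_cast g7
        omega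
      simp only [g4] at hN1 hN2
      refine ⟨hxI, hRx, g2, le_trans ?_ hN1, hN2⟩
      rw [← hK]
      linarith
    exact_mod_cast this
  refine le_trans ?_ hsub
  rw [← hz] at *
  set T : ℝ := (((Ioo 0 n).filter (fun x => w x ≠ 0 ∧
      3 / 1000 * (Fintype.card ι * τ) ≤ ((univ.filter (fun i : ι =>
        cardFactors (F.L n (some i) (x : ℤ)).toNat ≤ 2)).card : ℝ) ∧
      1 ≤ (univ.filter (fun i : ι => cardFactors (F.L n (some i) (x : ℤ)).toNat ≤ 2)).card)).card : ℝ)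
    with hT
  have hT0 : 0 ≤ T := Nat.cast_nonneg _
  -- `7/1000 τ Φ A ≤ 2 log n H T`
  have m1 : c' / (K * B0) * (F.hw * n * F.V n n') ≤ τ * (Φ * A) * κ := by
    have m2 : Φ * κ = F.hw * n * F.V n n' := by rw [hΦ]; field_simp
    calc c' / (K * B0) * (F.hw * n * F.V n n') ≤ τ * (F.hw * n * F.V n n') := by
          apply mul_le_mul_of_nonneg_right hτ1
          rw [hFh]; positivity
      _ = τ * (Φ * κ) := by rw [m2]
      _ ≤ τ * (Φ * κ) * A := by
          have : 0 ≤ τ * (Φ * κ) := by positivity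
          nlinarith
      _ = _ := by ring
  have m3 : 7 / 1000 * (τ * (Φ * A)) * κ ≤ 2 * B0 * H * T := by
    calc 7 / 1000 * (τ * (Φ * A)) * κ ≤ 2 * Real.log n * H * T * κ :=
          mul_le_mul_of_nonneg_right hfin hκ0.le
      _ = 2 * H * T * (κ * Real.log n) := by ring
      _ ≤ 2 * H * T * B0 := mul_le_mul_of_nonneg_left hκn (by positivity)
      _ = _ := by ring
  have m4 : 7 / 1000 * (c' / (K * B0) * (h * n * F.V n n')) ≤ 2 * B0 * H * T := by
    rw [hFh] at m1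
    linarith
  have m5 : 7 / 2000 * c' * h / (K * B0 ^ 2 * H) * (n * F.V n n') =
      7 / 1000 * (c' / (K * B0) * (h * n * F.V n n')) / (2 * B0 * H) := by
    field_simp
    ring
  rw [m5, div_le_iff₀ (by positivity)]
  linarith

end Pool.Agent.CM.F
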