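import Pool.Agent.Lib.MP_0da313_nt.CM.F

set_option autoImplicit false

/-!
Project CM, piece cnv: from sums over `N = u x + v` to sums over `x`.
-/

namespace Pool.Agent.CM.F

open Finset Filter Polynomial

theorem p_cnv : S_cnv := by
  intro u v n N a h hu ha0 ha
  -- the basic facts for an index `k`
  have hk : ∀ k ∈ (Icc 1 N).filter (fun k : ℕ => u ∣ (k : ℤ) - v), a k ≠ 0 →
      u * (((k : ℤ) - v) / u) + v = k ∧ 0 < ((k : ℤ) - v) / u ∧ ((k : ℤ) - v) / u < n := by
    intro k hk hak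
    have h1 := (Finset.mem_filter.1 hk).2
    have h2 : u * (((k : ℤ) - v) / u) = (k : ℤ) - v := Int.mul_ediv_cancel' h1
    have h3 : u * (((k : ℤ) - v) / u) + v = k := by rw [h2]; ring
    have h4 := ha (((k : ℤ) - v) / u) (by rw [h3, Int.toNat_natCast]; exact hak)
    exact ⟨h3, h4.1, h4.2.1⟩
  apply Finset.sum_bij_ne_zero (fun (k : ℕ) _ _ => (((k : ℤ) - v) / u).toNat)
  · intro k h1 h2
    have h3 := hk k h1 (left_ne_zero_of_mul h2)
    rw [Finset.mem_Ioo]
    omega
  · intro k h1 h2 k' h1' h2' he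
    have h3 := hk k h1 (left_ne_zero_of_mul h2)
    have h3' := hk k' h1' (left_ne_zero_of_mul h2')
    have h4 : ((k : ℤ) - v) / u = ((k' : ℤ) - v) / u := by omega
    have h5 : (k : ℤ) = k' := by rw [← h3.1, ← h3'.1, h4]
    exact_mod_cast h5
  · intro x hx h2
    have h3 : a (u * (x : ℤ) + v).toNat ≠ 0 := left_ne_zero_of_mul h2
    have h4 := ha x h3
    have h5 : (u * (x : ℤ) + v).toNat ≠ 0 := fun h => h3 (by rw [h, ha0])
    have h6 : (((u * (x : ℤ) + v).toNat : ℕ) : ℤ) = u * x + v := by omega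
    have h7 : ((((u * (x : ℤ) + v).toNat : ℕ) : ℤ) - v) / u = x := by
      rw [h6, show u * (x : ℤ) + v - v = u * x by ring, Int.mul_ediv_cancel_left _ hu]
    refine ⟨(u * (x : ℤ) + v).toNat, ?_, ?_, ?_⟩
    · rw [Finset.mem_filter, Finset.mem_Icc]
      refine ⟨⟨by omega, h4.2.2⟩, ?_⟩
      rw [h6]
      exact ⟨x, by ring⟩
    · rw [h7]
      exact h2
    · simp only [h7, Int.toNat_natCast]
  · intro k h1 h2
    have h3 := hk k h1 (left_ne_zero_of_mul h2)
    have h4 : (((((k : ℤ) - v) / u).toNat : ℕ) : ℤ) = ((k : ℤ) - v) / u := by omega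
    rw [h4, h3.1, Int.toNat_natCast]

end Pool.Agent.CM.F
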