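import Pool.Agent.Lib.MP_0da313_nt.CM.B
import Pool.Agent.Lib.MP_89da58_nt.Bv

set_option autoImplicit false

/-!
Project CM, `p_con`: all conductors.
-/

namespace Pool.Agent.CM.B

open Finset Filter
open Pool.Agent.MP89da58 (tri primChars inv_totient_le)

/-- Partial summation for nonnegative terms. -/
theorem con_abel (a : ℕ → ℝ) (K : ℝ) (R0 : ℕ) (hR0 : 1 ≤ R0) (Y : ℕ)
    (h : ∀ R, R0 ≤ R → R ≤ Y → ∑ r ∈ Ioc R0 R, a r ≤ R * K) (R : ℕ) (hR : R0 ≤ R) (hRY : R ≤ Y) :
    ∑ r ∈ Ioc R0 R, a r / r ≤ (∑ r ∈ Ioc R0 R, a r) / R + K * ∑ m ∈ Ioc R0 R, (m : ℝ)⁻¹ := by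
  induction R, hR using Nat.le_induction with
  | base => simp
  | succ R hR ih =>
    have h1 := ih (by omega)
    have hRp : (0 : ℝ) < R := by
      have : 0 < R := by omega
      exact_mod_cast this
    have hR1 : (0 : ℝ) < (R : ℝ) + 1 := by linarith
    have h2 := h R hR (by omega)
    have e1 : ∀ g : ℕ → ℝ, ∑ r ∈ Ioc R0 (R + 1), g r = ∑ r ∈ Ioc R0 R, g r + g (R + 1) := by
      intro g
      rw [← Finset.insert_Ioc_right_eq_Ioc_add_one (by omega : R0 ≤ R)]
      rw [Finset.sum_insert (by simp)]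
      ring
    rw [e1, e1, e1]
    push_cast
    have h3 : (∑ r ∈ Ioc R0 R, a r) / (R : ℝ) ≤
        (∑ r ∈ Ioc R0 R, a r) / ((R : ℝ) + 1) + K * ((R : ℝ) + 1)⁻¹ := by
      have h4 : (∑ r ∈ Ioc R0 R, a r) / (R : ℝ) =
          (∑ r ∈ Ioc R0 R, a r) / ((R : ℝ) + 1) +
            (∑ r ∈ Ioc R0 R, a r) / ((R : ℝ) * ((R : ℝ) + 1)) := by
        field_simp
      rw [h4]
      have h5 : (∑ r ∈ Ioc R0 R, a r) / ((R : ℝ) * ((R : ℝ) + 1)) ≤ K * ((R : ℝ) + 1)⁻¹ := by
        rw [div_le_iff₀ (by positivity)]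
        calc ∑ r ∈ Ioc R0 R, a r ≤ R * K := h2
          _ = K * ((R : ℝ) + 1)⁻¹ * ((R : ℝ) * ((R : ℝ) + 1)) := by
            field_simp
      linarith
    have h6 : (∑ r ∈ Ioc R0 R, a r + a (R + 1)) / ((R : ℝ) + 1) =
        (∑ r ∈ Ioc R0 R, a r) / ((R : ℝ) + 1) + a (R + 1) / ((R : ℝ) + 1) := by ring
    rw [h6, mul_add]
    linarith

theorem con_small (f : ℕ → ℝ) (lam X M : ℝ) (s r : ℕ) (hr : 2 ≤ r) (hM : 0 ≤ M)
    (h : ∀ χ : DirichletCharacter ℂ r, χ.IsPrimitive → ‖Tw f lam X s χ‖ ≤ M) :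
    1 / (Nat.totient r : ℝ) * pS f lam X s r ≤ M := by
  classical
  have : NeZero r := ⟨by omega⟩
  have hφ : (0 : ℝ) < Nat.totient r := by exact_mod_cast Nat.totient_pos.2 (by omega)
  have h0 : pS f lam X s r ≤ Nat.totient r * M := by
    unfold pS
    have h1 : ∀ χ ∈ (Finset.univ : Finset (DirichletCharacter ℂ r)),
        Set.indicator {χ : DirichletCharacter ℂ r | χ.IsPrimitive}
          (fun χ => ‖Tw f lam X s χ‖) χ ≤ M := by
      intro χ _
      by_cases hχ : χ.IsPrimitive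
      · rw [Set.indicator_of_mem (show χ ∈ {χ : DirichletCharacter ℂ r | χ.IsPrimitive} from hχ)]
        exact h χ hχ
      · rw [Set.indicator_of_notMem
          (show χ ∉ {χ : DirichletCharacter ℂ r | χ.IsPrimitive} from hχ)]
        exact hM
    refine (Finset.sum_le_sum h1).trans ?_
    rw [Finset.sum_const, nsmul_eq_mul, Finset.card_univ, ← Nat.card_eq_fintype_card,
      DirichletCharacter.card_eq_totient_of_hasEnoughRootsOfUnity]
  rw [one_div, inv_mul_le_iff₀ hφ]
  exact h0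

theorem p_con : S_con := by
  classical
  intro C lam hLC hSC A ε hε
  obtain ⟨B, hB⟩ := hLC (A + 5) ε hε
  have hS := hSC (A + B + 1) (B + 1)
  filter_upwards [hB, hS, eventually_ge_atTop (Real.exp 4)] with X hL1 hS1 hXe
  intro f hf s Y hs hsX hY
  have hXpos : 0 < X := lt_of_lt_of_le (Real.exp_pos 4) hXe
  have hlog4 : 4 ≤ Real.log X := by
    rw [Real.le_log_iff_exp_le hXpos]; exact hXe
  have hX1 : 1 ≤ X := le_trans (Real.one_le_exp (by norm_num)) hXe
  set L := Real.log X with hLdef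
  have hLpos : 0 < L := by linarith
  have hp0 : ∀ r, 0 ≤ pS f lam X s r := by
    intro r
    unfold pS
    refine Finset.sum_nonneg fun χ _ => ?_
    exact Set.indicator_nonneg (fun _ _ => norm_nonneg _) _
  set R0 := ⌈L ^ B⌉₊ with hR0
  have hLB : 1 ≤ L ^ B := one_le_pow₀ (by linarith)
  have hR0le : (R0 : ℝ) ≤ 2 * L ^ B := by
    have := (Nat.ceil_lt_add_one (by positivity : 0 ≤ L ^ B)).le
    linarith
  have hR0ge : L ^ B ≤ R0 := Nat.le_ceil _
  have hR01 : 1 ≤ R0 := by
    have : (1 : ℝ) ≤ R0 := hLB.trans hR0ge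
    exact_mod_cast this
  have hYle : ∀ r : ℕ, 1 ≤ r → r ≤ Y → Real.log r ≤ L / 2 := by
    intro r hr hrY
    have hrp : (0 : ℝ) < r := by exact_mod_cast hr
    have h1 : (r : ℝ) ≤ X ^ (1 / 2 : ℝ) := by
      calc (r : ℝ) ≤ Y := by exact_mod_cast hrY
        _ ≤ X ^ (1 / 2 - ε : ℝ) := hY
        _ ≤ X ^ (1 / 2 : ℝ) := Real.rpow_le_rpow_of_exponent_le hX1 (by linarith)
    have := Real.log_le_log hrp h1
    rw [Real.log_rpow hXpos] at this
    linarith
  -- small
  have hsmall : ∑ r ∈ (Icc 2 Y).filter (fun r => r ≤ R0), 1 / (Nat.totient r : ℝ) *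
      pS f lam X s r ≤ X / L ^ A / 2 := by
    have h1 : ∀ r ∈ (Icc 2 Y).filter (fun r => r ≤ R0), 1 / (Nat.totient r : ℝ) *
      pS f lam X s r ≤ X / L ^ (A + B + 1) := by
      intro r hr
      obtain ⟨hr1, hr2⟩ := Finset.mem_filter.1 hr
      have hr3 := (Finset.mem_Icc.1 hr1).1
      refine con_small f lam X _ s r hr3 (by positivity) fun χ hχ => ?_
      refine hS1 f hf s hs hsX r χ hr3 ?_ hχ
      calc (r : ℝ) ≤ R0 := by exact_mod_cast hr2
        _ ≤ 2 * L ^ B := hR0le
        _ ≤ L * L ^ B := by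
            apply mul_le_mul_of_nonneg_right _ (by positivity)
            linarith
        _ = L ^ (B + 1) := by ring
    refine (Finset.sum_le_sum h1).trans ?_
    rw [Finset.sum_const, nsmul_eq_mul]
    have h2 : (((Icc 2 Y).filter (fun r => r ≤ R0)).card : ℝ) ≤ R0 := by
      have h3 : (Icc 2 Y).filter (fun r => r ≤ R0) ⊆ Icc 1 R0 := by
        intro r hr
        obtain ⟨hr1, hr2⟩ := Finset.mem_filter.1 hr
        have hr3 := (Finset.mem_Icc.1 hr1).1
        exact Finset.mem_Icc.2 ⟨by omega, hr2⟩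
      have h4 := Finset.card_le_card h3
      rw [Nat.card_Icc, Nat.add_sub_cancel] at h4
      exact_mod_cast h4
    calc _ ≤ (R0 : ℝ) * (X / L ^ (A + B + 1)) := by
          apply mul_le_mul_of_nonneg_right h2
          positivity
      _ ≤ 2 * L ^ B * (X / L ^ (A + B + 1)) := by
          apply mul_le_mul_of_nonneg_right hR0le
          positivity
      _ = X / L ^ A * (2 / L) := by
          rw [pow_succ, pow_add]
          field_simp
      _ ≤ X / L ^ A * (1 / 2) := by
          apply mul_le_mul_of_nonneg_left _ (by positivity)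
          rw [div_le_iff₀ hLpos]
          linarith
      _ = _ := by ring
  -- large
  have hlarge : ∑ r ∈ (Icc 2 Y).filter (fun r => ¬ r ≤ R0), 1 / (Nat.totient r : ℝ) *
      pS f lam X s r ≤ X / L ^ A / 2 := by
    rcases lt_or_ge Y R0 with hYR | hYR
    · rw [Finset.filter_eq_empty_iff.2]
      · rw [Finset.sum_empty]
        positivity
      · intro r hr
        have := (Finset.mem_Icc.1 hr).2
        omega
    have hK : ∀ R, R0 ≤ R → R ≤ Y → ∑ r ∈ Ioc R0 R, pS f lam X s r ≤ R * (X / L ^ (A + 5)) := by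
      intro R hR hRY
      have h1 := hL1 f hf R s (hR0ge.trans (by exact_mod_cast hR))
        (le_trans (by exact_mod_cast hRY) hY) hs hsX
      have h3 : ∑ r ∈ Icc 2 R, pS f lam X s r = ∑ p ∈ primChars R, ‖Tw f lam X s p.2‖ := by
        rw [primChars, Finset.sum_sigma]
        apply Finset.sum_congr rfl
        intro r _
        rw [pS, Finset.sum_filter]
        apply Finset.sum_congr rfl
        intro χ _
        rw [Set.indicator_apply]
        rfl
      have h4 : ∑ r ∈ Ioc R0 R, pS f lam X s r ≤ ∑ r ∈ Icc 2 R, pS f lam X s r := by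
        refine Finset.sum_le_sum_of_subset_of_nonneg ?_ fun r _ _ => hp0 r
        intro r hr
        have := Finset.mem_Ioc.1 hr
        exact Finset.mem_Icc.2 ⟨by omega, this.2⟩
      calc _ ≤ _ := h4
        _ = _ := h3
        _ ≤ _ := h1
        _ = _ := by ring
    have h5 := con_abel (fun r => pS f lam X s r) (X / L ^ (A + 5)) R0 hR01 Y hK Y hYR le_rfl
    have hYp : (0 : ℝ) < Y := by
      have : 0 < Y := by omega
      exact_mod_cast this
    have h6 : (∑ r ∈ Ioc R0 Y, pS f lam X s r) / (Y : ℝ) ≤ X / L ^ (A + 5) := by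
      rw [div_le_iff₀ hYp]
      have := hK Y hYR le_rfl
      linarith
    have h7 : ∑ m ∈ Ioc R0 Y, (m : ℝ)⁻¹ ≤ L - 1 := by
      have h71 : ∑ m ∈ Ioc R0 Y, (m : ℝ)⁻¹ ≤ ∑ m ∈ Icc 1 Y, (m : ℝ)⁻¹ := by
        refine Finset.sum_le_sum_of_subset_of_nonneg ?_ fun r _ _ => by positivity
        intro r hr
        have := Finset.mem_Ioc.1 hr
        exact Finset.mem_Icc.2 ⟨by omega, this.2⟩
      have h72 : ∑ m ∈ Icc 1 Y, (m : ℝ)⁻¹ ≤ 1 + Real.log Y := by
        have h3 := harmonic_le_one_add_log Y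
        have h4 : ((harmonic Y : ℚ) : ℝ) = ∑ m ∈ Icc 1 Y, (m : ℝ)⁻¹ := by
          rw [harmonic_eq_sum_Icc]
          push_cast
          rfl
        rwa [h4] at h3
      have h73 := hYle Y (by omega) le_rfl
      linarith
    have h8 : ∑ r ∈ Ioc R0 Y, pS f lam X s r / r ≤ X / L ^ (A + 5) * L := by
      have h81 : (0 : ℝ) ≤ X / L ^ (A + 5) := by positivity
      have h82 := mul_le_mul_of_nonneg_left h7 h81
      calc _ ≤ _ := h5
        _ ≤ X / L ^ (A + 5) + X / L ^ (A + 5) * (L - 1) := add_le_add h6 h82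
        _ = _ := by ring
    have h9 : ∑ r ∈ (Icc 2 Y).filter (fun r => ¬ r ≤ R0), 1 / (Nat.totient r : ℝ) *
        pS f lam X s r ≤ ∑ r ∈ Ioc R0 Y, L * (pS f lam X s r / r) := by
      have h91 : (Icc 2 Y).filter (fun r => ¬ r ≤ R0) ⊆ Ioc R0 Y := by
        intro r hr
        obtain ⟨hr1, hr2⟩ := Finset.mem_filter.1 hr
        exact Finset.mem_Ioc.2 ⟨by omega, (Finset.mem_Icc.1 hr1).2⟩
      refine (Finset.sum_le_sum_of_subset_of_nonneg h91 fun r _ _ =>
        mul_nonneg (by positivity) (hp0 r)).trans ?_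
      refine Finset.sum_le_sum fun r hr => ?_
      have hr' := Finset.mem_Ioc.1 hr
      have hr0 : r ≠ 0 := by omega
      have hrp : (0 : ℝ) < r := by
        have : 0 < r := by omega
        exact_mod_cast this
      have h92 := inv_totient_le r hr0
      have h93 : Real.log r / Real.log 2 + 1 ≤ L := by
        have hlog2 : (0.69 : ℝ) < Real.log 2 := lt_trans (by norm_num) Real.log_two_gt_d9
        have h94 := hYle r (by omega) hr'.2
        have h95 : Real.log r / Real.log 2 ≤ L / 2 / 0.69 :=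
          div_le_div₀ (by positivity) h94 (by norm_num) hlog2.le
        have h96 : L / 2 / 0.69 ≤ 3 / 4 * L := by
          rw [div_le_iff₀ (by norm_num)]
          linarith
        linarith
      have h97 : 1 / (Nat.totient r : ℝ) ≤ L / r :=
        h92.trans (div_le_div_of_nonneg_right h93 hrp.le)
      calc 1 / (Nat.totient r : ℝ) * pS f lam X s r ≤ L / r * pS f lam X s r :=
            mul_le_mul_of_nonneg_right h97 (hp0 r)
        _ = _ := by ring
    refine h9.trans ?_
    rw [← Finset.mul_sum]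
    calc L * ∑ r ∈ Ioc R0 Y, pS f lam X s r / r ≤ L * (X / L ^ (A + 5) * L) :=
          mul_le_mul_of_nonneg_left h8 hLpos.le
      _ = X / L ^ A * (1 / L ^ 3) := by
          rw [show A + 5 = A + 3 + 2 by ring, pow_add, pow_add]
          field_simp
      _ ≤ X / L ^ A * (1 / 2) := by
          apply mul_le_mul_of_nonneg_left _ (by positivity)
          apply one_div_le_one_div_of_le (by norm_num)
          nlinarith [sq_nonneg L]
      _ = _ := by ring
  rw [← Finset.sum_filter_add_sum_filter_not (Icc 2 Y) (fun r : ℕ => r ≤ R0)]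
  linarith

end Pool.Agent.CM.B
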