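import Pool.Agent.Lib.MP_0da313_nt.CM.B
import Pool.Agent.Lib.MP_89da58_nt.BvW

set_option autoImplicit false

/-!
Project CM, section B, piece cop: the integers which are not coprime to the modulus.
-/

namespace Pool.Agent.CM.B

open Finset Filter
open Pool.Agent.MP89da58 (tri tri_nonneg tri_le_one inv_totient_le sum_inv_totient_le
  card_primeFactors_le)

theorem cm_cop_biUnion (s : Finset ℕ) (t : ℕ → Finset ℕ) (g : ℕ → ℝ) (hg : ∀ p, 0 ≤ g p) :
    ∑ n ∈ s.biUnion t, g n ≤ ∑ p ∈ s, ∑ n ∈ t p, g n := by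
  classical
  induction s using Finset.induction_on with
  | empty => simp
  | insert a s ha ih =>
    rw [Finset.biUnion_insert, Finset.sum_insert ha]
    have h := Finset.sum_union_inter (s₁ := t a) (s₂ := s.biUnion t) (f := g)
    have h2 : 0 ≤ ∑ n ∈ t a ∩ s.biUnion t, g n := Finset.sum_nonneg fun n _ => hg n
    linarith

theorem cm_cop_large (A : ℕ) : ∀ᶠ X : ℝ in atTop, 12 * Real.log X ^ (A + 4) ≤ X ^ (1 / 20 : ℝ) := by
  have h := isLittleO_log_rpow_rpow_atTop ((A + 4 : ℕ) : ℝ) (by norm_num : (0 : ℝ) < 1 / 20)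
  have h2 := h.bound (by norm_num : (0 : ℝ) < 1 / 12)
  filter_upwards [h2, eventually_ge_atTop (1 : ℝ)] with X hX hX1
  have hL : 0 ≤ Real.log X := Real.log_nonneg hX1
  rw [Real.rpow_natCast, Real.norm_of_nonneg (by positivity),
    Real.norm_of_nonneg (by positivity)] at hX
  linarith

/-- The sum over the multiples of one large prime. -/
theorem cm_cop_one {lam X : ℝ} {f : ℕ → ℝ} (hX3 : 3 ≤ X)
    (hf0 : ∀ n, 0 ≤ f n) (hf1 : ∀ n ∈ Icc 1 ⌊3 * X⌋₊, f n ≤ 2 * Real.log X) (p : ℕ)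
    (hp : X ^ (1 / 20 : ℝ) ≤ p) :
    ∑ n ∈ (Icc 1 ⌊3 * X⌋₊).filter (fun n => p ∣ n), |f n * wd lam X n| ≤
      6 * Real.log X * X ^ (19 / 20 : ℝ) := by
  have hXpos : 0 < X := by linarith
  have hL : 0 ≤ Real.log X := Real.log_nonneg (by linarith)
  have hXp : 0 < X ^ (1 / 20 : ℝ) := Real.rpow_pos_of_pos hXpos _
  have hp0 : (0 : ℝ) < p := lt_of_lt_of_le hXp hp
  have hp0' : 0 < p := by exact_mod_cast hp0
  have h1 : ∀ n ∈ (Icc 1 ⌊3 * X⌋₊).filter (fun n => p ∣ n), |f n * wd lam X n| ≤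
      2 * Real.log X := by
    intro n hn
    rw [abs_of_nonneg (mul_nonneg (hf0 n) (show 0 ≤ wd lam X n from tri_nonneg _))]
    calc f n * wd lam X n ≤ 2 * Real.log X * 1 :=
          mul_le_mul (hf1 n (Finset.mem_filter.1 hn).1) (tri_le_one _) (tri_nonneg _) (by linarith)
      _ = 2 * Real.log X := mul_one _
  refine (Finset.sum_le_sum h1).trans ?_
  rw [Finset.sum_const, nsmul_eq_mul]
  have h2 : ((Icc 1 ⌊3 * X⌋₊).filter (fun n => p ∣ n)).card = ⌊3 * X⌋₊ / p := by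
    have : Icc 1 ⌊3 * X⌋₊ = Ioc 0 ⌊3 * X⌋₊ := by
      ext n; simp only [Finset.mem_Icc, Finset.mem_Ioc]; omega
    rw [this]
    exact Nat.Ioc_filter_dvd_card_eq_div _ _
  rw [h2]
  have h3 : ((⌊3 * X⌋₊ / p : ℕ) : ℝ) ≤ 3 * X ^ (19 / 20 : ℝ) := by
    have h4 : ((⌊3 * X⌋₊ / p : ℕ) : ℝ) ≤ (⌊3 * X⌋₊ : ℝ) / p := Nat.cast_div_le
    have h5 : (⌊3 * X⌋₊ : ℝ) ≤ 3 * X := Nat.floor_le (by positivity)
    have h6 : (⌊3 * X⌋₊ : ℝ) / p ≤ 3 * X / X ^ (1 / 20 : ℝ) :=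
      div_le_div₀ (by positivity) h5 hXp hp
    have h7 : 3 * X / X ^ (1 / 20 : ℝ) = 3 * X ^ (19 / 20 : ℝ) := by
      rw [div_eq_iff hXp.ne', mul_assoc, ← Real.rpow_add hXpos]
      norm_num
    linarith
  calc ((⌊3 * X⌋₊ / p : ℕ) : ℝ) * (2 * Real.log X) ≤ 3 * X ^ (19 / 20 : ℝ) * (2 * Real.log X) :=
        mul_le_mul_of_nonneg_right h3 (by positivity)
    _ = 6 * Real.log X * X ^ (19 / 20 : ℝ) := by ring

theorem p_cop : S_cop := by
  classical
  intro C lam hOk A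
  filter_upwards [hOk, cm_cop_large A, eventually_ge_atTop (Real.exp 4)] with X hXOk hXA hXe
  intro f hf Y hY
  have hXpos : 0 < X := lt_of_lt_of_le (Real.exp_pos 4) hXe
  have hL4 : 4 ≤ Real.log X := by
    rw [Real.le_log_iff_exp_le hXpos]; exact hXe
  have hX3 : 3 ≤ X := by
    have := Real.add_one_le_exp (4 : ℝ)
    linarith
  obtain ⟨hf0, hf1, hf2⟩ := hXOk f hf
  set L := Real.log X with hLdef
  have hLpos : 0 < L := by linarith
  have hlog2 : (0.69 : ℝ) < Real.log 2 := lt_trans (by norm_num) Real.log_two_gt_d9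
  rcases Nat.eq_zero_or_pos Y with hY0 | hY1
  · rw [hY0]
    simp only [Finset.Icc_eq_empty_of_lt (by norm_num : (0 : ℕ) < 1), Finset.sum_empty]
    positivity
  have hlogQ : ∀ Q ∈ Icc 1 Y, Real.log Q ≤ 1 / 2 * L := by
    intro Q hQ
    obtain ⟨hQ1, hQ2⟩ := Finset.mem_Icc.1 hQ
    have hQpos : (0 : ℝ) < Q := by exact_mod_cast hQ1
    have h1 : (Q : ℝ) ≤ X ^ (1 / 2 : ℝ) := le_trans (by exact_mod_cast hQ2) hY
    have h2 := Real.log_le_log hQpos h1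
    rwa [Real.log_rpow hXpos] at h2
  have hdiv : ∀ t : ℝ, t ≤ 1 / 2 * L → t / Real.log 2 + 1 ≤ L := by
    intro t ht
    have h1 : t / Real.log 2 ≤ 0.73 * L := by
      rw [div_le_iff₀ (by linarith)]
      nlinarith
    linarith
  -- the inner sum
  have hin : ∀ Q ∈ Icc 1 Y,
      ∑ n ∈ (Icc 1 ⌊3 * X⌋₊).filter (fun n => ¬ n.Coprime Q), |f n * wd lam X n| ≤
        6 * L ^ 2 * X ^ (19 / 20 : ℝ) := by
    intro Q hQ
    obtain ⟨hQ1, hQ2⟩ := Finset.mem_Icc.1 hQ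
    have hstep : ∑ n ∈ (Icc 1 ⌊3 * X⌋₊).filter (fun n => ¬ n.Coprime Q), |f n * wd lam X n| ≤
        ∑ p ∈ Q.primeFactors.filter (fun p : ℕ => X ^ (1 / 20 : ℝ) ≤ (p : ℝ)),
          ∑ n ∈ (Icc 1 ⌊3 * X⌋₊).filter (fun n => p ∣ n), |f n * wd lam X n| := by
      have hsub : ((Icc 1 ⌊3 * X⌋₊).filter (fun n => ¬ n.Coprime Q)).filter
          (fun n => |f n * wd lam X n| ≠ 0) ⊆
          (Q.primeFactors.filter (fun p : ℕ => X ^ (1 / 20 : ℝ) ≤ (p : ℝ))).biUnion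
            (fun p => (Icc 1 ⌊3 * X⌋₊).filter (fun n => p ∣ n)) := by
        intro n hn
        rw [Finset.mem_filter, Finset.mem_filter] at hn
        obtain ⟨⟨hn1, hn2⟩, hn3⟩ := hn
        have hn4 : f n * wd lam X n ≠ 0 := fun h => hn3 (by rw [h, abs_zero])
        obtain ⟨p, hp, hpn, hpQ⟩ := Nat.Prime.not_coprime_iff_dvd.1 hn2
        rw [Finset.mem_biUnion]
        refine ⟨p, ?_, ?_⟩
        · rw [Finset.mem_filter]
          exact ⟨Nat.mem_primeFactors.2 ⟨hp, hpQ, by omega⟩,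
            hf2 n hn1 (left_ne_zero_of_mul hn4) (right_ne_zero_of_mul hn4) p hp hpn⟩
        · rw [Finset.mem_filter]
          exact ⟨hn1, hpn⟩
      rw [← Finset.sum_filter_ne_zero]
      refine (Finset.sum_le_sum_of_subset_of_nonneg hsub fun _ _ _ => abs_nonneg _).trans ?_
      exact cm_cop_biUnion _ _ _ fun _ => abs_nonneg _
    refine hstep.trans ?_
    have h1 : ∀ p ∈ Q.primeFactors.filter (fun p : ℕ => X ^ (1 / 20 : ℝ) ≤ (p : ℝ)),
        ∑ n ∈ (Icc 1 ⌊3 * X⌋₊).filter (fun n => p ∣ n), |f n * wd lam X n| ≤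
        6 * L * X ^ (19 / 20 : ℝ) := fun p hp =>
      cm_cop_one hX3 hf0 hf1 p (Finset.mem_filter.1 hp).2
    refine (Finset.sum_le_sum h1).trans ?_
    rw [Finset.sum_const, nsmul_eq_mul]
    have h2 : (((Q.primeFactors.filter (fun p : ℕ => X ^ (1 / 20 : ℝ) ≤ (p : ℝ))).card : ℕ) : ℝ)
        ≤ L := by
      have h3 : (Q.primeFactors.filter (fun p : ℕ => X ^ (1 / 20 : ℝ) ≤ (p : ℝ))).card ≤
          Q.primeFactors.card := Finset.card_filter_le _ _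
      have h4 := card_primeFactors_le Q (by omega)
      have h5 := hdiv (Real.log Q) (hlogQ Q hQ)
      have h6 : (((Q.primeFactors.filter (fun p : ℕ => X ^ (1 / 20 : ℝ) ≤ (p : ℝ))).card : ℕ) : ℝ)
        ≤ (Q.primeFactors.card : ℝ) := by exact_mod_cast h3
      linarith
    calc _ ≤ L * (6 * L * X ^ (19 / 20 : ℝ)) := mul_le_mul_of_nonneg_right h2 (by positivity)
      _ = 6 * L ^ 2 * X ^ (19 / 20 : ℝ) := by ring
  have hout : ∑ Q ∈ Icc 1 Y, 1 / (Nat.totient Q : ℝ) ≤ L ^ 2 := by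
    refine (sum_inv_totient_le Y hY1).trans ?_
    have h1 := hlogQ Y (Finset.mem_Icc.2 ⟨hY1, le_rfl⟩)
    have h2 := hdiv _ h1
    have h3 : 0 ≤ Real.log Y := Real.log_nonneg (by exact_mod_cast hY1)
    have h4 : 1 + Real.log Y ≤ L := by linarith
    calc (Real.log Y / Real.log 2 + 1) * (1 + Real.log Y) ≤ L * L :=
          mul_le_mul h2 h4 (by linarith) hLpos.le
      _ = L ^ 2 := by ring
  calc ∑ Q ∈ Icc 1 Y, 1 / (Nat.totient Q : ℝ) *
        ∑ n ∈ (Icc 1 ⌊3 * X⌋₊).filter (fun n => ¬ n.Coprime Q), |f n * wd lam X n|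
      ≤ ∑ Q ∈ Icc 1 Y, 1 / (Nat.totient Q : ℝ) * (6 * L ^ 2 * X ^ (19 / 20 : ℝ)) :=
        Finset.sum_le_sum fun Q hQ => mul_le_mul_of_nonneg_left (hin Q hQ) (by positivity)
    _ = (∑ Q ∈ Icc 1 Y, 1 / (Nat.totient Q : ℝ)) * (6 * L ^ 2 * X ^ (19 / 20 : ℝ)) := by
        rw [Finset.sum_mul]
    _ ≤ L ^ 2 * (6 * L ^ 2 * X ^ (19 / 20 : ℝ)) :=
        mul_le_mul_of_nonneg_right hout (by positivity)
    _ = 6 * L ^ 4 * X ^ (19 / 20 : ℝ) := by ring
    _ ≤ X / L ^ A := by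
        rw [le_div_iff₀ (by positivity)]
        have h1 : X = X ^ (1 / 20 : ℝ) * X ^ (19 / 20 : ℝ) := by
          rw [← Real.rpow_add hXpos]
          norm_num
        calc 6 * L ^ 4 * X ^ (19 / 20 : ℝ) * L ^ A = 6 * L ^ (A + 4) * X ^ (19 / 20 : ℝ) := by ring
          _ ≤ X ^ (1 / 20 : ℝ) * X ^ (19 / 20 : ℝ) := by
              apply mul_le_mul_of_nonneg_right _ (by positivity)
              have : 0 ≤ L ^ (A + 4) := by positivity
              linarith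
          _ = X := h1.symm

end Pool.Agent.CM.B
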