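import Pool.Agent.Lib.MP_0da313_nt.CM.L
import Pool.Agent.Lib.MP_0da313_nt.BV.T1c
import Pool.Agent.Lib.MP_0da313_nt.MT.Orient

set_option autoImplicit false

/-!
Project CM, section L: the densities.
-/

namespace Pool.Agent.CM.L

open Finset Filter Polynomial
open Pool.Agent.Lib.MP_0da313_nt
open Pool.Agent.BVall (om rhoW PK Dens Cls mem_PK dvd_eval_congr)
open Pool.Agent.MP89da58 (kapD)
open Pool.Agent.MT (om_prod card_root_lin PK_eq totient_div kapD_pos)

lemma dns_om_congr {Q Q' : ℕ → ℤ → Prop} [∀ p, DecidablePred (Q p)] [∀ p, DecidablePred (Q' p)]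
    (p : ℕ) (h : ∀ y, Q p y ↔ Q' p y) : om Q p = om Q' p := by
  unfold om
  congr 1
  ext x
  simp only [Finset.mem_filter, h]

lemma dns_rho_congr {Q Q' : ℕ → ℤ → Prop} [∀ p, DecidablePred (Q p)]
    [∀ p, DecidablePred (Q' p)] (u p : ℕ) (h : ∀ y, Q p y ↔ Q' p y) :
    rhoW u Q p = rhoW u Q' p := by
  unfold rhoW
  rw [dns_om_congr p h]

section

variable {ι : Type} [Fintype ι] [DecidableEq ι] {D : ℕ} (F : Fam ι D)

/-- the condition for the small primes -/
def dQ (n : ℕ) (l : Option ι) (p : ℕ) (y : ℤ) : Prop :=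
  (p : ℤ) ∣ (F.Gc n l).eval y ∧ ¬ (p : ℤ) ∣ F.u l * y + F.v n l

instance dQ_dec (n : ℕ) (l : Option ι) (p : ℕ) : DecidablePred (dQ F n l p) := fun y => by
  unfold dQ
  infer_instance

lemma dQ_iff {n z : ℕ} {l l' : Option ι} {p : ℕ} (hp : p ≤ z) (y : ℤ) :
    F.Q n z l l' p y ↔ dQ F n l p y := by
  unfold Fam.Q dQ Fam.L
  rw [if_pos hp]

lemma dQ_iff2 {n z : ℕ} {l l' : Option ι} {p : ℕ} (hp : z < p) (y : ℤ) :
    F.Q n z l l' p y ↔ ((p : ℤ) ∣ F.u l' * y + F.v n l' ∧ ¬ (p : ℤ) ∣ F.u l * y + F.v n l) := by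
  unfold Fam.Q Fam.L
  rw [if_neg (by omega)]

lemma dQ_prod {n : ℕ} (hn : F.N0 ≤ n) (l : Option ι) {p : ℕ} (hp : p.Prime) :
    om (fun p y => (p : ℤ) ∣ (F.G n).eval y) p =
      om (dQ F n l) p + if p ∣ (F.u l).natAbs then 0 else 1 := by
  have h := om_prod (F.hG n hn l) (u := F.u l) (v := F.v n l) (σ := 1) (Or.inl rfl)
    (fun y => by simp [Fam.v]) (F.huv n hn l) hp
  rw [h]
  congr 1

lemma dG_lt {n : ℕ} (hn : F.N0 ≤ n) {p : ℕ} (hp : p.Prime) :
    om (fun p y => (p : ℤ) ∣ (F.G n).eval y) p < p := by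
  unfold om
  exact card_roots_mod_lt (F.G n) p hp (F.hloc n hn p hp)

lemma dG_le {n : ℕ} (hn : F.N0 ≤ n) {p : ℕ} (hp : p.Prime) :
    om (fun p y => (p : ℤ) ∣ (F.G n).eval y) p ≤ D := by
  unfold om
  exact card_roots_mod_le (F.G n) p D hp (F.hdeg n hn) (F.hloc n hn p hp)

lemma dQ_cls {n : ℕ} (hn : F.N0 ≤ n) (l : Option ι) : Cls (F.u l) (F.v n l) D (dQ F n l) := by
  refine ⟨?_, fun p x h => h.2, ?_, ?_, ?_⟩
  · intro p x y h
    have h1 := dvd_eval_congr (F.Gc n l) h
    have h2 : (p : ℤ) ∣ F.u l * x + F.v n l ↔ (p : ℤ) ∣ F.u l * y + F.v n l := by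
      have e : F.u l * x + F.v n l - (F.u l * y + F.v n l) = F.u l * (x - y) := by ring
      have h3 : (p : ℤ) ∣ F.u l * x + F.v n l - (F.u l * y + F.v n l) := by
        rw [e]; exact h.mul_left _
      constructor
      · intro h4
        have h5 := dvd_sub h4 h3
        rwa [sub_sub_cancel] at h5
      · intro h4
        have h5 := dvd_add h3 h4
        rwa [sub_add_cancel] at h5
    unfold dQ
    rw [h1, h2]
  · intro p hp
    have h1 := dQ_prod F hn l hp
    have h2 := dG_le F hn hp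
    omega
  · intro p hp hd
    have h1 := dQ_prod F hn l hp
    have h2 := dG_lt F hn hp
    omega
  · intro p hp hd
    have h1 := dQ_prod F hn l hp
    have h2 := dG_lt F hn hp
    rw [if_neg hd] at h1
    omega

lemma dns_rd {n z : ℕ} {l : Option ι} {p : ℕ} (hp : p ≤ z) :
    F.rd n z l p = rhoW (F.u l).natAbs (dQ F n l) p := by
  classical
  unfold Fam.rd
  rw [if_pos hp]
  exact dns_rho_congr _ p (dQ_iff F hp)

end

theorem p_dns : S_dns := by
  classical
  intro ι _ _ D F hD n n' hn hbig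
  have hcls := fun l => dQ_cls F hn l
  have hdens := fun l => (hcls l).dens
  have hu0 : ∀ l, 0 < (F.u l).natAbs := fun l => Int.natAbs_pos.2 (F.hu l)
  have hroot : ∀ l' (p : ℕ), p.Prime →
      ((range p).filter (fun ρ : ℕ => (p : ℤ) ∣ F.u l' * (ρ : ℤ) + F.v n l')).card =
        if p ∣ (F.u l').natAbs then 0 else 1 := fun l' p hp => card_root_lin (F.huv n hn l') hp
  have hVdef : F.V n n' = W (fun p => (om (fun p y => (p : ℤ) ∣ (F.G n).eval y) p : ℝ) / p)
      (PK (2 * D) n') := by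
    unfold Fam.V
    unfold W
    apply Finset.prod_congr rfl
    intro p _
    congr 3
  have hV0 : 0 ≤ F.V n n' := by
    rw [hVdef]
    apply W_nonneg
    intro p hp
    have hpp := (mem_PK.1 hp).1
    rw [div_le_one (by exact_mod_cast hpp.pos)]
    exact_mod_cast (dG_lt F hn hpp).le
  refine ⟨?_, ?_, ?_, ?_, ?_, hV0⟩
  · intro l l' p hp
    by_cases hz : p ≤ z0 D n'
    · rw [dns_om_congr (Q' := dQ F n l) p (dQ_iff F hz)]
      exact (hcls l).le p hp
    · push Not at hz
      refine le_trans ?_ hD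
      unfold om
      refine le_trans (Finset.card_le_card (t := (range p).filter
        (fun ρ : ℕ => (p : ℤ) ∣ F.u l' * (ρ : ℤ) + F.v n l')) ?_) ?_
      · intro x hx
        rw [Finset.mem_filter] at hx ⊢
        exact ⟨hx.1, ((dQ_iff2 F hz _).1 hx.2).1⟩
      · rw [hroot l' p hp]
        split_ifs <;> omega
  · intro l l' p hp hz
    rw [dns_rd F hz]
    exact dns_rho_congr _ p (dQ_iff F hz)
  · intro l l' p hll hp hz
    have hul := hbig l p hp hz
    have hul' := hbig l' p hp hz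
    have hpp : Prime (p : ℤ) := Nat.prime_iff_prime_int.1 hp
    have hul2 : ¬ (p : ℤ) ∣ F.u l' := fun h => hul' (Int.natCast_dvd.1 h)
    have hul3 : ¬ (p : ℤ) ∣ F.u l := fun h => hul (Int.natCast_dvd.1 h)
    have key : ∀ y : ℤ, (p : ℤ) ∣ F.u l' * y + F.v n l' →
        ((p : ℤ) ∣ F.u l * y + F.v n l ↔
          (p : ℤ) ∣ F.u l * F.v n l' - F.u l' * F.v n l) := by
      intro y hy
      have e : F.u l * F.v n l' - F.u l' * F.v n l =
          F.u l * (F.u l' * y + F.v n l') - F.u l' * (F.u l * y + F.v n l) := by ring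
      rw [e]
      constructor
      · intro h
        exact dvd_sub (hy.mul_left _) (h.mul_left _)
      · intro h
        have h1 := dvd_sub (hy.mul_left (F.u l)) h
        rw [sub_sub_cancel] at h1
        exact (hpp.dvd_mul.1 h1).resolve_left hul2
    unfold rhoW
    rw [if_neg hul, Nat.cast_sub hp.one_le, Nat.cast_one]
    by_cases hd : (p : ℤ) ∣ F.u l * F.v n l' - F.u l' * F.v n l
    · rw [if_pos hd]
      have h0 : om (F.Q n (z0 D n') l l') p = 0 := by
        unfold om
        rw [Finset.card_eq_zero, Finset.filter_eq_empty_iff]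
        intro x _ hx
        rw [dQ_iff2 F hz] at hx
        exact hx.2 ((key _ hx.1).2 hd)
      rw [h0, Nat.cast_zero, zero_div]
    · rw [if_neg hd]
      have h1 : om (F.Q n (z0 D n') l l') p = 1 := by
        have h2 := hroot l' p hp
        rw [if_neg hul'] at h2
        rw [← h2]
        unfold om
        congr 1
        ext x
        rw [Finset.mem_filter, Finset.mem_filter, dQ_iff2 F hz]
        constructor
        · rintro ⟨h3, h4⟩
          exact ⟨h3, h4.1⟩
        · rintro ⟨h3, h4⟩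
          exact ⟨h3, h4, fun h5 => hd ((key _ h4).1 h5)⟩
      rw [h1, Nat.cast_one]
  · intro l
    have h := hdens l
    refine ⟨fun p => ?_, fun p hp => ?_, fun p hp => ?_⟩
    · by_cases hz : p.Prime ∧ p ≤ z0 D n'
      · rw [if_pos hz, dns_rd F hz.2]
        exact h.nonneg p
      · rw [if_neg hz]
    · by_cases hz : p.Prime ∧ p ≤ z0 D n'
      · rw [if_pos hz, dns_rd F hz.2]
        exact h.lt p hp
      · rw [if_neg hz]
        have hp1 : (1 : ℝ) ≤ p := by exact_mod_cast hp.one_le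
        have h1 : 1 / (p : ℝ) ≤ 1 := by rw [div_le_one (by linarith)]; exact hp1
        linarith
    · by_cases hz : p.Prime ∧ p ≤ z0 D n'
      · rw [if_pos hz, dns_rd F hz.2]
        exact h.le p hp
      · rw [if_neg hz]
        positivity
  · intro l
    have hκ : 0 < kapD (z0 D n') := kapD_pos _
    have hu1 : (0 : ℝ) < (F.u l).natAbs := by exact_mod_cast hu0 l
    have hφ : (0 : ℝ) < Nat.totient (F.u l).natAbs := by
      exact_mod_cast Nat.totient_pos.2 (hu0 l)
    have habs : |(F.u l : ℝ)| = (F.u l).natAbs := by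
      rw [Nat.cast_natAbs]
      push_cast
      rfl
    set r : ℕ → ℝ := fun p => if p ∣ (F.u l).natAbs then 1 - 1 / (p : ℝ) else 1 with hr
    have hfac : ∀ p ∈ PK (2 * D) n',
        (1 - (om (fun p y => (p : ℤ) ∣ (F.G n).eval y) p : ℝ) / p) * r p =
        (1 - F.rd n (z0 D n') l p) * (1 - 1 / (p : ℝ)) := by
      intro p hp
      obtain ⟨hpp, hpz⟩ := mem_PK.1 hp
      have hp2 : (2 : ℝ) ≤ p := by exact_mod_cast hpp.two_le
      have h1 := dQ_prod F hn l hpp
      rw [dns_rd F (show p ≤ z0 D n' from hpz)]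
      simp only [hr]
      unfold rhoW
      rw [h1]
      by_cases hd : p ∣ (F.u l).natAbs
      · rw [if_pos hd, if_pos hd, if_pos hd]
        push_cast
        ring
      · rw [if_neg hd, if_neg hd, if_neg hd, Nat.cast_sub hpp.one_le]
        push_cast
        have h2 : (p : ℝ) ≠ 0 := by linarith
        have h3 : (p : ℝ) - 1 ≠ 0 := by linarith
        field_simp
        ring
    have hprod : F.V n n' * ∏ p ∈ PK (2 * D) n', r p =
        W (F.rd n (z0 D n') l) (PK (2 * D) n') * kapD (z0 D n') := by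
      rw [hVdef]
      unfold W kapD z0
      rw [← PK_eq, ← Finset.prod_mul_distrib, ← Finset.prod_mul_distrib]
      exact Finset.prod_congr rfl hfac
    have hrr : ∏ p ∈ PK (2 * D) n', r p =
        (Nat.totient (F.u l).natAbs : ℝ) / (F.u l).natAbs := by
      rw [totient_div _ (hu0 l)]
      have h1 : ∏ p ∈ PK (2 * D) n', r p =
          ∏ p ∈ (PK (2 * D) n').filter (· ∣ (F.u l).natAbs), (1 - 1 / (p : ℝ)) := by
        rw [Finset.prod_filter]
      rw [h1]
      congr 1
      ext p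
      rw [Finset.mem_filter, Nat.mem_primeFactors, mem_PK]
      constructor
      · rintro ⟨⟨h2, _⟩, h3⟩
        exact ⟨h2, h3, (hu0 l).ne'⟩
      · rintro ⟨h2, h3, _⟩
        refine ⟨⟨h2, ?_⟩, h3⟩
        by_contra h4
        push Not at h4
        exact hbig l p h2 h4 h3
    rw [hrr] at hprod
    rw [habs, div_eq_div_iff hφ.ne' (by positivity)]
    field_simp at hprod
    linarith

end Pool.Agent.CM.L
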