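import Pool.Agent.Lib.MP_0da313_nt.CM.B

set_option autoImplicit false

/-!
Project CM, piece dya: dyadic decomposition.
-/

namespace Pool.Agent.CM.B

open Finset Filter
open ArithmeticFunction (vonMangoldt)
open Pool.Agent.MP89da58 (tri primChars)
open Pool.Agent.CH (thP)

private theorem cm_dya_split (U : ℕ) (g : ℕ → ℂ) (I : ℕ) :
    ∑ m ∈ Ioc U (2 ^ I * U), g m =
      ∑ i ∈ range I, ∑ m ∈ Ioc (2 ^ i * U) (2 * (2 ^ i * U)), g m := by
  induction I with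
  | zero => simp
  | succ I ih =>
    rw [sum_range_succ, ← ih, show 2 * (2 ^ I * U) = 2 ^ (I + 1) * U by ring]
    have h1 : 1 ≤ 2 ^ I := Nat.one_le_two_pow
    have h2 : 1 * U ≤ 2 ^ I * U := Nat.mul_le_mul_right U h1
    rw [one_mul] at h2
    exact (sum_Ioc_consecutive g h2
      (Nat.mul_le_mul_right U (Nat.pow_le_pow_right (by norm_num) (Nat.le_succ I)))).symm

private theorem cm_dya_one (U V X I : ℕ) (F : ℕ → ℕ → ℂ) (hU : 1 ≤ U) (hV : 1 ≤ V) (hI : X < 2 ^ I)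
    (hF : ∀ m n : ℕ, F m n ≠ 0 → U < m ∧ V < n ∧ m * n ≤ X) :
    ∑ m ∈ Icc 1 X, ∑ n ∈ Icc 1 X, F m n =
      ∑ p ∈ range I ×ˢ range I, ∑ m ∈ Ioc (2 ^ p.1 * U) (2 * (2 ^ p.1 * U)),
        ∑ n ∈ Ioc (2 ^ p.2 * V) (2 * (2 ^ p.2 * V)), F m n := by
  have h1 : ∑ m ∈ Icc 1 X, ∑ n ∈ Icc 1 X, F m n =
      ∑ m ∈ Ioc U (2 ^ I * U), ∑ n ∈ Ioc V (2 ^ I * V), F m n := by
    rw [← sum_product', ← sum_product']
    apply sum_congr_of_eq_on_inter
    · rintro ⟨m, n⟩ h1 h2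
      rw [mem_product, mem_Icc, mem_Icc] at h1
      rw [mem_product, mem_Ioc, mem_Ioc] at h2
      by_contra h3
      obtain ⟨h4, h5, h6⟩ := hF m n h3
      apply h2
      refine ⟨⟨h4, ?_⟩, ⟨h5, ?_⟩⟩
      · calc m ≤ X := h1.1.2
          _ ≤ 2 ^ I := hI.le
          _ = 2 ^ I * 1 := (mul_one _).symm
          _ ≤ 2 ^ I * U := Nat.mul_le_mul_left _ hU
      · calc n ≤ X := h1.2.2
          _ ≤ 2 ^ I := hI.le
          _ = 2 ^ I * 1 := (mul_one _).symm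
          _ ≤ 2 ^ I * V := Nat.mul_le_mul_left _ hV
    · rintro ⟨m, n⟩ h1 h2
      rw [mem_product, mem_Ioc, mem_Ioc] at h1
      rw [mem_product, mem_Icc, mem_Icc] at h2
      simp only at h1 h2
      by_contra h3
      obtain ⟨h4, h5, h6⟩ := hF m n h3
      apply h2
      have hm : 1 ≤ m := by omega
      have hn : 1 ≤ n := by omega
      have h7 : m * 1 ≤ m * n := Nat.mul_le_mul_left _ hn
      have h8 : 1 * n ≤ m * n := Nat.mul_le_mul_right _ hm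
      refine ⟨⟨hm, ?_⟩, ⟨hn, ?_⟩⟩ <;> omega
    · intro a _ _
      rfl
  rw [h1, cm_dya_split, sum_product]
  apply sum_congr rfl
  intro i _
  simp only
  exact (sum_congr rfl fun m _ => cm_dya_split V (F m) I).trans sum_comm

private theorem cm_dya_log : ∀ᶠ X : ℝ in atTop,
    ((Nat.log 2 ⌊3 * X⌋₊ + 1 : ℕ) : ℝ) ^ 2 ≤ (Real.log X) ^ 3 := by
  filter_upwards [Real.tendsto_log_atTop.eventually_ge_atTop 10, eventually_ge_atTop 1] with X hX hX1
  have hX0 : (0 : ℝ) < X := by linarith only [hX1]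
  have hY : ⌊3 * X⌋₊ ≠ 0 := by
    have : 1 ≤ ⌊3 * X⌋₊ := Nat.le_floor (by push_cast; linarith only [hX1])
    omega
  have h1 : 2 ^ (Nat.log 2 ⌊3 * X⌋₊) ≤ ⌊3 * X⌋₊ := Nat.pow_log_le_self 2 hY
  have h2 : ((2 : ℝ)) ^ (Nat.log 2 ⌊3 * X⌋₊) ≤ 3 * X :=
    le_trans (by exact_mod_cast h1) (Nat.floor_le (by positivity))
  have h3 := Real.log_le_log (by positivity) h2
  rw [Real.log_pow, Real.log_mul (by norm_num) (by positivity)] at h3
  have h4 : Real.log 3 ≤ 2 := (Real.log_le_sub_one_of_pos (by norm_num)).trans (by norm_num)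
  have h5 := Real.log_two_gt_d9
  set l : ℝ := ((Nat.log 2 ⌊3 * X⌋₊ : ℕ) : ℝ) with hl
  have hl0 : 0 ≤ l := Nat.cast_nonneg _
  have h6 : l + 1 ≤ 2 * Real.log X := by
    nlinarith only [h3, h4, h5, hl0, hX]
  push_cast
  calc (l + 1) ^ 2 ≤ (2 * Real.log X) ^ 2 := pow_le_pow_left₀ (by linarith only [hl0]) h6 2
    _ = 4 * (Real.log X) ^ 2 := by ring
    _ ≤ Real.log X * (Real.log X) ^ 2 :=
      mul_le_mul_of_nonneg_right (by linarith only [hX]) (by positivity)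
    _ = (Real.log X) ^ 3 := by ring

theorem p_dya : S_dya := by
  intro lam _
  filter_upwards [cm_dya_log, eventually_ge_atTop 1] with X hlog hX1 R U V f K hU hV hK hsup hblk
  have h3X : (0 : ℝ) ≤ 3 * X := by linarith only [hX1]
  set Y : ℕ := ⌊3 * X⌋₊ with hY
  set I : ℕ := Nat.log 2 Y + 1 with hI
  have hI2 : Y < 2 ^ I := Nat.lt_pow_succ_log_self (by norm_num) Y
  have hone : ∀ q ∈ primChars R, ∑ m ∈ Icc 1 Y, ∑ n ∈ Icc 1 Y, f q m n =
      ∑ p ∈ range I ×ˢ range I, ∑ m ∈ Ioc (2 ^ p.1 * U) (2 * (2 ^ p.1 * U)),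
        ∑ n ∈ Ioc (2 ^ p.2 * V) (2 * (2 ^ p.2 * V)), f q m n := by
    intro q _
    apply cm_dya_one U V Y I (f q) hU hV hI2
    intro m n hne
    obtain ⟨h1, h2, h4⟩ := hsup q m n hne
    exact ⟨h1, h2, Nat.le_floor h4⟩
  have hblock : ∀ p ∈ range I ×ˢ range I, ∑ q ∈ primChars R,
      ‖∑ m ∈ Ioc (2 ^ p.1 * U) (2 * (2 ^ p.1 * U)),
        ∑ n ∈ Ioc (2 ^ p.2 * V) (2 * (2 ^ p.2 * V)), f q m n‖ ≤ K := by
    rintro ⟨i, k⟩ _
    simp only
    have hi : 1 ≤ 2 ^ i := Nat.one_le_two_pow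
    have hk : 1 ≤ 2 ^ k := Nat.one_le_two_pow
    have hUM : U ≤ 2 ^ i * U := by
      have := Nat.mul_le_mul_right U hi
      rwa [one_mul] at this
    have hVN : V ≤ 2 ^ k * V := by
      have := Nat.mul_le_mul_right V hk
      rwa [one_mul] at this
    generalize 2 ^ i * U = M at hUM ⊢
    generalize 2 ^ k * V = N at hVN ⊢
    by_cases hex : ∃ q ∈ primChars R, ∃ m ∈ Ioc M (2 * M), ∃ n ∈ Ioc N (2 * N), f q m n ≠ 0
    · obtain ⟨q, hq, m, hm, n, hn, hne⟩ := hex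
      rw [mem_Ioc] at hm hn
      obtain ⟨h1, h2, h4⟩ := hsup q m n hne
      apply hblk M N hUM hVN
      have h5 : M * N ≤ m * n := Nat.mul_le_mul hm.1.le hn.1.le
      exact le_trans (by exact_mod_cast h5) h4
    · push Not at hex
      refine le_trans (le_of_eq ?_) hK
      apply sum_eq_zero
      intro q hq
      rw [sum_eq_zero]
      · simp
      · intro m hm
        apply sum_eq_zero
        intro n hn
        exact hex q hq m hm n hn
  calc ∑ q ∈ primChars R, ‖∑ m ∈ Icc 1 Y, ∑ n ∈ Icc 1 Y, f q m n‖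
      ≤ ∑ q ∈ primChars R, ∑ p ∈ range I ×ˢ range I,
        ‖∑ m ∈ Ioc (2 ^ p.1 * U) (2 * (2 ^ p.1 * U)),
          ∑ n ∈ Ioc (2 ^ p.2 * V) (2 * (2 ^ p.2 * V)), f q m n‖ := by
        apply sum_le_sum
        intro q hq
        rw [hone q hq]
        exact norm_sum_le _ _
    _ = ∑ p ∈ range I ×ˢ range I, ∑ q ∈ primChars R,
        ‖∑ m ∈ Ioc (2 ^ p.1 * U) (2 * (2 ^ p.1 * U)),
          ∑ n ∈ Ioc (2 ^ p.2 * V) (2 * (2 ^ p.2 * V)), f q m n‖ := sum_comm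
    _ ≤ ∑ _p ∈ range I ×ˢ range I, K := sum_le_sum hblock
    _ = (I : ℝ) ^ 2 * K := by
        rw [sum_const, card_product, card_range, nsmul_eq_mul]
        push_cast
        ring
    _ ≤ (Real.log X) ^ 3 * K := mul_le_mul_of_nonneg_right hlog hK

end Pool.Agent.CM.B
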