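import Pool.Agent.Lib.MP_0da313_nt.CM.G

set_option autoImplicit false

/-!
Project CM, piece es1: error sums, first kind.
-/

namespace Pool.Agent.CM.G

open Finset
open Pool.Agent.MP89da58 (bil pw nn supp part join compat)
open Pool.Agent.MT (PJf)

theorem p_es1 : S_es1 := by
  classical
  intro P P1 hP hP1 c K0 Y Y0 hc hK0 E hE
  set mp : Finset (PJf P) → Finset ℕ := fun a => a.map (Function.Embedding.subtype _) with hmp
  have hmpP : ∀ a, mp a ⊆ P := fun a => Finset.map_subtype_subset a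
  have hprod : ∀ a, ∏ p ∈ mp a, p = nn (fun j : PJf P => (j : ℕ)) a := by
    intro a
    simp only [hmp]
    rw [Finset.prod_map]
    rfl
  have hcard : ∀ a, (mp a).card = a.card := fun a => Finset.card_map _
  set A := (Finset.univ : Finset (Finset (PJf P))).filter
    (fun a => nn (fun j : PJf P => (j : ℕ)) a ≤ Y * Y) with hA
  set S := (A ×ˢ P1.powerset).filter
    (fun x : Finset (PJf P) × Finset ℕ => ∏ p ∈ x.2, p ≤ Y0 ∧ Disjoint x.2 (mp x.1)) with hS
  set f : Finset (PJf P) × Finset ℕ → ℕ :=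
    fun x => (∏ p ∈ x.2, p) * nn (fun j : PJf P => (j : ℕ)) x.1 with hf
  set G : ℕ → ℝ := fun q => ((c * K0 : ℕ) : ℝ) ^ q.primeFactors.card * E q with hG
  -- properties of the elements of S
  have hSm : ∀ x ∈ S, x.2 ⊆ P1 ∧ nn (fun j : PJf P => (j : ℕ)) x.1 ≤ Y * Y ∧
      ∏ p ∈ x.2, p ≤ Y0 ∧ Disjoint x.2 (mp x.1) := by
    intro x hx
    rw [hS, Finset.mem_filter, Finset.mem_product, hA, Finset.mem_filter,
      Finset.mem_powerset] at hx
    exact ⟨hx.1.2, hx.1.1.2, hx.2⟩
  have hfx : ∀ x ∈ S, f x = ∏ p ∈ x.2 ∪ mp x.1, p := by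
    intro x hx
    rw [Finset.prod_union (hSm x hx).2.2.2, hprod]
  have hpr : ∀ x ∈ S, ∀ p ∈ x.2 ∪ mp x.1, p.Prime := by
    intro x hx p hp
    rcases Finset.mem_union.1 hp with h | h
    · exact hP1 p ((hSm x hx).1 h)
    · exact hP p (hmpP _ h)
  have hpf : ∀ x ∈ S, (f x).primeFactors = x.2 ∪ mp x.1 := by
    intro x hx
    rw [hfx x hx]
    exact Nat.primeFactors_prod (hpr x hx)
  -- the left side
  have h1 : ∑ a ∈ A, (c : ℝ) ^ a.card * ∑ T ∈ P1.powerset.filter (fun T => ∏ p ∈ T, p ≤ Y0 ∧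
        Disjoint T (mp a)),
      3 * ((K0 : ℝ) ^ (T.card + a.card) * E ((∏ p ∈ T, p) * nn (fun j : PJf P => (j : ℕ)) a)) =
      ∑ x ∈ S, (c : ℝ) ^ x.1.card * (3 * ((K0 : ℝ) ^ (x.2.card + x.1.card) * E (f x))) := by
    symm
    rw [hS, Finset.sum_filter, Finset.sum_product]
    apply Finset.sum_congr rfl
    intro a _
    rw [Finset.mul_sum, Finset.sum_filter]
  rw [h1]
  have h2 : ∀ x ∈ S, (c : ℝ) ^ x.1.card * (3 * ((K0 : ℝ) ^ (x.2.card + x.1.card) * E (f x))) ≤
      3 * G (f x) := by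
    intro x hx
    simp only [hG]
    rw [hpf x hx, Finset.card_union_of_disjoint (hSm x hx).2.2.2, hcard]
    have h3 : (c : ℝ) ^ x.1.card ≤ (c : ℝ) ^ (x.2.card + x.1.card) := by
      apply pow_le_pow_right₀ _ (by omega)
      exact_mod_cast hc
    have h4 : (0 : ℝ) ≤ 3 * ((K0 : ℝ) ^ (x.2.card + x.1.card) * E (f x)) :=
      mul_nonneg (by norm_num) (mul_nonneg (by positivity) (hE _))
    refine (mul_le_mul_of_nonneg_right h3 h4).trans (le_of_eq ?_)
    push_cast
    rw [mul_pow]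
    ring
  refine (Finset.sum_le_sum h2).trans ?_
  rw [← Finset.mul_sum]
  refine mul_le_mul_of_nonneg_left ?_ (by norm_num)
  have hmaps : ∀ x ∈ S, f x ∈ (Icc 1 (Y * Y * Y0)).filter Squarefree := by
    intro x hx
    have h3 := hSm x hx
    rw [Finset.mem_filter, Finset.mem_Icc]
    refine ⟨⟨?_, ?_⟩, ?_⟩
    · rw [hfx x hx]
      exact Finset.prod_pos fun p hp => (hpr x hx p hp).pos
    · simp only [hf]
      rw [mul_comm]
      exact Nat.mul_le_mul h3.2.1 h3.2.2.1
    · rw [hfx x hx]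
      apply Finset.squarefree_prod_of_pairwise_isCoprime
      · intro p hp q hq hpq
        rw [Function.onFun, ← Nat.coprime_iff_isRelPrime,
          Nat.coprime_primes (hpr x hx p hp) (hpr x hx q hq)]
        exact hpq
      · intro p hp
        exact (hpr x hx p hp).squarefree
  rw [← Finset.sum_fiberwise_of_maps_to hmaps]
  refine Finset.sum_le_sum fun q _ => ?_
  have h5 : ∑ x ∈ S.filter (fun x => f x = q), G (f x) =
      ((S.filter (fun x => f x = q)).card : ℝ) * G q := by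
    rw [← nsmul_eq_mul, ← Finset.sum_const]
    refine Finset.sum_congr rfl fun x hx => ?_
    rw [(Finset.mem_filter.mp hx).2]
  rw [h5]
  have h6 : (S.filter (fun x => f x = q)).card ≤ 2 ^ q.primeFactors.card := by
    rw [← Finset.card_powerset]
    apply Finset.card_le_card_of_injOn (fun x => mp x.1)
    · intro x hx
      rw [Finset.mem_coe, Finset.mem_filter] at hx
      rw [Finset.mem_coe, Finset.mem_powerset, ← hx.2, hpf x hx.1]
      exact Finset.subset_union_right
    · intro x hx y hy hxy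
      rw [Finset.mem_coe, Finset.mem_filter] at hx hy
      simp only at hxy
      have e1 : x.1 = y.1 := Finset.map_injective _ hxy
      have e2 : x.2 ∪ mp x.1 = y.2 ∪ mp y.1 := by
        rw [← hpf x hx.1, ← hpf y hy.1, hx.2, hy.2]
      have e3 : x.2 = (x.2 ∪ mp x.1) \ mp x.1 := by
        rw [Finset.union_sdiff_right, Finset.sdiff_eq_self_of_disjoint (hSm x hx.1).2.2.2]
      have e4 : y.2 = (y.2 ∪ mp y.1) \ mp y.1 := by
        rw [Finset.union_sdiff_right, Finset.sdiff_eq_self_of_disjoint (hSm y hy.1).2.2.2]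
      have e5 : x.2 = y.2 := by rw [e3, e4, e2, e1]
      exact Prod.ext e1 e5
  have h7 : ((S.filter (fun x => f x = q)).card : ℝ) ≤ (2 : ℝ) ^ q.primeFactors.card := by
    exact_mod_cast h6
  have h8 : 0 ≤ G q := mul_nonneg (by positivity) (hE q)
  refine (mul_le_mul_of_nonneg_right h7 h8).trans (le_of_eq ?_)
  simp only [hG]
  push_cast
  rw [mul_pow, mul_pow, mul_pow]
  ring

end Pool.Agent.CM.G
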