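import Pool.Agent.Lib.MP_0da313_nt.CM.G

set_option autoImplicit false

/-!
Project CM, piece [CM es2]: error sums of the second kind.
-/

namespace Pool.Agent.CM.G

open Finset
open Pool.Agent.MP89da58 (pw nn)

private theorem cm_es2_pow_card_le_nn {J : Type} (p : J → ℕ) (hp : ∀ j, 2 ≤ p j) (a : Finset J) :
    2 ^ a.card ≤ nn p a := by
  unfold nn
  exact Finset.pow_card_le_prod a p 2 (fun j _ => hp j)

private theorem cm_es2_card_le {J : Type} (p : J → ℕ) (hp : ∀ j, 2 ≤ p j) (a : Finset J) (Y : ℕ)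
    (r : ℝ) (ha : nn p a ≤ Y * Y) (hY : ((Y * Y : ℕ) : ℝ) ≤ 2 ^ r) : (a.card : ℝ) ≤ r := by
  have h1 : ((2 ^ a.card : ℕ) : ℝ) ≤ 2 ^ r :=
    le_trans (Nat.cast_le.mpr (le_trans (cm_es2_pow_card_le_nn p hp a) ha)) hY
  have h2 : (2 : ℝ) ^ (a.card : ℝ) ≤ 2 ^ r := by
    rw [Real.rpow_natCast]
    push_cast at h1
    exact h1
  exact (Real.rpow_le_rpow_left_iff (by norm_num)).1 h2

theorem p_es2 : S_es2 := by
  intro J _ _ p x c k r Y hp hx hc hk hY hr
  have hterm : ∀ a : Finset J, c ^ a.card * pw x a = ∏ j ∈ a, (c * x j) := by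
    intro a
    unfold pw
    rw [Finset.prod_mul_distrib, Finset.prod_const]
  have hnn : ∀ a : Finset J, 0 ≤ ∏ j ∈ a, (c * x j) := fun a =>
    Finset.prod_nonneg (fun j _ => mul_nonneg hc (hx j))
  calc ∑ a ∈ (univ : Finset (Finset J)).filter (fun a => nn p a ≤ Y * Y),
        c ^ a.card * (pw x a * (k + a.card))
      ≤ ∑ a ∈ (univ : Finset (Finset J)).filter (fun a => nn p a ≤ Y * Y),
        (k + r) * ∏ j ∈ a, (c * x j) := by
        refine Finset.sum_le_sum ?_
        intro a ha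
        have ha' : nn p a ≤ Y * Y := (Finset.mem_filter.1 ha).2
        have hcard := cm_es2_card_le p hp a Y r ha' hY
        have : c ^ a.card * (pw x a * (k + a.card)) = (k + a.card) * ∏ j ∈ a, (c * x j) := by
          rw [← hterm a]; ring
        rw [this]
        exact mul_le_mul_of_nonneg_right (by linarith) (hnn a)
    _ ≤ ∑ a : Finset J, (k + r) * ∏ j ∈ a, (c * x j) := by
        refine Finset.sum_le_sum_of_subset_of_nonneg (Finset.filter_subset _ _) ?_
        intro a _ _
        exact mul_nonneg (by linarith) (hnn a)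
    _ = (k + r) * ∏ j, (1 + c * x j) := by
        rw [← Finset.mul_sum, Finset.prod_one_add, Finset.powerset_univ]

end Pool.Agent.CM.G
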