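import Pool.Agent.Lib.MP_0da313_nt.CM.L
import Pool.Agent.Lib.MP_0da313_nt.MT.Det

set_option autoImplicit false

/-!
Project CM, section L: existence of the family data.
-/

namespace Pool.Agent.CM.L

open Finset Filter Polynomial
open Pool.Agent.Lib.MP_0da313_nt
open Pool.Agent.MT (Lin exists_lin det_ne)
open Pool.Agent.BVall

/-- a point far from few given points -/
lemma fam_point {ι : Type} [Fintype ι] (m : ℕ) (hm : Fintype.card ι ≤ m) (ζ : ι → ℝ) :
    ∃ ξ : ℝ, 1 / 4 ≤ ξ ∧ ξ ≤ 3 / 4 ∧ ∀ i, 1 / (4 * ((m : ℝ) + 2)) ≤ |ξ - ζ i| := by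
  classical
  by_contra hcon
  push Not at hcon
  set g : Fin (m + 1) → ℝ := fun j => 1 / 4 + (j : ℝ) / (2 * ((m : ℝ) + 1)) with hg
  have hm0 : (0 : ℝ) ≤ m := Nat.cast_nonneg m
  have h1 : ∀ j : Fin (m + 1), ∃ i, |g j - ζ i| < 1 / (4 * ((m : ℝ) + 2)) := by
    intro j
    apply hcon
    · simp only [hg]
      have : (0 : ℝ) ≤ (j : ℝ) / (2 * ((m : ℝ) + 1)) := by positivity
      linarith
    · simp only [hg]
      have hj : ((j : ℕ) : ℝ) ≤ m := by
        exact_mod_cast Nat.lt_succ_iff.1 j.2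
      have : (j : ℝ) / (2 * ((m : ℝ) + 1)) ≤ 1 / 2 := by
        rw [div_le_div_iff₀ (by positivity) (by norm_num)]
        linarith
      linarith
  choose e he using h1
  have hcard : Fintype.card ι < Fintype.card (Fin (m + 1)) := by
    rw [Fintype.card_fin]
    omega
  obtain ⟨j, j', hne, hjj⟩ := Fintype.exists_ne_map_eq_of_card_lt e hcard
  have h2 := he j
  have h3 := he j'
  rw [← hjj] at h3
  have h4 : |g j - g j'| < 1 / (2 * ((m : ℝ) + 2)) := by
    calc |g j - g j'| = |(g j - ζ (e j)) - (g j' - ζ (e j))| := by congr 1; ring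
      _ ≤ |g j - ζ (e j)| + |g j' - ζ (e j)| := abs_sub _ _
      _ < 1 / (4 * ((m : ℝ) + 2)) + 1 / (4 * ((m : ℝ) + 2)) := add_lt_add h2 h3
      _ = 1 / (2 * ((m : ℝ) + 2)) := by
          field_simp
          norm_num
  have h5 : 1 / (2 * ((m : ℝ) + 1)) ≤ |g j - g j'| := by
    have e1 : g j - g j' = ((j : ℝ) - (j' : ℝ)) / (2 * ((m : ℝ) + 1)) := by
      simp only [hg]
      ring
    rw [e1, abs_div, abs_of_pos (show (0 : ℝ) < 2 * ((m : ℝ) + 1) by positivity)]
    apply div_le_div_of_nonneg_right _ (by positivity)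
    have hjz : ((j : ℕ) : ℤ) ≠ ((j' : ℕ) : ℤ) := by
      intro h
      apply hne
      apply Fin.ext
      exact_mod_cast h
    have h6 : (1 : ℤ) ≤ |((j : ℕ) : ℤ) - ((j' : ℕ) : ℤ)| := Int.one_le_abs (sub_ne_zero.2 hjz)
    have h7 : ((1 : ℤ) : ℝ) ≤ ((|((j : ℕ) : ℤ) - ((j' : ℕ) : ℤ)| : ℤ) : ℝ) := by exact_mod_cast h6
    push_cast at h7
    exact h7
  have h8 : 1 / (2 * ((m : ℝ) + 2)) ≤ 1 / (2 * ((m : ℝ) + 1)) :=
    one_div_le_one_div_of_le (by positivity) (by linarith)
  linarith

theorem p_fam : S_fam := by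
  intro m d hm hd f hf hdeg k0 I hk0 hlin hne
  classical
  have hmem : ∀ l : Option {k // k ∈ I}, ix k0 l ∈ insert k0 I := by
    intro l
    cases l with
    | none => exact Finset.mem_insert_self _ _
    | some i => exact Finset.mem_insert_of_mem i.2
  have hinj : ∀ l l' : Option {k // k ∈ I}, l ≠ l' → ix k0 l ≠ ix k0 l' := by
    intro l l' h
    cases l with
    | none =>
      cases l' with
      | none => exact absurd rfl h
      | some i =>
        intro h'
        apply hk0
        change k0 = (i : Fin m) at h'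
        rw [h']
        exact i.2
    | some j =>
      cases l' with
      | none =>
        intro h'
        apply hk0
        change (j : Fin m) = k0 at h'
        rw [← h']
        exact j.2
      | some i =>
        intro h'
        apply h
        change (j : Fin m) = i at h'
        rw [Subtype.ext h']
  obtain ⟨L⟩ : Nonempty (∀ l : Option {k // k ∈ I}, Lin (f (ix k0 l))) :=
    Classical.nonempty_pi.2 fun l => exists_lin hf _ (hlin _ (hmem l))
  have hcard : Fintype.card (Option {k // k ∈ I}) ≤ m := by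
    rw [Fintype.card_option, Fintype.card_coe]
    have h1 : (insert k0 I).card ≤ Fintype.card (Fin m) := Finset.card_le_univ _
    rw [Finset.card_insert_of_notMem hk0, Fintype.card_fin] at h1
    exact h1
  obtain ⟨ξ, hξ1, hξ2, hξ3⟩ := fam_point m hcard
    (fun l => -((L l).b : ℝ) / (((L l).a : ℝ) - (L l).b))
  have hab : ∀ l, ((L l).a : ℝ) - (L l).b ≠ 0 := fun l =>
    sub_ne_zero.2 (fun h => (L l).hab (by exact_mod_cast h))
  have hth : ∀ l, |((L l).a : ℝ) - (L l).b| * (1 / (4 * ((m : ℝ) + 2))) ≤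
      |(((L l).a : ℝ) - (L l).b) * ξ + (L l).b| := by
    intro l
    have e1 : (((L l).a : ℝ) - (L l).b) * ξ + (L l).b =
        (((L l).a : ℝ) - (L l).b) * (ξ - -((L l).b : ℝ) / (((L l).a : ℝ) - (L l).b)) := by
      have := hab l
      field_simp
      ring
    rw [e1, abs_mul]
    exact mul_le_mul_of_nonneg_left (hξ3 l) (abs_nonneg _)
  have hs : ∀ l, ∃ s : ℤ, (s = 1 ∨ s = -1) ∧
      (s : ℝ) * ((((L l).a : ℝ) - (L l).b) * ξ + (L l).b) =
        |(((L l).a : ℝ) - (L l).b) * ξ + (L l).b| := by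
    intro l
    rcases le_total 0 ((((L l).a : ℝ) - (L l).b) * ξ + (L l).b) with h | h
    · exact ⟨1, Or.inl rfl, by rw [abs_of_nonneg h]; push_cast; ring⟩
    · exact ⟨-1, Or.inr rfl, by rw [abs_of_nonpos h]; push_cast; ring⟩
  choose s hs1 hs2 using hs
  have hcop : ∀ l, ∃ N₀ : ℕ, ∀ n : ℕ, N₀ ≤ n →
      IsCoprime ((L l).a - (L l).b) ((L l).b * n + (L l).c) := fun l =>
    (linear_member hf (ix k0 l) (L l).hval).2
  choose Nc hNc using hcop
  have hdet : ∀ l l' : Option {k // k ∈ I}, ∃ N₀ : ℕ, l ≠ l' → ∀ n : ℕ, N₀ ≤ n →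
      (L l).u * (L l').v n - (L l').u * (L l).v n ≠ 0 := by
    intro l l'
    by_cases h : l = l'
    · exact ⟨0, fun h' => absurd h h'⟩
    · obtain ⟨h1, h2⟩ := hne _ (hmem l) _ (hmem l') (hinj l l' h)
      obtain ⟨N₀, hN₀⟩ := det_ne hf (L l) (L l') h1 h2
      exact ⟨N₀, fun _ => hN₀⟩
  choose Nd hNd using hdet
  obtain ⟨N₀, hN₀⟩ := hf
  have hss : ∀ l, s l * s l = 1 := by
    intro l
    rcases hs1 l with h | h <;> rw [h] <;> norm_num
  have hσσ : ∀ l, (L l).σ * (L l).σ = 1 := by
    intro l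
    rcases (L l).hσ with h | h <;> rw [h] <;> norm_num
  have hsne : ∀ l, s l ≠ 0 := by
    intro l h
    have := hss l
    rw [h] at this
    norm_num at this
  have hm0 : (0 : ℝ) ≤ m := Nat.cast_nonneg m
  have hhw4 : 4 * (1 / (4000 * ((m : ℝ) + 2))) ≤ 1 / 4 := by
    rw [mul_one_div, div_le_div_iff₀ (by positivity) (by norm_num)]
    nlinarith
  have hline : ∀ (l : Option {k // k ∈ I}) (n : ℕ), lineRestrict (f (ix k0 l)) n =
      C ((L l).a - (L l).b) * X + C ((L l).b * n + (L l).c) := fun l n => line_eq (L l).hval n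
  refine ⟨{
    N0 := N₀ + ∑ l, Nc l + ∑ l, ∑ l', Nd l l'
    G := fun n => ∏ k, lineRestrict (f k) n
    Gc := fun n l => C (s l) * ∏ k ∈ univ.erase (ix k0 l), lineRestrict (f k) n
    u := fun l => s l * ((L l).a - (L l).b)
    b := fun l => s l * (L l).b
    c := fun l => s l * (L l).c
    xi := ξ
    hw := 1 / (4000 * ((m : ℝ) + 2))
    hG := ?_
    hdeg := ?_
    hloc := ?_
    hu := ?_
    huv := ?_
    hdet := ?_
    hhw := by positivity
    hxi0 := by linarith
    hxi1 := by linarith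
    hth := ?_ }, rfl, fun n _ => rfl, ?_, ?_⟩
  · intro n hn l
    rw [← Finset.mul_prod_erase univ (fun k => lineRestrict (f k) n) (Finset.mem_univ (ix k0 l)),
      hline l n]
    have e1 : (C (s l * ((L l).a - (L l).b)) * X + C (s l * (L l).b * n + s l * (L l).c) : ℤ[X]) =
        C (s l) * (C ((L l).a - (L l).b) * X + C ((L l).b * n + (L l).c)) := by
      rw [show s l * (L l).b * (n : ℤ) + s l * (L l).c = s l * ((L l).b * n + (L l).c) by ring]
      rw [C_mul, C_mul (a := s l) (b := (L l).b * n + (L l).c)]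
      ring
    rw [e1]
    have e2 : (C (s l) * C (s l) : ℤ[X]) = 1 := by
      rw [← C_mul, hss l, C_1]
    linear_combination (-(C ((L l).a - (L l).b) * X + C ((L l).b * n + (L l).c)) *
      ∏ k ∈ univ.erase (ix k0 l), lineRestrict (f k) n) * e2
  · intro n hn
    refine (natDegree_prod_le _ _).trans ?_
    calc ∑ k : Fin m, (lineRestrict (f k) n).natDegree ≤ ∑ _k : Fin m, d :=
          Finset.sum_le_sum fun k _ => natDegree_lineRestrict_le (f k) n d (hdeg k)
      _ = m * d := by simp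
  · intro n hn p hp h
    refine (hN₀ n ?_).2 p hp (fun x => by rw [← eval_prod]; exact h x)
    omega
  · intro l
    exact mul_ne_zero (hsne l) (sub_ne_zero.2 (L l).hab)
  · intro n hn l
    have h1 : Nc l ≤ ∑ l, Nc l :=
      Finset.single_le_sum (f := fun l => Nc l) (fun i _ => Nat.zero_le _) (Finset.mem_univ l)
    have h2 := hNc l n (by omega)
    rw [show s l * (L l).b * (n : ℤ) + s l * (L l).c = s l * ((L l).b * n + (L l).c) by ring]
    rcases hs1 l with h | h
    · rw [h, one_mul, one_mul]; exact h2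
    · rw [h, neg_one_mul, neg_one_mul]; exact h2.neg_neg
  · intro n hn l l' hll
    have h1 : Nd l l' ≤ ∑ l, ∑ l', Nd l l' := by
      have e1 : Nd l l' ≤ ∑ l', Nd l l' :=
        Finset.single_le_sum (f := fun l' => Nd l l') (fun i _ => Nat.zero_le _)
          (Finset.mem_univ l')
      have e2 : ∑ l', Nd l l' ≤ ∑ l, ∑ l', Nd l l' :=
        Finset.single_le_sum (f := fun l => ∑ l', Nd l l') (fun i _ => Nat.zero_le _)
          (Finset.mem_univ l)
      omega
    have h2 := hNd l l' hll n (by omega)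
    intro h3
    apply h2
    unfold Lin.u Lin.v
    have e3 : (s l * s l') * (((L l).a - (L l).b) * ((L l').b * n + (L l').c) -
        ((L l').a - (L l').b) * ((L l).b * n + (L l).c)) = 0 := by
      linear_combination h3
    have e4 : ((L l).a - (L l).b) * ((L l').b * n + (L l').c) -
        ((L l').a - (L l').b) * ((L l).b * n + (L l).c) = 0 := by
      rcases mul_eq_zero.1 e3 with h | h
      · exact absurd h (mul_ne_zero (hsne l) (hsne l'))
      · exact h
    linear_combination ((L l).σ * (L l').σ) * e4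
  · intro l
    have h1 := hth l
    have h2 := hs2 l
    have e1 : (((s l * ((L l).a - (L l).b) : ℤ)) : ℝ) * ξ + ((s l * (L l).b : ℤ) : ℝ) =
        (s l : ℝ) * ((((L l).a : ℝ) - (L l).b) * ξ + (L l).b) := by
      push_cast
      ring
    have e2 : |((s l * ((L l).a - (L l).b) : ℤ) : ℝ)| = |((L l).a : ℝ) - (L l).b| := by
      push_cast
      rw [abs_mul]
      rcases hs1 l with h | h <;> rw [h] <;> norm_num
    change 1000 * (|((s l * ((L l).a - (L l).b) : ℤ) : ℝ)| * (1 / (4000 * ((m : ℝ) + 2)))) ≤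
      (((s l * ((L l).a - (L l).b) : ℤ)) : ℝ) * ξ + ((s l * (L l).b : ℤ) : ℝ)
    rw [e1, h2, e2]
    refine le_trans (le_of_eq ?_) h1
    field_simp
    ring
  · intro n hn k
    exact (hN₀ n (by change N₀ + ∑ l, Nc l + ∑ l, ∑ l', Nd l l' ≤ n at hn; omega)).1 k
  · intro n hn l x
    have e1 : s l * ((L l).a - (L l).b) * x + (s l * (L l).b * n + s l * (L l).c) =
        s l * val (f (ix k0 l)) x ((n : ℤ) - x) := by
      rw [(L l).hval]
      ring
    change (s l * ((L l).a - (L l).b) * x + (s l * (L l).b * n + s l * (L l).c)).natAbs = _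
    rw [e1, Int.natAbs_mul]
    have e2 : (s l).natAbs = 1 := by
      rcases hs1 l with h | h <;> rw [h] <;> rfl
    rw [e2, one_mul]

end Pool.Agent.CM.L
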