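import Pool.Agent.Lib.MP_0da313_nt.CM.G

set_option autoImplicit false
set_option linter.unusedSectionVars false

/-!
Project CM, piece gen: the general expansion.
-/

namespace Pool.Agent.CM.G

open Finset
open Pool.Agent.MP89da58 (bil pw nn supp part join compat mem_supp)
open Pool.Agent.BVall (om rhoW)
open Pool.Agent.MT (PJf LocD dvI ZI sp sp_subset quad_expandI err_sum_leI)
open Pool.Agent.CH.S (RepC)

open Classical in
theorem p_gen : S_gen := by
  intro hone hprt hes1 hes2 ι _ _ _ P P1 D Q Al u v K0 z h Y0 F hF ρ X1 hρ hρX hX1 hρz a N E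
    hsT hE hE0 g B r Y hB hsup hAl hYr hr
  set S := (Icc 1 N).filter (fun n : ℕ => u ∣ (n : ℤ) - v) with hS
  set x' : PJf P → ℝ := fun j => 1 / (((j : ℕ) : ℝ) - 1) with hx'
  set s0 : ℝ := sT a N / (Nat.totient u.natAbs : ℝ) with hs0
  set Pi : ℝ := ∏ p ∈ P1, (1 + ρ p) with hPi
  have hPp : ∀ p ∈ P, p.Prime := fun p hp => (h.hP p hp).1
  have hz := h.hz
  have hzR : (0 : ℝ) < z := by exact_mod_cast (by omega : 0 < z)
  have hs00 : 0 ≤ s0 := div_nonneg hsT (Nat.cast_nonneg _)
  have hx0 : ∀ j, 0 ≤ x' j := by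
    intro j
    simp only [hx']
    have h1 : (2 : ℝ) ≤ ((j : ℕ) : ℝ) := by exact_mod_cast (hPp j.1 j.2).two_le
    exact div_nonneg zero_le_one (by linarith)
  have hpw0 : ∀ A, 0 ≤ pw x' A := fun A => by
    unfold pw
    exact Finset.prod_nonneg fun j _ => hx0 j
  have hPi0 : 0 ≤ Pi := Finset.prod_nonneg fun p hp => by
    have := (hρ p hp).1
    linarith
  have hrh0 : ∀ p, 0 ≤ rhoW u.natAbs Q p := by
    intro p
    unfold rhoW
    positivity
  set e1 : Finset (PJf P) → ℝ := fun A =>
    ∑ T ∈ P1.powerset.filter (fun T => ∏ p ∈ T, p ≤ Y0 ∧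
        Disjoint T (A.map (Function.Embedding.subtype _))),
      3 * ((K0 : ℝ) ^ (T.card + A.card) *
        E ((∏ p ∈ T, p) * nn (fun j : PJf P => (j : ℕ)) A)) with he1
  set e2 : Finset (PJf P) → ℝ := fun A =>
    s0 * (3 * (2 / z) * Pi) * (pw x' A * (X1.card + A.card)) with he2
  have he10 : ∀ A, 0 ≤ e1 A := fun A => Finset.sum_nonneg fun T _ =>
    mul_nonneg (by norm_num) (mul_nonneg (by positivity) (hE0 _))
  have he20 : ∀ A, 0 ≤ e2 A := fun A =>
    mul_nonneg (mul_nonneg hs00 (by positivity)) (mul_nonneg (hpw0 A) (by positivity))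
  have key := quad_expandI D h.hcop x' g S (fun n : ℕ => ((n : ℤ) - v) / u)
    (fun n : ℕ => a n * F (fun p => if Q p (((n : ℤ) - v) / u) then (1 : ℝ) else 0))
    (s0 * F ρ) (fun γ => e1 (supp γ) + e2 (supp γ)) (by
      intro α β hα hβ _
      set γ := join α β with hγ
      have hγA : ∀ j l, γ j = some l → Al l := by
        intro j l hl
        rcases hα' : α j with _ | m
        · have h1 : β j = some l := by
            simp only [hγ, join, hα', Option.orElse_none] at hl
            exact hl
          exact hAl β hβ j l h1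
        · have h1 : m = l := by
            simp only [hγ, join, hα', Option.orElse_some] at hl
            exact Option.some.inj hl
          exact h1 ▸ hAl α hα j m hα'
      have h1 := hone ι P P1 D Q Al u v K0 z h Y0 F hF a N E hE γ hγA
      have h2 := hprt P1 _ F hF ρ (fun p => if p ∈ sp γ then 0 else rhoW u.natAbs Q p)
        (X1 ∪ sp γ) (by
          intro p hp
          split_ifs
          · exact ⟨le_rfl, (hρ p hp).1⟩
          · exact ⟨hrh0 p, (hρ p hp).2⟩) (by
          intro p hp hpX
          rw [Finset.mem_union, not_or] at hpX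
          rw [if_neg hpX.2]
          exact hρX p hp hpX.1)
      have h3 : ∑ p ∈ P1 ∩ (X1 ∪ sp γ), ρ p ≤ (X1.card + (supp γ).card) * (2 / z) := by
        have h4 : ∀ p ∈ P1 ∩ (X1 ∪ sp γ), ρ p ≤ 2 / z := by
          intro p hp
          rw [Finset.mem_inter, Finset.mem_union] at hp
          refine hρz p hp.1 ?_
          rcases hp.2 with h5 | h5
          · exact hX1 p h5
          · exact (h.hP p (sp_subset γ h5)).2
        refine (Finset.sum_le_card_nsmul _ _ _ h4).trans ?_
        rw [nsmul_eq_mul]
        refine mul_le_mul_of_nonneg_right ?_ (by positivity)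
        have h5 : (P1 ∩ (X1 ∪ sp γ)).card ≤ X1.card + (supp γ).card := by
          refine (Finset.card_le_card Finset.inter_subset_right).trans ?_
          refine (Finset.card_union_le _ _).trans ?_
          unfold sp
          rw [Finset.card_map]
        exact_mod_cast h5
      have h6 : |F (fun p => if p ∈ sp γ then 0 else rhoW u.natAbs Q p) - F ρ| ≤
          3 * ((X1.card + (supp γ).card) * (2 / z)) * Pi := by
        refine h2.trans ?_
        refine mul_le_mul_of_nonneg_right ?_ hPi0
        exact mul_le_mul_of_nonneg_left h3 (by norm_num)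
      have h7 : (∑ n ∈ S, if dvI D (((n : ℤ) - v) / u) γ then
          a n * F (fun p => if Q p (((n : ℤ) - v) / u) then (1 : ℝ) else 0) else 0) -
          s0 * F ρ * pw x' (supp γ) =
          ((∑ n ∈ S, if dvI D (((n : ℤ) - v) / u) γ then
          a n * F (fun p => if Q p (((n : ℤ) - v) / u) then (1 : ℝ) else 0) else 0) -
            s0 * pw x' (supp γ) * F (fun p => if p ∈ sp γ then 0 else rhoW u.natAbs Q p)) +
          s0 * pw x' (supp γ) *
            (F (fun p => if p ∈ sp γ then 0 else rhoW u.natAbs Q p) - F ρ) := by ring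
      rw [h7]
      refine (abs_add_le _ _).trans (add_le_add h1 ?_)
      rw [abs_mul, abs_of_nonneg (mul_nonneg hs00 (hpw0 _))]
      refine (mul_le_mul_of_nonneg_left h6 (mul_nonneg hs00 (hpw0 _))).trans (le_of_eq ?_)
      simp only [he2]
      ring)
  refine key.trans ?_
  have h2 := err_sum_leI (fun j : PJf P => (j : ℕ)) (fun j => (hPp j.1 j.2).one_le) g B Y hB hsup
    (fun A => e1 A + e2 A) (fun A => add_nonneg (he10 A) (he20 A))
  refine h2.trans ?_
  refine mul_le_mul_of_nonneg_left ?_ (sq_nonneg B)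
  simp only [mul_add]
  rw [Finset.sum_add_distrib]
  have hι : 1 ≤ Fintype.card ι := Fintype.card_pos
  refine add_le_add ?_ ?_
  · have h3 := hes1 P P1 hPp h.hP1 (3 * Fintype.card ι) K0 Y Y0 (by omega) h.hK E hE0
    rw [show 2 * (3 * Fintype.card ι) * K0 = 6 * Fintype.card ι * K0 by ring] at h3
    exact h3
  · have h3 := hes2 (PJf P) (fun j => (j : ℕ)) x' (3 * Fintype.card ι) X1.card r Y
      (fun j => (hPp j.1 j.2).two_le) hx0 (by positivity) (by positivity) hYr hr
    have h4 : ∑ A ∈ (Finset.univ : Finset (Finset (PJf P))).filter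
        (fun A => nn (fun j : PJf P => (j : ℕ)) A ≤ Y * Y),
        ((3 * Fintype.card ι : ℕ) : ℝ) ^ A.card * e2 A = s0 * (3 * (2 / z) * Pi) *
        ∑ A ∈ (Finset.univ : Finset (Finset (PJf P))).filter
          (fun A => nn (fun j : PJf P => (j : ℕ)) A ≤ Y * Y),
          (3 * Fintype.card ι : ℝ) ^ A.card * (pw x' A * (X1.card + A.card)) := by
      rw [Finset.mul_sum]
      apply Finset.sum_congr rfl
      intro A _
      simp only [he2]
      push_cast
      ring
    rw [h4]
    exact mul_le_mul_of_nonneg_left h3 (mul_nonneg hs00 (by positivity))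

end Pool.Agent.CM.G
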