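import Pool.Agent.Lib.MP_0da313_nt.CM.M

set_option autoImplicit false

/-!
Project CM, section M, piece gr: the numerical upper bound for the double sum over `p1`, `p2`.
Cells: `m = ⌊165 log p1 / log n⌋` in `[15, 55]`, `k = ⌊66 log p2 / log n⌋` in `[22, 30]`.
-/

namespace Pool.Agent.CM.M

open Finset Filter

private lemma gr_log (x e η : ℝ) (hx : 0 < x) (hxe : x ≤ e) (hη : 0 ≤ η) :
    Real.log ((e + η) / x) ≤ (e / x - x / e) / 2 + η / e := by
  have he : 0 < e := hx.trans_le hxe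
  have h1 : (e + η) / x = (e / x) * (1 + η / e) := by
    field_simp
  have h2 : 0 ≤ η / e := by positivity
  rw [h1, Real.log_mul (by positivity) (by positivity)]
  have h3 : Real.log (1 + η / e) ≤ η / e := by
    have := Real.log_le_sub_one_of_pos (show 0 < 1 + η / e by positivity)
    linarith
  have h4 : (1 : ℝ) ≤ e / x := by
    rw [le_div_iff₀ hx]
    linarith
  have h5 := Real.self_le_sinh_iff.2 (Real.log_nonneg h4)
  rw [Real.sinh_log (lt_of_lt_of_le one_pos h4)] at h5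
  have h6 : (e / x)⁻¹ = x / e := by rw [inv_div]
  rw [h6] at h5
  linarith

private lemma gr_cell (C : ℝ) (hmer : ∀ (S : Finset ℕ) (a b : ℝ), 2 ≤ a → a ≤ b →
    (∀ p ∈ S, p.Prime ∧ a ≤ p ∧ (p : ℝ) ≤ b) →
    ∑ p ∈ S, 1 / (p : ℝ) ≤ Real.log (Real.log b / Real.log a) + C / Real.log a)
    (L x e η : ℝ) (hL : 0 < L) (hx : 0 < x) (hxe : x ≤ e) (hη : 0 ≤ η) (h2 : 1 ≤ x * L)
    (S : Finset ℕ)
    (hS : ∀ p ∈ S, p.Prime ∧ x * L ≤ Real.log p ∧ Real.log p ≤ (e + η) * L) :
    ∑ p ∈ S, 1 / (p : ℝ) ≤ (e / x - x / e) / 2 + η / e + C / (x * L) := by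
  have h3 := hmer S (Real.exp (x * L)) (Real.exp ((e + η) * L)) ?_ ?_ ?_
  · refine h3.trans ?_
    rw [Real.log_exp, Real.log_exp]
    have h4 : (e + η) * L / (x * L) = (e + η) / x := by field_simp
    rw [h4]
    have := gr_log x e η hx hxe hη
    linarith
  · have h5 : (2 : ℝ) ≤ Real.exp 1 := by
      have := Real.add_one_le_exp (1 : ℝ)
      linarith
    exact h5.trans (Real.exp_le_exp.2 h2)
  · refine Real.exp_le_exp.2 ?_
    exact mul_le_mul_of_nonneg_right (by linarith) hL.le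
  · intro p hp
    obtain ⟨h4, h5, h6⟩ := hS p hp
    have hp0 : (0 : ℝ) < p := by exact_mod_cast h4.pos
    refine ⟨h4, ?_, ?_⟩
    · rw [← Real.le_log_iff_exp_le hp0]
      exact h5
    · rw [← Real.log_le_iff_le_exp hp0]
      exact h6

private def gr_e (m : ℕ) : ℕ := min (m + 1) 55
private def gr_c (m k : ℕ) : ℕ := max (5 * k) (min (5 * k + 5) (165 - m))
private def gr_s (m k : ℕ) : ℕ := min (2 * m + 2 + 5 * k + 5) (166 + m)
private def gr_aN (m : ℕ) : ℕ := (10 ^ 6 * (gr_e m * gr_e m - m * m)) / (2 * m * gr_e m) + 2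
private def gr_bN (m k : ℕ) : ℕ :=
  (10 ^ 6 * (gr_c m k * gr_c m k - 5 * k * (5 * k))) / (2 * gr_c m k * (5 * k)) + 2
private def gr_fN (m k : ℕ) : ℕ := (10 ^ 6 * 330) / (330 - gr_s m k) + 2

private lemma gr_num : ∑ m ∈ Icc 15 55, gr_aN m * ∑ k ∈ Icc 22 30, gr_bN m k * gr_fN m k ≤
    574 * 10 ^ 15 := by
  decide +kernel

private lemma gr_div (x y : ℕ) (hy : 0 < y) : (x : ℝ) / y ≤ ((x / y + 1 : ℕ) : ℝ) := by
  have h1 : x < y * (x / y + 1) := by
    have := Nat.div_add_mod x y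
    have h2 := Nat.mod_lt x hy
    calc x = y * (x / y) + x % y := this.symm
      _ < y * (x / y) + y := by omega
      _ = _ := by ring
  have hy' : (0 : ℝ) < y := by exact_mod_cast hy
  rw [div_le_iff₀ hy']
  have h3 : (x : ℝ) < (y : ℝ) * ((x / y + 1 : ℕ) : ℝ) := by exact_mod_cast h1
  linarith [h3, mul_comm (y : ℝ) ((x / y + 1 : ℕ) : ℝ)]

/-- bound for a quotient `(e/x - x/e)/2` with `x = a/q`, `e = b/q`. -/
private lemma gr_quo (a b : ℕ) (q : ℝ) (hq : 0 < q) (ha : 0 < a) (hab : a ≤ b) (t : ℝ)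
    (ht : t ≤ 1 / 10 ^ 6) :
    (((b : ℝ) / q) / ((a : ℝ) / q) - ((a : ℝ) / q) / ((b : ℝ) / q)) / 2 + t ≤
      (((10 ^ 6 * (b * b - a * a)) / (2 * a * b) + 2 : ℕ) : ℝ) / 10 ^ 6 := by
  have hb : 0 < b := ha.trans_le hab
  have ha' : (0 : ℝ) < a := by exact_mod_cast ha
  have hb' : (0 : ℝ) < b := by exact_mod_cast hb
  have h1 := gr_div (10 ^ 6 * (b * b - a * a)) (2 * a * b) (by positivity)
  have h2 : a * a ≤ b * b := Nat.mul_le_mul hab hab
  have h3 : (((b : ℝ) / q) / ((a : ℝ) / q) - ((a : ℝ) / q) / ((b : ℝ) / q)) / 2 =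
      ((10 ^ 6 * (b * b - a * a) : ℕ) : ℝ) / ((2 * a * b : ℕ) : ℝ) / 10 ^ 6 := by
    rw [Nat.cast_mul, Nat.cast_sub h2]
    push_cast
    field_simp
    norm_num
  rw [h3, le_div_iff₀ (by norm_num), add_mul, div_mul_cancel₀ _ (by norm_num)]
  push_cast at h1 ⊢
  have h4 : t * 10 ^ 6 ≤ 1 := by
    have := mul_le_mul_of_nonneg_right ht (show (0 : ℝ) ≤ 10 ^ 6 by norm_num)
    norm_num at this ⊢
    linarith
  linarith

theorem p_gr : S_gr := by
  rintro ⟨C', hC', hmer⟩ C hC
  -- the conditions on n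
  obtain ⟨η, hη⟩ : ∃ η : ℝ, η = 1 / 10 ^ 8 := ⟨_, rfl⟩
  have hη0 : 0 < η := by rw [hη]; norm_num
  have hlim : Tendsto (fun n : ℕ => Real.log n) atTop atTop :=
    Real.tendsto_log_atTop.comp tendsto_natCast_atTop_atTop
  filter_upwards [hlim.eventually_ge_atTop (Real.log C / η + C' * 10 ^ 8 + 11 + 1),
    eventually_ge_atTop 1] with n hn hn1
  have hn0 : (0 : ℝ) < n := by exact_mod_cast hn1
  have hC0 : (0 : ℝ) < C := by exact_mod_cast hC
  have hlC : 0 ≤ Real.log C := Real.log_nonneg (by exact_mod_cast hC)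
  set L : ℝ := Real.log n with hL
  have hq1 : 0 ≤ Real.log C / η := by positivity
  have hL12 : 12 ≤ L := by nlinarith
  have hL0 : 0 < L := by linarith
  have hLC : Real.log C ≤ η * L := by
    have h1 : Real.log C / η ≤ L := by nlinarith
    rw [div_le_iff₀ hη0] at h1
    linarith
  have hLC' : C' / L ≤ 1 / 10 ^ 8 := by
    rw [div_le_div_iff₀ hL0 (by norm_num)]
    nlinarith
  -- facts on the primes
  have hlogCn : Real.log ((C * n : ℕ) : ℝ) = Real.log C + L := by
    push_cast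
    rw [Real.log_mul hC0.ne' hn0.ne']
  have hCn0 : (0 : ℝ) < ((C * n : ℕ) : ℝ) := by
    push_cast
    positivity
  have f1 : ∀ p1 ∈ (Icc 1 n).filter (fun p => p.Prime ∧ kz n ≤ p ∧ p < ky C n),
      p1.Prime ∧ 1 / 11 ≤ Real.log p1 / L ∧ Real.log p1 / L ≤ 1 / 3 + η := by
    intro p1 hp1
    rw [Finset.mem_filter] at hp1
    obtain ⟨_, h1, h2, h3⟩ := hp1
    have hp0 : (0 : ℝ) < p1 := by exact_mod_cast h1.pos
    refine ⟨h1, ?_, ?_⟩
    · unfold kz at h2
      have h4 : (n : ℝ) ^ (1 / 11 : ℝ) ≤ p1 := (Nat.ceil_le).1 h2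
      have h5 := Real.log_le_log (by positivity) h4
      rw [Real.log_rpow hn0] at h5
      rw [le_div_iff₀ hL0]
      linarith
    · unfold ky at h3
      have h4 : (p1 : ℝ) < ((C * n : ℕ) : ℝ) ^ (1 / 3 : ℝ) := (Nat.lt_ceil).1 h3
      have h5 := Real.log_le_log hp0 h4.le
      rw [Real.log_rpow hCn0, hlogCn] at h5
      rw [div_le_iff₀ hL0]
      have e : (1 / 3 + η) * L = 1 / 3 * L + η * L := by ring
      rw [e]
      linarith
  have f2 : ∀ p1 ∈ (Icc 1 n).filter (fun p => p.Prime ∧ kz n ≤ p ∧ p < ky C n),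
      ∀ p2 ∈ (Icc 1 n).filter (fun q => q.Prime ∧ ky C n ≤ q ∧ p1 * q ^ 2 ≤ C * n),
      p2.Prime ∧ 1 / 3 ≤ Real.log p2 / L ∧
        Real.log p1 / L + 2 * (Real.log p2 / L) ≤ 1 + η := by
    intro p1 hp1 p2 hp2
    obtain ⟨h1, _, _⟩ := f1 p1 hp1
    rw [Finset.mem_filter] at hp2
    obtain ⟨_, h2, h3, h4⟩ := hp2
    have hp10 : (0 : ℝ) < p1 := by exact_mod_cast h1.pos
    have hp20 : (0 : ℝ) < p2 := by exact_mod_cast h2.pos
    refine ⟨h2, ?_, ?_⟩
    · unfold ky at h3
      have h5 : ((C * n : ℕ) : ℝ) ^ (1 / 3 : ℝ) ≤ p2 := (Nat.ceil_le).1 h3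
      have h6 := Real.log_le_log (by positivity) h5
      rw [Real.log_rpow hCn0, hlogCn] at h6
      rw [le_div_iff₀ hL0]
      linarith
    · have h5 : (p1 : ℝ) * (p2 : ℝ) ^ 2 ≤ ((C * n : ℕ) : ℝ) := by exact_mod_cast h4
      have h6 := Real.log_le_log (by positivity) h5
      rw [Real.log_mul hp10.ne' (by positivity), Real.log_pow, hlogCn] at h6
      have h7 : Real.log p1 / L + 2 * (Real.log p2 / L) =
          (Real.log p1 + 2 * Real.log p2) / L := by ring
      rw [h7, div_le_iff₀ hL0]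
      push_cast at h6
      nlinarith
  -- decomposition
  set S1 := (Icc 1 n).filter (fun p => p.Prime ∧ kz n ≤ p ∧ p < ky C n) with hS1
  set mi : ℕ → ℕ := fun p => ⌊165 * (Real.log p / L)⌋₊ with hmi
  set ki : ℕ → ℕ := fun p => ⌊66 * (Real.log p / L)⌋₊ with hki
  have m1 : ∀ p ∈ S1, mi p ∈ Icc 15 55 := by
    intro p hp
    obtain ⟨_, h2, h3⟩ := f1 p hp
    rw [Finset.mem_Icc, hmi]
    constructor
    · apply Nat.le_floor
      push_cast
      linarith
    · apply Nat.lt_succ_iff.1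
      rw [Nat.floor_lt' (by norm_num)]
      push_cast
      rw [hη] at h3
      norm_num at h3 ⊢
      linarith
  have m2 : ∀ p1 ∈ S1,
      ∀ p2 ∈ (Icc 1 n).filter (fun q => q.Prime ∧ ky C n ≤ q ∧ p1 * q ^ 2 ≤ C * n),
      ki p2 ∈ Icc 22 30 := by
    intro p1 hp1 p2 hp2
    obtain ⟨_, h2, h3⟩ := f1 p1 hp1
    obtain ⟨_, h4, h5⟩ := f2 p1 hp1 p2 hp2
    rw [Finset.mem_Icc, hki]
    constructor
    · apply Nat.le_floor
      push_cast
      linarith
    · apply Nat.lt_succ_iff.1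
      rw [Nat.floor_lt' (by norm_num)]
      push_cast
      rw [hη] at h5
      norm_num at h2 h5 ⊢
      linarith
  -- the sum over one cell
  have key : ∀ m ∈ Icc 15 55, ∀ k ∈ Icc 22 30, ∀ p1 ∈ S1.filter (fun p => mi p = m),
      ∑ p2 ∈ ((Icc 1 n).filter
          (fun q => q.Prime ∧ ky C n ≤ q ∧ p1 * q ^ 2 ≤ C * n)).filter (fun q => ki q = k),
        1 / ((p1 : ℝ) * p2) * (Real.log n / Real.log (n / ((p1 : ℝ) * p2))) ≤
      1 / (p1 : ℝ) * ((gr_bN m k : ℝ) / 10 ^ 6 * ((gr_fN m k : ℝ) / 10 ^ 6)) := by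
    intro m hm k hk p1 hp1
    rw [Finset.mem_filter] at hp1
    obtain ⟨hp1, hmp⟩ := hp1
    rw [Finset.mem_Icc] at hm hk
    obtain ⟨hpr1, ha1, ha2⟩ := f1 p1 hp1
    have hp10 : (0 : ℝ) < p1 := by exact_mod_cast hpr1.pos
    have ham : (m : ℝ) ≤ 165 * (Real.log p1 / L) := by
      rw [← hmp, hmi]
      exact Nat.floor_le (by linarith)
    have ham' : 165 * (Real.log p1 / L) < (m : ℝ) + 1 := by
      rw [← hmp, hmi]
      exact Nat.lt_floor_add_one _
    have hm55 : (m : ℝ) ≤ 55 := by exact_mod_cast hm.2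
    have hm15 : (15 : ℝ) ≤ m := by exact_mod_cast hm.1
    have hk30 : (k : ℝ) ≤ 30 := by exact_mod_cast hk.2
    have hk22 : (22 : ℝ) ≤ k := by exact_mod_cast hk.1
    -- facts for p2
    have hb : ∀ p2 ∈ ((Icc 1 n).filter
          (fun q => q.Prime ∧ ky C n ≤ q ∧ p1 * q ^ 2 ≤ C * n)).filter (fun q => ki q = k),
        p2.Prime ∧ (k : ℝ) ≤ 66 * (Real.log p2 / L) ∧ 66 * (Real.log p2 / L) < (k : ℝ) + 1 ∧
          Real.log p1 / L + 2 * (Real.log p2 / L) ≤ 1 + η := by
      intro p2 hp2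
      rw [Finset.mem_filter] at hp2
      obtain ⟨h1, h2⟩ := hp2
      obtain ⟨h3, h4, h5⟩ := f2 p1 hp1 p2 h1
      refine ⟨h3, ?_, ?_, h5⟩
      · rw [← h2, hki]
        exact Nat.floor_le (by linarith)
      · rw [← h2, hki]
        exact Nat.lt_floor_add_one _
    set a : ℝ := Real.log p1 / L with ha
    clear_value a
    -- the factor
    have hfac : ∀ p2 ∈ ((Icc 1 n).filter
          (fun q => q.Prime ∧ ky C n ≤ q ∧ p1 * q ^ 2 ≤ C * n)).filter (fun q => ki q = k),
        Real.log n / Real.log (n / ((p1 : ℝ) * p2)) ≤ (gr_fN m k : ℝ) / 10 ^ 6 := by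
      intro p2 hp2
      obtain ⟨h1, h2, h3, h4⟩ := hb p2 hp2
      have hp20 : (0 : ℝ) < p2 := by exact_mod_cast h1.pos
      set b : ℝ := Real.log p2 / L with hbdef
      clear_value b
      have h5 : Real.log (n / ((p1 : ℝ) * p2)) = L * (1 - a - b) := by
        rw [Real.log_div hn0.ne' (by positivity), Real.log_mul hp10.ne' hp20.ne', ha, hbdef]
        field_simp
        ring
      rw [h5]
      -- a + b ≤ s / 330 + η
      have h6 : a + b ≤ (gr_s m k : ℝ) / 330 + η := by
        unfold gr_s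
        rw [Nat.cast_min]
        rcases min_cases (((2 * m + 2 + 5 * k + 5 : ℕ) : ℝ)) (((166 + m : ℕ) : ℝ)) with h | h
        · rw [h.1]
          push_cast
          linarith
        · rw [h.1]
          push_cast
          linarith
      have h7 : gr_s m k ≤ 221 := by
        unfold gr_s
        omega
      have h7' : (gr_s m k : ℝ) ≤ 221 := by exact_mod_cast h7
      have h8 : (1 - a - b) ≥ (330 - (gr_s m k : ℝ)) / 330 - η := by linarith
      have h9 : 0 < (330 - (gr_s m k : ℝ)) / 330 - η := by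
        rw [hη]
        norm_num
        linarith
      have h10 : L / (L * (1 - a - b)) = 1 / (1 - a - b) := by
        field_simp
      rw [← hL, h10]
      have h11 : 1 / (1 - a - b) ≤ 1 / ((330 - (gr_s m k : ℝ)) / 330 - η) :=
        one_div_le_one_div_of_le h9 h8
      refine h11.trans ?_
      have h12 := gr_div (10 ^ 6 * 330) (330 - gr_s m k) (by omega)
      rw [Nat.cast_sub (by omega)] at h12
      unfold gr_fN
      set w : ℝ := (gr_s m k : ℝ) with hw
      clear_value w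
      have hw2 : (0 : ℝ) < 330 - w := by linarith
      rw [le_div_iff₀ (by norm_num)]
      have h13 : 1 / ((330 - w) / 330 - η) * 10 ^ 6 ≤ 10 ^ 6 * 330 / (330 - w) + 1 := by
        have e1 : (10 ^ 6 * 330 / (330 - w) + 1) * ((330 - w) / 330 - η) ≥ 10 ^ 6 := by
          have e2 : (10 ^ 6 * 330 / (330 - w) + 1) * ((330 - w) / 330 - η) =
            10 ^ 6 + (330 - w) / 330 - η - 10 ^ 6 * 330 / (330 - w) * η := by
            field_simp
            ring
          rw [e2]
          have e3 : 10 ^ 6 * 330 / (330 - w) * η ≤ 1 / 10 := by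
            rw [div_mul_eq_mul_div, div_le_iff₀ hw2, hη]
            norm_num
            linarith
          rw [ge_iff_le]
          have e4 : (109 : ℝ) / 330 ≤ (330 - w) / 330 := by
            apply div_le_div_of_nonneg_right _ (by norm_num)
            linarith
          rw [hη] at e3 ⊢
          norm_num at e3 e4 ⊢
          linarith
        rw [one_div, inv_mul_le_iff₀ h9]
        rw [ge_iff_le] at e1
        linarith [mul_comm ((330 - w) / 330 - η) (10 ^ 6 * 330 / (330 - w) + 1)]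
      refine h13.trans ?_
      push_cast at h12 ⊢
      linarith
    -- the sum of 1/p2
    have hsum : ∑ p2 ∈ ((Icc 1 n).filter
          (fun q => q.Prime ∧ ky C n ≤ q ∧ p1 * q ^ 2 ≤ C * n)).filter (fun q => ki q = k),
        1 / (p2 : ℝ) ≤ (gr_bN m k : ℝ) / 10 ^ 6 := by
      have hc1 : 5 * k ≤ gr_c m k := le_max_left _ _
      have hc2 : (110 : ℝ) ≤ (gr_c m k : ℝ) := by
        have : 110 ≤ gr_c m k := le_trans (by omega) hc1
        exact_mod_cast this
      have h1 := gr_cell C' hmer L ((5 * k : ℕ) / 330 : ℝ) ((gr_c m k : ℕ) / 330 : ℝ) η hL0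
        (by push_cast; linarith)
        (by
          apply div_le_div_of_nonneg_right _ (by norm_num)
          exact_mod_cast hc1) hη0.le
        (by
          push_cast
          nlinarith)
        (((Icc 1 n).filter
          (fun q => q.Prime ∧ ky C n ≤ q ∧ p1 * q ^ 2 ≤ C * n)).filter (fun q => ki q = k)) ?_
      · refine h1.trans ?_
        have h2 := gr_quo (5 * k) (gr_c m k) 330 (by norm_num) (by omega) hc1
          (η / ((gr_c m k : ℕ) / 330 : ℝ) + C' / (((5 * k : ℕ) / 330 : ℝ) * L)) ?_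
        · unfold gr_bN
          have e0 : 2 * gr_c m k * (5 * k) = 2 * (5 * k) * gr_c m k := by ring
          rw [e0]
          linarith
        · have e1 : η / ((gr_c m k : ℕ) / 330 : ℝ) ≤ 3 * η := by
            rw [div_le_iff₀ (by linarith)]
            nlinarith
          have e2 : C' / (((5 * k : ℕ) / 330 : ℝ) * L) ≤ 3 * (C' / L) := by
            have e3 : C' / (((5 * k : ℕ) / 330 : ℝ) * L) = (C' / L) / ((5 * k : ℕ) / 330 : ℝ) := by
              rw [div_div, mul_comm]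
            rw [e3, div_le_iff₀ (by push_cast; linarith)]
            have e4 : 0 ≤ C' / L := by positivity
            push_cast
            nlinarith
          rw [hη] at e1 ⊢
          norm_num at e1 e2 hLC' ⊢
          linarith
      · intro p2 hp2
        obtain ⟨h1, h2, h3, h4⟩ := hb p2 hp2
        have hx : Real.log p2 = (Real.log p2 / L) * L := by field_simp
        set b : ℝ := Real.log p2 / L with hbdef
        clear_value b
        refine ⟨h1, ?_, ?_⟩
        · rw [hx]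
          apply mul_le_mul_of_nonneg_right _ hL0.le
          push_cast
          linarith
        · rw [hx]
          apply mul_le_mul_of_nonneg_right _ hL0.le
          have e1 : b ≤ (min (5 * k + 5) (165 - m) : ℕ) / 330 + η := by
            rw [Nat.cast_min, Nat.cast_sub (by omega)]
            rcases min_cases (((5 * k + 5 : ℕ) : ℝ)) (((165 : ℕ) : ℝ) - (m : ℝ)) with h | h
            · rw [h.1]
              push_cast
              linarith
            · rw [h.1]
              push_cast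
              linarith
          refine e1.trans ?_
          have e2 : ((min (5 * k + 5) (165 - m) : ℕ) : ℝ) ≤ (gr_c m k : ℝ) := by
            exact_mod_cast le_max_right _ _
          linarith
    -- combine
    have hF0 : (0 : ℝ) ≤ (gr_fN m k : ℝ) / 10 ^ 6 := by positivity
    calc ∑ p2 ∈ ((Icc 1 n).filter
          (fun q => q.Prime ∧ ky C n ≤ q ∧ p1 * q ^ 2 ≤ C * n)).filter (fun q => ki q = k),
        1 / ((p1 : ℝ) * p2) * (Real.log n / Real.log (n / ((p1 : ℝ) * p2)))
        ≤ ∑ p2 ∈ ((Icc 1 n).filter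
          (fun q => q.Prime ∧ ky C n ≤ q ∧ p1 * q ^ 2 ≤ C * n)).filter (fun q => ki q = k),
        1 / (p1 : ℝ) * (1 / (p2 : ℝ) * ((gr_fN m k : ℝ) / 10 ^ 6)) := by
          refine Finset.sum_le_sum fun p2 hp2 => ?_
          have e1 : 1 / ((p1 : ℝ) * p2) = 1 / (p1 : ℝ) * (1 / (p2 : ℝ)) := by
            rw [one_div_mul_one_div]
          rw [e1, mul_assoc]
          apply mul_le_mul_of_nonneg_left _ (by positivity)
          exact mul_le_mul_of_nonneg_left (hfac p2 hp2) (by positivity)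
      _ = 1 / (p1 : ℝ) * ((∑ p2 ∈ ((Icc 1 n).filter
          (fun q => q.Prime ∧ ky C n ≤ q ∧ p1 * q ^ 2 ≤ C * n)).filter (fun q => ki q = k),
        1 / (p2 : ℝ)) * ((gr_fN m k : ℝ) / 10 ^ 6)) := by
          rw [Finset.sum_mul, Finset.mul_sum]
      _ ≤ _ := by
          apply mul_le_mul_of_nonneg_left _ (by positivity)
          exact mul_le_mul_of_nonneg_right hsum hF0
  -- the sum over p1 in one cell
  have hA : ∀ m ∈ Icc 15 55, ∑ p ∈ S1.filter (fun p => mi p = m), 1 / (p : ℝ) ≤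
      (gr_aN m : ℝ) / 10 ^ 6 := by
    intro m hm
    rw [Finset.mem_Icc] at hm
    have hm15 : (15 : ℝ) ≤ m := by exact_mod_cast hm.1
    have hem : m ≤ gr_e m := by
      unfold gr_e
      omega
    have he15 : (15 : ℝ) ≤ (gr_e m : ℝ) := by
      have : 15 ≤ gr_e m := by omega
      exact_mod_cast this
    have h1 := gr_cell C' hmer L ((m : ℕ) / 165 : ℝ) ((gr_e m : ℕ) / 165 : ℝ) η hL0
      (by linarith)
      (by
        apply div_le_div_of_nonneg_right _ (by norm_num)
        exact_mod_cast hem) hη0.le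
      (by nlinarith)
      (S1.filter (fun p => mi p = m)) ?_
    · refine h1.trans ?_
      have h2 := gr_quo m (gr_e m) 165 (by norm_num) (by omega) hem
        (η / ((gr_e m : ℕ) / 165 : ℝ) + C' / (((m : ℕ) / 165 : ℝ) * L)) ?_
      · unfold gr_aN
        linarith
      · have e1 : η / ((gr_e m : ℕ) / 165 : ℝ) ≤ 11 * η := by
          rw [div_le_iff₀ (by linarith)]
          nlinarith
        have e2 : C' / (((m : ℕ) / 165 : ℝ) * L) ≤ 11 * (C' / L) := by
          have e3 : C' / (((m : ℕ) / 165 : ℝ) * L) = (C' / L) / ((m : ℕ) / 165 : ℝ) := by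
            rw [div_div, mul_comm]
          rw [e3, div_le_iff₀ (by linarith)]
          have e4 : 0 ≤ C' / L := by positivity
          nlinarith
        rw [hη] at e1 ⊢
        norm_num at e1 e2 hLC' ⊢
        linarith
    · intro p hp
      rw [Finset.mem_filter] at hp
      obtain ⟨hp, hmp⟩ := hp
      obtain ⟨hpr, ha1, ha2⟩ := f1 p hp
      have ham : (m : ℝ) ≤ 165 * (Real.log p / L) := by
        rw [← hmp, hmi]
        exact Nat.floor_le (by linarith)
      have ham' : 165 * (Real.log p / L) < (m : ℝ) + 1 := by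
        rw [← hmp, hmi]
        exact Nat.lt_floor_add_one _
      have hx : Real.log p = (Real.log p / L) * L := by field_simp
      set a : ℝ := Real.log p / L with hadef
      clear_value a
      refine ⟨hpr, ?_, ?_⟩
      · rw [hx]
        apply mul_le_mul_of_nonneg_right _ hL0.le
        linarith
      · rw [hx]
        apply mul_le_mul_of_nonneg_right _ hL0.le
        unfold gr_e
        rw [Nat.cast_min]
        rcases min_cases (((m + 1 : ℕ) : ℝ)) (((55 : ℕ) : ℝ)) with h | h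
        · rw [h.1]
          push_cast
          linarith
        · rw [h.1]
          push_cast
          linarith
  -- final
  have hnum : ∑ m ∈ Icc 15 55, (gr_aN m : ℝ) / 10 ^ 6 * ∑ k ∈ Icc 22 30,
      (gr_bN m k : ℝ) / 10 ^ 6 * ((gr_fN m k : ℝ) / 10 ^ 6) ≤ 574 / 1000 := by
    have h1 : ((∑ m ∈ Icc 15 55, gr_aN m * ∑ k ∈ Icc 22 30, gr_bN m k * gr_fN m k : ℕ) : ℝ) ≤
      ((574 * 10 ^ 15 : ℕ) : ℝ) := by exact_mod_cast gr_num
    push_cast at h1
    have h2 : ∑ m ∈ Icc 15 55, (gr_aN m : ℝ) / 10 ^ 6 * ∑ k ∈ Icc 22 30,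
      (gr_bN m k : ℝ) / 10 ^ 6 * ((gr_fN m k : ℝ) / 10 ^ 6) =
      (∑ m ∈ Icc 15 55, (gr_aN m : ℝ) * ∑ k ∈ Icc 22 30, (gr_bN m k : ℝ) * (gr_fN m k : ℝ)) /
        10 ^ 18 := by
      rw [Finset.sum_div]
      refine Finset.sum_congr rfl fun m _ => ?_
      rw [Finset.mul_sum, Finset.mul_sum, Finset.sum_div]
      refine Finset.sum_congr rfl fun k _ => ?_
      ring
    rw [h2, div_le_iff₀ (by norm_num)]
    norm_num at h1 ⊢
    linarith
  refine le_trans ?_ hnum
  rw [← Finset.sum_fiberwise_of_maps_to m1]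
  refine Finset.sum_le_sum fun m hm => ?_
  calc ∑ p1 ∈ S1.filter (fun p => mi p = m),
      ∑ p2 ∈ (Icc 1 n).filter (fun q => q.Prime ∧ ky C n ≤ q ∧ p1 * q ^ 2 ≤ C * n),
        1 / ((p1 : ℝ) * p2) * (Real.log n / Real.log (n / ((p1 : ℝ) * p2)))
      ≤ ∑ p1 ∈ S1.filter (fun p => mi p = m), 1 / (p1 : ℝ) * ∑ k ∈ Icc 22 30,
        (gr_bN m k : ℝ) / 10 ^ 6 * ((gr_fN m k : ℝ) / 10 ^ 6) := by
        refine Finset.sum_le_sum fun p1 hp1 => ?_
        rw [← Finset.sum_fiberwise_of_maps_to (m2 p1 (Finset.mem_filter.1 hp1).1), Finset.mul_sum]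
        exact Finset.sum_le_sum fun k hk => key m hm k hk p1 hp1
    _ = (∑ p1 ∈ S1.filter (fun p => mi p = m), 1 / (p1 : ℝ)) * ∑ k ∈ Icc 22 30,
        (gr_bN m k : ℝ) / 10 ^ 6 * ((gr_fN m k : ℝ) / 10 ^ 6) := by
        rw [Finset.sum_mul]
    _ ≤ _ := mul_le_mul_of_nonneg_right (hA m hm)
        (Finset.sum_nonneg fun k _ => by positivity)

end Pool.Agent.CM.M
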