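import Pool.Agent.Lib.MP_0da313_nt.CM.M

set_option autoImplicit false

/-!
Project CM, section M, piece m3: the mass of the switched sequence.
-/

namespace Pool.Agent.CM.M

open Finset Filter
open Pool.Agent.MP89da58 (tri)

private theorem m3_wd_nn (lam X : ℝ) (k : ℕ) : 0 ≤ wd lam X k := le_max_left _ _

private theorem m3_wd_mul (lam X : ℝ) (k p : ℕ) : wd lam X (k * p) = wd lam (X / k) p := by
  unfold wd
  congr 3
  push_cast
  rw [div_div_eq_mul_div]
  ring

/-- the set of pairs of primes -/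
private noncomputable def m3_S (C n : ℕ) : Finset (ℕ × ℕ) :=
  ((Icc 1 n).filter (fun p => p.Prime ∧ kz n ≤ p ∧ p < ky C n)).sigma
    (fun p1 => (Icc 1 n).filter (fun q => q.Prime ∧ ky C n ≤ q ∧ p1 * q ^ 2 ≤ C * n))
    |>.image (fun x => (x.1, x.2))

private theorem m3_mem (C n : ℕ) (x : ℕ × ℕ) : x ∈ m3_S C n ↔
    (x.1 ∈ Icc 1 n ∧ x.1.Prime ∧ kz n ≤ x.1 ∧ x.1 < ky C n) ∧
    (x.2 ∈ Icc 1 n ∧ x.2.Prime ∧ ky C n ≤ x.2 ∧ x.1 * x.2 ^ 2 ≤ C * n) := by
  unfold m3_S
  simp only [mem_image, mem_sigma, mem_filter]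
  constructor
  · rintro ⟨y, hy, rfl⟩
    exact hy
  · intro h
    exact ⟨⟨x.1, x.2⟩, h, rfl⟩

private theorem m3_sum (C n : ℕ) (f : ℕ → ℕ → ℝ) :
    ∑ p1 ∈ (Icc 1 n).filter (fun p => p.Prime ∧ kz n ≤ p ∧ p < ky C n),
      ∑ p2 ∈ (Icc 1 n).filter (fun q => q.Prime ∧ ky C n ≤ q ∧ p1 * q ^ 2 ≤ C * n), f p1 p2
    = ∑ x ∈ m3_S C n, f x.1 x.2 := by
  unfold m3_S
  rw [sum_image, sum_sigma]
  rintro ⟨a, b⟩ - ⟨c, d⟩ - h
  simp only [Prod.mk.injEq] at h
  obtain ⟨rfl, rfl⟩ := h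
  rfl

private theorem m3_al (C n : ℕ) (hC : C ≤ n) (k : ℕ) :
    al C n k ≤ ∑ x ∈ m3_S C n, (if x.1 * x.2 = k then (1 : ℝ) else 0) := by
  have h0 : ∀ x ∈ m3_S C n, (0 : ℝ) ≤ (if x.1 * x.2 = k then (1 : ℝ) else 0) := by
    intro x _
    split_ifs <;> norm_num
  unfold al
  split_ifs with h
  · obtain ⟨p1, p2, hp1, hp2, hk, h1, h2, h3, h4⟩ := h
    have h5 : p2 ^ 2 ≤ n ^ 2 := by
      calc p2 ^ 2 = 1 * p2 ^ 2 := (one_mul _).symm
        _ ≤ p1 * p2 ^ 2 := Nat.mul_le_mul_right _ hp1.one_lt.le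
        _ ≤ C * n := h4
        _ ≤ n * n := Nat.mul_le_mul_right _ hC
        _ = n ^ 2 := by ring
    have h6 : p2 ≤ n := by
      by_contra hh
      push Not at hh
      have : n ^ 2 < p2 ^ 2 := Nat.pow_lt_pow_left hh (by norm_num)
      omega
    have hm : (p1, p2) ∈ m3_S C n := by
      rw [m3_mem]
      refine ⟨⟨mem_Icc.2 ⟨hp1.one_lt.le, by omega⟩, hp1, h1, h2⟩,
        ⟨mem_Icc.2 ⟨hp2.one_lt.le, h6⟩, hp2, h3, h4⟩⟩
    calc (1 : ℝ) = (if p1 * p2 = k then (1 : ℝ) else 0) := by rw [if_pos hk.symm]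
      _ ≤ _ := single_le_sum (f := fun x : ℕ × ℕ => (if x.1 * x.2 = k then (1 : ℝ) else 0)) h0 hm
  · exact sum_nonneg h0

/-- the combinatorial part -/
private theorem m3_comb (C n : ℕ) (hC : C ≤ n) (lam X : ℝ) (M : ℕ) :
    ∑ m ∈ Icc 1 M, cv (al C n) m * wd lam X m ≤
      ∑ x ∈ m3_S C n, ∑ p ∈ Icc 1 M, (if p.Prime then wd lam (X / ((x.1 * x.2 : ℕ) : ℝ)) p else 0) := by
  have h1 : ∀ m ∈ Icc 1 M, cv (al C n) m * wd lam X m ≤
      ∑ x ∈ m3_S C n, ∑ p ∈ Icc 1 M, (if p.Prime then (if x.1 * x.2 * p = m then wd lam X m else 0) else 0) := by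
    intro m hm
    have hm1 := (mem_Icc.1 hm).1
    have hm2 := (mem_Icc.1 hm).2
    have h2 : cv (al C n) m ≤
        ∑ x ∈ m3_S C n, ∑ p ∈ Icc 1 M, (if p.Prime then (if x.1 * x.2 * p = m then (1 : ℝ) else 0) else 0) := by
      unfold cv
      calc ∑ k ∈ m.divisors, al C n k * (if (m / k).Prime then 1 else 0)
          ≤ ∑ k ∈ m.divisors, ∑ x ∈ m3_S C n,
              (if x.1 * x.2 = k then (if (m / k).Prime then (1 : ℝ) else 0) else 0) := by
            refine sum_le_sum fun k _ => ?_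
            have h3 := m3_al C n hC k
            have h4 : (0 : ℝ) ≤ (if (m / k).Prime then 1 else 0) := by split_ifs <;> norm_num
            calc al C n k * (if (m / k).Prime then 1 else 0)
                ≤ (∑ x ∈ m3_S C n, (if x.1 * x.2 = k then (1 : ℝ) else 0)) *
                    (if (m / k).Prime then 1 else 0) := mul_le_mul_of_nonneg_right h3 h4
              _ = _ := by
                rw [sum_mul]
                refine sum_congr rfl fun x _ => ?_
                split_ifs <;> norm_num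
        _ = ∑ x ∈ m3_S C n, ∑ k ∈ m.divisors,
              (if x.1 * x.2 = k then (if (m / k).Prime then (1 : ℝ) else 0) else 0) := sum_comm
        _ ≤ _ := by
            refine sum_le_sum fun x _ => ?_
            rw [sum_ite_eq]
            have h0 : ∀ p ∈ Icc 1 M, (0 : ℝ) ≤
                (if p.Prime then (if x.1 * x.2 * p = m then (1 : ℝ) else 0) else 0) := by
              intro p _
              split_ifs <;> norm_num
            split_ifs with h5 h6
            · have h7 : x.1 * x.2 * (m / (x.1 * x.2)) = m :=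
                Nat.mul_div_cancel' (Nat.dvd_of_mem_divisors h5)
              have h8 : m / (x.1 * x.2) ∈ Icc 1 M :=
                mem_Icc.2 ⟨h6.one_lt.le, (Nat.div_le_self _ _).trans hm2⟩
              calc (1 : ℝ) = (if (m / (x.1 * x.2)).Prime then
                    (if x.1 * x.2 * (m / (x.1 * x.2)) = m then (1 : ℝ) else 0) else 0) := by
                    rw [if_pos h6, if_pos h7]
                _ ≤ _ := single_le_sum (f := fun p : ℕ =>
                    (if p.Prime then (if x.1 * x.2 * p = m then (1 : ℝ) else 0) else 0)) h0 h8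
            · exact sum_nonneg h0
            · exact sum_nonneg h0
    calc cv (al C n) m * wd lam X m ≤ (∑ x ∈ m3_S C n, ∑ p ∈ Icc 1 M,
          (if p.Prime then (if x.1 * x.2 * p = m then (1 : ℝ) else 0) else 0)) * wd lam X m :=
          mul_le_mul_of_nonneg_right h2 (m3_wd_nn _ _ _)
      _ = _ := by
          rw [sum_mul]
          refine sum_congr rfl fun x _ => ?_
          rw [sum_mul]
          refine sum_congr rfl fun p _ => ?_
          split_ifs <;> simp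
  calc ∑ m ∈ Icc 1 M, cv (al C n) m * wd lam X m ≤ ∑ m ∈ Icc 1 M, ∑ x ∈ m3_S C n, ∑ p ∈ Icc 1 M,
        (if p.Prime then (if x.1 * x.2 * p = m then wd lam X m else 0) else 0) := sum_le_sum h1
    _ = ∑ x ∈ m3_S C n, ∑ p ∈ Icc 1 M, ∑ m ∈ Icc 1 M,
        (if p.Prime then (if x.1 * x.2 * p = m then wd lam X m else 0) else 0) := by
        rw [sum_comm]
        refine sum_congr rfl fun x _ => ?_
        rw [sum_comm]
    _ ≤ _ := by
        refine sum_le_sum fun x _ => sum_le_sum fun p _ => ?_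
        by_cases hp : p.Prime
        · simp only [if_pos hp]
          rw [sum_ite_eq]
          have h9 := m3_wd_mul lam X (x.1 * x.2) p
          have h10 := m3_wd_nn lam (X / ((x.1 * x.2 : ℕ) : ℝ)) p
          split_ifs
          · rw [← h9]
          · exact h10
        · simp [hp]

/-- the size of the products -/
private theorem m3_size (C : ℕ) (hC : 1 ≤ C) : ∀ᶠ n : ℕ in atTop, ∀ x ∈ m3_S C n,
    (1 : ℝ) ≤ ((x.1 * x.2 : ℕ) : ℝ) ∧ ((x.1 * x.2 : ℕ) : ℝ) ≤ (n : ℝ) ^ (7 / 10 : ℝ) := by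
  have ht : Tendsto (fun n : ℕ => (n : ℝ) ^ (1 / 15 : ℝ)) atTop atTop :=
    (tendsto_rpow_atTop (by norm_num)).comp tendsto_natCast_atTop_atTop
  filter_upwards [ht.eventually_ge_atTop (2 * (C : ℝ) ^ (4 / 3 : ℝ)), eventually_ge_atTop 1]
    with n hn hn1 x hx
  have hn0 : (0 : ℝ) < n := by exact_mod_cast hn1
  have hC0 : (0 : ℝ) < C := by exact_mod_cast hC
  obtain ⟨⟨-, hp1, -, h2⟩, ⟨-, hp2, h3, h4⟩⟩ := (m3_mem C n x).1 hx
  refine ⟨by exact_mod_cast Nat.mul_pos hp1.pos hp2.pos, ?_⟩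
  have hCn : (1 : ℝ) ≤ ((C * n : ℕ) : ℝ) := by exact_mod_cast Nat.mul_pos hC hn1
  have h5 : (x.1 : ℝ) ≤ 2 * ((C * n : ℕ) : ℝ) ^ (1 / 3 : ℝ) := by
    have h6 : (x.1 : ℝ) ≤ (ky C n : ℝ) := by exact_mod_cast h2.le
    have h7 : (ky C n : ℝ) < ((C * n : ℕ) : ℝ) ^ (1 / 3 : ℝ) + 1 :=
      Nat.ceil_lt_add_one (by positivity)
    have h8 : (1 : ℝ) ≤ ((C * n : ℕ) : ℝ) ^ (1 / 3 : ℝ) := Real.one_le_rpow hCn (by norm_num)
    linarith
  have h6 : ((x.1 * x.2 : ℕ) : ℝ) ^ 2 ≤ 2 * ((C * n : ℕ) : ℝ) ^ (4 / 3 : ℝ) := by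
    have h7 : ((x.1 * x.2 ^ 2 : ℕ) : ℝ) ≤ ((C * n : ℕ) : ℝ) := by exact_mod_cast h4
    calc ((x.1 * x.2 : ℕ) : ℝ) ^ 2 = (x.1 : ℝ) * ((x.1 * x.2 ^ 2 : ℕ) : ℝ) := by push_cast; ring
      _ ≤ (2 * ((C * n : ℕ) : ℝ) ^ (1 / 3 : ℝ)) * ((C * n : ℕ) : ℝ) :=
          mul_le_mul h5 h7 (by positivity) (by positivity)
      _ = 2 * (((C * n : ℕ) : ℝ) ^ (1 / 3 : ℝ) * ((C * n : ℕ) : ℝ) ^ (1 : ℝ)) := by
          rw [Real.rpow_one]; ring
      _ = 2 * ((C * n : ℕ) : ℝ) ^ (4 / 3 : ℝ) := by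
          rw [← Real.rpow_add (by linarith)]; norm_num
  have h7 : 2 * ((C * n : ℕ) : ℝ) ^ (4 / 3 : ℝ) ≤ ((n : ℝ) ^ (7 / 10 : ℝ)) ^ 2 := by
    push_cast
    rw [Real.mul_rpow hC0.le hn0.le]
    calc 2 * ((C : ℝ) ^ (4 / 3 : ℝ) * (n : ℝ) ^ (4 / 3 : ℝ))
        = (2 * (C : ℝ) ^ (4 / 3 : ℝ)) * (n : ℝ) ^ (4 / 3 : ℝ) := by ring
      _ ≤ (n : ℝ) ^ (1 / 15 : ℝ) * (n : ℝ) ^ (4 / 3 : ℝ) :=
          mul_le_mul_of_nonneg_right hn (by positivity)
      _ = ((n : ℝ) ^ (7 / 10 : ℝ)) ^ 2 := by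
          rw [← Real.rpow_add hn0, ← Real.rpow_natCast, ← Real.rpow_mul hn0.le]
          norm_num
  exact le_of_sq_le_sq (h6.trans h7) (by positivity)

theorem p_m3 : S_m3 := by
  intro hmp hgr C lam t c hC hlam ht
  have hmu : 0 < mu lam := by
    unfold mu
    have h1 : 1 < Real.cosh (1 / lam) := Real.one_lt_cosh.2 (by positivity)
    have h2 : 0 < Real.cosh (1 / lam) - 1 := by linarith
    positivity
  have hY := hmp lam (1 / 2000) hlam (by norm_num)
  obtain ⟨Y0, hY0⟩ := eventually_atTop.1 hY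
  have hnt : Tendsto (fun n : ℕ => (n : ℝ)) atTop atTop := tendsto_natCast_atTop_atTop
  have hlt : Tendsto (fun n : ℕ => Real.log n) atTop atTop := Real.tendsto_log_atTop.comp hnt
  have h3 : Tendsto (fun n : ℕ => (n : ℝ) ^ (3 / 10 : ℝ)) atTop atTop :=
    (tendsto_rpow_atTop (by norm_num)).comp hnt
  filter_upwards [hgr C hC, m3_size C hC, eventually_ge_atTop C, eventually_ge_atTop 2,
    hnt.eventually_ge_atTop (2 * |c| / t), h3.eventually_ge_atTop (2 * Y0 / t),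
    hlt.eventually_ge_atTop (10000 * |Real.log (t / 2)|), hlt.eventually_ge_atTop 1]
    with n h_gr h_size h_C h_2 h_c h_Y h_log h_log1
  have hn2 : (2 : ℝ) ≤ n := by exact_mod_cast h_2
  have hn0 : (0 : ℝ) < n := by linarith
  have hX1 : t / 2 * n ≤ t * n + c := by
    rw [div_le_iff₀ ht] at h_c
    have := neg_abs_le c
    nlinarith
  set X := t * n + c with hX
  have hX0 : 0 < X := lt_of_lt_of_le (by positivity) hX1
  have hpt : ∀ x ∈ m3_S C n, ∑ p ∈ Icc 1 ⌊3 * X⌋₊,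
      (if p.Prime then wd lam (X / ((x.1 * x.2 : ℕ) : ℝ)) p else 0) ≤
      2001 / 1999 * mu lam * X / Real.log n *
        (1 / ((x.1 : ℝ) * x.2) * (Real.log n / Real.log (n / ((x.1 : ℝ) * x.2)))) := by
    intro x hx
    obtain ⟨hk1, hk2⟩ := h_size x hx
    have hkc : ((x.1 * x.2 : ℕ) : ℝ) = (x.1 : ℝ) * x.2 := by push_cast; rfl
    rw [hkc] at hk1 hk2 ⊢
    set k := (x.1 : ℝ) * x.2 with hk
    have hk0 : 0 < k := by linarith
    have h5 : (n : ℝ) ^ (3 / 10 : ℝ) ≤ n / k := by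
      rw [le_div_iff₀ hk0]
      calc (n : ℝ) ^ (3 / 10 : ℝ) * k ≤ (n : ℝ) ^ (3 / 10 : ℝ) * (n : ℝ) ^ (7 / 10 : ℝ) :=
            mul_le_mul_of_nonneg_left hk2 (by positivity)
        _ = n := by
            rw [← Real.rpow_add hn0]
            norm_num
    have hl5 : 3 / 10 * Real.log n ≤ Real.log (n / k) := by
      rw [← Real.log_rpow hn0]
      exact Real.log_le_log (by positivity) h5
    have h6 : t / 2 * (n / k) ≤ X / k := by
      rw [← mul_div_assoc]
      exact (div_le_div_iff_of_pos_right hk0).2 hX1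
    have h7 : Y0 ≤ X / k := by
      rw [div_le_iff₀ ht] at h_Y
      have h8 : Y0 ≤ t / 2 * (n : ℝ) ^ (3 / 10 : ℝ) := by linarith
      exact h8.trans ((mul_le_mul_of_nonneg_left h5 (by positivity)).trans h6)
    have h9 := hY0 _ h7 ⌊3 * X⌋₊
    have hnk : 0 < (n : ℝ) / k := by positivity
    have hl6 : 1999 / 2000 * Real.log (n / k) ≤ Real.log (X / k) := by
      have h10 : Real.log (t / 2 * (n / k)) ≤ Real.log (X / k) :=
        Real.log_le_log (by positivity) h6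
      rw [Real.log_mul (by positivity) hnk.ne'] at h10
      have h11 := neg_abs_le (Real.log (t / 2))
      nlinarith
    have hlk : 0 < Real.log (n / k) := by nlinarith
    refine h9.trans ?_
    have hln : 0 < Real.log n := by linarith
    calc (1 + 1 / 2000) * mu lam * (X / k) / Real.log (X / k)
        ≤ (1 + 1 / 2000) * mu lam * (X / k) / (1999 / 2000 * Real.log (n / k)) :=
          div_le_div_of_nonneg_left (by positivity) (by positivity) hl6
      _ = 2001 / 1999 * mu lam * X / Real.log n * (1 / k * (Real.log n / Real.log (n / k))) := by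
          field_simp
          norm_num
  have hlog0 : 0 < Real.log n := by linarith
  calc ∑ m ∈ Icc 1 ⌊3 * X⌋₊, cv (al C n) m * wd lam X m
      ≤ ∑ x ∈ m3_S C n, ∑ p ∈ Icc 1 ⌊3 * X⌋₊,
        (if p.Prime then wd lam (X / ((x.1 * x.2 : ℕ) : ℝ)) p else 0) := m3_comb C n h_C lam X _
    _ ≤ ∑ x ∈ m3_S C n, 2001 / 1999 * mu lam * X / Real.log n *
        (1 / ((x.1 : ℝ) * x.2) * (Real.log n / Real.log (n / ((x.1 : ℝ) * x.2)))) := sum_le_sum hpt
    _ = 2001 / 1999 * mu lam * X / Real.log n * ∑ x ∈ m3_S C n,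
        (1 / ((x.1 : ℝ) * x.2) * (Real.log n / Real.log (n / ((x.1 : ℝ) * x.2)))) := by
        rw [mul_sum]
    _ ≤ 2001 / 1999 * mu lam * X / Real.log n * (574 / 1000) := by
        refine mul_le_mul_of_nonneg_left ?_ (by positivity)
        rw [m3_sum C n (fun a b =>
          (1 / ((a : ℝ) * b) * (Real.log n / Real.log (n / ((a : ℝ) * b)))))] at h_gr
        exact h_gr
    _ ≤ 575 / 1000 * mu lam * X / Real.log n := by
        have h12 : 0 < mu lam * X / Real.log n := by positivity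
        have h13 : 2001 / 1999 * mu lam * X / Real.log n * (574 / 1000) =
          (2001 / 1999 * (574 / 1000)) * (mu lam * X / Real.log n) := by ring
        have h14 : 575 / 1000 * mu lam * X / Real.log n =
          575 / 1000 * (mu lam * X / Real.log n) := by ring
        rw [h13, h14]
        exact mul_le_mul_of_nonneg_right (by norm_num) h12.le

end Pool.Agent.CM.M
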