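import Pool.Agent.Lib.MP_0da313_nt.CM.S

set_option autoImplicit false

/-!
[CM main] The main terms.
-/

namespace Pool.Agent.CM.S

open Finset Filter
open Pool.Agent.CH.S (th Pr gd V Mer SS UpC LoC)

private lemma main_mem {a w p : ℕ} : p ∈ Pr a w ↔ p < w ∧ p.Prime ∧ a ≤ p := by
  simp [Pr]

/-- the sieve functions only depend on the values at the primes `≥ a` -/
private lemma main_th {a : ℕ} {ρ ρ' : ℕ → ℝ} (h : ∀ p, a ≤ p → ρ p = ρ' p) (w : ℕ) :
    ∀ (b : Bool) (D : ℝ), th a ρ w b D = th a ρ' w b D := by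
  induction w with
  | zero =>
    intro b D
    rfl
  | succ w ih =>
    intro b D
    simp only [th]
    rw [ih b D, ih (!b) (D / w)]
    by_cases hw : w.Prime ∧ a ≤ w ∧ (b = true → (w : ℝ) ^ 3 < D)
    · rw [if_pos hw, if_pos hw, h w hw.2.1]
    · rw [if_neg hw, if_neg hw]

theorem p_main : S_main := by
  rintro ⟨u, l, U, L', K, hSS, hu3, hl273, hu273, hT2⟩ ht2 hv3 htel hmer hls B0 C hB0 hC
  have hB0' : (1 : ℝ) ≤ B0 := by exact_mod_cast hB0
  obtain ⟨ε, hε, hlin⟩ := hls u l U L' K hSS (3 * B0 + 3) (by linarith)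
  obtain ⟨a0, ha0, hM⟩ := hmer ε hε
  have hlog : Tendsto (fun n : ℕ => Real.log (n : ℝ)) atTop atTop :=
    Real.tendsto_log_atTop.comp tendsto_natCast_atTop_atTop
  filter_upwards [hlog.eventually_ge_atTop (100 * (1 + Real.log C)),
    eventually_ge_atTop (a0 ^ B0),
    ht2 u hSS.u_anti hSS.u_pos C (1 / 10000) hC (by norm_num),
    hv3 (1 / 1000) (by norm_num)] with n hn1 hn2 hn3 hn4
  intro z hz1 hz2 Fp Fm ρ V0 hV0 hp1 hp2 hm1 hm2 hρ
  have hz : a0 ≤ z := by
    by_contra h
    have h1 : z ^ B0 < a0 ^ B0 := Nat.pow_lt_pow_left (by omega) (by omega)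
    omega
  have hC1 : (1 : ℝ) ≤ C := by exact_mod_cast hC
  have hlC : 0 ≤ Real.log C := Real.log_nonneg hC1
  set L : ℝ := Real.log n with hL
  have hL100 : 100 ≤ L := by nlinarith
  have hn0 : (0 : ℝ) < n := by
    rcases Nat.eq_zero_or_pos n with h | h
    · exfalso
      rw [h, Nat.cast_zero, Real.log_zero] at hL
      linarith
    · exact_mod_cast h
  have hz3 : (3 : ℝ) ≤ z := by exact_mod_cast le_trans ha0 hz
  set w : ℝ := (n : ℝ) ^ (1 / 11 : ℝ) with hw
  set w' : ℝ := (n : ℝ) ^ (91 / 550 : ℝ) with hw'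
  have hw0 : 0 < w := Real.rpow_pos_of_pos hn0 _
  have hw'0 : 0 < w' := Real.rpow_pos_of_pos hn0 _
  have hD0 : 0 < lD n := Real.rpow_pos_of_pos hn0 _
  have hlw : Real.log w = L / 11 := by
    rw [hw, Real.log_rpow hn0]
    ring
  have hlw' : Real.log w' = 91 / 550 * L := by
    rw [hw', Real.log_rpow hn0]
  have hlD : Real.log (lD n) = 273 / 550 * L := by
    unfold lD
    rw [Real.log_rpow hn0]
  have hx0 : 0 < (n : ℝ) ^ (1 / 1000 : ℝ) := Real.rpow_pos_of_pos hn0 _
  have hcz : kz n = ⌈w⌉₊ := rfl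
  have hc3 : k3 n = ⌈w'⌉₊ := rfl
  have haw : ((z + 1 : ℕ) : ℝ) ≤ w := by
    have h1 : 2 * (n : ℝ) ^ (1 / 1000 : ℝ) ≤ w := by
      rw [← Real.log_le_log_iff (by positivity) hw0, hlw,
        Real.log_mul (by norm_num) hx0.ne', Real.log_rpow hn0]
      have := Real.log_two_lt_d9
      linarith
    push_cast
    linarith
  have hww' : w ≤ w' := by
    rw [← Real.log_le_log_iff hw0 hw'0, hlw, hlw']
    linarith
  have hkz : z + 1 ≤ kz n := by
    rw [hcz]
    have : ((z + 1 : ℕ) : ℝ) ≤ (⌈w⌉₊ : ℝ) := haw.trans (Nat.le_ceil w)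
    exact_mod_cast this
  -- the range of the level
  have hLz : L ≤ B0 * Real.log (z : ℝ) := by
    have h1 : (n : ℝ) ≤ (z : ℝ) ^ B0 := by exact_mod_cast hz1
    have h2 := Real.log_le_log hn0 h1
    rwa [Real.log_pow] at h2
  have hla : Real.log (z : ℝ) ≤ Real.log ((z + 1 : ℕ) : ℝ) := by
    apply Real.log_le_log (by linarith)
    push_cast
    linarith
  have hlz0 : 0 ≤ Real.log (z : ℝ) := Real.log_nonneg (by linarith)
  have hSa : L ≤ (3 * B0 + 3) * Real.log ((z + 1 : ℕ) : ℝ) := by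
    have h1 : (B0 : ℝ) * Real.log (z : ℝ) ≤ B0 * Real.log ((z + 1 : ℕ) : ℝ) :=
      mul_le_mul_of_nonneg_left hla (by linarith)
    have h2 : 0 ≤ (B0 : ℝ) * Real.log ((z + 1 : ℕ) : ℝ) :=
      mul_nonneg (by linarith) (hlz0.trans hla)
    have h3 : 0 ≤ Real.log ((z + 1 : ℕ) : ℝ) := hlz0.trans hla
    nlinarith
  have hlin' := hlin (z + 1) (by omega) (hM (z + 1) (by omega))
  have hrat : Real.log (lD n) / Real.log w = 273 / 50 := by
    rw [hlw, hlD]
    have : L ≠ 0 := by linarith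
    field_simp
    norm_num
  have hrat' : Real.log (lD n) / Real.log w' = 3 := by
    rw [hlw', hlD]
    have : L ≠ 0 := by linarith
    field_simp
    norm_num
  have hV1 := (htel (z + 1) (by omega)).1 (kz n)
  set V1 : ℝ := V (z + 1) (kz n) with hV1d
  -- the values at the level `D`
  have hwD : w ≤ lD n := by
    rw [← Real.log_le_log_iff hw0 hD0, hlw, hlD]
    linarith
  have hw2D : w ^ 2 ≤ lD n := by
    rw [← Real.log_le_log_iff (by positivity) hD0, Real.log_pow, hlw, hlD]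
    push_cast
    linarith
  have hw'D : w' ≤ lD n := by
    rw [← Real.log_le_log_iff hw'0 hD0, hlw', hlD]
    linarith
  obtain ⟨hup, hlo⟩ := hlin' (lD n) w haw hwD (by rw [hlD]; linarith)
  have hlo := hlo hw2D
  have hup3 := (hlin' (lD n) w' (haw.trans hww') hw'D (by rw [hlD]; linarith)).1
  unfold UpC at hup hup3
  unfold LoC at hlo
  rw [hrat, ← hcz, ← hV1d] at hup hlo
  rw [hrat', ← hc3] at hup3
  have hBp : th (z + 1) gd (kz n) true (lD n) ≤ V1 * (1 + 17 / 10000) :=
    hup.trans (mul_le_mul_of_nonneg_left (by linarith) hV1.1.le)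
  have hBm : V1 * (1 - 16 / 10000) ≤ th (z + 1) gd (kz n) false (lD n) :=
    le_trans (mul_le_mul_of_nonneg_left (by linarith) hV1.1.le) hlo
  -- the sum over `q`
  have hsum : ∑ q ∈ Pr (kz n) (ky C n), ρ q * th (z + 1) gd (kz n) true (lD n / q) ≤
      V1 * (15681 / 10000) := by
    have h1 : ∀ q ∈ Pr (kz n) (ky C n), ρ q * th (z + 1) gd (kz n) true (lD n / q) ≤
        V1 * (gd q * (1 + u (Real.log (lD n / q) / Real.log w))) := by
      intro q hq
      rw [main_mem] at hq
      have hq2 : (2 : ℝ) ≤ q := by exact_mod_cast hq.2.1.two_le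
      have hq0 : (0 : ℝ) < q := by linarith
      rw [hρ q (by omega)]
      have h4 : (q : ℝ) < ((C * n : ℕ) : ℝ) ^ (1 / 3 : ℝ) := by
        have := hq.1
        unfold ky at this
        rwa [Nat.lt_ceil] at this
      have h5 : (0 : ℝ) < ((C * n : ℕ) : ℝ) := by
        push_cast
        positivity
      have h6 := Real.log_le_log (by linarith) h4.le
      rw [Real.log_rpow h5] at h6
      have h7 : Real.log ((C * n : ℕ) : ℝ) = Real.log C + L := by
        push_cast
        rw [Real.log_mul (by linarith) hn0.ne']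
      rw [h7] at h6
      have hDq0 : 0 < lD n / q := by positivity
      have hlDq : Real.log (lD n / q) = 273 / 550 * L - Real.log q := by
        rw [Real.log_div hD0.ne' hq0.ne', hlD]
      have h8 : w ≤ lD n / q := by
        rw [← Real.log_le_log_iff hw0 hDq0, hlw, hlDq]
        linarith
      have h9 : Real.log (lD n / q) ≤ (3 * B0 + 3) * Real.log ((z + 1 : ℕ) : ℝ) := by
        rw [hlDq]
        have : 0 ≤ Real.log (q : ℝ) := Real.log_nonneg (by linarith)
        linarith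
      have h10 := (hlin' (lD n / q) w haw h8 h9).1
      unfold UpC at h10
      rw [← hcz, ← hV1d] at h10
      have h11 : 0 ≤ gd q := by
        unfold gd
        apply div_nonneg zero_le_one
        linarith
      calc gd q * th (z + 1) gd (kz n) true (lD n / q) ≤
            gd q * (V1 * (1 + u (Real.log (lD n / q) / Real.log w))) :=
            mul_le_mul_of_nonneg_left h10 h11
        _ = _ := by ring
    refine (Finset.sum_le_sum h1).trans ?_
    rw [← Finset.mul_sum]
    apply mul_le_mul_of_nonneg_left _ hV1.1.le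
    refine hn3.trans ?_
    linarith
  have hthρ : ∀ (k : ℕ) (b : Bool) (D : ℝ), th (z + 1) ρ k b D = th (z + 1) gd k b D :=
    fun k b D => main_th (fun p hp => hρ p (by omega)) k b D
  have hAp0 : 0 ≤ Fp ρ := hV0.trans hp1
  constructor
  · unfold F12
    simp only [hthρ]
    set Bp := th (z + 1) gd (kz n) true (lD n)
    set Bm := th (z + 1) gd (kz n) false (lD n)
    set Sq := ∑ q ∈ Pr (kz n) (ky C n), ρ q * th (z + 1) gd (kz n) true (lD n / q)
    have g0 : 0 ≤ V0 * V1 := mul_nonneg hV0 hV1.1.le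
    have g1 : V0 * (V1 * (1 - 16 / 10000)) ≤ Fp ρ * Bm :=
      mul_le_mul hp1 hBm (mul_nonneg hV1.1.le (by norm_num)) hAp0
    have g2 : (Fp ρ - Fm ρ) * Bp ≤ (2 / 1000 * V0) * (V1 * (1 + 17 / 10000)) := by
      calc (Fp ρ - Fm ρ) * Bp ≤ (Fp ρ - Fm ρ) * (V1 * (1 + 17 / 10000)) :=
            mul_le_mul_of_nonneg_left hBp (by linarith)
        _ ≤ (2 / 1000 * V0) * (V1 * (1 + 17 / 10000)) := by
            apply mul_le_mul_of_nonneg_right
            · linarith
            · exact mul_nonneg hV1.1.le (by norm_num)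
    have g3 : Fp ρ * Sq ≤ ((1 + 1 / 1000) * V0) * (V1 * (15681 / 10000)) := by
      calc Fp ρ * Sq ≤ Fp ρ * (V1 * (15681 / 10000)) := mul_le_mul_of_nonneg_left hsum hAp0
        _ ≤ ((1 + 1 / 1000) * V0) * (V1 * (15681 / 10000)) := by
            apply mul_le_mul_of_nonneg_right hp2
            exact mul_nonneg hV1.1.le (by norm_num)
    nlinarith
  · unfold F3
    rw [hthρ]
    have hk : kz n ≤ k3 n := hn4.2
    have h1 := (htel (z + 1) (by omega)).2.1 (kz n) (k3 n) hkz hk
    rw [h1, ← hV1d] at hup3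
    have h2 : V1 * V (kz n) (k3 n) ≤ V1 * (50 / 91 * (1 + 1 / 1000)) :=
      mul_le_mul_of_nonneg_left hn4.1 hV1.1.le
    have h3 : V1 * V (kz n) (k3 n) * (1 + u 3) ≤
        V1 * (50 / 91 * (1 + 1 / 1000)) * (1 + 21566 / 100000) := by
      have h4 : 0 < u 3 := hSS.u_pos 3 (by norm_num)
      apply mul_le_mul h2 (by linarith) (by linarith)
      exact mul_nonneg hV1.1.le (by norm_num)
    have h5 := hup3.trans h3
    have h6 : 0 ≤ V1 * (50 / 91 * (1 + 1 / 1000)) * (1 + 21566 / 100000) :=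
      mul_nonneg (mul_nonneg hV1.1.le (by norm_num)) (by norm_num)
    have g0 : 0 ≤ V0 * V1 := mul_nonneg hV0 hV1.1.le
    calc Fp ρ * th (z + 1) gd (k3 n) true (lD n) ≤
          Fp ρ * (V1 * (50 / 91 * (1 + 1 / 1000)) * (1 + 21566 / 100000)) :=
          mul_le_mul_of_nonneg_left h5 hAp0
      _ ≤ ((1 + 1 / 1000) * V0) * (V1 * (50 / 91 * (1 + 1 / 1000)) * (1 + 21566 / 100000)) :=
          mul_le_mul_of_nonneg_right hp2 h6
      _ = (1 + 1 / 1000) * (50 / 91 * (1 + 1 / 1000)) * (1 + 21566 / 100000) * (V0 * V1) := by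
          ring
      _ ≤ 67 / 100 * (V0 * V1) := mul_le_mul_of_nonneg_right (by norm_num) g0

end Pool.Agent.CM.S
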