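import Pool.Agent.Lib.MP_0da313_nt.CM.L

set_option autoImplicit false

/-!
Project CM, section L: the masses of the windows.
-/

namespace Pool.Agent.CM.L

open Finset Filter Polynomial
open Pool.Agent.MP89da58 (tri)
open Pool.Agent.CH (thP)

section

variable {ι : Type} [Fintype ι] [DecidableEq ι] {D : ℕ} (F : Fam ι D)

lemma ms_u (l : Option ι) : 0 < |(F.u l : ℝ)| := by
  rw [abs_pos]
  exact_mod_cast F.hu l

lemma ms_uh (l : Option ι) : 0 < |(F.u l : ℝ)| * F.hw := mul_pos (ms_u F l) F.hhw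

lemma ms_t (l : Option ι) : 1000 * (|(F.u l : ℝ)| * F.hw) ≤ F.t l := F.hth l

lemma ms_tpos (l : Option ι) : 0 < F.t l := by
  have h1 := ms_t F l
  have h2 := ms_uh F l
  linarith

lemma ms_tdiv (l : Option ι) : 1000 ≤ F.t l / (|(F.u l : ℝ)| * F.hw) := by
  rw [le_div_iff₀ (ms_uh F l)]
  exact ms_t F l

lemma ms_la_none : F.la none = F.t none / (|(F.u none : ℝ)| * F.hw) := by
  unfold Fam.la
  rw [if_pos rfl, one_mul]

lemma ms_la_some (i : ι) :
    F.la (some i) = 99 / 100 * (F.t (some i) / (|(F.u (some i) : ℝ)| * F.hw)) := by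
  unfold Fam.la
  rw [if_neg (by simp)]

lemma ms_la (l : Option ι) : 990 ≤ F.la l := by
  have h1 := ms_tdiv F l
  cases l with
  | none => rw [ms_la_none]; linarith
  | some i => rw [ms_la_some]; linarith

lemma ms_ev : ∀ᶠ n : ℕ in atTop, 0 < n ∧
    ∀ l, 1 ≤ F.X n l ∧ |F.X n l - F.t l * n| ≤ F.t l * n / 10000 := by
  have hcast : Tendsto (fun n : ℕ => (n : ℝ)) atTop atTop := tendsto_natCast_atTop_atTop
  have h1 : ∀ᶠ n : ℕ in atTop, ∀ l : Option ι, |(F.c l : ℝ)| * 10000 / F.t l ≤ n :=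
    eventually_all.2 fun l => hcast.eventually (eventually_ge_atTop _)
  have h2 : ∀ᶠ n : ℕ in atTop, ∀ l : Option ι, 2 / F.t l ≤ n :=
    eventually_all.2 fun l => hcast.eventually (eventually_ge_atTop _)
  filter_upwards [h1, h2, eventually_gt_atTop 0] with n h3 h4 h5
  refine ⟨h5, fun l => ?_⟩
  have ht := ms_tpos F l
  have h6 := h3 l
  have h7 := h4 l
  rw [div_le_iff₀ ht] at h6 h7
  have h8 : F.X n l - F.t l * n = F.c l := by
    unfold Fam.X
    ring
  have h9 : |F.X n l - F.t l * n| ≤ F.t l * n / 10000 := by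
    rw [h8]
    linarith
  refine ⟨?_, h9⟩
  have h10 := (abs_le.1 h9).1
  nlinarith

lemma ms_tend (l : Option ι) : Tendsto (fun n : ℕ => F.X n l) atTop atTop := by
  have hcast : Tendsto (fun n : ℕ => (n : ℝ)) atTop atTop := tendsto_natCast_atTop_atTop
  have h1 : Tendsto (fun n : ℕ => F.t l * (n : ℝ)) atTop atTop :=
    hcast.const_mul_atTop (ms_tpos F l)
  exact tendsto_atTop_add_const_right _ _ h1

/-- the ratio of the centre to the width -/
lemma ms_ratio {X t u h n : ℝ} (hu : 0 < u) (hh : 0 < h) (ht : 0 < t)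
    (hX : |X - t * n| ≤ t * n / 10000) :
    9999 / 10000 * (h * n * u) ≤ X / (t / (u * h)) ∧
      X / (t / (u * h)) ≤ 10001 / 10000 * (h * n * u) := by
  have h1 := abs_le.1 hX
  have e : X / (t / (u * h)) = X * (u * h) / t := by
    field_simp
  have huh : 0 < u * h := mul_pos hu hh
  rw [e]
  constructor
  · rw [le_div_iff₀ ht]
    have h2 : 9999 / 10000 * (t * n) ≤ X := by linarith [h1.1]
    calc 9999 / 10000 * (h * n * u) * t = 9999 / 10000 * (t * n) * (u * h) := by ring
      _ ≤ X * (u * h) := mul_le_mul_of_nonneg_right h2 huh.le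
  · rw [div_le_iff₀ ht]
    have h2 : X ≤ 10001 / 10000 * (t * n) := by linarith [h1.2]
    calc X * (u * h) ≤ 10001 / 10000 * (t * n) * (u * h) :=
          mul_le_mul_of_nonneg_right h2 huh.le
      _ = 10001 / 10000 * (h * n * u) * t := by ring

lemma ms_a3_nonneg (C n : ℕ) (i : ι) (N : ℕ) : 0 ≤ F.a3 C n i N := by
  unfold Fam.a3
  apply mul_nonneg
  · unfold cv
    apply Finset.sum_nonneg
    intro k _
    apply mul_nonneg
    · unfold al
      split_ifs <;> norm_num
    · split_ifs <;> norm_num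
  · exact le_max_left _ _

end

theorem p_mass : S_mass := by
  intro hmu hm1 hm3 _hwin ι _ _ D F C hC
  have hla := ms_la F
  have e1 := (ms_tend F none).eventually
    (hm1 (F.la none) (1 / (10000 * F.la none)) (by linarith [hla none])
      (by have := hla none; positivity))
  have e3 : ∀ᶠ n : ℕ in atTop, ∀ i : ι, ∑ m ∈ Icc 1 ⌊3 * (F.t (some i) * n + (F.c (some i) : ℝ))⌋₊,
      cv (al C n) m * wd (F.la (some i)) (F.t (some i) * n + (F.c (some i) : ℝ)) m
      ≤ 575 / 1000 * mu (F.la (some i)) * (F.t (some i) * n + (F.c (some i) : ℝ)) / Real.log n :=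
    eventually_all.2 fun i => hm3 C (F.la (some i)) (F.t (some i)) (F.c (some i)) hC
      (by linarith [hla (some i)]) (ms_tpos F _)
  filter_upwards [e1, e3, ms_ev F, eventually_ge_atTop 3] with n h1 h3 hev hn3
  obtain ⟨hn0, hev⟩ := hev
  have hn : (0 : ℝ) < n := by exact_mod_cast hn0
  have hlog : 0 < Real.log n := by
    apply Real.log_pos
    exact_mod_cast (show 1 < n by omega)
  have hS : sT (F.a0 n) (F.NX n none) =
      ∑ m ∈ Icc 1 ⌊3 * F.X n none⌋₊, thP m * wd (F.la none) (F.X n none) m := rfl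
  have hS3 : ∀ i, sT (F.a3 C n i) (F.NX n (some i)) =
      ∑ m ∈ Icc 1 ⌊3 * (F.t (some i) * n + (F.c (some i) : ℝ))⌋₊,
      cv (al C n) m * wd (F.la (some i)) (F.t (some i) * n + (F.c (some i) : ℝ)) m :=
    fun i => rfl
  have hla0 : ∀ l, 0 < F.la l := fun l => by linarith [hla l]
  have hX0 : ∀ l, 0 < F.X n l := fun l => by linarith [(hev l).1]
  have hmul : ∀ l, F.X n l / F.la l ≤ mu (F.la l) * F.X n l ∧
      mu (F.la l) * F.X n l ≤ F.X n l / F.la l * (1 + 1 / 10000) := by
    intro l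
    obtain ⟨g1, g2⟩ := hmu (F.la l) (by linarith [hla l])
    constructor
    · calc F.X n l / F.la l = 1 / F.la l * F.X n l := by ring
        _ ≤ _ := mul_le_mul_of_nonneg_right g1 (hX0 l).le
    · have g3 : 1 / F.la l ^ 2 ≤ 1 / 10000 := by
        apply one_div_le_one_div_of_le (by norm_num)
        nlinarith [hla l]
      calc mu (F.la l) * F.X n l ≤ 1 / F.la l * (1 + 1 / F.la l ^ 2) * F.X n l :=
            mul_le_mul_of_nonneg_right g2 (hX0 l).le
        _ = F.X n l / F.la l * (1 + 1 / F.la l ^ 2) := by ring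
        _ ≤ _ := by
            apply mul_le_mul_of_nonneg_left _ (div_nonneg (hX0 l).le (hla0 l).le)
            linarith
  refine ⟨?_, ?_, fun i => ⟨?_, ?_⟩⟩
  · rw [hS]
    obtain ⟨r1, r2⟩ := ms_ratio (ms_u F none) F.hhw (ms_tpos F none) (hev none).2
    rw [← ms_la_none] at r1 r2
    have g := abs_le.1 h1
    have g2 := (hmul none).1
    have g3 : 1 / (10000 * F.la none) * F.X n none = 1 / 10000 * (F.X n none / F.la none) := by
      field_simp
    rw [g3] at g
    have g4 : 0 < F.hw * n * |(F.u none : ℝ)| := mul_pos (mul_pos F.hhw hn) (ms_u F none)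
    linarith [g.1]
  · rw [hS]
    obtain ⟨r1, r2⟩ := ms_ratio (ms_u F none) F.hhw (ms_tpos F none) (hev none).2
    rw [← ms_la_none] at r1 r2
    have g := abs_le.1 h1
    have g2 := (hmul none).2
    have g3 : 1 / (10000 * F.la none) * F.X n none = 1 / 10000 * (F.X n none / F.la none) := by
      field_simp
    rw [g3] at g
    have g4 : 0 < F.hw * n * |(F.u none : ℝ)| := mul_pos (mul_pos F.hhw hn) (ms_u F none)
    linarith [g.2]
  · apply Finset.sum_nonneg
    intro m _
    exact ms_a3_nonneg F C n i m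
  · rw [hS3]
    refine (h3 i).trans ?_
    apply div_le_div_of_nonneg_right _ hlog.le
    obtain ⟨r1, r2⟩ := ms_ratio (ms_u F (some i)) F.hhw (ms_tpos F (some i)) (hev (some i)).2
    have g2 := (hmul (some i)).2
    have g3 : F.X n (some i) / F.la (some i) =
        100 / 99 * (F.X n (some i) / (F.t (some i) / (|(F.u (some i) : ℝ)| * F.hw))) := by
      rw [ms_la_some]
      field_simp
    rw [g3] at g2
    have g4 : 0 < F.hw * n * |(F.u (some i) : ℝ)| :=
      mul_pos (mul_pos F.hhw hn) (ms_u F (some i))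
    have g5 : F.t (some i) * n + (F.c (some i) : ℝ) = F.X n (some i) := rfl
    rw [g5]
    linarith

end Pool.Agent.CM.L
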