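import Pool.Agent.Lib.MP_0da313_nt.CM.M

set_option autoImplicit false

/-!
Project CM, section M, piece mp: the number of primes in a window.
-/

namespace Pool.Agent.CM.M

open Finset Filter
open Pool.Agent.MP89da58 (tri)
open Pool.Agent.CH (thP)

private theorem mp_wd0 (lam Y : ℝ) (n : ℕ) : 0 ≤ wd lam Y n := by
  unfold wd tri
  exact le_max_left _ _

private theorem mp_supp (lam Y : ℝ) (n : ℕ) (hlam : 1 ≤ lam) (hY : 0 < Y) (hn : 1 ≤ n)
    (h : wd lam Y n ≠ 0) : Y / 3 ≤ n ∧ (n : ℝ) ≤ 3 * Y := by
  have hn0 : (0 : ℝ) < n := by exact_mod_cast hn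
  have h1 : |lam * Real.log (n / Y)| < 1 := by
    by_contra hcon
    push Not at hcon
    apply h
    unfold wd tri
    rw [max_eq_left]
    linarith
  rw [abs_mul, abs_of_pos (by linarith : (0 : ℝ) < lam)] at h1
  have h2 : |Real.log (n / Y)| < 1 := by
    have h3 : 0 ≤ |Real.log (n / Y)| := abs_nonneg _
    nlinarith
  rw [abs_lt] at h2
  have he := Real.exp_one_lt_d9
  have hnY : 0 < (n : ℝ) / Y := by positivity
  constructor
  · have h3 : Real.exp (-1) < n / Y := by
      rw [← Real.lt_log_iff_exp_lt hnY]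
      exact h2.1
    have h4 : (1 : ℝ) / 3 ≤ Real.exp (-1) := by
      rw [Real.exp_neg, ← one_div]
      exact one_div_le_one_div_of_le (Real.exp_pos 1) (by linarith)
    rw [lt_div_iff₀ hY] at h3
    have h5 : 1 / 3 * Y ≤ Real.exp (-1) * Y := mul_le_mul_of_nonneg_right h4 hY.le
    linarith
  · have h3 : n / Y < Real.exp 1 := by
      rw [← Real.log_lt_iff_lt_exp hnY]
      exact h2.2
    rw [div_lt_iff₀ hY] at h3
    have h5 : Real.exp 1 * Y ≤ 3 * Y := mul_le_mul_of_nonneg_right (by linarith) hY.le
    linarith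

theorem p_mp : S_mp := by
  intro hm1 hmu lam δ hlam hδ
  have hl0 : 0 < lam := by linarith
  obtain ⟨hmu1, -⟩ := hmu lam hlam
  have hmu0 : 0 < mu lam := lt_of_lt_of_le (by positivity) hmu1
  filter_upwards [hm1 lam (δ / 4 * (1 / lam)) hlam (by positivity), eventually_ge_atTop (12 : ℝ),
    Real.tendsto_log_atTop.eventually_ge_atTop ((1 + δ) * Real.log 3 / (3 * δ / 4)),
    Real.tendsto_log_atTop.eventually_ge_atTop (Real.log 3 + 1)] with Y h1 hY12 hY2 hY3
  intro N
  have hY0 : 0 < Y := by linarith
  have hlY : Real.log (Y / 3) = Real.log Y - Real.log 3 :=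
    Real.log_div hY0.ne' (by norm_num)
  have hl3 : 0 < Real.log 3 := Real.log_pos (by norm_num)
  have hD : 0 < Real.log Y - Real.log 3 := by linarith
  have hLY : 0 < Real.log Y := by linarith
  -- termwise
  have h2 : ∑ p ∈ Icc 1 N, (if p.Prime then wd lam Y p else 0) ≤
      ∑ p ∈ Icc 1 ⌊3 * Y⌋₊, thP p * wd lam Y p / (Real.log Y - Real.log 3) := by
    have h3 : ∑ p ∈ Icc 1 N, (if p.Prime then wd lam Y p else 0) =
        ∑ p ∈ (Icc 1 N).filter (fun p => p ≤ ⌊3 * Y⌋₊), (if p.Prime then wd lam Y p else 0) := by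
      symm
      apply Finset.sum_filter_of_ne
      intro p hp hne
      by_cases hpp : p.Prime
      · rw [if_pos hpp] at hne
        exact Nat.le_floor (mp_supp lam Y p hlam hY0 (Finset.mem_Icc.1 hp).1 hne).2
      · rw [if_neg hpp] at hne
        exact absurd rfl hne
    rw [h3]
    calc ∑ p ∈ (Icc 1 N).filter (fun p => p ≤ ⌊3 * Y⌋₊), (if p.Prime then wd lam Y p else 0)
        ≤ ∑ p ∈ (Icc 1 N).filter (fun p => p ≤ ⌊3 * Y⌋₊),
          thP p * wd lam Y p / (Real.log Y - Real.log 3) := by
          apply Finset.sum_le_sum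
          intro p hp
          rw [Finset.mem_filter, Finset.mem_Icc] at hp
          by_cases hpp : p.Prime
          · rw [if_pos hpp]
            unfold thP
            rw [if_pos hpp, le_div_iff₀ hD]
            by_cases h0 : wd lam Y p = 0
            · rw [h0]
              simp
            · have h4 := (mp_supp lam Y p hlam hY0 hp.1.1 h0).1
              have h5 := Real.log_le_log (by positivity) h4
              rw [hlY] at h5
              rw [mul_comm (Real.log (p : ℝ))]
              exact mul_le_mul_of_nonneg_left h5 (mp_wd0 lam Y p)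
          · rw [if_neg hpp]
            unfold thP
            rw [if_neg hpp]
            simp
      _ ≤ _ := by
          apply Finset.sum_le_sum_of_subset_of_nonneg
          · intro p hp
            rw [Finset.mem_filter, Finset.mem_Icc] at hp
            rw [Finset.mem_Icc]
            exact ⟨hp.1.1, hp.2⟩
          · intro p hp _
            apply div_nonneg _ hD.le
            apply mul_nonneg _ (mp_wd0 lam Y p)
            unfold thP
            split_ifs
            · exact Real.log_natCast_nonneg p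
            · exact le_rfl
  refine h2.trans ?_
  rw [← Finset.sum_div, div_le_div_iff₀ hD hLY]
  rw [abs_le] at h1
  have h6 : ∑ p ∈ Icc 1 ⌊3 * Y⌋₊, thP p * wd lam Y p ≤ (1 + δ / 4) * mu lam * Y := by
    have h7 : δ / 4 * (1 / lam) * Y ≤ δ / 4 * mu lam * Y := by
      apply mul_le_mul_of_nonneg_right _ hY0.le
      exact mul_le_mul_of_nonneg_left hmu1 (by positivity)
    linarith [h1.2]
  rw [div_le_iff₀ (by positivity)] at hY2
  have h8 : (1 + δ / 4) * Real.log Y ≤ (1 + δ) * (Real.log Y - Real.log 3) := by nlinarith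
  calc (∑ p ∈ Icc 1 ⌊3 * Y⌋₊, thP p * wd lam Y p) * Real.log Y
      ≤ (1 + δ / 4) * mu lam * Y * Real.log Y := mul_le_mul_of_nonneg_right h6 hLY.le
    _ = (mu lam * Y) * ((1 + δ / 4) * Real.log Y) := by ring
    _ ≤ (mu lam * Y) * ((1 + δ) * (Real.log Y - Real.log 3)) :=
        mul_le_mul_of_nonneg_left h8 (by positivity)
    _ = (1 + δ) * mu lam * Y * (Real.log Y - Real.log 3) := by ring

end Pool.Agent.CM.M
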