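import Pool.Agent.Lib.MP_0da313_nt.CM.M

set_option autoImplicit false

/-!
Project CM, section M, piece mu: bounds for `mu lam = 2 lam (cosh (1/lam) - 1)`.
-/

namespace Pool.Agent.CM.M

open Finset Filter

private lemma mu_lower (x : ℝ) (hx : 0 ≤ x) : x ^ 2 / 2 ≤ Real.cosh x - 1 := by
  have h1 : Real.cosh x = 1 + 2 * Real.sinh (x / 2) ^ 2 := by
    have h := Real.cosh_two_mul (x / 2)
    have h2 := Real.cosh_sq (x / 2)
    rw [show 2 * (x / 2) = x by ring] at h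
    rw [h, h2]
    ring
  have h2 : x / 2 ≤ Real.sinh (x / 2) := Real.self_le_sinh_iff.2 (by positivity)
  have h3 : (x / 2) ^ 2 ≤ Real.sinh (x / 2) ^ 2 := pow_le_pow_left₀ (by positivity) h2 2
  rw [h1]
  nlinarith

private lemma mu_upper (x : ℝ) (hx0 : 0 ≤ x) (hx1 : x ≤ 1) :
    Real.cosh x - 1 ≤ x ^ 2 / 2 * (1 + x ^ 2) := by
  have h1 := Real.cosh_le_exp_half_sq x
  have ht0 : 0 ≤ x ^ 2 / 2 := by positivity
  have ht1 : x ^ 2 / 2 ≤ 1 / 2 := by nlinarith
  set t : ℝ := x ^ 2 / 2 with ht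
  have h2 : Real.exp t ≤ 1 / (1 - t) := by
    have h3 := Real.add_one_le_exp (-t)
    rw [Real.exp_neg] at h3
    have h4 : 0 < Real.exp t := Real.exp_pos t
    rw [le_div_iff₀ (by linarith)]
    have h5 : (-t + 1) * Real.exp t ≤ (Real.exp t)⁻¹ * Real.exp t :=
      mul_le_mul_of_nonneg_right h3 h4.le
    rw [inv_mul_cancel₀ h4.ne'] at h5
    linarith
  have h3 : 1 / (1 - t) ≤ 1 + t * (1 + 2 * t) := by
    rw [div_le_iff₀ (by linarith)]
    nlinarith [mul_nonneg ht0 (show 0 ≤ 1 - 2 * t by linarith), mul_nonneg (mul_nonneg ht0 ht0)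
      (show 0 ≤ 1 - 2 * t by linarith)]
  have h4 : x ^ 2 = 2 * t := by rw [ht]; ring
  rw [h4]
  linarith

theorem p_mu : S_mu := by
  intro lam hlam
  have hl0 : 0 < lam := by linarith
  unfold mu
  obtain ⟨x, hx⟩ : ∃ x : ℝ, x = 1 / lam := ⟨_, rfl⟩
  have hx0 : 0 < x := by rw [hx]; positivity
  have hx1 : x ≤ 1 := by
    rw [hx, div_le_one hl0]
    exact hlam
  have h1 := mu_lower x hx0.le
  have h2 := mu_upper x hx0.le hx1
  have e1 : 1 / lam ^ 2 = x ^ 2 := by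
    rw [hx]
    field_simp
  have e2 : lam * x = 1 := by
    rw [hx]
    field_simp
  rw [e1, ← hx]
  constructor
  · calc x = 2 * lam * (x ^ 2 / 2) := by
          rw [show 2 * lam * (x ^ 2 / 2) = (lam * x) * x by ring, e2, one_mul]
      _ ≤ _ := mul_le_mul_of_nonneg_left h1 (by positivity)
  · calc 2 * lam * (Real.cosh x - 1) ≤ 2 * lam * (x ^ 2 / 2 * (1 + x ^ 2)) :=
          mul_le_mul_of_nonneg_left h2 (by positivity)
      _ = (lam * x) * x * (1 + x ^ 2) := by ring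
      _ = x * (1 + x ^ 2) := by rw [e2, one_mul]

end Pool.Agent.CM.M
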