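import Pool.Agent.Lib.MP_0da313_nt.CM.B

set_option autoImplicit false

/-! Project CM, piece okP: trivial bounds for the two classes of sequences. -/

namespace Pool.Agent.CM.B

open Finset Filter
open Pool.Agent.MP89da58 (tri)
open Pool.Agent.CH (thP)

private theorem cm_okP_win {lam X : ℝ} {n : ℕ} (hlam : 1 ≤ lam) (hX : 0 < X) (hn : 1 ≤ n)
    (h : wd lam X n ≠ 0) : X / 3 < n := by
  have hn0 : (0 : ℝ) < n := by exact_mod_cast hn
  have h1 : |lam * Real.log (n / X)| < 1 := by
    by_contra hc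
    apply h
    unfold wd tri
    exact max_eq_left (by linarith [not_lt.mp hc])
  have h2 : -1 < lam * Real.log (n / X) := (abs_lt.mp h1).1
  have h3 : -1 < Real.log (n / X) := by
    by_contra hc
    have hc' : Real.log (n / X) ≤ -1 := not_lt.mp hc
    nlinarith
  have h4 : Real.exp (-1) < n / X := (Real.lt_log_iff_exp_lt (div_pos hn0 hX)).mp h3
  have h5 : (1 : ℝ) / 3 < Real.exp (-1) := by
    rw [Real.exp_neg, ← one_div]
    apply one_div_lt_one_div_of_lt (Real.exp_pos 1)
    linarith [Real.exp_one_lt_d9]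
  have h6 : (1 : ℝ) / 3 < n / X := lt_trans h5 h4
  rw [lt_div_iff₀ hX] at h6
  linarith

private theorem cm_okP_pow1 {X : ℝ} (hX : 243 ≤ X) : 3 * X ^ (1 / 20 : ℝ) ≤ X ^ (1 / 4 : ℝ) := by
  have hX0 : 0 < X := by linarith
  have h1 : X ^ (1 / 4 : ℝ) = X ^ (1 / 5 : ℝ) * X ^ (1 / 20 : ℝ) := by
    rw [← Real.rpow_add hX0]; norm_num
  have h2 : (3 : ℝ) ≤ X ^ (1 / 5 : ℝ) := by
    have h3 : ((243 : ℝ)) ^ (1 / 5 : ℝ) ≤ X ^ (1 / 5 : ℝ) :=
      Real.rpow_le_rpow (by norm_num) hX (by norm_num)
    have h4 : ((243 : ℝ)) ^ (1 / 5 : ℝ) = 3 := by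
      have : (243 : ℝ) = (3 : ℝ) ^ (5 : ℝ) := by norm_num
      rw [this, ← Real.rpow_mul (by norm_num)]
      norm_num
    linarith
  rw [h1]
  exact mul_le_mul_of_nonneg_right h2 (Real.rpow_nonneg hX0.le _)

private theorem cm_okP_pow2 {X : ℝ} (hX : 243 ≤ X) : X ^ (1 / 20 : ℝ) ≤ X / 3 := by
  have h1 := cm_okP_pow1 hX
  have h2 : X ^ (1 / 4 : ℝ) ≤ X := by
    calc X ^ (1 / 4 : ℝ) ≤ X ^ (1 : ℝ) :=
          Real.rpow_le_rpow_of_exponent_le (by linarith) (by norm_num)
      _ = X := Real.rpow_one X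
  linarith

private theorem cm_okP_log {X : ℝ} (hX : 243 ≤ X) {n : ℕ} (hn : n ∈ Icc 1 ⌊3 * X⌋₊) :
    Real.log n ≤ Real.log 3 + Real.log X := by
  have hX0 : 0 < X := by linarith
  rw [mem_Icc] at hn
  have hn0 : (0 : ℝ) < n := by exact_mod_cast hn.1
  have h1 : (n : ℝ) ≤ 3 * X := by
    calc (n : ℝ) ≤ (⌊3 * X⌋₊ : ℝ) := by exact_mod_cast hn.2
      _ ≤ 3 * X := Nat.floor_le (by linarith)
  rw [← Real.log_mul (by norm_num) hX0.ne']
  exact Real.log_le_log hn0 h1

private theorem cm_okP_logX {X : ℝ} (hX : 243 ≤ X) : 5 * Real.log 3 ≤ Real.log X := by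
  have h1 : Real.log 243 ≤ Real.log X := Real.log_le_log (by norm_num) hX
  have h2 : Real.log 243 = 5 * Real.log 3 := by
    rw [show (243 : ℝ) = 3 ^ 5 by norm_num, Real.log_pow]; norm_num
  linarith

private theorem cm_okP_card {α : ℕ → ℝ} (h0 : ∀ k, 0 ≤ α k) (h1 : ∀ k, α k ≤ 1) {n : ℕ}
    (hn : 1 ≤ n) : cv α n * Real.log 2 ≤ Real.log n := by
  have hA : cv α n ≤ (n.primeFactors.card : ℝ) := by
    unfold cv
    have e1 : ∑ k ∈ n.divisors, α k * (if (n / k).Prime then (1 : ℝ) else 0)
        ≤ ∑ k ∈ n.divisors, (if (n / k).Prime then (1 : ℝ) else 0) := by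
      apply sum_le_sum
      intro k _
      split_ifs
      · linarith [h1 k]
      · simp
    have e2 : ∑ k ∈ n.divisors, (if (n / k).Prime then (1 : ℝ) else 0)
        = ((n.divisors.filter (fun k => (n / k).Prime)).card : ℝ) := by
      rw [← Finset.sum_filter]; simp
    have e3 : (n.divisors.filter (fun k => (n / k).Prime)).card ≤ n.primeFactors.card := by
      apply Finset.card_le_card_of_injOn (fun k => n / k)
      · intro k hk
        rw [Finset.mem_coe, mem_filter, Nat.mem_divisors] at hk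
        rw [Finset.mem_coe, Nat.mem_primeFactors]
        exact ⟨hk.2, Nat.div_dvd_of_dvd hk.1.1, hk.1.2⟩
      · intro k hk k' hk' he
        rw [Finset.mem_coe, mem_filter, Nat.mem_divisors] at hk hk'
        have he' : n / k = n / k' := he
        have q1 : n / (n / k) = k := Nat.div_div_self hk.1.1 hk.1.2
        have q2 : n / (n / k') = k' := Nat.div_div_self hk'.1.1 hk'.1.2
        rw [← q1, ← q2, he']
    have e4 : ((n.divisors.filter (fun k => (n / k).Prime)).card : ℝ) ≤ n.primeFactors.card := by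
      exact_mod_cast e3
    linarith
  have hB : 2 ^ n.primeFactors.card ≤ n := by
    have e1 : 2 ^ n.primeFactors.card ≤ ∏ p ∈ n.primeFactors, p :=
      Finset.pow_card_le_prod _ _ _ (fun p hp => (Nat.prime_of_mem_primeFactors hp).two_le)
    exact e1.trans (Nat.le_of_dvd hn (Nat.prod_primeFactors_dvd n))
  have hC : (n.primeFactors.card : ℝ) * Real.log 2 ≤ Real.log n := by
    rw [← Real.log_pow]
    apply Real.log_le_log (by positivity)
    exact_mod_cast hB
  have hl : 0 ≤ Real.log 2 := Real.log_nonneg (by norm_num)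
  nlinarith

/-- [CM okP] Trivial bounds for the two classes. -/
theorem p_okP : S_ok := by
  intro lam hlam
  constructor
  · filter_upwards [eventually_ge_atTop (243 : ℝ)] with X hX f hf
    have hX0 : 0 < X := by linarith
    have hf' : f = thP := hf
    subst hf'
    have hlX := cm_okP_logX hX
    have hl3 : 0 ≤ Real.log 3 := Real.log_nonneg (by norm_num)
    refine ⟨?_, ?_, ?_⟩
    · intro n
      unfold thP
      split_ifs with h
      · exact Real.log_nonneg (by exact_mod_cast h.one_lt.le)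
      · exact le_rfl
    · intro n hn
      have h1 := cm_okP_log hX hn
      unfold thP
      split_ifs with h
      · linarith
      · linarith
    · intro n hn hfn hw p hp hpn
      rw [mem_Icc] at hn
      have hpr : n.Prime := by
        by_contra hc
        apply hfn
        unfold thP
        rw [if_neg hc]
      have he : p = n := (Nat.prime_dvd_prime_iff_eq hp hpr).mp hpn
      rw [he]
      exact (cm_okP_pow2 hX).trans (cm_okP_win hlam hX0 hn.1 hw).le
  · filter_upwards [eventually_ge_atTop (243 : ℝ)] with X hX f hf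
    have hX0 : 0 < X := by linarith
    obtain ⟨α, hα, hf'⟩ := hf
    subst hf'
    have hlX := cm_okP_logX hX
    have hl3 : 0 ≤ Real.log 3 := Real.log_nonneg (by norm_num)
    refine ⟨?_, ?_, ?_⟩
    · intro n
      unfold cv
      apply sum_nonneg
      intro k _
      apply mul_nonneg (hα.nn k)
      split_ifs <;> norm_num
    · intro n hn
      have h1 := cm_okP_log hX hn
      have hn' := hn
      rw [mem_Icc] at hn'
      have h2 := cm_okP_card hα.nn hα.le hn'.1
      have h3 : (0.69 : ℝ) < Real.log 2 := by linarith [Real.log_two_gt_d9]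
      have h4 : 0 ≤ cv α n := by
        unfold cv
        apply sum_nonneg
        intro k _
        apply mul_nonneg (hα.nn k)
        split_ifs <;> norm_num
      nlinarith
    · intro n hn hfn hw p hp hpn
      rw [mem_Icc] at hn
      have hn0 : n ≠ 0 := by omega
      have hwin := cm_okP_win hlam hX0 hn.1 hw
      have hex : ∃ k ∈ n.divisors, α k * (if (n / k).Prime then (1 : ℝ) else 0) ≠ 0 := by
        by_contra hc
        push Not at hc
        exact hfn (Finset.sum_eq_zero hc)
      obtain ⟨k, hk, hne⟩ := hex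
      rw [Nat.mem_divisors] at hk
      have hak : α k ≠ 0 := fun h => hne (by rw [h, zero_mul])
      have hqp : (n / k).Prime := by
        by_contra hc
        exact hne (by rw [if_neg hc, mul_zero])
      have hkn : k * (n / k) = n := Nat.mul_div_cancel' hk.1
      have hk0 : 0 < k := Nat.pos_of_dvd_of_pos hk.1 (by omega)
      have hp2 : p ∣ k * (n / k) := by rw [hkn]; exact hpn
      rcases (Nat.Prime.dvd_mul hp).mp hp2 with h | h
      · exact hα.rg k hak p hp h
      · have he : p = n / k := (Nat.prime_dvd_prime_iff_eq hp hqp).mp h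
        have hhi := hα.hi k hak
        have hcast : (k : ℝ) * (p : ℝ) = n := by
          rw [he]; exact_mod_cast hkn
        have hk0' : (0 : ℝ) < k := by exact_mod_cast hk0
        have h5 : X = X ^ (3 / 4 : ℝ) * X ^ (1 / 4 : ℝ) := by
          rw [← Real.rpow_add hX0]; norm_num
        have h6 := cm_okP_pow1 hX
        have h7 : 0 < X ^ (3 / 4 : ℝ) := Real.rpow_pos_of_pos hX0 _
        have hp0 : (0 : ℝ) ≤ p := Nat.cast_nonneg p
        have h8 : X ^ (3 / 4 : ℝ) * (3 * X ^ (1 / 20 : ℝ)) ≤ X := by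
          calc X ^ (3 / 4 : ℝ) * (3 * X ^ (1 / 20 : ℝ)) ≤ X ^ (3 / 4 : ℝ) * X ^ (1 / 4 : ℝ) :=
                mul_le_mul_of_nonneg_left h6 h7.le
            _ = X := h5.symm
        have h9 : (n : ℝ) ≤ X ^ (3 / 4 : ℝ) * p := by
          rw [← hcast]
          exact mul_le_mul_of_nonneg_right hhi hp0
        have h10 : X ^ (3 / 4 : ℝ) * X ^ (1 / 20 : ℝ) ≤ X ^ (3 / 4 : ℝ) * p := by linarith
        exact le_of_mul_le_mul_left h10 h7

end Pool.Agent.CM.B
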