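import Pool.Agent.Lib.MP_0da313_nt.CM.B

set_option autoImplicit false

/-!
Project CM, `p_one`: one modulus.
-/

namespace Pool.Agent.CM.B

open Finset Filter
open Pool.Agent.MP89da58 (tri primChars)

/-- The full character sum. -/
noncomputable def fS (f : ℕ → ℝ) (lam X : ℝ) {r : ℕ} (χ : DirichletCharacter ℂ r) : ℂ :=
  ∑ n ∈ Icc 1 ⌊3 * X⌋₊, (f n : ℂ) * χ (n : ZMod r) * (wd lam X n : ℂ)

theorem fS_eq_Tw (f : ℕ → ℝ) (lam X : ℝ) {Q : ℕ} [NeZero Q] (χ : DirichletCharacter ℂ Q) :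
    fS f lam X χ = Tw f lam X (Q / χ.conductor) χ.primitiveCharacter := by
  classical
  unfold fS Tw
  rw [Finset.sum_filter]
  refine Finset.sum_congr rfl fun n _ => ?_
  have hQ : χ.conductor * (Q / χ.conductor) = Q := Nat.mul_div_cancel' χ.conductor_dvd_level
  by_cases hn : n.Coprime Q
  · have h1 : n.Coprime (Q / χ.conductor) := Nat.Coprime.coprime_dvd_right
      (Nat.div_dvd_of_dvd χ.conductor_dvd_level) hn
    rw [if_pos h1]
    have := χ.primitiveCharacter_apply_of_isCoprime (a := (n : ℤ)) (by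
      rw [Nat.isCoprime_iff_coprime]; exact hn)
    push_cast at this
    rw [this]
  · have h3 : χ (n : ZMod Q) = 0 := by
      apply MulChar.map_nonunit
      rw [ZMod.isUnit_iff_coprime]
      exact hn
    rw [h3, mul_zero, zero_mul]
    split_ifs with h1
    · have h4 : ¬ n.Coprime χ.conductor := by
        intro h5
        apply hn
        rw [← hQ]
        exact Nat.Coprime.mul_right h5 h1
      have h5 : χ.primitiveCharacter (n : ZMod χ.conductor) = 0 := by
        apply MulChar.map_nonunit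
        rw [ZMod.isUnit_iff_coprime]
        exact h4
      rw [h5, mul_zero, zero_mul]
    · rfl

/-- orthogonality -/
theorem totient_mul_sA (f : ℕ → ℝ) (lam X : ℝ) {q : ℕ} [NeZero q] (a : ℕ) (ha : a.Coprime q) :
    ((Nat.totient q : ℂ)) * (sA (fun n => f n * wd lam X n) ⌊3 * X⌋₊ q a : ℂ) =
      ∑ χ : DirichletCharacter ℂ q, χ ((a : ZMod q)⁻¹) * fS f lam X χ := by
  classical
  have hu : IsUnit (a : ZMod q) := (ZMod.isUnit_iff_coprime a q).2 ha
  unfold fS sA
  simp only [Finset.mul_sum]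
  rw [Finset.sum_comm]
  push_cast
  rw [Finset.sum_filter, Finset.mul_sum]
  refine Finset.sum_congr rfl fun n _ => ?_
  have h1 := DirichletCharacter.sum_char_inv_mul_char_eq ℂ hu (n : ZMod q)
  have h2 : ∑ χ : DirichletCharacter ℂ q, χ ((a : ZMod q)⁻¹) *
      ((f n : ℂ) * χ (n : ZMod q) * (wd lam X n : ℂ)) =
      (∑ χ : DirichletCharacter ℂ q, χ ((a : ZMod q)⁻¹) * χ (n : ZMod q)) *
        ((f n : ℂ) * (wd lam X n : ℂ)) := by
    rw [Finset.sum_mul]
    refine Finset.sum_congr rfl fun χ _ => ?_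
    ring
  rw [h2, h1]
  have h3 : ((a : ZMod q) = (n : ZMod q)) ↔ n ≡ a [MOD q] := by
    rw [ZMod.natCast_eq_natCast_iff]
    exact ⟨fun h => h.symm, fun h => h.symm⟩
  by_cases h4 : n ≡ a [MOD q]
  · rw [if_pos h4, if_pos (h3.2 h4)]
  · rw [if_neg h4, if_neg (fun h => h4 (h3.1 h))]
    ring

theorem pS_nonneg (f : ℕ → ℝ) (lam X : ℝ) (s r : ℕ) : 0 ≤ pS f lam X s r := by
  unfold pS
  refine Finset.sum_nonneg fun χ _ => ?_
  exact Set.indicator_nonneg (fun _ _ => norm_nonneg _) _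

/-- grouping by conductors -/
theorem sum_pS_le (f : ℕ → ℝ) (lam X : ℝ) (q : ℕ) [NeZero q] :
    ∑ χ ∈ (Finset.univ : Finset (DirichletCharacter ℂ q)).erase 1, ‖fS f lam X χ‖ ≤
      ∑ r ∈ q.divisors.filter (fun r => 2 ≤ r), pS f lam X (q / r) r := by
  classical
  let G : ((r : ℕ) × DirichletCharacter ℂ r) → ℝ := fun x =>
    Set.indicator {χ | χ.IsPrimitive} (fun χ => ‖Tw f lam X (q / x.1) χ‖) x.2
  let σ : DirichletCharacter ℂ q → ((r : ℕ) × DirichletCharacter ℂ r) := fun χ =>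
    ⟨χ.conductor, χ.primitiveCharacter⟩
  have hG : ∀ χ, ‖fS f lam X χ‖ = G (σ χ) := by
    intro χ
    simp only [G, σ]
    rw [Set.indicator_of_mem, fS_eq_Tw]
    exact χ.primitiveCharacter_isPrimitive
  have hG0 : ∀ x, 0 ≤ G x := fun x => Set.indicator_nonneg (fun _ _ => norm_nonneg _) _
  have hσ : Function.Injective σ := by
    intro χ ψ h
    have key : ∀ (x : (r : ℕ) × DirichletCharacter ℂ r) (y : (r : ℕ) × DirichletCharacter ℂ r)
        (hx : x.1 ∣ q) (hy : y.1 ∣ q), x = y →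
        DirichletCharacter.changeLevel hx x.2 = DirichletCharacter.changeLevel hy y.2 := by
      rintro x y hx hy rfl
      rfl
    have := key (σ χ) (σ ψ) χ.conductor_dvd_level ψ.conductor_dvd_level h
    rwa [DirichletCharacter.changeLevel_primitiveCharacter,
      DirichletCharacter.changeLevel_primitiveCharacter] at this
  have h1 : ∑ r ∈ q.divisors.filter (fun r => 2 ≤ r), pS f lam X (q / r) r =
      ∑ x ∈ (q.divisors.filter (fun r => 2 ≤ r)).sigma
        (fun r => (Finset.univ : Finset (DirichletCharacter ℂ r))), G x := by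
    rw [Finset.sum_sigma]
    rfl
  rw [h1]
  have h2 : ∑ χ ∈ (Finset.univ : Finset (DirichletCharacter ℂ q)).erase 1, ‖fS f lam X χ‖ =
      ∑ x ∈ ((Finset.univ : Finset (DirichletCharacter ℂ q)).erase 1).image σ, G x := by
    rw [Finset.sum_image (fun a _ b _ h => hσ h)]
    exact Finset.sum_congr rfl fun χ _ => hG χ
  rw [h2]
  refine Finset.sum_le_sum_of_subset_of_nonneg ?_ (fun x _ _ => hG0 x)
  intro x hx
  obtain ⟨χ, hχ, rfl⟩ := Finset.mem_image.1 hx
  have hne : χ ≠ 1 := (Finset.mem_erase.1 hχ).1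
  have hc1 : χ.conductor ≠ 1 := fun h =>
    hne (DirichletCharacter.eq_one_iff_conductor_eq_one.2 h)
  have hc0 : 0 < χ.conductor :=
    Nat.pos_of_dvd_of_pos χ.conductor_dvd_level (Nat.pos_of_ne_zero (NeZero.ne q))
  refine Finset.mem_sigma.2 ⟨Finset.mem_filter.2 ⟨?_, ?_⟩, Finset.mem_univ _⟩
  · exact Nat.mem_divisors.2 ⟨χ.conductor_dvd_level, NeZero.ne q⟩
  · show 2 ≤ χ.conductor
    omega

theorem p_one : S_one := by
  classical
  intro f lam X Q a hQ ha
  have : NeZero Q := ⟨by omega⟩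
  have hφ : (0 : ℝ) < Nat.totient Q := by
    exact_mod_cast Nat.totient_pos.2 (by omega : 0 < Q)
  set h : ℕ → ℝ := fun n => f n * wd lam X n with hh
  set N := ⌊3 * X⌋₊ with hN
  have h1 := totient_mul_sA f lam X a ha
  -- the principal character
  have hone : ‖fS f lam X (1 : DirichletCharacter ℂ Q) - (sT h N : ℂ)‖ ≤
      ∑ n ∈ (Icc 1 N).filter (fun n => ¬ n.Coprime Q), |h n| := by
    have h2 : fS f lam X (1 : DirichletCharacter ℂ Q) - (sT h N : ℂ) =
        ∑ n ∈ (Icc 1 N).filter (fun n => ¬ n.Coprime Q), -(h n : ℂ) := by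
      unfold fS sT
      rw [Finset.sum_filter]
      push_cast
      rw [← Finset.sum_sub_distrib]
      refine Finset.sum_congr rfl fun n _ => ?_
      by_cases hn : n.Coprime Q
      · rw [if_neg (by simpa using hn),
          MulChar.one_apply ((ZMod.isUnit_iff_coprime n Q).2 hn)]
        simp only [hh]
        push_cast
        ring
      · have h3 : (1 : DirichletCharacter ℂ Q) (n : ZMod Q) = 0 := by
          apply MulChar.map_nonunit
          rw [ZMod.isUnit_iff_coprime]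
          exact hn
        rw [if_pos hn, h3]
        ring
    rw [h2]
    refine (norm_sum_le _ _).trans (le_of_eq ?_)
    refine Finset.sum_congr rfl fun n _ => ?_
    rw [norm_neg, Complex.norm_real, Real.norm_eq_abs]
  have hoth : ∀ χ ∈ (Finset.univ : Finset (DirichletCharacter ℂ Q)).erase 1,
      ‖χ ((a : ZMod Q)⁻¹) * fS f lam X χ‖ ≤ ‖fS f lam X χ‖ := by
    intro χ _
    rw [norm_mul]
    have h4 : ‖χ ((a : ZMod Q)⁻¹)‖ ≤ 1 := DirichletCharacter.norm_le_one χ _
    calc ‖χ ((a : ZMod Q)⁻¹)‖ * ‖fS f lam X χ‖ ≤ 1 * ‖fS f lam X χ‖ :=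
          mul_le_mul_of_nonneg_right h4 (norm_nonneg _)
      _ = _ := one_mul _
  have hsplit : ∑ χ : DirichletCharacter ℂ Q, χ ((a : ZMod Q)⁻¹) * fS f lam X χ =
      fS f lam X (1 : DirichletCharacter ℂ Q) +
        ∑ χ ∈ (Finset.univ : Finset (DirichletCharacter ℂ Q)).erase 1,
          χ ((a : ZMod Q)⁻¹) * fS f lam X χ := by
    rw [← Finset.add_sum_erase _ _ (Finset.mem_univ (1 : DirichletCharacter ℂ Q))]
    congr 1
    have : (1 : DirichletCharacter ℂ Q) ((a : ZMod Q)⁻¹) = 1 := by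
      apply MulChar.one_apply
      have hu : IsUnit (a : ZMod Q) := (ZMod.isUnit_iff_coprime a Q).2 ha
      rw [← hu.unit_spec, ZMod.inv_coe_unit]
      exact Units.isUnit _
    rw [this, one_mul]
  have hmain : (Nat.totient Q : ℝ) * er h N Q a ≤
      ∑ r ∈ Q.divisors.filter (fun r => 2 ≤ r), pS f lam X (Q / r) r +
      ∑ n ∈ (Icc 1 N).filter (fun n => ¬ n.Coprime Q), |h n| := by
    have h7 : (Nat.totient Q : ℝ) * er h N Q a =
        ‖(Nat.totient Q : ℂ) * (sA h N Q a : ℂ) - (sT h N : ℂ)‖ := by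
      unfold er
      rw [← abs_of_pos hφ, ← abs_mul, abs_of_pos hφ, mul_sub, mul_div_cancel₀ _ hφ.ne']
      rw [← Real.norm_eq_abs, ← Complex.norm_real]
      push_cast
      rfl
    rw [h7, h1, hsplit]
    have h8 : fS f lam X (1 : DirichletCharacter ℂ Q) +
        ∑ χ ∈ (Finset.univ : Finset (DirichletCharacter ℂ Q)).erase 1,
          χ ((a : ZMod Q)⁻¹) * fS f lam X χ - (sT h N : ℂ) =
        (fS f lam X (1 : DirichletCharacter ℂ Q) - (sT h N : ℂ)) +
        ∑ χ ∈ (Finset.univ : Finset (DirichletCharacter ℂ Q)).erase 1,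
          χ ((a : ZMod Q)⁻¹) * fS f lam X χ := by ring
    rw [h8]
    refine (norm_add_le _ _).trans ?_
    rw [add_comm]
    exact add_le_add (((norm_sum_le _ _).trans (Finset.sum_le_sum hoth)).trans
      (sum_pS_le f lam X Q)) hone
  have h9 : er h N Q a = (1 / (Nat.totient Q : ℝ)) * ((Nat.totient Q : ℝ) * er h N Q a) := by
    field_simp
  rw [h9]
  exact mul_le_mul_of_nonneg_left hmain (by positivity)

end Pool.Agent.CM.B
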