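import Pool.Agent.Lib.MP_0da313_nt.CM.G

set_option autoImplicit false
set_option linter.unusedSectionVars false

/-!
Project CM, piece one2: the sum for one support.
-/

namespace Pool.Agent.CM.G

open Finset
open Pool.Agent.MP89da58 (bil pw nn supp part join compat mem_supp)
open Pool.Agent.BVall (om rhoW)
open Pool.Agent.MT (PJf LocD dvI ZI sp sp_subset)
open Pool.Agent.CH.S (RepC)

variable {ι : Type} [Fintype ι] [DecidableEq ι]

/-- the combined local condition -/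
def Qd {P : Finset ℕ} (D : PJf P → ι → ℤ → Prop) (Q : ℕ → ℤ → Prop) (γ : PJf P → Option ι)
    (p : ℕ) (y : ℤ) : Prop :=
  (∃ h : p ∈ P, ∃ l, γ ⟨p, h⟩ = some l ∧ D ⟨p, h⟩ l y) ∨ (p ∉ sp γ ∧ Q p y)

variable {P : Finset ℕ} {D : PJf P → ι → ℤ → Prop} {Q : ℕ → ℤ → Prop} {γ : PJf P → Option ι}

lemma mem_sp {p : ℕ} : p ∈ sp γ ↔ ∃ h : p ∈ P, ∃ l, γ ⟨p, h⟩ = some l := by
  unfold sp
  rw [Finset.mem_map]
  constructor
  · rintro ⟨j, hj, rfl⟩
    obtain ⟨l, hl⟩ := Option.ne_none_iff_exists'.1 (mem_supp.1 hj)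
    exact ⟨j.2, l, hl⟩
  · rintro ⟨h, l, hl⟩
    exact ⟨⟨p, h⟩, mem_supp.2 (by rw [hl]; simp), rfl⟩

lemma Qd_not_mem {p : ℕ} (hp : p ∉ sp γ) (y : ℤ) : Qd D Q γ p y ↔ Q p y := by
  unfold Qd
  constructor
  · rintro (⟨h, l, h1, _⟩ | h)
    · exact absurd (mem_sp.2 ⟨h, l, h1⟩) hp
    · exact h.2
  · intro h
    exact Or.inr ⟨hp, h⟩

lemma Qd_mem (j : PJf P) {l : ι} (hl : γ j = some l) (y : ℤ) : Qd D Q γ (j : ℕ) y ↔ D j l y := by
  unfold Qd
  constructor
  · rintro (⟨h, l', h1, h2⟩ | h)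
    · have : γ j = some l' := h1
      rw [hl] at this
      cases this
      exact h2
    · exact absurd (mem_sp.2 ⟨j.2, l, hl⟩) h.1
  · intro h
    exact Or.inl ⟨j.2, l, hl, h⟩

open Classical in
lemma prod_Qd {T : Finset ℕ} (hT : Disjoint T (sp γ)) (y : ℤ) :
    ∏ p ∈ T ∪ sp γ, (if Qd D Q γ p y then (1 : ℝ) else 0) =
      (∏ p ∈ T, if Q p y then (1 : ℝ) else 0) * (if dvI D y γ then 1 else 0) := by
  rw [Finset.prod_union hT]
  congr 1
  · apply Finset.prod_congr rfl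
    intro p hp
    have h1 : p ∉ sp γ := fun h => (Finset.disjoint_left.1 hT) hp h
    simp only [Qd_not_mem h1]
  · unfold sp
    rw [Finset.prod_map, Finset.prod_ite_zero, Finset.prod_const_one]
    have key : (∀ j ∈ supp γ, Qd D Q γ ((Function.Embedding.subtype (· ∈ P)) j) y) ↔
        dvI D y γ := by
      constructor
      · intro h j l hl
        have h1 := h j (mem_supp.2 (by rw [hl]; simp))
        exact (Qd_mem j hl y).1 h1
      · intro h j hj
        obtain ⟨l, hl⟩ := Option.ne_none_iff_exists'.1 (mem_supp.1 hj)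
        exact (Qd_mem j hl y).2 (h j l hl)
    simp only [key]

lemma prod_sp' {T : Finset ℕ} (hT : Disjoint T (sp γ)) (f : ℕ → ℝ) :
    ∏ p ∈ T ∪ sp γ, f p = (∏ p ∈ T, f p) * ∏ j ∈ supp γ, f (j : ℕ) := by
  rw [Finset.prod_union hT]
  congr 1
  unfold sp
  rw [Finset.prod_map]
  rfl

lemma card_sp' {T : Finset ℕ} (hT : Disjoint T (sp γ)) :
    (T ∪ sp γ).card = T.card + (supp γ).card := by
  rw [Finset.card_union_of_disjoint hT]
  unfold sp
  rw [Finset.card_map]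

lemma prodn_sp' {T : Finset ℕ} (hT : Disjoint T (sp γ)) :
    ∏ p ∈ T ∪ sp γ, p = (∏ p ∈ T, p) * nn (fun j : PJf P => (j : ℕ)) (supp γ) := by
  rw [Finset.prod_union hT]
  congr 1
  unfold sp nn
  rw [Finset.prod_map]
  rfl

lemma Qd_per {I : ι → Prop} (hD : LocD P D I)
    (hQ : ∀ (p : ℕ) (x y : ℤ), (p : ℤ) ∣ x - y → (Q p x ↔ Q p y))
    (p : ℕ) (x y : ℤ) (h : (p : ℤ) ∣ x - y) : Qd D Q γ p x ↔ Qd D Q γ p y := by
  by_cases hp : p ∈ sp γ
  · obtain ⟨h1, l, h2⟩ := mem_sp.1 hp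
    have e1 := Qd_mem (D := D) (Q := Q) ⟨p, h1⟩ h2 x
    have e2 := Qd_mem (D := D) (Q := Q) ⟨p, h1⟩ h2 y
    rw [show ((⟨p, h1⟩ : PJf P) : ℕ) = p from rfl] at e1 e2
    rw [e1, e2]
    exact hD.per ⟨p, h1⟩ l x y h
  · rw [Qd_not_mem hp, Qd_not_mem hp]
    exact hQ p x y h

open Classical in
/-- number of classes of the combined condition, at a prime of the support -/
lemma om_Qd_mem {I : ι → Prop} (hD : LocD P D I) (j : PJf P) {l : ι} (hl : γ j = some l)
    (hI : I l) : om (Qd D Q γ) (j : ℕ) = 1 := by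
  obtain ⟨r, hr, h⟩ := hD.one j l hI
  unfold om
  rw [Finset.card_eq_one]
  refine ⟨r, ?_⟩
  ext s
  rw [Finset.mem_filter, Finset.mem_range, Finset.mem_singleton, Qd_mem j hl]
  constructor
  · rintro ⟨h1, h2⟩
    exact (h s h1).1 h2
  · rintro rfl
    exact ⟨hr, (h _ hr).2 rfl⟩

open Classical in
lemma om_Qd_not_mem {p : ℕ} (hp : p ∉ sp γ) : om (Qd D Q γ) p = om Q p := by
  unfold om
  congr 1
  apply Finset.filter_congr
  intro ρ _
  exact Qd_not_mem hp _

open Classical in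
theorem p_one2 : S_one := by
  intro hcls ι _ _ P P1 D Q Al u v K0 z h Y0 F hF a N E hE γ hγ
  obtain ⟨c, hc1, hc2, hc3⟩ := hF
  set S := (Icc 1 N).filter (fun n : ℕ => u ∣ (n : ℤ) - v) with hS
  set x' : PJf P → ℝ := fun j => 1 / (((j : ℕ) : ℝ) - 1) with hx'
  have hPp : ∀ p ∈ P, p.Prime := fun p hp => (h.hP p hp).1
  have hE0 : ∀ q, 0 < q → 0 ≤ E q := fun q hq =>
    (abs_nonneg _).trans (hE q 1 hq (Nat.coprime_one_left _))
  have hnn : 0 < nn (fun j : PJf P => (j : ℕ)) (supp γ) := by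
    unfold nn
    exact Finset.prod_pos fun j _ => (hPp j.1 j.2).pos
  -- expansion of both sides
  have e1 : ∑ n ∈ S, (if dvI D (((n : ℤ) - v) / u) γ then
        a n * F (fun p => if Q p (((n : ℤ) - v) / u) then (1 : ℝ) else 0) else 0) =
      ∑ T ∈ P1.powerset, c T * ∑ n ∈ S, (if dvI D (((n : ℤ) - v) / u) γ then
        a n * ∏ p ∈ T, (if Q p (((n : ℤ) - v) / u) then (1 : ℝ) else 0) else 0) := by
    simp only [Finset.mul_sum]
    rw [Finset.sum_comm]
    apply Finset.sum_congr rfl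
    intro n _
    rw [hc1]
    split_ifs
    · rw [Finset.mul_sum]
      apply Finset.sum_congr rfl
      intro T _
      ring
    · simp
  have e2 : sT a N / (Nat.totient u.natAbs : ℝ) * pw x' (supp γ) *
      F (fun p => if p ∈ sp γ then 0 else rhoW u.natAbs Q p) =
      ∑ T ∈ P1.powerset, c T * (sT a N / (Nat.totient u.natAbs : ℝ) * pw x' (supp γ) *
        ∏ p ∈ T, (if p ∈ sp γ then 0 else rhoW u.natAbs Q p)) := by
    rw [hc1, Finset.mul_sum]
    apply Finset.sum_congr rfl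
    intro T _
    ring
  rw [e1, e2, ← Finset.sum_sub_distrib]
  refine (Finset.abs_sum_le_sum_abs _ _).trans ?_
  rw [Finset.sum_filter]
  refine Finset.sum_le_sum fun T hT => ?_
  have hTP := Finset.mem_powerset.1 hT
  have hTp : ∀ p ∈ T, p.Prime := fun p hp => h.hP1 p (hTP hp)
  have hTpos : 0 < ∏ p ∈ T, p := Finset.prod_pos fun p hp => (hTp p hp).pos
  have hR0 : 0 ≤ 3 * ((K0 : ℝ) ^ (T.card + (supp γ).card) *
      E ((∏ p ∈ T, p) * nn (fun j : PJf P => (j : ℕ)) (supp γ))) :=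
    mul_nonneg (by norm_num) (mul_nonneg (by positivity) (hE0 _ (Nat.mul_pos hTpos hnn)))
  rw [← mul_sub, abs_mul]
  by_cases hcT : c T = 0
  · rw [hcT, abs_zero, zero_mul]
    split_ifs
    · exact hR0
    · exact le_rfl
  by_cases hd : Disjoint T (sp γ)
  · rw [if_pos ⟨hc3 T hT hcT, hd⟩]
    refine mul_le_mul (hc2 T) ?_ (abs_nonneg _) (by norm_num)
    have hTp2 : ∀ p ∈ T ∪ sp γ, p.Prime := by
      intro p hp
      rw [Finset.mem_union] at hp
      rcases hp with hp | hp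
      · exact hTp p hp
      · exact hPp p (sp_subset γ hp)
    have hQcu : ∀ (p : ℕ) (x : ℤ), Qd D Q γ p x → ¬ (p : ℤ) ∣ u * x + v := by
      rintro p x (⟨h2, l, h3, h4⟩ | h2)
      · exact h.hnd ⟨p, h2⟩ l x (hγ _ l h3) h4
      · exact h.hQu p x h2.2
    have e3 : ∀ j ∈ supp γ, om (Qd D Q γ) (j : ℕ) = 1 := by
      intro j hj
      obtain ⟨l, hl⟩ := Option.ne_none_iff_exists'.1 (mem_supp.1 hj)
      exact om_Qd_mem h.hD j hl (hγ j l hl)
    have e4 : ∀ p ∈ T, om (Qd D Q γ) p = om Q p := by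
      intro p hp
      exact om_Qd_not_mem (fun h => (Finset.disjoint_left.1 hd) hp h)
    have hK0 := h.hK
    have hKc : ∀ p ∈ T ∪ sp γ, om (Qd D Q γ) p ≤ K0 := by
      intro p hp
      rw [Finset.mem_union] at hp
      rcases hp with hp | hp
      · rw [e4 p hp]
        exact h.hom p (hTp p hp)
      · unfold sp at hp
        rw [Finset.mem_map] at hp
        obtain ⟨j, hj, rfl⟩ := hp
        have h5 := e3 j hj
        change om (Qd D Q γ) (j : ℕ) ≤ K0
        omega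
    have h2 := hcls u v h.hu h.huv (Qd D Q γ) (Qd_per h.hD h.hQ) hQcu (T ∪ sp γ) hTp2 K0 hKc a N
      (E ((∏ p ∈ T, p) * nn (fun j : PJf P => (j : ℕ)) (supp γ))) (by
        intro b hb
        rw [prodn_sp' hd] at hb ⊢
        exact hE _ b (Nat.mul_pos hTpos hnn) hb)
    simp only [prod_Qd hd] at h2
    rw [prod_sp' hd (rhoW u.natAbs (Qd D Q γ)), card_sp' hd] at h2
    have e5 : ∀ p ∈ T, rhoW u.natAbs (Qd D Q γ) p = rhoW u.natAbs Q p := by
      intro p hp
      unfold rhoW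
      rw [e4 p hp]
    have e6 : ∀ j ∈ supp γ, rhoW u.natAbs (Qd D Q γ) (j : ℕ) = 1 / (((j : ℕ) : ℝ) - 1) := by
      intro j hj
      unfold rhoW
      rw [e3 j hj, if_neg (h.hPu j.1 j.2), Nat.cast_sub (hPp j.1 j.2).one_le]
      norm_num
    rw [Finset.prod_congr rfl e5, Finset.prod_congr rfl e6] at h2
    have e7 : sT a N / (Nat.totient u.natAbs : ℝ) * pw x' (supp γ) *
        ∏ p ∈ T, (if p ∈ sp γ then 0 else rhoW u.natAbs Q p) =
        sT a N / (Nat.totient u.natAbs : ℝ) * ((∏ p ∈ T, rhoW u.natAbs Q p) *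
          ∏ j ∈ supp γ, (1 / (((j : ℕ) : ℝ) - 1))) := by
      have e9 : ∏ p ∈ T, (if p ∈ sp γ then 0 else rhoW u.natAbs Q p) =
          ∏ p ∈ T, rhoW u.natAbs Q p := by
        apply Finset.prod_congr rfl
        intro p hp
        rw [if_neg (fun h => (Finset.disjoint_left.1 hd) hp h)]
      rw [e9]
      unfold pw
      ring
    rw [e7]
    have e8 : ∀ n : ℕ, (if dvI D (((n : ℤ) - v) / u) γ then
        a n * ∏ p ∈ T, (if Q p (((n : ℤ) - v) / u) then (1 : ℝ) else 0) else 0) =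
        a n * ((∏ p ∈ T, (if Q p (((n : ℤ) - v) / u) then (1 : ℝ) else 0)) *
          (if dvI D (((n : ℤ) - v) / u) γ then (1 : ℝ) else 0)) := by
      intro n
      split_ifs <;> ring
    simp only [e8]
    exact h2
  · rw [if_neg (fun h' => hd h'.2)]
    obtain ⟨p, hp1, hp2⟩ := Finset.not_disjoint_iff.1 hd
    obtain ⟨hpP, l, hl⟩ := mem_sp.1 hp2
    have e9 : ∏ p ∈ T, (if p ∈ sp γ then 0 else rhoW u.natAbs Q p) = 0 :=
      Finset.prod_eq_zero hp1 (if_pos hp2)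
    have e10 : ∑ n ∈ S, (if dvI D (((n : ℤ) - v) / u) γ then
        a n * ∏ p ∈ T, (if Q p (((n : ℤ) - v) / u) then (1 : ℝ) else 0) else 0) = 0 := by
      apply Finset.sum_eq_zero
      intro n _
      split_ifs with h3
      · have h4 : D ⟨p, hpP⟩ l (((n : ℤ) - v) / u) := h3 _ l hl
        have h5 := h.hex ⟨p, hpP⟩ l _ (hγ _ l hl) h4
        rw [Finset.prod_eq_zero hp1 (if_neg h5), mul_zero]
      · rfl
    rw [e9, e10]
    simp

end Pool.Agent.CM.G
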