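import Pool.Agent.Lib.MP_0da313_nt.CM.W

set_option autoImplicit false

/-!
Project CM, section W: Euler products.
-/

namespace Pool.Agent.CM.W

open Finset Filter

lemma pr_tele (n : ℕ) (hn : 2 ≤ n) :
    ∑ m ∈ Ioc 2 n, 1 / ((m : ℝ) * ((m : ℝ) - 1)) = 1 / 2 - 1 / n := by
  induction n, hn using Nat.le_induction with
  | base => norm_num
  | succ k hk ih =>
    rw [Finset.sum_Ioc_succ_top hk, ih]
    have h1 : (2 : ℝ) ≤ k := by exact_mod_cast hk
    have h2 : (k : ℝ) ≠ 0 := by linarith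
    have h3 : (k : ℝ) + 1 ≠ 0 := by linarith
    push_cast
    rw [add_sub_cancel_right]
    field_simp
    ring

theorem p_pr : S_pr := by
  rintro ⟨C, hC⟩ k
  have hl2 : 0 < Real.log 2 := Real.log_pos (by norm_num)
  refine ⟨Real.exp (k * (2 + C / Real.log 2)) / Real.log 2 ^ k, by positivity, fun n hn => ?_⟩
  have hnr : (3 : ℝ) ≤ n := by exact_mod_cast hn
  have hln : 0 < Real.log n := Real.log_pos (by linarith)
  have h1 := abs_le.1 (hC 2 n le_rfl (by omega))
  rw [Nat.cast_ofNat] at h1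
  have hset : (Icc 1 n).filter Nat.Prime = insert 2 ((Ioc 2 n).filter Nat.Prime) := by
    ext p
    simp only [Finset.mem_filter, Finset.mem_Icc, Finset.mem_insert, Finset.mem_Ioc]
    constructor
    · rintro ⟨⟨h2, h3⟩, h4⟩
      by_cases h5 : p = 2
      · exact Or.inl h5
      · have := h4.two_le
        exact Or.inr ⟨⟨by omega, h3⟩, h4⟩
    · rintro (rfl | ⟨⟨h2, h3⟩, h4⟩)
      · exact ⟨⟨by norm_num, by omega⟩, Nat.prime_two⟩
      · exact ⟨⟨by omega, h3⟩, h4⟩
  have h2not : 2 ∉ (Ioc 2 n).filter Nat.Prime := by simp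
  have hsum : ∑ p ∈ (Icc 1 n).filter Nat.Prime, 1 / ((p : ℝ) - 1) ≤
      2 + C / Real.log 2 + Real.log (Real.log n / Real.log 2) := by
    rw [hset, Finset.sum_insert h2not]
    have h2 : ∑ p ∈ (Ioc 2 n).filter Nat.Prime, 1 / ((p : ℝ) - 1) =
        ∑ p ∈ (Ioc 2 n).filter Nat.Prime, (1 : ℝ) / p +
          ∑ p ∈ (Ioc 2 n).filter Nat.Prime, 1 / ((p : ℝ) * ((p : ℝ) - 1)) := by
      rw [← Finset.sum_add_distrib]
      apply Finset.sum_congr rfl
      intro p hp
      rw [Finset.mem_filter, Finset.mem_Ioc] at hp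
      have h3 : (2 : ℝ) < p := by exact_mod_cast hp.1.1
      have h4 : (p : ℝ) ≠ 0 := by linarith
      have h5 : (p : ℝ) - 1 ≠ 0 := by linarith
      field_simp
      ring
    have h3 : ∑ p ∈ (Ioc 2 n).filter Nat.Prime, 1 / ((p : ℝ) * ((p : ℝ) - 1)) ≤
        ∑ m ∈ Ioc 2 n, 1 / ((m : ℝ) * ((m : ℝ) - 1)) := by
      apply Finset.sum_le_sum_of_subset_of_nonneg (Finset.filter_subset _ _)
      intro m hm _
      rw [Finset.mem_Ioc] at hm
      have h3 : (2 : ℝ) < m := by exact_mod_cast hm.1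
      have h4 : (0 : ℝ) < m := by linarith
      have h5 : (0 : ℝ) < (m : ℝ) - 1 := by linarith
      positivity
    rw [pr_tele n (by omega)] at h3
    have h4 : 0 < 1 / (n : ℝ) := by positivity
    rw [h2]
    push_cast
    have h5 := h1.2
    have h6 : (1 : ℝ) / (2 - 1) = 1 := by norm_num
    rw [h6]
    linarith
  have hprod : ∏ p ∈ (Icc 1 n).filter Nat.Prime, (1 + (k : ℝ) / ((p : ℝ) - 1)) ≤
      Real.exp (k * ∑ p ∈ (Icc 1 n).filter Nat.Prime, 1 / ((p : ℝ) - 1)) := by
    rw [Finset.mul_sum, Real.exp_sum]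
    apply Finset.prod_le_prod
    · intro p hp
      rw [Finset.mem_filter] at hp
      have h3 : (2 : ℝ) ≤ p := by exact_mod_cast hp.2.two_le
      have h5 : (0 : ℝ) < (p : ℝ) - 1 := by linarith
      positivity
    · intro p _
      have h6 : (k : ℝ) * (1 / ((p : ℝ) - 1)) = (k : ℝ) / ((p : ℝ) - 1) := by ring
      rw [h6]
      have := Real.add_one_le_exp ((k : ℝ) / ((p : ℝ) - 1))
      linarith
  refine hprod.trans ?_
  calc Real.exp (k * ∑ p ∈ (Icc 1 n).filter Nat.Prime, 1 / ((p : ℝ) - 1)) ≤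
        Real.exp (k * (2 + C / Real.log 2) + k * Real.log (Real.log n / Real.log 2)) := by
        apply Real.exp_le_exp.2
        rw [← mul_add]
        exact mul_le_mul_of_nonneg_left hsum (Nat.cast_nonneg k)
    _ = Real.exp (k * (2 + C / Real.log 2)) * (Real.log n / Real.log 2) ^ k := by
        rw [Real.exp_add]
        congr 1
        rw [mul_comm, Real.exp_mul, Real.exp_log (by positivity), Real.rpow_natCast]
    _ = Real.exp (k * (2 + C / Real.log 2)) / Real.log 2 ^ k * Real.log n ^ k := by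
        rw [div_pow]
        ring

end Pool.Agent.CM.W
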