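import Pool.Agent.Lib.MP_0da313_nt.CM.S

set_option autoImplicit false

/-!
[CM pre] The presieve of dimension `K` with accuracy `1/1000`.
-/

namespace Pool.Agent.CM.S

open Finset
open Pool.Agent.Lib.MP_0da313_nt
open Pool.Agent.BVall

private abbrev pre_B (K : ℕ) : ℕ → Finset ℕ := fun i => blk (K + i)

private lemma pre_geom (n : ℕ) :
    ∑ i ∈ range n, (1 / 4 : ℝ) * (1 / 16) ^ (n + 3 - 1 - i) ≤ 1 / 10000 := by
  have e : ∑ i ∈ range n, (1 / 4 : ℝ) * (1 / 16) ^ (n + 3 - 1 - i)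
      = (1 / 16) ^ 3 * ∑ i ∈ range n, (1 / 4 : ℝ) * (1 / 16) ^ (n - 1 - i) := by
    rw [Finset.mul_sum]
    refine Finset.sum_congr rfl fun i hi => ?_
    rw [Finset.mem_range] at hi
    rw [show n + 3 - 1 - i = 3 + (n - 1 - i) by omega, pow_add]
    ring
  rw [e]
  have := geom_le n
  nlinarith

private lemma pre_W0 {K : ℕ} {ρ : ℕ → ℝ} (h : Dens K ρ) (m : ℕ) :
    0 ≤ W ρ (PP (small K) (pre_B K) m) :=
  W_nonneg fun p hp => (h.lt_one ((mem_PP_iff K m p).mp hp).1).le

private lemma pre_Wpos {K : ℕ} {ρ : ℕ → ℝ} (h : Dens K ρ) (i : ℕ) : 0 < W ρ (blk (K + i)) :=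
  lt_of_lt_of_le (by positivity) (h.W_blk i)

private lemma pre_upper {K : ℕ} {ρ : ℕ → ℝ} (h : Dens K ρ) (n : ℕ) :
    YY (small K) (pre_B K) (bb K (n + 3)) ρ n ≤
      (1 + 1 / 1000) * W ρ (PP (small K) (pre_B K) n) := by
  have key : ∀ m ≤ n, YY (small K) (pre_B K) (bb K (n + 3)) ρ m ≤
      W ρ (PP (small K) (pre_B K) m) *
        ∏ i ∈ range m, (1 + (1 / 4) * (1 / 16) ^ (n + 3 - 1 - i)) := by
    intro m
    induction m with
    | zero =>
      intro _
      simp only [Finset.range_zero, Finset.prod_empty, mul_one]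
      exact le_rfl
    | succ m ih =>
      intro hm
      have ih := ih (by omega)
      have hW : W ρ (PP (small K) (pre_B K) (m + 1)) =
          W ρ (PP (small K) (pre_B K) m) * W ρ (blk (K + m)) :=
        W_union (disj K m)
      have hWpos' : 0 < W ρ (blk (K + m)) := pre_Wpos h m
      have hb1 : ∀ p ∈ blk (K + m), ρ p ≤ 1 := fun p hp =>
        (h.lt_one (mem_blk.1 hp).2).le
      have u2 := U_le_W_add_E ρ (blk (K + m)) (fun p _ => h.nonneg p) hb1 (bb_even K (n + 3) m)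
      have u1 := W_le_U ρ (blk (K + m)) (fun p _ => h.nonneg p) hb1 (bb_even K (n + 3) m)
      have hr := h.ratio (n + 3) m
      rw [div_le_iff₀ hWpos'] at hr
      rw [Finset.prod_range_succ, hW]
      have hU : U ρ (blk (K + m)) (bb K (n + 3) m) ≤
          W ρ (blk (K + m)) * (1 + (1 / 4) * (1 / 16) ^ (n + 3 - 1 - m)) := by
        nlinarith
      have hP0 : 0 ≤ ∏ i ∈ range m, (1 + (1 / 4 : ℝ) * (1 / 16) ^ (n + 3 - 1 - i)) :=
        Finset.prod_nonneg fun i _ => by positivity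
      show YY (small K) (pre_B K) (bb K (n + 3)) ρ m * U ρ (blk (K + m)) (bb K (n + 3) m) ≤ _
      calc _ ≤ (W ρ (PP (small K) (pre_B K) m) *
            ∏ i ∈ range m, (1 + (1 / 4) * (1 / 16) ^ (n + 3 - 1 - i))) *
            (W ρ (blk (K + m)) * (1 + (1 / 4) * (1 / 16) ^ (n + 3 - 1 - m))) := by
            apply mul_le_mul ih hU (hWpos'.le.trans u1) (mul_nonneg (pre_W0 h m) hP0)
        _ = _ := by ring
  have h1 := key n le_rfl
  have h2 : ∏ i ∈ range n, (1 + (1 / 4 : ℝ) * (1 / 16) ^ (n + 3 - 1 - i)) ≤ 1 + 1 / 1000 := by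
    have h3 : ∏ i ∈ range n, (1 + (1 / 4 : ℝ) * (1 / 16) ^ (n + 3 - 1 - i)) ≤
        ∏ i ∈ range n, Real.exp ((1 / 4 : ℝ) * (1 / 16) ^ (n + 3 - 1 - i)) := by
      apply Finset.prod_le_prod
      · intro i _; positivity
      · intro i _
        have := Real.add_one_le_exp ((1 / 4 : ℝ) * (1 / 16) ^ (n + 3 - 1 - i))
        linarith
    rw [← Real.exp_sum] at h3
    have h4 := pre_geom n
    have h5 : Real.exp (∑ i ∈ range n, (1 / 4 : ℝ) * (1 / 16) ^ (n + 3 - 1 - i)) ≤
        Real.exp (1 / 10000) := Real.exp_le_exp.2 h4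
    have h6 : Real.exp (1 / 10000) ≤ 1 + 1 / 1000 := by
      have h7 := Real.add_one_le_exp (-(1 / 10000) : ℝ)
      have h8 : Real.exp (1 / 10000) * Real.exp (-(1 / 10000)) = 1 := by
        rw [← Real.exp_add]; norm_num
      have h9 := Real.exp_pos (1 / 10000)
      nlinarith
    linarith
  calc YY (small K) (pre_B K) (bb K (n + 3)) ρ n ≤ _ := h1
    _ ≤ W ρ (PP (small K) (pre_B K) n) * (1 + 1 / 1000) :=
        mul_le_mul_of_nonneg_left h2 (pre_W0 h n)
    _ = _ := by ring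

private lemma pre_lower {K : ℕ} {ρ : ℕ → ℝ} (h : Dens K ρ) (n : ℕ) :
    (1 - 1 / 1000) * W ρ (PP (small K) (pre_B K) n) ≤
      FF (small K) (pre_B K) (bb K (n + 3)) ρ n := by
  have h3 := FF_lower (bb_even K (n + 3)) n (fun i _ => disj K i) ρ
    (fun p _ => h.nonneg p)
    (fun p hp => h.lt_one ((mem_PP_iff K n p).mp hp).1)
  have h4 := (pointwise (bb_even K (n + 3)) n (fun i _ => disj K i) ρ
    (fun p _ => h.nonneg p)
    (fun p hp => (h.lt_one ((mem_PP_iff K n p).mp hp).1).le)).1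
  have h5 : ∑ i ∈ range n, E ρ (pre_B K i) (bb K (n + 3) i + 1) / W ρ (pre_B K i) ≤ 1 / 10000 :=
    (Finset.sum_le_sum fun i _ => h.ratio (n + 3) i).trans (pre_geom n)
  have h6 := pre_W0 h n
  refine le_trans ?_ h3
  have h7 : (1 - 1 / 1000) * W ρ (PP (small K) (pre_B K) n) ≤ W ρ (PP (small K) (pre_B K) n) *
      (1 - ∑ i ∈ range n, E ρ (pre_B K i) (bb K (n + 3) i + 1) / W ρ (pre_B K i)) := by
    nlinarith
  refine h7.trans ?_
  apply mul_le_mul_of_nonneg_right h4
  linarith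

private lemma pre_weights (K n : ℕ) :
    ∑ i ∈ range n, 2 ^ (K + i) * (2 * (bb K (n + 3) i + 1)) ≤
      3 * (2 ^ (K + n) * (16 * K + 6)) := by
  have h1 := sum_weights2 K n
  have h2 : ∑ i ∈ range n, 2 ^ (K + i) * (2 * (bb K (n + 3) i + 1)) =
      2 ^ K * (∑ i ∈ range n, 2 ^ i * (2 * (bb K n i + 1)) + 12 * ∑ i ∈ range n, 2 ^ i) := by
    rw [Finset.mul_sum (range n) (fun i => 2 ^ i) 12, ← Finset.sum_add_distrib, Finset.mul_sum]
    refine Finset.sum_congr rfl fun i hi => ?_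
    rw [Finset.mem_range] at hi
    have hb : bb K (n + 3) i = bb K n i + 6 := by
      unfold bb
      omega
    rw [hb, pow_add]
    ring
  have h3 : ∑ i ∈ range n, 2 ^ i < 2 ^ n := Nat.geomSum_lt (by norm_num) (by simp)
  rw [h2, pow_add]
  have h4 : ∑ i ∈ range n, 2 ^ i * (2 * (bb K n i + 1)) + 12 * ∑ i ∈ range n, 2 ^ i ≤
      3 * (2 ^ n * (16 * K + 6)) := by
    have h5 : 3 * (2 ^ n * (16 * K + 6)) = 2 ^ n * (16 * K + 6) + 2 ^ n * 12 + 2 ^ n * (32 * K) := by
      ring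
    rw [h5]
    have h6 : 12 * ∑ i ∈ range n, 2 ^ i ≤ 2 ^ n * 12 := by omega
    have h7 : 0 ≤ 2 ^ n * (32 * K) := Nat.zero_le _
    omega
  calc 2 ^ K * (∑ i ∈ range n, 2 ^ i * (2 * (bb K n i + 1)) + 12 * ∑ i ∈ range n, 2 ^ i)
      ≤ 2 ^ K * (3 * (2 ^ n * (16 * K + 6))) := Nat.mul_le_mul_left _ h4
    _ = _ := by ring

private lemma pre_supp {K n : ℕ} {T : Finset ℕ} (hT : T ⊆ PP (small K) (pre_B K) n)
    (hs : Supp (pre_B K) (bb K (n + 3)) n T) :
    ∏ p ∈ T, p ≤ lev K n ^ 3 := by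
  have key : ∀ m ≤ n, ∀ T ⊆ PP (small K) (pre_B K) m,
      (∀ i < m, (T ∩ blk (K + i)).card ≤ bb K (n + 3) i + 1) →
      ∏ p ∈ T, p ≤ (∏ p ∈ small K, p) *
        2 ^ (∑ i ∈ range m, 2 ^ (K + i) * (2 * (bb K (n + 3) i + 1))) := by
    intro m
    induction m with
    | zero =>
      intro _ T hT _
      simp only [Finset.range_zero, Finset.sum_empty, pow_zero, mul_one]
      apply Finset.prod_le_prod_of_subset_of_one_le' hT
      intro p hp _
      exact (Finset.mem_filter.1 hp).2.one_le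
    | succ m ih =>
      intro hm T hT hs
      have e1 : T = (T ∩ PP (small K) (pre_B K) m) ∪ (T ∩ blk (K + m)) := by
        rw [← Finset.inter_union_distrib_left]
        exact (Finset.inter_eq_left.2 hT).symm
      have hdj : Disjoint (T ∩ PP (small K) (pre_B K) m) (T ∩ blk (K + m)) :=
        (disj K m).mono Finset.inter_subset_right Finset.inter_subset_right
      have i1 := ih (by omega) (T ∩ PP (small K) (pre_B K) m)
        Finset.inter_subset_right (fun i hi => by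
          have := hs i (by omega)
          rwa [Finset.inter_assoc, Finset.inter_eq_right.2
            (show blk (K + i) ⊆ PP (small K) (pre_B K) m from B_sub_PP (B := pre_B K) hi)])
      have i2 : ∏ p ∈ T ∩ blk (K + m), p ≤ 2 ^ (2 ^ (K + m) * (2 * (bb K (n + 3) m + 1))) := by
        calc ∏ p ∈ T ∩ blk (K + m), p ≤ ∏ p ∈ T ∩ blk (K + m), 2 ^ (2 ^ (K + m + 1)) := by
              apply Finset.prod_le_prod'
              intro p hp
              exact (mem_blk.1 (Finset.mem_inter.1 hp).2).1.2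
          _ = (2 ^ (2 ^ (K + m + 1))) ^ (T ∩ blk (K + m)).card := by rw [Finset.prod_const]
          _ ≤ (2 ^ (2 ^ (K + m + 1))) ^ (bb K (n + 3) m + 1) :=
              Nat.pow_le_pow_right (by positivity) (hs m (by omega))
          _ = _ := by
              rw [← pow_mul]
              congr 1
              rw [pow_succ]
              ring
      rw [e1, Finset.prod_union hdj, Finset.sum_range_succ, pow_add, ← mul_assoc]
      exact Nat.mul_le_mul i1 i2
  refine (key n le_rfl T hT hs).trans ?_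
  unfold lev
  rw [mul_pow, ← pow_mul]
  apply Nat.mul_le_mul
  · exact Nat.le_self_pow (by norm_num) _
  · apply Nat.pow_le_pow_right (by norm_num)
    have := pre_weights K n
    linarith

theorem p_pre : S_pre := by
  intro K _ n
  refine ⟨fun ρ => YY (small K) (pre_B K) (bb K (n + 3)) ρ n,
    fun ρ => FF (small K) (pre_B K) (bb K (n + 3)) ρ n, ?_, ?_, ?_, ?_⟩
  · exact (repB_YY n (fun i _ => disj K i)).mono (fun _ hT hs => pre_supp hT hs)
  · exact (repB_FF n (fun i _ => disj K i)).mono (fun _ hT hs => pre_supp hT hs)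
  · intro ρ hρ
    have h := pointwise (bb_even K (n + 3)) n (fun i _ => disj K i) ρ
      (fun p hp => (hρ p hp).1) (fun p hp => (hρ p hp).2)
    exact ⟨h.2, h.1⟩
  · intro ρ h
    exact ⟨pre_upper h n, pre_lower h n⟩

end Pool.Agent.CM.S
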