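import Pool.Agent.Lib.MP_0da313_nt.CM.G

set_option autoImplicit false

/-!
Project CM, piece prt: changing the densities at a few primes.
-/

namespace Pool.Agent.CM.G

open Finset
open Pool.Agent.CH.S (RepC)

lemma prod_sub_one_le (Y : Finset ℕ) (ρ : ℕ → ℝ) (h : ∀ p ∈ Y, 0 ≤ ρ p) :
    ∏ p ∈ Y, (1 + ρ p) - 1 ≤ (∑ p ∈ Y, ρ p) * ∏ p ∈ Y, (1 + ρ p) := by
  classical
  induction Y using Finset.induction_on with
  | empty => simp
  | insert a s ha ih =>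
    have h0 : ∀ p ∈ s, 0 ≤ ρ p := fun p hp => h p (Finset.mem_insert_of_mem hp)
    have ha0 : 0 ≤ ρ a := h a (Finset.mem_insert_self _ _)
    have ih := ih h0
    rw [Finset.prod_insert ha, Finset.sum_insert ha]
    have h1 : (1 : ℝ) ≤ ∏ p ∈ s, (1 + ρ p) := by
      have : ∏ p ∈ s, (1 : ℝ) ≤ ∏ p ∈ s, (1 + ρ p) :=
        Finset.prod_le_prod (fun _ _ => zero_le_one) (fun p hp => by linarith [h0 p hp])
      simpa using this
    have h2 : 0 ≤ ∑ p ∈ s, ρ p := Finset.sum_nonneg h0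
    nlinarith [mul_nonneg ha0 (mul_nonneg h2 (by linarith : (0 : ℝ) ≤ ∏ p ∈ s, (1 + ρ p))),
      mul_nonneg (mul_nonneg ha0 ha0) (by linarith : (0 : ℝ) ≤ ∏ p ∈ s, (1 + ρ p))]

theorem p_prt : S_prt := by
  classical
  rintro P1 q F ⟨c, h1, h2, h3⟩ ρ ρ' X hρ hX
  have hρ0 : ∀ p ∈ P1, 0 ≤ ρ p := fun p hp => (hρ p hp).1.trans (hρ p hp).2
  have e1 : |F ρ' - F ρ| ≤ 3 * (∏ p ∈ P1, (1 + ρ p) - ∏ p ∈ P1, (1 + ρ' p)) := by
    rw [h1 ρ', h1 ρ, ← Finset.sum_sub_distrib, Finset.prod_one_add, Finset.prod_one_add,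
      ← Finset.sum_sub_distrib, Finset.mul_sum]
    refine (Finset.abs_sum_le_sum_abs _ _).trans (Finset.sum_le_sum fun T hT => ?_)
    have hTP := Finset.mem_powerset.1 hT
    have h4 : ∏ p ∈ T, ρ' p ≤ ∏ p ∈ T, ρ p :=
      Finset.prod_le_prod (fun p hp => (hρ p (hTP hp)).1) (fun p hp => (hρ p (hTP hp)).2)
    rw [← mul_sub, abs_mul, abs_sub_comm, abs_of_nonneg (sub_nonneg.2 h4)]
    exact mul_le_mul_of_nonneg_right (h2 T) (sub_nonneg.2 h4)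
  refine e1.trans ?_
  rw [mul_assoc]
  refine mul_le_mul_of_nonneg_left ?_ (by norm_num)
  have hsp : ∀ f : ℕ → ℝ, ∏ p ∈ P1, f p = (∏ p ∈ P1 \ X, f p) * ∏ p ∈ P1 ∩ X, f p := by
    intro f
    have h5 := Finset.sdiff_union_inter P1 X
    have h6 : Disjoint (P1 \ X) (P1 ∩ X) := Finset.disjoint_sdiff_inter P1 X
    rw [← Finset.prod_union h6, h5]
  rw [hsp (fun p => 1 + ρ p), hsp (fun p => 1 + ρ' p)]
  have h7 : ∏ p ∈ P1 \ X, (1 + ρ' p) = ∏ p ∈ P1 \ X, (1 + ρ p) := by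
    apply Finset.prod_congr rfl
    intro p hp
    rw [Finset.mem_sdiff] at hp
    rw [hX p hp.1 hp.2]
  rw [h7]
  have h8 : 0 ≤ ∏ p ∈ P1 \ X, (1 + ρ p) := Finset.prod_nonneg fun p hp => by
    have := hρ0 p (Finset.mem_sdiff.1 hp).1
    linarith
  have h9 : (1 : ℝ) ≤ ∏ p ∈ P1 ∩ X, (1 + ρ' p) := by
    have : ∏ p ∈ P1 ∩ X, (1 : ℝ) ≤ ∏ p ∈ P1 ∩ X, (1 + ρ' p) :=
      Finset.prod_le_prod (fun _ _ => zero_le_one) (fun p hp => by
        linarith [(hρ p (Finset.mem_inter.1 hp).1).1])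
    simpa using this
  have h10 := prod_sub_one_le (P1 ∩ X) ρ (fun p hp => hρ0 p (Finset.mem_inter.1 hp).1)
  nlinarith [mul_le_mul_of_nonneg_left h10 h8, mul_le_mul_of_nonneg_left h9 h8]

end Pool.Agent.CM.G
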