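import Pool.Agent.Lib.MP_0da313_nt.CM.S

set_option autoImplicit false

/-!
[CM pt] Pointwise inequalities for the combined sieve functions.
-/

namespace Pool.Agent.CM.S

open Finset
open Pool.Agent.Lib.MP_0da313_nt (W)
open Pool.Agent.CH.S (th Pr)

theorem p_pt : S_pt := by
  intro hpt P0 a z y k D Fp Fm ρ hρ hm hp
  have hW : ∀ P : Finset ℕ, 0 ≤ W ρ P := fun P => by
    unfold W
    exact Finset.prod_nonneg fun p _ => by linarith [(hρ p).2]
  have hA0 : 0 ≤ W ρ P0 := hW P0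
  have hB0 : 0 ≤ W ρ (Pr a z) := hW (Pr a z)
  have hB := hpt a ρ z D (fun p _ => hρ p)
  have hB1 : th a ρ z false D ≤ W ρ (Pr a z) := hB.1
  have hB2 : W ρ (Pr a z) ≤ th a ρ z true D := hB.2
  constructor
  · have hs : W ρ (Pr a z) * ∑ q ∈ Pr z y, ρ q ≤ ∑ q ∈ Pr z y, ρ q * th a ρ z true (D / q) := by
      rw [Finset.mul_sum]
      refine Finset.sum_le_sum fun q _ => ?_
      have h1 : W ρ (Pr a z) ≤ th a ρ z true (D / q) := (hpt a ρ z (D / q) (fun p _ => hρ p)).2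
      rw [mul_comm]
      exact mul_le_mul_of_nonneg_left h1 (hρ q).1
    have hs0 : 0 ≤ ∑ q ∈ Pr z y, ρ q := Finset.sum_nonneg fun q _ => (hρ q).1
    have h2 : W ρ P0 * (W ρ (Pr a z) * ∑ q ∈ Pr z y, ρ q) ≤
        Fp ρ * ∑ q ∈ Pr z y, ρ q * th a ρ z true (D / q) :=
      mul_le_mul hp hs (mul_nonneg hB0 hs0) (hA0.trans hp)
    have h3 : Fp ρ * th a ρ z false D ≤ Fp ρ * W ρ (Pr a z) :=
      mul_le_mul_of_nonneg_left hB1 (hA0.trans hp)
    have h4 : Fm ρ * th a ρ z true D ≤ W ρ P0 * th a ρ z true D :=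
      mul_le_mul_of_nonneg_right hm (hB0.trans hB2)
    have h5 : 0 ≤ (Fp ρ - W ρ P0) * (th a ρ z true D - W ρ (Pr a z)) :=
      mul_nonneg (by linarith) (by linarith)
    unfold F12
    nlinarith
  · have h1 : W ρ (Pr a k) ≤ th a ρ k true D := (hpt a ρ k D (fun p _ => hρ p)).2
    exact mul_le_mul hp h1 (hW (Pr a k)) (hA0.trans hp)

end Pool.Agent.CM.S
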