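import Pool.Agent.Lib.MP_0da313_nt.CM.F

set_option autoImplicit false

/-!
Project CM, section F: the pointwise upper bound for the switched sum.
-/

namespace Pool.Agent.CM.F

open Finset Filter Polynomial
open Pool.Agent.BVall (PK mem_PK)
open Pool.Agent.Lib.MP_0da313_nt (W)
open Pool.Agent.CH (thP)
open Pool.Agent.CH.S (Pr)
open Pool.Agent.MP89da58 (tri)

/-- The sifting limit is smaller than a third of a quantity of linear growth. -/
theorem cm_pw3_k3 {t c : ℝ} (ht : 0 < t) : ∀ᶠ n : ℕ in atTop, (k3 n : ℝ) < (t * n + c) / 3 := by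
  have hcast : Tendsto (fun n : ℕ => (n : ℝ)) atTop atTop := tendsto_natCast_atTop_atTop
  have h1 : ∀ᶠ n : ℕ in atTop, 6 / t ≤ (n : ℝ) ^ (459 / 550 : ℝ) :=
    ((tendsto_rpow_atTop (by norm_num)).comp hcast).eventually_ge_atTop _
  have h2 : ∀ᶠ n : ℕ in atTop, (1 + |c| / 3 + 1) * 6 / t ≤ (n : ℝ) := hcast.eventually_ge_atTop _
  filter_upwards [h1, h2, eventually_gt_atTop 0] with n h3 h4 h5
  have hn : (0 : ℝ) < n := by exact_mod_cast h5
  have h6 : (k3 n : ℝ) < (n : ℝ) ^ (91 / 550 : ℝ) + 1 :=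
    Nat.ceil_lt_add_one (Real.rpow_nonneg hn.le _)
  have h7 : (n : ℝ) ^ (91 / 550 : ℝ) * (n : ℝ) ^ (459 / 550 : ℝ) = n := by
    rw [← Real.rpow_add hn]
    norm_num
  have h8 : (n : ℝ) ^ (91 / 550 : ℝ) ≤ t * n / 6 := by
    have h9 : 6 ≤ t * (n : ℝ) ^ (459 / 550 : ℝ) := by
      rw [div_le_iff₀ ht] at h3
      linarith
    have h10 : 0 ≤ (n : ℝ) ^ (91 / 550 : ℝ) := Real.rpow_nonneg hn.le _
    have h11 := mul_le_mul_of_nonneg_left h9 h10
    have h12 : (n : ℝ) ^ (91 / 550 : ℝ) * (t * (n : ℝ) ^ (459 / 550 : ℝ)) = t * n := by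
      rw [mul_left_comm, h7]
    linarith
  rw [div_le_iff₀ ht] at h4
  have h11 : -|c| ≤ c := neg_abs_le c
  linarith

theorem cm_pw3_cv (C n m : ℕ) : 0 ≤ cv (al C n) m := by
  unfold cv
  refine sum_nonneg fun k _ => mul_nonneg ?_ ?_
  · unfold al
    split_ifs <;> norm_num
  · split_ifs <;> norm_num

theorem p_pw3 : S_pw3 := by
  intro hpt hwin ι _ _ _ D F C B0 M _ _ _ _
  obtain ⟨hW0, hW⟩ := hwin ι D F
  filter_upwards [hW, cm_pw3_k3 (t := F.t none) (c := F.c none) (hW0 none).1,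
    eventually_ge_atTop F.N0] with n hWn hk hN0
  intro n' P _ Fp Fm hPre x i
  obtain ⟨hX, hloc, hcmp⟩ := hWn
  have hρ01 : ∀ p, 0 ≤ F.ri n (z0 D n') (some i) none x p ∧
      F.ri n (z0 D n') (some i) none x p ≤ 1 := by
    intro p
    unfold Fam.ri
    split_ifs <;> norm_num
  have hPt := hPre.pt (F.ri n (z0 D n') (some i) none x) (fun p _ => hρ01 p)
  have h2 := (hpt (PK (2 * D) n') (z0 D n' + 1) 0 0 (k3 n) (lD n) Fp Fm
    (F.ri n (z0 D n') (some i) none x) hρ01 hPt.1 hPt.2).2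
  have hWnn : ∀ B : Finset ℕ, 0 ≤ W (F.ri n (z0 D n') (some i) none x) B := fun B =>
    prod_nonneg (fun p _ => by linarith [(hρ01 p).2])
  have hF3 := le_trans (mul_nonneg (hWnn _) (hWnn _)) h2
  have hwi0 : ∀ l N, 0 ≤ F.wi n l N := fun l N => le_max_left _ _
  have hcv0 : 0 ≤ cv (al C n) (F.L n (some i) x).toNat := cm_pw3_cv _ _ _
  have hlog : 0 ≤ Real.log (3 * F.X n none) := Real.log_nonneg (by linarith [hX none])
  have hR : 0 ≤ Real.log (3 * F.X n none) * (F.a3 C n i (F.L n (some i) x).toNat *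
      F3 Fp (z0 D n' + 1) (k3 n) (lD n) (F.ri n (z0 D n') (some i) none x)) :=
    mul_nonneg hlog (mul_nonneg (mul_nonneg hcv0 (hwi0 _ _)) hF3)
  split_ifs with hRg
  swap
  · exact hR
  by_cases ha : F.a0 n (F.L n none x).toNat = 0
  · rw [ha, zero_mul]
    exact hR
  have ha1 : thP (F.L n none x).toNat ≠ 0 := left_ne_zero_of_mul ha
  have ha2 : F.wi n none (F.L n none x).toNat ≠ 0 := right_ne_zero_of_mul ha
  have hNp : (F.L n none x).toNat.Prime := by
    by_contra h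
    exact ha1 (by unfold thP; rw [if_neg h])
  have hLpos : 0 < F.L n none x := by
    have := hNp.pos
    omega
  have hLN : ((F.L n none x).toNat : ℤ) = F.L n none x := Int.toNat_of_nonneg hLpos.le
  have hLR : ((F.L n none x).toNat : ℝ) = (F.L n none x : ℝ) := by exact_mod_cast hLN
  obtain ⟨_, _, hl⟩ := hloc none x hLpos ha2
  have hlo := (hl none).1
  have hhi := (hl none).2
  rw [← hLR] at hlo hhi
  have hkN : k3 n < (F.L n none x).toNat := by
    have h3 : (k3 n : ℝ) < F.X n none / 3 := hk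
    exact_mod_cast lt_of_lt_of_le h3 hlo
  have hρ0 : ∀ p : ℕ, p.Prime → (p ≤ z0 D n' ∨ p < k3 n) →
      F.ri n (z0 D n') (some i) none x p = 0 := by
    intro p hp hcond
    unfold Fam.ri
    rw [if_neg]
    rintro ⟨hq, -⟩
    by_cases hpz : p ≤ z0 D n'
    · rw [if_pos hpz] at hq
      refine hRg p hp hpz ?_
      rw [F.hG n hN0 (some i), Polynomial.eval_mul]
      exact Dvd.dvd.mul_left hq _
    · rw [if_neg hpz, ← hLN] at hq
      have h4 := (Nat.prime_dvd_prime_iff_eq hp hNp).1 (by exact_mod_cast hq)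
      rcases hcond with h5 | h5
      · exact hpz h5
      · omega
  have hW1 : W (F.ri n (z0 D n') (some i) none x) (PK (2 * D) n') = 1 := by
    refine prod_eq_one fun p hp => ?_
    rw [mem_PK] at hp
    rw [hρ0 p hp.1 (Or.inl hp.2), sub_zero]
  have hW2 : W (F.ri n (z0 D n') (some i) none x) (Pr (z0 D n' + 1) (k3 n)) = 1 := by
    refine prod_eq_one fun p hp => ?_
    unfold Pr at hp
    rw [mem_filter, mem_range] at hp
    rw [hρ0 p hp.2.1 (Or.inr hp.1), sub_zero]
  rw [hW1, hW2, mul_one] at h2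
  have h6 : F.a0 n (F.L n none x).toNat ≤
      Real.log (3 * F.X n none) * F.wi n (some i) (F.L n (some i) x).toNat := by
    unfold Fam.a0 thP
    rw [if_pos hNp]
    have hN1 : (0 : ℝ) < ((F.L n none x).toNat : ℝ) := by exact_mod_cast hNp.pos
    exact mul_le_mul (Real.log_le_log hN1 hhi) (hcmp i x hLpos ha2) (hwi0 _ _) hlog
  calc F.a0 n (F.L n none x).toNat * cv (al C n) (F.L n (some i) x).toNat
      ≤ (Real.log (3 * F.X n none) * F.wi n (some i) (F.L n (some i) x).toNat) *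
        cv (al C n) (F.L n (some i) x).toNat := mul_le_mul_of_nonneg_right h6 hcv0
    _ = Real.log (3 * F.X n none) * (F.a3 C n i (F.L n (some i) x).toNat * 1) := by
        unfold Fam.a3
        ring
    _ ≤ _ := mul_le_mul_of_nonneg_left
        (mul_le_mul_of_nonneg_left h2 (mul_nonneg hcv0 (hwi0 _ _))) hlog

end Pool.Agent.CM.F
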