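import Pool.Agent.Lib.MP_0da313_nt.CM.S

set_option autoImplicit false

/-!
[CM rc] Representation of the combined sieve functions.
-/

namespace Pool.Agent.CM.S

open Finset
open Pool.Agent.BVall (RepB)
open Pool.Agent.CH.S (th Pr RepC)

/-- extension by zero -/
private theorem rc_ext {P P' : Finset ℕ} (hP : P ⊆ P') {Q : Finset ℕ → Prop}
    {F : (ℕ → ℝ) → ℝ} (h : RepB P Q F) : RepB P' (fun T => T ⊆ P ∧ Q T) F := by
  classical
  obtain ⟨c, h1, h2, h3⟩ := h
  refine ⟨fun T => if T ⊆ P then c T else 0, ?_, ?_, ?_⟩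
  · intro ρ
    rw [h1 ρ]
    have e : ∀ T ∈ P.powerset, c T * ∏ p ∈ T, ρ p
        = (if T ⊆ P then c T else 0) * ∏ p ∈ T, ρ p := by
      intro T hT
      rw [if_pos (Finset.mem_powerset.1 hT)]
    rw [Finset.sum_congr rfl e]
    apply Finset.sum_subset (Finset.powerset_mono.2 hP)
    intro T _ hT
    rw [if_neg (fun h => hT (Finset.mem_powerset.2 h)), zero_mul]
  · intro T
    beta_reduce
    split_ifs
    · exact h2 T
    · simp
  · intro T _ hT
    beta_reduce at hT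
    by_cases h : T ⊆ P
    · rw [if_pos h] at hT
      exact ⟨h, h3 T (Finset.mem_powerset.2 h) hT⟩
    · rw [if_neg h] at hT
      exact absurd rfl hT

/-- one more variable -/
private theorem rc_step {P : Finset ℕ} {w : ℕ} (hw : w ∉ P) {Q Q' : Finset ℕ → Prop}
    {F F' : (ℕ → ℝ) → ℝ} (h : RepB P Q F) (h' : RepB P Q' F') :
    RepB (insert w P) (fun T => (w ∉ T ∧ Q T) ∨ (w ∈ T ∧ Q' (T.erase w)))
      (fun ρ => F ρ + ρ w * F' ρ) := by
  classical
  obtain ⟨c, h1, h2, h3⟩ := h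
  obtain ⟨c', h1', h2', h3'⟩ := h'
  refine ⟨fun T => if w ∈ T then c' (T.erase w) else c T, ?_, ?_, ?_⟩
  · intro ρ
    rw [Finset.sum_powerset_insert hw]
    have e1 : ∀ T ∈ P.powerset, (if w ∈ T then c' (T.erase w) else c T) * ∏ p ∈ T, ρ p
        = c T * ∏ p ∈ T, ρ p := by
      intro T hT
      rw [if_neg (fun h => hw (Finset.mem_powerset.1 hT h))]
    have e2 : ∀ T ∈ P.powerset, (if w ∈ insert w T then c' ((insert w T).erase w)
        else c (insert w T)) * ∏ p ∈ insert w T, ρ p = ρ w * (c' T * ∏ p ∈ T, ρ p) := by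
      intro T hT
      have hwT : w ∉ T := fun h => hw (Finset.mem_powerset.1 hT h)
      rw [if_pos (Finset.mem_insert_self w T), Finset.erase_insert hwT, Finset.prod_insert hwT]
      ring
    rw [Finset.sum_congr rfl e1, Finset.sum_congr rfl e2,
      ← Finset.mul_sum, ← h1 ρ, ← h1' ρ]
  · intro T
    beta_reduce
    split_ifs
    · exact h2' _
    · exact h2 T
  · intro T hT hc
    rw [Finset.mem_powerset] at hT
    beta_reduce at hc
    by_cases h : w ∈ T
    · rw [if_pos h] at hc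
      have hs : T.erase w ⊆ P := by
        intro p hp
        rw [Finset.mem_erase] at hp
        exact (Finset.mem_insert.1 (hT hp.2)).resolve_left hp.1
      exact Or.inr ⟨h, h3' _ (Finset.mem_powerset.2 hs) hc⟩
    · rw [if_neg h] at hc
      have hs : T ⊆ P := by
        intro p hp
        exact (Finset.mem_insert.1 (hT hp)).resolve_left (fun h0 => h (h0 ▸ hp))
      exact Or.inl ⟨h, h3 _ (Finset.mem_powerset.2 hs) hc⟩

/-- the sum over one additional prime -/
private theorem rc_sum {P : Finset ℕ} {Q : ℕ → Finset ℕ → Prop} {F : ℕ → (ℕ → ℝ) → ℝ}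
    (S : Finset ℕ) (hd : Disjoint P S) (h : ∀ q ∈ S, RepB P (Q q) (F q)) :
    RepB (P ∪ S) (fun T => ∃ q ∈ S, q ∈ T ∧ T.erase q ⊆ P ∧ Q q (T.erase q))
      (fun ρ => ∑ q ∈ S, ρ q * F q ρ) := by
  classical
  induction S using Finset.induction_on with
  | empty =>
    refine ⟨fun _ => 0, ?_, ?_, ?_⟩
    · intro ρ
      simp
    · intro T
      simp
    · intro T _ h
      exact absurd rfl h
  | insert w S hw ih =>
    have hd' : Disjoint P S := Finset.disjoint_of_subset_right (Finset.subset_insert w S) hd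
    have hwP : w ∉ P := fun h0 =>
      (Finset.disjoint_left.1 hd) h0 (Finset.mem_insert_self w S)
    have hwu : w ∉ P ∪ S := by
      rw [Finset.mem_union]
      tauto
    have h1 := ih hd' (fun q hq => h q (Finset.mem_insert_of_mem hq))
    have h2 := rc_ext (P' := P ∪ S) Finset.subset_union_left (h w (Finset.mem_insert_self w S))
    have h3 := rc_step hwu h1 h2
    have e : P ∪ insert w S = insert w (P ∪ S) := by
      rw [Finset.union_insert]
    rw [e]
    have e2 : (fun ρ : ℕ → ℝ => ∑ q ∈ insert w S, ρ q * F q ρ) =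
        fun ρ => ∑ q ∈ S, ρ q * F q ρ + ρ w * F w ρ := by
      funext ρ
      rw [Finset.sum_insert hw]
      ring
    rw [e2]
    refine h3.mono ?_
    rintro T _ (⟨_, q, hq1, hq2⟩ | ⟨hw1, hw2⟩)
    · exact ⟨q, Finset.mem_insert_of_mem hq1, hq2⟩
    · exact ⟨w, Finset.mem_insert_self w S, hw1, hw2⟩

private lemma rc_mem {a w p : ℕ} : p ∈ Pr a w ↔ p < w ∧ p.Prime ∧ a ≤ p := by
  simp [Pr]

private lemma rc_split {a z y : ℕ} (h1 : a ≤ z) (h2 : z ≤ y) : Pr a z ∪ Pr z y = Pr a y := by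
  ext p
  simp only [Finset.mem_union, rc_mem]
  constructor
  · rintro (⟨h3, h4, h5⟩ | ⟨h3, h4, h5⟩)
    · exact ⟨by omega, h4, h5⟩
    · exact ⟨h3, h4, by omega⟩
  · rintro ⟨h3, h4, h5⟩
    by_cases h : p < z
    · exact Or.inl ⟨h, h4, h5⟩
    · exact Or.inr ⟨h3, h4, by omega⟩

private lemma rc_disj (a z y : ℕ) : Disjoint (Pr a z) (Pr z y) := by
  rw [Finset.disjoint_left]
  intro p hp hq
  rw [rc_mem] at hp hq
  omega

private lemma rc_mul {P0 P1 : Finset ℕ} {Q0 Q1 : ℝ} {R : Finset ℕ → Prop} {A B : (ℕ → ℝ) → ℝ}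
    (hd : Disjoint P0 P1)
    (hA : RepB P0 (fun T => ∏ p ∈ T, (p : ℝ) ≤ Q0) A)
    (hB : RepB P1 (fun T => ∏ p ∈ T, (p : ℝ) ≤ Q1 ∧ R T) B) :
    RepB (P0 ∪ P1) (fun T => ∏ p ∈ T, (p : ℝ) ≤ Q0 * Q1 ∧ R (T ∩ P1)) (fun ρ => A ρ * B ρ) := by
  refine (RepB.mul hd hA hB).mono ?_
  rintro T hT ⟨h1, h2, h3⟩
  have e : ∏ p ∈ T, (p : ℝ) = (∏ p ∈ T ∩ P0, (p : ℝ)) * ∏ p ∈ T ∩ P1, (p : ℝ) :=
    Pool.Agent.Lib.MP_0da313_nt.prod_union_inter hd hT (fun p => (p : ℝ))
  have h0 : 0 ≤ ∏ p ∈ T ∩ P0, (p : ℝ) := Finset.prod_nonneg fun p _ => Nat.cast_nonneg p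
  have h0' : 0 ≤ ∏ p ∈ T ∩ P1, (p : ℝ) := Finset.prod_nonneg fun p _ => Nat.cast_nonneg p
  refine ⟨?_, h3⟩
  rw [e]
  exact mul_le_mul h1 h2 h0' (h0.trans h1)

theorem p_rc : S_rc := by
  intro hrep P0 a z y k Q0 D Fp Fm ha haz hzy hdj hkD hzyD hQ0 hFp hFm
  have hz2 : (2 : ℝ) ≤ z := by exact_mod_cast le_trans ha haz
  have hy2 : (2 : ℝ) ≤ y := by exact_mod_cast le_trans ha (le_trans haz hzy)
  have hzD : (z : ℝ) < D := by nlinarith
  have hyD : (y : ℝ) < D := by nlinarith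
  have hD1 : 1 < D := by linarith
  -- the functions over `Pr a y`
  have hsub : Pr a z ⊆ Pr a y := by
    rw [← rc_split haz hzy]
    exact Finset.subset_union_left
  have lt_of : ∀ T : Finset ℕ, T ⊆ Pr a z → ∀ p ∈ T, p < z := fun T hT p hp =>
    (rc_mem.1 (hT hp)).1
  have hBm : RepB (Pr a y) (fun T => ∏ p ∈ T, (p : ℝ) ≤ D ∧ ∀ p ∈ T, p < z)
      (fun ρ => th a ρ z false D) :=
    (rc_ext hsub (hrep a z false D hD1 (fun _ => hzD.le))).mono
      (fun T _ hT => ⟨hT.2.le, lt_of T hT.1⟩)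
  have hBp : RepB (Pr a y) (fun T => ∏ p ∈ T, (p : ℝ) ≤ D ∧ ∀ p ∈ T, p < z)
      (fun ρ => th a ρ z true D) :=
    (rc_ext hsub (hrep a z true D hD1 (fun h => by simp at h))).mono
      (fun T _ hT => ⟨hT.2.le, lt_of T hT.1⟩)
  have hG : RepB (Pr a y) (fun T => ∏ p ∈ T, (p : ℝ) ≤ D ∧ ∃ p ∈ T, z ≤ p)
      (fun ρ => ∑ q ∈ Pr z y, ρ q * th a ρ z true (D / q)) := by
    have h1 : ∀ q ∈ Pr z y, RepB (Pr a z) (fun T => ∏ p ∈ T, (p : ℝ) < D / q)
        (fun ρ => th a ρ z true (D / q)) := by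
      intro q hq
      rw [rc_mem] at hq
      have hq0 : (0 : ℝ) < q := by exact_mod_cast hq.2.1.pos
      have hqy : (q : ℝ) < y := by exact_mod_cast hq.1
      refine hrep a z true (D / q) ?_ (fun h => by simp at h)
      rw [lt_div_iff₀ hq0]
      linarith
    have h2 := rc_sum (F := fun q ρ => th a ρ z true (D / q)) (Pr z y) (rc_disj a z y) h1
    rw [rc_split haz hzy] at h2
    refine h2.mono ?_
    rintro T _ ⟨q, hq, hqT, _, hlt⟩
    rw [rc_mem] at hq
    have hq0 : (0 : ℝ) < q := by exact_mod_cast hq.2.1.pos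
    refine ⟨?_, q, hqT, hq.2.2⟩
    rw [lt_div_iff₀ hq0] at hlt
    rw [← Finset.mul_prod_erase T (fun p => (p : ℝ)) hqT]
    linarith
  obtain ⟨c1, e1, b1, s1⟩ := rc_mul hdj hFp hBm
  obtain ⟨c2, e2, b2, s2⟩ := rc_mul hdj hFm hBp
  obtain ⟨c3, e3, b3, s3⟩ := rc_mul hdj hFp hBp
  obtain ⟨c4, e4, b4, s4⟩ := rc_mul hdj hFp hG
  constructor
  · classical
    refine ⟨fun T => if T ⊆ P0 ∪ Pr a y then c1 T + c2 T - c3 T - 1 / 2 * c4 T else 0, ?_, ?_, ?_⟩
    · intro ρ
      have h1 := e1 ρ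
      have h2 := e2 ρ
      have h3 := e3 ρ
      have h4 := e4 ρ
      beta_reduce at h1 h2 h3 h4 ⊢
      have e : ∑ T ∈ (P0 ∪ Pr a y).powerset, (if T ⊆ P0 ∪ Pr a y then
          c1 T + c2 T - c3 T - 1 / 2 * c4 T else 0) * ∏ p ∈ T, ρ p =
          ∑ T ∈ (P0 ∪ Pr a y).powerset, (c1 T * ∏ p ∈ T, ρ p + c2 T * ∏ p ∈ T, ρ p -
            c3 T * ∏ p ∈ T, ρ p - 1 / 2 * (c4 T * ∏ p ∈ T, ρ p)) := by
        refine Finset.sum_congr rfl fun T hT => ?_
        rw [if_pos (Finset.mem_powerset.1 hT)]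
        ring
      rw [e, Finset.sum_sub_distrib, Finset.sum_sub_distrib, Finset.sum_add_distrib,
        ← Finset.mul_sum, ← h1, ← h2, ← h3, ← h4]
      rfl
    · intro T
      beta_reduce
      split_ifs with hT
      · rw [← Finset.mem_powerset] at hT
        have h1 := abs_le.1 (b1 T)
        have h2 := abs_le.1 (b2 T)
        have h3 := abs_le.1 (b3 T)
        have h4 := abs_le.1 (b4 T)
        by_cases hz : ∃ p ∈ T ∩ Pr a y, z ≤ p
        · obtain ⟨p, hp, hzp⟩ := hz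
          have z1 : c1 T = 0 := by
            by_contra h
            have := (s1 T hT h).2 p hp
            omega
          have z2 : c2 T = 0 := by
            by_contra h
            have := (s2 T hT h).2 p hp
            omega
          have z3 : c3 T = 0 := by
            by_contra h
            have := (s3 T hT h).2 p hp
            omega
          rw [z1, z2, z3, abs_le]
          constructor <;> linarith [h4.1, h4.2]
        · have z4 : c4 T = 0 := by
            by_contra h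
            exact hz (s4 T hT h).2
          rw [z4, abs_le]
          constructor <;> linarith [h1.1, h1.2, h2.1, h2.2, h3.1, h3.2]
      · norm_num
    · intro T hT h
      by_contra hQ
      apply h
      have z1 : c1 T = 0 := by
        by_contra h1
        exact hQ (s1 T hT h1).1
      have z2 : c2 T = 0 := by
        by_contra h1
        exact hQ (s2 T hT h1).1
      have z3 : c3 T = 0 := by
        by_contra h1
        exact hQ (s3 T hT h1).1
      have z4 : c4 T = 0 := by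
        by_contra h1
        exact hQ (s4 T hT h1).1
      beta_reduce
      rw [z1, z2, z3, z4]
      simp
  · intro hky
    have hsub' : Pr a k ⊆ Pr a y := by
      intro p hp
      rw [rc_mem] at hp ⊢
      exact ⟨by omega, hp.2⟩
    have hB : RepB (Pr a y) (fun T => ∏ p ∈ T, (p : ℝ) ≤ D ∧ True)
        (fun ρ => th a ρ k true D) :=
      (rc_ext hsub' (hrep a k true D hD1 (fun h => by simp at h))).mono
        (fun T _ hT => ⟨hT.2.le, trivial⟩)
    obtain ⟨c5, e5, b5, s5⟩ := rc_mul hdj hFp hB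
    exact ⟨c5, e5, fun T => (b5 T).trans (by norm_num), fun T hT h => (s5 T hT h).1⟩

end Pool.Agent.CM.S
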