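import Pool.Agent.Lib.MP_0da313_nt.CM.P.wm

set_option autoImplicit false
set_option linter.unusedSectionVars false

/-!
Project CM, piece sq: the points at which a member is divisible by the square of a large prime.
-/

namespace Pool.Agent.CM.F

open Finset Filter Polynomial
open ArithmeticFunction (cardFactors)
open Pool.Agent.MP89da58 (bil pw nn supp part kapD tri)
open Pool.Agent.MT (PJf ZI Dl)
open Pool.Agent.BVall (om rhoW PK lev RepB Dens)
open Pool.Agent.Lib.MP_0da313_nt (Admissible lineRestrict val singV W)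
open Pool.Agent.CH (thP)
open Pool.Agent.CH.S (th Pr gd RepC V)
open Pool.Agent.CM.W (WPk yM)

/-- at most `n/q^2 + 1` points in one residue class modulo `q^2` -/
lemma cm_sq_one (u v : ℤ) (n q : ℕ) (hq : q.Prime) (hu : ¬ q ∣ u.natAbs) :
    ((Ioo 0 n).filter (fun x : ℕ => ((q : ℤ) ^ 2) ∣ u * x + v)).card ≤ n / q ^ 2 + 1 := by
  have hq2 : 0 < q ^ 2 := pow_pos hq.pos 2
  have hcop : IsCoprime u ((q : ℤ) ^ 2) := by
    apply IsCoprime.pow_right
    rw [Int.isCoprime_iff_gcd_eq_one, Int.gcd_eq_natAbs_gcd_natAbs, Int.natAbs_natCast]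
    exact ((Nat.Prime.coprime_iff_not_dvd hq).2 hu).symm
  have h1 : ((Ioo 0 n).filter (fun x : ℕ => ((q : ℤ) ^ 2) ∣ u * x + v)).card ≤
      (range (n / q ^ 2 + 1)).card := by
    apply Finset.card_le_card_of_injOn (fun x : ℕ => x / q ^ 2)
    · intro x hx
      rw [Finset.mem_coe, Finset.mem_filter, Finset.mem_Ioo] at hx
      rw [Finset.mem_coe, Finset.mem_range]
      exact Nat.lt_succ_of_le (Nat.div_le_div_right hx.1.2.le)
    · intro x hx y hy hxy
      rw [Finset.mem_coe, Finset.mem_filter] at hx hy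
      have h2 : ((q : ℤ) ^ 2) ∣ u * ((x : ℤ) - y) := by
        have := dvd_sub hx.2 hy.2
        have e : (u * (x : ℤ) + v) - (u * y + v) = u * ((x : ℤ) - y) := by ring
        rwa [e] at this
      have h3 : ((q : ℤ) ^ 2) ∣ (x : ℤ) - y := hcop.symm.dvd_of_dvd_mul_left h2
      have h4 : x ≡ y [MOD q ^ 2] := by
        rw [Nat.modEq_iff_dvd]
        have := (dvd_neg.2 h3)
        rw [neg_sub] at this
        exact_mod_cast this
      have h5 : x % q ^ 2 = y % q ^ 2 := h4
      have hxy' : x / q ^ 2 = y / q ^ 2 := hxy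
      rw [← Nat.div_add_mod x (q ^ 2), ← Nat.div_add_mod y (q ^ 2), h5, hxy']
  rwa [Finset.card_range] at h1

open Classical in
/-- the number of points with a square factor -/
lemma cm_sq_count (u v : ℤ) (n k N : ℕ) (hk : 2 ≤ k) (hu0 : u ≠ 0) (hu : u.natAbs < k) :
    (((Ioo 0 n).filter (fun x : ℕ => ∃ q : ℕ, q.Prime ∧ k ≤ q ∧ q ^ 2 ≤ N ∧
      ((q : ℤ) ^ 2) ∣ u * x + v)).card : ℝ) ≤ n / ((k : ℝ) - 1) + Real.sqrt N := by
  set s := Nat.sqrt N with hs
  have hsub : (Ioo 0 n).filter (fun x : ℕ => ∃ q : ℕ, q.Prime ∧ k ≤ q ∧ q ^ 2 ≤ N ∧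
      ((q : ℤ) ^ 2) ∣ u * x + v) ⊆ ((Ioc (k - 1) s).filter Nat.Prime).biUnion
      (fun q => (Ioo 0 n).filter (fun x : ℕ => ((q : ℤ) ^ 2) ∣ u * x + v)) := by
    intro x hx
    rw [Finset.mem_filter] at hx
    obtain ⟨hx1, q, hq, hkq, hqN, hdv⟩ := hx
    rw [Finset.mem_biUnion]
    refine ⟨q, ?_, ?_⟩
    · rw [Finset.mem_filter, Finset.mem_Ioc]
      refine ⟨⟨by omega, ?_⟩, hq⟩
      rw [hs, Nat.le_sqrt']
      exact hqN
    · rw [Finset.mem_filter]
      exact ⟨hx1, hdv⟩
  have h1 : ((Ioo 0 n).filter (fun x : ℕ => ∃ q : ℕ, q.Prime ∧ k ≤ q ∧ q ^ 2 ≤ N ∧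
      ((q : ℤ) ^ 2) ∣ u * x + v)).card ≤ ∑ q ∈ (Ioc (k - 1) s).filter Nat.Prime,
        (n / q ^ 2 + 1) := by
    refine (Finset.card_le_card hsub).trans (Finset.card_biUnion_le.trans ?_)
    apply Finset.sum_le_sum
    intro q hq
    rw [Finset.mem_filter, Finset.mem_Ioc] at hq
    apply cm_sq_one u v n q hq.2
    intro hd
    have := Nat.le_of_dvd (Int.natAbs_pos.2 hu0) hd
    omega
  have hk1 : (0 : ℝ) < (k : ℝ) - 1 := by
    have : (2 : ℝ) ≤ k := by exact_mod_cast hk
    linarith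
  have hsN : (s : ℝ) ≤ Real.sqrt N := by
    apply Real.le_sqrt_of_sq_le
    have := Nat.sqrt_le' N
    exact_mod_cast this
  by_cases hks : k - 1 ≤ s
  · have h2 : ((∑ q ∈ (Ioc (k - 1) s).filter Nat.Prime, (n / q ^ 2 + 1) : ℕ) : ℝ) ≤
        ∑ q ∈ Ioc (k - 1) s, (n * ((q : ℝ) ^ 2)⁻¹ + 1) := by
      rw [Nat.cast_sum]
      refine (Finset.sum_le_sum_of_subset_of_nonneg (Finset.filter_subset _ _)
        (fun _ _ _ => by positivity)).trans (Finset.sum_le_sum fun q _ => ?_)
      push_cast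
      have : ((n / q ^ 2 : ℕ) : ℝ) ≤ (n : ℝ) / ((q ^ 2 : ℕ) : ℝ) := Nat.cast_div_le
      push_cast at this
      rw [div_eq_mul_inv] at this
      linarith
    have h3 : ∑ q ∈ Ioc (k - 1) s, ((n : ℝ) * ((q : ℝ) ^ 2)⁻¹ + 1) ≤
        n / ((k : ℝ) - 1) + s := by
      rw [Finset.sum_add_distrib, ← Finset.mul_sum, Finset.sum_const, Nat.card_Ioc, nsmul_eq_mul,
        mul_one]
      have h4 := sum_Ioc_inv_sq_le_sub (α := ℝ) (k := k - 1) (n := s) (by omega) hks
      have h5 : ((k - 1 : ℕ) : ℝ) = (k : ℝ) - 1 := by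
        rw [Nat.cast_sub (by omega)]; simp
      rw [h5] at h4
      have h6 : (0 : ℝ) ≤ (s : ℝ)⁻¹ := by positivity
      have h7 : (n : ℝ) * ∑ q ∈ Ioc (k - 1) s, ((q : ℝ) ^ 2)⁻¹ ≤ n * ((k : ℝ) - 1)⁻¹ :=
        mul_le_mul_of_nonneg_left (by linarith) (by positivity)
      have h8 : ((s - (k - 1) : ℕ) : ℝ) ≤ s := by
        exact_mod_cast Nat.sub_le _ _
      rw [div_eq_mul_inv]
      linarith
    have h9 : (((Ioo 0 n).filter (fun x : ℕ => ∃ q : ℕ, q.Prime ∧ k ≤ q ∧ q ^ 2 ≤ N ∧
      ((q : ℤ) ^ 2) ∣ u * x + v)).card : ℝ) ≤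
        ((∑ q ∈ (Ioc (k - 1) s).filter Nat.Prime, (n / q ^ 2 + 1) : ℕ) : ℝ) := by
      exact_mod_cast h1
    linarith
  · have h2 : Ioc (k - 1) s = ∅ := Finset.Ioc_eq_empty (by omega)
    rw [h2, Finset.filter_empty, Finset.sum_empty] at h1
    have h3 : ((Ioo 0 n).filter (fun x : ℕ => ∃ q : ℕ, q.Prime ∧ k ≤ q ∧ q ^ 2 ≤ N ∧
      ((q : ℤ) ^ 2) ∣ u * x + v)).card = 0 := Nat.le_zero.1 h1
    rw [h3, Nat.cast_zero]
    positivity

/-- the asymptotic inequality -/
lemma cm_sq_asym (C A : ℕ) (hC : 1 ≤ C) (K : ℝ) (hK : 0 ≤ K) : ∀ᶠ n : ℕ in atTop,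
    Real.log (C * n) * K * (n / ((kz n : ℝ) - 1) + Real.sqrt ((C * n : ℕ) : ℝ)) ≤
      n / (Real.log n) ^ A := by
  have h1 : (fun x : ℝ => Real.log x ^ ((A : ℝ) + 1)) =o[atTop] fun x => x ^ (1 / 11 : ℝ) :=
    isLittleO_log_rpow_rpow_atTop ((A : ℝ) + 1) (by norm_num)
  have h2 := (h1.comp_tendsto tendsto_natCast_atTop_atTop).bound
    (show (0 : ℝ) < 1 / (2 * (K + 1) * (2 + C)) by positivity)
  filter_upwards [h2, eventually_ge_atTop 2048, eventually_ge_atTop C] with n hn hn2 hnC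
  have hC1 : (1 : ℝ) ≤ C := by exact_mod_cast hC
  have hn2' : (2048 : ℝ) ≤ n := by exact_mod_cast hn2
  have hn0 : (0 : ℝ) < n := by linarith
  have hnC' : (C : ℝ) ≤ n := by exact_mod_cast hnC
  have hlog : 1 ≤ Real.log n := by
    rw [Real.le_log_iff_exp_le hn0]
    have := Real.exp_one_lt_d9
    linarith
  have hl0 : 0 < Real.log n := by linarith
  -- the logarithm
  have h3 : Real.log (C * n) ≤ 2 * Real.log n := by
    rw [Real.log_mul (by positivity) (by positivity)]
    have : Real.log C ≤ Real.log n := Real.log_le_log (by positivity) hnC'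
    linarith
  -- the main power
  set w : ℝ := (n : ℝ) ^ (1 / 11 : ℝ) with hw
  have hw2 : 2 ≤ w := by
    have h4 : (2048 : ℝ) ^ (1 / 11 : ℝ) ≤ w :=
      Real.rpow_le_rpow (by norm_num) hn2' (by norm_num)
    have h5 : (2048 : ℝ) ^ (1 / 11 : ℝ) = 2 := by
      rw [show (2048 : ℝ) = 2 ^ (11 : ℝ) by norm_num, ← Real.rpow_mul (by norm_num)]
      norm_num
    rwa [h5] at h4
  have hkz : w ≤ kz n := by
    unfold kz
    exact Nat.le_ceil _
  have h6 : (n : ℝ) / ((kz n : ℝ) - 1) ≤ 2 * (n / w) := by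
    have h7 : w / 2 ≤ (kz n : ℝ) - 1 := by linarith
    calc (n : ℝ) / ((kz n : ℝ) - 1) ≤ n / (w / 2) :=
          div_le_div_of_nonneg_left hn0.le (by positivity) h7
      _ = 2 * (n / w) := by field_simp
  have h8 : Real.sqrt ((C * n : ℕ) : ℝ) ≤ C * (n / w) := by
    push_cast
    apply Real.sqrt_le_iff.2
    constructor
    · positivity
    · have h9 : w ^ 2 ≤ n := by
        rw [hw, ← Real.rpow_natCast, ← Real.rpow_mul hn0.le]
        calc (n : ℝ) ^ (1 / 11 * ((2 : ℕ) : ℝ)) ≤ (n : ℝ) ^ (1 : ℝ) :=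
              Real.rpow_le_rpow_of_exponent_le (by linarith) (by norm_num)
          _ = n := Real.rpow_one _
      have h10 : (C : ℝ) * n ≤ C ^ 2 * n := by
        apply mul_le_mul_of_nonneg_right _ hn0.le
        nlinarith
      have h11 : (n : ℝ) ≤ (n / w) ^ 2 := by
        rw [div_pow, le_div_iff₀ (by positivity)]
        nlinarith
      calc (C : ℝ) * n ≤ C ^ 2 * n := h10
        _ ≤ C ^ 2 * (n / w) ^ 2 := mul_le_mul_of_nonneg_left h11 (by positivity)
        _ = (C * (n / w)) ^ 2 := by ring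
  -- the small o
  have h12 : Real.log n ^ (A + 1) * (2 * (K + 1) * (2 + C)) ≤ w := by
    simp only [Function.comp] at hn
    rw [Real.norm_of_nonneg (by positivity), Real.norm_of_nonneg (by positivity)] at hn
    have e : Real.log n ^ ((A : ℝ) + 1) = Real.log n ^ (A + 1) := by
      rw [← Real.rpow_natCast]; push_cast; rfl
    rw [e] at hn
    rw [← hw] at hn
    have h13 : 0 < 2 * (K + 1) * (2 + (C : ℝ)) := by positivity
    rw [one_div, inv_mul_eq_div, le_div_iff₀ h13] at hn
    exact hn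
  rw [le_div_iff₀ (by positivity)]
  have hA : 0 < Real.log n ^ A := by positivity
  calc Real.log (C * n) * K * (n / ((kz n : ℝ) - 1) + Real.sqrt ((C * n : ℕ) : ℝ)) *
        Real.log n ^ A
      ≤ 2 * Real.log n * K * (2 * (n / w) + C * (n / w)) * Real.log n ^ A := by
        apply mul_le_mul_of_nonneg_right _ hA.le
        apply mul_le_mul
        · exact mul_le_mul_of_nonneg_right h3 hK
        · linarith
        · have : (0 : ℝ) ≤ (kz n : ℝ) - 1 := by linarith
          positivity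
        · positivity
    _ = (Real.log n ^ (A + 1) * (2 * K * (2 + C))) * (n / w) := by
        rw [pow_succ]; ring
    _ ≤ (Real.log n ^ (A + 1) * (2 * (K + 1) * (2 + C))) * (n / w) := by
        apply mul_le_mul_of_nonneg_right _ (by positivity)
        apply mul_le_mul_of_nonneg_left _ (by positivity)
        apply mul_le_mul_of_nonneg_right _ (by positivity)
        linarith
    _ ≤ w * (n / w) := mul_le_mul_of_nonneg_right h12 (by positivity)
    _ = n := by field_simp

theorem p_sq : S_sq := by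
  intro hwm hwin
  classical
  intro ι _ _ _ D F B0 M B A hD hB0 hM
  obtain ⟨C, hC1, hC⟩ := cm_wm_X_le F
  obtain ⟨_, hev⟩ := hwin ι D F
  set K : ℝ := (2 ^ (Fintype.card ι * (B0 + 1)) * (B : ℝ)) ^ 2 with hK
  have hK0 : 0 ≤ K := by positivity
  have hkz : Tendsto (fun n : ℕ => (n : ℝ) ^ (1 / 11 : ℝ)) atTop atTop :=
    (tendsto_rpow_atTop (by norm_num)).comp tendsto_natCast_atTop_atTop
  filter_upwards [hev, hwm ι D F B0 M B hD hB0 hM, cm_sq_asym C A hC1 K hK0,
    eventually_ge_atTop 1, hkz.eventually_ge_atTop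
      ((2 + ∑ i : ι, (F.u (some i)).natAbs : ℕ) : ℝ)] with n h1 h2 h3 hn1 hnk
  intro n' P hPar g hg i
  obtain ⟨hX, hw, _⟩ := h1
  have hkz1 : 2 + ∑ i : ι, (F.u (some i)).natAbs ≤ kz n := by
    have h4 : ((2 + ∑ i : ι, (F.u (some i)).natAbs : ℕ) : ℝ) ≤ (kz n : ℝ) := by
      unfold kz
      exact hnk.trans (Nat.le_ceil _)
    exact_mod_cast h4
  have hui : (F.u (some i)).natAbs < kz n := by
    have h4 : (F.u (some i)).natAbs ≤ ∑ i : ι, (F.u (some i)).natAbs :=
      Finset.single_le_sum (f := fun i : ι => (F.u (some i)).natAbs)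
        (fun _ _ => Nat.zero_le _) (Finset.mem_univ i)
    omega
  set S := (Ioo 0 n).filter (fun x : ℕ => ∃ q : ℕ, q.Prime ∧ kz n ≤ q ∧ q ^ 2 ≤ C * n ∧
      ((q : ℤ) ^ 2) ∣ F.u (some i) * x + F.v n (some i)) with hS
  have hcard := cm_sq_count (F.u (some i)) (F.v n (some i)) n (kz n) (C * n) (by omega)
    (F.hu (some i)) hui
  have hlogC : 0 ≤ Real.log (C * n) := by
    apply Real.log_nonneg
    have h4 : (1 : ℝ) ≤ C := by exact_mod_cast hC1
    have h5 : (1 : ℝ) ≤ n := by exact_mod_cast hn1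
    nlinarith
  have hterm : ∀ x ∈ Ioo 0 n, F.a0 n (F.L n none x).toNat *
      (if F.Rg n (z0 D n') x then ZI (DF F n P) g x ^ 2 *
        (if ∃ q : ℕ, q.Prime ∧ kz n ≤ q ∧ q ^ 2 ∣ (F.L n (some i) x).toNat then 1 else 0) else 0)
      ≤ if x ∈ S then Real.log (C * n) * K else 0 := by
    intro x hx
    by_cases ha : F.a0 n (F.L n none x).toNat = 0
    · rw [ha, zero_mul]
      split_ifs
      · positivity
      · exact le_rfl
    by_cases hR : F.Rg n (z0 D n') x
    · rw [if_pos hR]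
      by_cases hq : ∃ q : ℕ, q.Prime ∧ kz n ≤ q ∧ q ^ 2 ∣ (F.L n (some i) x).toNat
      · rw [if_pos hq, mul_one]
        obtain ⟨_, _, hv⟩ := cm_wm_vals F hX hw ha
        have hxS : x ∈ S := by
          rw [hS, Finset.mem_filter]
          refine ⟨hx, ?_⟩
          obtain ⟨q, hqp, hkq, hqd⟩ := hq
          have hm := (hv (some i)).1
          have hm2 := (hv (some i)).2.trans (hC n hn1 (some i))
          have hm3 : ((F.L n (some i) x).toNat : ℤ) = F.L n (some i) x := Int.toNat_of_nonneg hm.le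
          refine ⟨q, hqp, hkq, ?_, ?_⟩
          · have h4 : q ^ 2 ≤ (F.L n (some i) x).toNat := Nat.le_of_dvd (by omega) hqd
            have h5 : (F.L n (some i) x).toNat ≤ C * n := by
              have h6 : (((F.L n (some i) x).toNat : ℤ) : ℝ) ≤ C * n := by
                rw [hm3]; exact hm2
              exact_mod_cast h6
            exact h4.trans h5
          · have h4 : ((q ^ 2 : ℕ) : ℤ) ∣ ((F.L n (some i) x).toNat : ℤ) := by
              exact_mod_cast hqd
            rw [hm3] at h4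
            push_cast at h4
            exact h4
        rw [if_pos hxS]
        have h4 := h2 n' P hPar g hg x ha hR
        have h5 : F.a0 n (F.L n none x).toNat ≤ Real.log (C * n) := by
          unfold Fam.a0 Fam.wi wd tri thP
          have hm := (hv none).1
          have hm2 := (hv none).2.trans (hC n hn1 none)
          have hm3 : ((F.L n none x).toNat : ℤ) = F.L n none x := Int.toNat_of_nonneg hm.le
          have hm4 : ((F.L n none x).toNat : ℝ) ≤ C * n := by
            have h6 : (((F.L n none x).toNat : ℤ) : ℝ) ≤ C * n := by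
              rw [hm3]; exact hm2
            exact_mod_cast h6
          have hm5 : 0 < (F.L n none x).toNat := by omega
          have h7 : Real.log ((F.L n none x).toNat : ℝ) ≤ Real.log (C * n) :=
            Real.log_le_log (by exact_mod_cast hm5) hm4
          have h8 : 0 ≤ Real.log ((F.L n none x).toNat : ℝ) :=
            Real.log_nonneg (by exact_mod_cast hm5)
          have h9 : max 0 (1 - |F.la none * Real.log (((F.L n none x).toNat : ℝ) / F.X n none)|)
              ≤ 1 := max_le (by norm_num) (by linarith [abs_nonneg (F.la none *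
                Real.log (((F.L n none x).toNat : ℝ) / F.X n none))])
          have h10 : 0 ≤ max 0 (1 - |F.la none *
              Real.log (((F.L n none x).toNat : ℝ) / F.X n none)|) := le_max_left _ _
          split_ifs
          · calc _ ≤ Real.log ((F.L n none x).toNat : ℝ) * 1 :=
                  mul_le_mul_of_nonneg_left h9 h8
              _ ≤ _ := by rw [mul_one]; exact h7
          · rw [zero_mul]; exact hlogC
        exact mul_le_mul h5 h4 (by positivity) hlogC
      · rw [if_neg hq, mul_zero, mul_zero]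
        split_ifs
        · positivity
        · exact le_rfl
    · rw [if_neg hR, mul_zero]
      split_ifs
      · positivity
      · exact le_rfl
  refine (Finset.sum_le_sum hterm).trans ?_
  rw [← Finset.sum_filter, Finset.sum_const, nsmul_eq_mul]
  have hSS : (Ioo 0 n).filter (fun x => x ∈ S) = S := by
    ext x
    rw [Finset.mem_filter]
    constructor
    · exact fun h => h.2
    · intro h
      refine ⟨?_, h⟩
      rw [hS, Finset.mem_filter] at h
      exact h.1
  rw [hSS]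
  have h4 : (S.card : ℝ) * (Real.log (C * n) * K) ≤
      (n / ((kz n : ℝ) - 1) + Real.sqrt ((C * n : ℕ) : ℝ)) * (Real.log (C * n) * K) :=
    mul_le_mul_of_nonneg_right hcard (by positivity)
  calc _ ≤ _ := h4
    _ = Real.log (C * n) * K * (n / ((kz n : ℝ) - 1) + Real.sqrt ((C * n : ℕ) : ℝ)) := by ring
    _ ≤ _ := h3

end Pool.Agent.CM.F
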