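import Pool.Agent.Lib.MP_0da313_nt.CM.S
import Pool.Agent.Lib.MP_d610d0_nt.CH.S.P.ss

set_option autoImplicit false

/-!
[CM ss] The supersolution of the linear sieve with the values which are needed.
-/

namespace Pool.Agent.CM.S

open Finset
open Pool.Agent.CH.S

private lemma ss_SS : SS (cs_ss_F cs_ss_u) (cs_ss_F cs_ss_l) (cs_ss_G cs_ss_u cs_ss_U)
    (cs_ss_G cs_ss_l cs_ss_L) (3665292 / 10 ^ 6) := by
  constructor
  · intro x y hx hxy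
    exact cs_ss_Su.F_anti x y (by norm_num; exact hx) hxy
  · intro x y hx hxy
    exact cs_ss_Sl.F_anti x y (by norm_num; exact hx) hxy
  · intro x hx
    exact cs_ss_Su.pos _ (cs_ss_le_fl (by norm_num; exact hx))
  · intro x hx
    exact cs_ss_Sl.pos _ (cs_ss_le_fl (by norm_num; exact hx))
  · intro x y hx hxy
    exact cs_ss_Su.G_int x y (by norm_num; exact hx) hxy
  · intro x y hx hxy
    exact cs_ss_Sl.G_int x y (by norm_num; exact hx) hxy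
  · intro x hx
    exact cs_ss_Su.G_nn x (by norm_num; exact hx)
  · intro x hx
    exact cs_ss_Sl.G_nn x (by norm_num; exact hx)
  · intro s hs
    have h1 := cs_ss_Su.G_le (s - 1) (by norm_num; linarith)
    rw [cs_ss_fl_sub] at h1
    have h2 := cs_ss_low ⌊50 * s⌋₊ (cs_ss_le_fl (by norm_num; exact hs))
    obtain ⟨h3, h4⟩ := cs_ss_fl (show 0 ≤ s by linarith)
    have h5 := cs_ss_Sl.pos ⌊50 * s⌋₊ (cs_ss_le_fl (by norm_num; exact hs))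
    have h6 : ((⌊50 * s⌋₊ : ℕ) : ℝ) / 50 * cs_ss_l ⌊50 * s⌋₊ ≤ s * cs_ss_l ⌊50 * s⌋₊ :=
      mul_le_mul_of_nonneg_right (by linarith) h5.le
    change _ ≤ s * cs_ss_l ⌊50 * s⌋₊
    linarith
  · intro s hs
    have h1 := cs_ss_Sl.G_le (s - 1) (by norm_num; linarith)
    rw [cs_ss_fl_sub] at h1
    have h2 := cs_ss_up ⌊50 * s⌋₊ (cs_ss_le_fl (by norm_num; exact hs))
    obtain ⟨h3, h4⟩ := cs_ss_fl (show 0 ≤ s by linarith)
    have h5 := cs_ss_Su.pos ⌊50 * s⌋₊ (cs_ss_le_fl (by norm_num; linarith))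
    have h6 : ((⌊50 * s⌋₊ : ℕ) : ℝ) / 50 * cs_ss_u ⌊50 * s⌋₊ ≤ s * cs_ss_u ⌊50 * s⌋₊ :=
      mul_le_mul_of_nonneg_right (by linarith) h5.le
    change _ ≤ s * cs_ss_u ⌊50 * s⌋₊
    linarith
  · intro s hs1 hs3
    have h50 : 50 ≤ ⌊50 * s⌋₊ := cs_ss_le_fl (by norm_num; exact hs1)
    have h150 : ⌊50 * s⌋₊ < 150 := by
      rw [Nat.floor_lt (by linarith)]; push_cast; linarith
    obtain ⟨h3, h4⟩ := cs_ss_fl (show 0 ≤ s by linarith)
    change _ ≤ 1 + cs_ss_u ⌊50 * s⌋₊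
    unfold cs_ss_u
    rw [if_pos (by omega)]
    have h2 := cs_ss_c13 (⌊50 * s⌋₊ - 50) (by omega)
    rw [show ⌊50 * s⌋₊ - 50 + 50 = ⌊50 * s⌋₊ by omega] at h2
    have h5 : (3665292 : ℝ) * 50 ≤ ((⌊50 * s⌋₊ : ℕ) : ℝ)
        * (10 ^ 6 + ((cs_ss_tu.getD (⌊50 * s⌋₊ - 50) 0 : ℕ) : ℝ)) := by exact_mod_cast h2
    rw [div_le_iff₀ (by linarith)]
    have h6 : ((⌊50 * s⌋₊ : ℕ) : ℝ) * (10 ^ 6 + ((cs_ss_tu.getD (⌊50 * s⌋₊ - 50) 0 : ℕ) : ℝ))
        ≤ 50 * s * (10 ^ 6 + ((cs_ss_tu.getD (⌊50 * s⌋₊ - 50) 0 : ℕ) : ℝ)) :=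
      mul_le_mul_of_nonneg_right h3 (by positivity)
    have e : (1 + ((cs_ss_tu.getD (⌊50 * s⌋₊ - 50) 0 : ℕ) : ℝ) / 10 ^ 6) * s
        = (50 * s * (10 ^ 6 + ((cs_ss_tu.getD (⌊50 * s⌋₊ - 50) 0 : ℕ) : ℝ))) / (50 * 10 ^ 6) := by
      ring
    rw [e]
    linarith
  · have hf : ⌊50 * (3 : ℝ)⌋₊ = 150 := by norm_num
    change 3 * (1 + 1 / 200) * (1 + cs_ss_u ⌊50 * (3 : ℝ)⌋₊) ≤ _
    rw [hf]
    unfold cs_ss_u
    rw [if_pos (by norm_num)]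
    have h1 := cs_ss_c14
    have h2 : (3 : ℝ) * 201 * (10 ^ 6 + ((cs_ss_tu.getD (150 - 50) 0 : ℕ) : ℝ)) ≤ 200 * 3665292 := by
      exact_mod_cast h1
    linarith

/-- the value of the step function at a grid point -/
private lemma ss_grid (f : ℕ → ℝ) (i : ℕ) : cs_ss_F f ((i : ℝ) / 50) = f i := by
  unfold cs_ss_F
  rw [mul_div_cancel₀ (i : ℝ) (by norm_num : (50 : ℝ) ≠ 0), Nat.floor_natCast]

/-- upper bounds for the terms, times `10^9` -/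
private def ss_c (i : ℕ) : ℕ :=
  (1000 * (10 ^ 6 + cs_ss_tu.getD (i - 50) 0) * (2 * (272 - i) + 1)) /
    (2 * (272 - i) * (273 - i)) + 1

private lemma ss_term (i : ℕ) (h1 : i < 272) :
    (1 + cs_ss_u i) * ((2 * (272 - (i : ℝ)) + 1) / (2 * (272 - (i : ℝ)) * (273 - (i : ℝ)))) ≤
      (ss_c i : ℝ) / 10 ^ 9 := by
  obtain ⟨j, hj⟩ : ∃ j, i + j + 1 = 272 := ⟨271 - i, by omega⟩
  have e1 : 272 - i = j + 1 := by omega
  have e2 : 273 - i = j + 2 := by omega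
  have e3 : (272 : ℝ) - (i : ℝ) = (j : ℝ) + 1 := by
    have : ((i + j + 1 : ℕ) : ℝ) = ((272 : ℕ) : ℝ) := by rw [hj]
    push_cast at this
    linarith
  have e4 : (273 : ℝ) - (i : ℝ) = (j : ℝ) + 2 := by linarith
  unfold ss_c cs_ss_u
  rw [if_pos (by omega), e1, e2, e3, e4]
  set t := cs_ss_tu.getD (i - 50) 0
  have hM : 0 < 2 * (j + 1) * (j + 2) := by positivity
  have h := Nat.lt_mul_div_succ (1000 * (10 ^ 6 + t) * (2 * (j + 1) + 1)) hM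
  have h' : ((1000 * (10 ^ 6 + t) * (2 * (j + 1) + 1) : ℕ) : ℝ) ≤
      ((2 * (j + 1) * (j + 2) * ((1000 * (10 ^ 6 + t) * (2 * (j + 1) + 1)) /
        (2 * (j + 1) * (j + 2)) + 1) : ℕ) : ℝ) := by
    exact_mod_cast h.le
  set c : ℕ := (1000 * (10 ^ 6 + t) * (2 * (j + 1) + 1)) / (2 * (j + 1) * (j + 2)) + 1
  push_cast at h'
  have hj0 : (0 : ℝ) ≤ j := Nat.cast_nonneg j
  have hM' : (0 : ℝ) < 2 * ((j : ℝ) + 1) * ((j : ℝ) + 2) := by positivity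
  rw [mul_div_assoc', div_le_div_iff₀ hM' (by norm_num)]
  have e5 : (1 + (t : ℝ) / 10 ^ 6) * (2 * ((j : ℝ) + 1) + 1) * 10 ^ 9 =
      1000 * (10 ^ 6 + (t : ℝ)) * (2 * ((j : ℝ) + 1) + 1) := by ring
  rw [e5]
  have e6 : (c : ℝ) * (2 * ((j : ℝ) + 1) * ((j : ℝ) + 2)) =
      2 * ((j : ℝ) + 1) * ((j : ℝ) + 2) * (c : ℝ) := by ring
  have e7 : (1000 : ℝ) * (10 ^ 6 + (t : ℝ)) * (2 * ((j : ℝ) + 1) + 1) =
      1000 * (1000000 + (t : ℝ)) * (2 * ((j : ℝ) + 1) + 1) := by norm_num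
  rw [e6, e7]
  exact h'

private lemma ss_sum : ∑ i ∈ (Icc 90 222 : Finset ℕ), ss_c i ≤ 1564200000 := by decide +kernel

theorem p_ss : S_ss := by
  refine ⟨_, _, _, _, _, ss_SS, ?_, ?_, ?_, ?_⟩
  · have h := ss_grid cs_ss_u 150
    rw [show ((150 : ℕ) : ℝ) / 50 = 3 by norm_num] at h
    rw [h]
    unfold cs_ss_u
    rw [if_pos (by norm_num)]
    have h1 : cs_ss_tu.getD (150 - 50) 0 = 215660 := by decide +kernel
    rw [h1]
    norm_num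
  · have h := ss_grid cs_ss_l 273
    rw [show ((273 : ℕ) : ℝ) / 50 = 273 / 50 by norm_num] at h
    rw [h]
    unfold cs_ss_l
    rw [if_pos (by norm_num)]
    have h1 : cs_ss_tl.getD (273 - 100) 0 = 1600 := by decide +kernel
    rw [h1]
    norm_num
  · have h := ss_grid cs_ss_u 273
    rw [show ((273 : ℕ) : ℝ) / 50 = 273 / 50 by norm_num] at h
    rw [h]
    unfold cs_ss_u
    rw [if_pos (by norm_num)]
    have h1 : cs_ss_tu.getD (273 - 50) 0 = 1600 := by decide +kernel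
    rw [h1]
    norm_num
  · unfold T2n
    have h1 : ∀ i ∈ (Icc 90 222 : Finset ℕ), (1 + cs_ss_F cs_ss_u ((i : ℝ) / 50)) *
        ((2 * (272 - (i : ℝ)) + 1) / (2 * (272 - (i : ℝ)) * (273 - (i : ℝ)))) ≤
        (ss_c i : ℝ) / 10 ^ 9 := by
      intro i hi
      rw [Finset.mem_Icc] at hi
      rw [ss_grid]
      exact ss_term i (by omega)
    have h2 := Finset.sum_le_sum h1
    rw [← Finset.sum_div, ← Nat.cast_sum] at h2
    have h3 : ((∑ i ∈ (Icc 90 222 : Finset ℕ), ss_c i : ℕ) : ℝ) ≤ 1564200000 := by exact_mod_cast ss_sum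
    have h4 : cs_ss_F cs_ss_u (89 / 50) ≤ 106 / 100 := by
      have h := ss_grid cs_ss_u 89
      rw [show ((89 : ℕ) : ℝ) / 50 = 89 / 50 by norm_num] at h
      rw [h]
      unfold cs_ss_u
      rw [if_pos (by norm_num)]
      have h1 : cs_ss_tu.getD (89 - 50) 0 ≤ 1060000 := by decide +kernel
      have h2 : ((cs_ss_tu.getD (89 - 50) 0 : ℕ) : ℝ) ≤ 1060000 := by exact_mod_cast h1
      rw [div_le_iff₀ (by norm_num)]
      linarith
    have h5 : (1 + cs_ss_F cs_ss_u (89 / 50)) * ((550 / 549 - 549 / 550) / 2) ≤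
        (1 + 106 / 100) * ((550 / 549 - 549 / 550) / 2) := by
      apply mul_le_mul_of_nonneg_right _ (by norm_num)
      linarith
    have h6 : ((∑ i ∈ (Icc 90 222 : Finset ℕ), ss_c i : ℕ) : ℝ) / 10 ^ 9 ≤ 1564200000 / 10 ^ 9 :=
      div_le_div_of_nonneg_right h3 (by norm_num)
    have h7 : (1564200000 : ℝ) / 10 ^ 9 + (1 + 106 / 100) * ((550 / 549 - 549 / 550) / 2) ≤
        15680 / 10000 := by norm_num
    linarith

end Pool.Agent.CM.S
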