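import Pool.Agent.Lib.MP_0da313_nt.CM.C

set_option autoImplicit false

/-!
Project CM, piece sv: a lower bound for the singular product.
-/

namespace Pool.Agent.CM.C

open Finset Filter

private lemma cm_sv_exp (t : ℝ) (h0 : 0 ≤ t) (h1 : t ≤ 1 / 2) :
    Real.exp (-(t + t ^ 2)) ≤ 1 - t := by
  have hu : 0 ≤ t + t ^ 2 := by positivity
  have h2 := Real.quadratic_le_exp_of_nonneg hu
  have h3 : 1 ≤ (1 - t) * Real.exp (t + t ^ 2) := by
    have h4 : 1 ≤ (1 - t) * (1 + (t + t ^ 2) + (t + t ^ 2) ^ 2 / 2) := by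
      have h5 : (1 - t) * (1 + (t + t ^ 2) + (t + t ^ 2) ^ 2 / 2) - 1
          = t ^ 2 / 2 * (1 - t - t ^ 2 - t ^ 3) := by ring
      have h6 : 0 ≤ 1 - t - t ^ 2 - t ^ 3 := by
        have h7 : t ^ 2 ≤ (1 / 2) ^ 2 := pow_le_pow_left₀ h0 h1 2
        have h8 : t ^ 3 ≤ (1 / 2) ^ 3 := pow_le_pow_left₀ h0 h1 3
        norm_num at h7 h8
        linarith
      have h9 : 0 ≤ t ^ 2 / 2 * (1 - t - t ^ 2 - t ^ 3) := mul_nonneg (by positivity) h6
      linarith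
    exact h4.trans (mul_le_mul_of_nonneg_left h2 (by linarith))
  rw [Real.exp_neg, inv_eq_one_div, div_le_iff₀ (Real.exp_pos _)]
  exact h3

private lemma cm_sv_fac (k p w : ℕ) (hp : p.Prime) (hk : w ≤ k) (hw : w < p) :
    (if p ≤ 2 * k then (1 : ℝ) / (2 * k + 1) else 1)
      * Real.exp (-(k * (1 / (p : ℝ)) + k ^ 2 * ((p : ℝ) ^ 2)⁻¹)) ≤ 1 - (w : ℝ) / p := by
  have hp0 : (0 : ℝ) < p := by exact_mod_cast hp.pos
  have hwp : (w : ℝ) + 1 ≤ p := by exact_mod_cast hw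
  have hwk : (w : ℝ) ≤ k := by exact_mod_cast hk
  have hk0 : (0 : ℝ) ≤ k := Nat.cast_nonneg _
  split_ifs with h
  · have h1 : Real.exp (-(k * (1 / (p : ℝ)) + k ^ 2 * ((p : ℝ) ^ 2)⁻¹)) ≤ 1 := by
      rw [Real.exp_le_one_iff]
      have : 0 ≤ k * (1 / (p : ℝ)) + k ^ 2 * ((p : ℝ) ^ 2)⁻¹ := by positivity
      linarith
    have h2 : (1 : ℝ) / (2 * k + 1) ≤ 1 - (w : ℝ) / p := by
      have h3 : (p : ℝ) ≤ 2 * k + 1 := by
        have : (p : ℝ) ≤ 2 * k := by exact_mod_cast h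
        linarith
      calc (1 : ℝ) / (2 * k + 1) ≤ 1 / p := one_div_le_one_div_of_le hp0 h3
        _ ≤ 1 - (w : ℝ) / p := by
            rw [div_le_iff₀ hp0, sub_mul, div_mul_cancel₀ _ hp0.ne']
            linarith
    calc (1 : ℝ) / (2 * k + 1) * Real.exp (-(k * (1 / (p : ℝ)) + k ^ 2 * ((p : ℝ) ^ 2)⁻¹))
        ≤ 1 / (2 * k + 1) * 1 := mul_le_mul_of_nonneg_left h1 (by positivity)
      _ ≤ _ := by rw [mul_one]; exact h2
  · rw [one_mul]
    have h3 : (2 * k : ℝ) ≤ p := by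
      have : 2 * k ≤ p := by omega
      exact_mod_cast this
    have ht : (w : ℝ) / p ≤ 1 / 2 := by
      rw [div_le_iff₀ hp0]
      linarith
    have ht0 : 0 ≤ (w : ℝ) / p := by positivity
    refine le_trans ?_ (cm_sv_exp _ ht0 ht)
    rw [Real.exp_le_exp]
    have h4 : (w : ℝ) / p ≤ k * (1 / (p : ℝ)) := by
      rw [mul_one_div]
      exact div_le_div_of_nonneg_right hwk hp0.le
    have h5 : ((w : ℝ) / p) ^ 2 ≤ k ^ 2 * ((p : ℝ) ^ 2)⁻¹ := by
      have h6 := pow_le_pow_left₀ ht0 h4 2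
      calc ((w : ℝ) / p) ^ 2 ≤ (k * (1 / (p : ℝ))) ^ 2 := h6
        _ = k ^ 2 * ((p : ℝ) ^ 2)⁻¹ := by rw [mul_pow, one_div, inv_pow]
    linarith

theorem p_sv : S_sv := by
  rintro ⟨C, hC⟩ k
  set K0 : ℝ := 1 / 2 - Real.log (Real.log 2) + C / Real.log 2 with hK0
  refine ⟨((1 : ℝ) / (2 * k + 1)) ^ (2 * k) * Real.exp (-(k * K0 + k ^ 2)), by positivity, ?_⟩
  intro n hn w hw
  have hn2 : (2 : ℝ) ≤ n := by exact_mod_cast hn
  have hlog : 0 < Real.log n := Real.log_pos (by linarith)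
  have hl2 : 0 < Real.log 2 := Real.log_pos (by norm_num)
  set S := (Icc 1 n).filter Nat.Prime with hS
  -- the sum of the reciprocals
  have hsum : ∑ p ∈ S, (1 : ℝ) / p ≤ Real.log (Real.log n) + K0 := by
    have h1 := (abs_le.1 (hC 2 n le_rfl hn)).2
    have h2 : S = insert 2 ((Ioc 2 n).filter Nat.Prime) := by
      ext p
      simp only [hS, mem_filter, mem_Icc, mem_insert, mem_Ioc]
      constructor
      · rintro ⟨⟨_, h3⟩, h4⟩
        have := h4.two_le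
        rcases eq_or_lt_of_le this with h5 | h5
        · exact Or.inl h5.symm
        · exact Or.inr ⟨⟨h5, h3⟩, h4⟩
      · rintro (rfl | ⟨⟨h3, h4⟩, h5⟩)
        · exact ⟨⟨by norm_num, hn⟩, Nat.prime_two⟩
        · exact ⟨⟨by omega, h4⟩, h5⟩
    rw [h2, sum_insert (by simp)]
    have h3 : Real.log (Real.log n / Real.log (2 : ℕ))
        = Real.log (Real.log n) - Real.log (Real.log 2) := by
      rw [Nat.cast_ofNat, Real.log_div hlog.ne' hl2.ne']
    rw [h3] at h1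
    push_cast at h1 ⊢
    rw [hK0]
    linarith
  have hsq : ∑ p ∈ S, ((p : ℝ) ^ 2)⁻¹ ≤ 1 := by
    have h1 : S ⊆ Ioc 1 n := by
      intro p hp
      simp only [hS, mem_filter, mem_Icc] at hp
      exact mem_Ioc.2 ⟨hp.2.one_lt, hp.1.2⟩
    calc ∑ p ∈ S, ((p : ℝ) ^ 2)⁻¹ ≤ ∑ p ∈ Ioc 1 n, ((p : ℝ) ^ 2)⁻¹ :=
          sum_le_sum_of_subset_of_nonneg h1 fun _ _ _ => by positivity
      _ ≤ ((1 : ℕ) : ℝ)⁻¹ - (n : ℝ)⁻¹ :=
          sum_Ioc_inv_sq_le_sub one_ne_zero (by omega)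
      _ ≤ 1 := by
          have : 0 ≤ (n : ℝ)⁻¹ := by positivity
          simp only [Nat.cast_one, inv_one]
          linarith
  -- the product
  have hprod : (∏ p ∈ S, (if p ≤ 2 * k then (1 : ℝ) / (2 * k + 1) else 1))
      * Real.exp (∑ p ∈ S, -(k * (1 / (p : ℝ)) + k ^ 2 * ((p : ℝ) ^ 2)⁻¹))
      ≤ ∏ p ∈ S, (1 - (w p : ℝ) / p) := by
    rw [Real.exp_sum, ← prod_mul_distrib]
    refine prod_le_prod (fun p _ => ?_) (fun p hp => ?_)
    · refine mul_nonneg ?_ (Real.exp_pos _).le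
      split_ifs <;> positivity
    · have hp' : p.Prime := (mem_filter.1 hp).2
      exact cm_sv_fac k p (w p) hp' (hw p hp').1 (hw p hp').2
  have hsmall : ((1 : ℝ) / (2 * k + 1)) ^ (2 * k)
      ≤ ∏ p ∈ S, (if p ≤ 2 * k then (1 : ℝ) / (2 * k + 1) else 1) := by
    rw [prod_ite, prod_const, prod_const_one, mul_one]
    refine pow_le_pow_of_le_one (by positivity) ?_ ?_
    · rw [div_le_one (by positivity)]
      have : (0 : ℝ) ≤ k := Nat.cast_nonneg _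
      linarith
    · have h1 : S.filter (fun p => p ≤ 2 * k) ⊆ Icc 1 (2 * k) := by
        intro p hp
        simp only [hS, mem_filter, mem_Icc] at hp
        exact mem_Icc.2 ⟨hp.1.1.1, hp.2⟩
      simpa using card_le_card h1
  have hexp : Real.exp (-(k * K0 + k ^ 2)) / (Real.log n) ^ k
      ≤ Real.exp (∑ p ∈ S, -(k * (1 / (p : ℝ)) + k ^ 2 * ((p : ℝ) ^ 2)⁻¹)) := by
    have h1 : (Real.log n) ^ k = Real.exp (k * Real.log (Real.log n)) := by
      rw [Real.exp_nat_mul, Real.exp_log hlog]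
    rw [h1, ← Real.exp_sub, Real.exp_le_exp, sum_neg_distrib, sum_add_distrib, ← mul_sum,
      ← mul_sum]
    have hk0 : (0 : ℝ) ≤ k := Nat.cast_nonneg _
    have h2 := mul_le_mul_of_nonneg_left hsum hk0
    have h3 := mul_le_mul_of_nonneg_left hsq (by positivity : (0 : ℝ) ≤ (k : ℝ) ^ 2)
    linarith
  calc ((1 : ℝ) / (2 * k + 1)) ^ (2 * k) * Real.exp (-(k * K0 + k ^ 2)) / (Real.log n) ^ k
      = ((1 : ℝ) / (2 * k + 1)) ^ (2 * k)
        * (Real.exp (-(k * K0 + k ^ 2)) / (Real.log n) ^ k) := by ring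
    _ ≤ (∏ p ∈ S, (if p ≤ 2 * k then (1 : ℝ) / (2 * k + 1) else 1))
        * Real.exp (∑ p ∈ S, -(k * (1 / (p : ℝ)) + k ^ 2 * ((p : ℝ) ^ 2)⁻¹)) := by
        refine mul_le_mul hsmall hexp (by positivity) ?_
        exact prod_nonneg fun p _ => by split_ifs <;> positivity
    _ ≤ _ := hprod

end Pool.Agent.CM.C
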