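import Pool.Agent.Lib.MP_0da313_nt.CM.B

set_option autoImplicit false

/-!
Project CM, `p_swp`: exchange of the sums.
-/

namespace Pool.Agent.CM.B

open Finset Filter
open Pool.Agent.MP89da58 (tri primChars)

theorem p_swp : S_swp := by
  classical
  intro f lam X Y
  have hp0 : ∀ s r, 0 ≤ pS f lam X s r := by
    intro s r
    unfold pS
    refine Finset.sum_nonneg fun χ _ => ?_
    exact Set.indicator_nonneg (fun _ _ => norm_nonneg _) _
  have h0 : ∑ s ∈ Icc 1 Y, 1 / (Nat.totient s : ℝ) * ∑ r ∈ Icc 2 Y,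
      1 / (Nat.totient r : ℝ) * pS f lam X s r =
      ∑ y ∈ (Icc 1 Y) ×ˢ (Icc 2 Y), 1 / (Nat.totient y.1 : ℝ) *
        (1 / (Nat.totient y.2 : ℝ) * pS f lam X y.1 y.2) := by
    rw [Finset.sum_product]
    refine Finset.sum_congr rfl fun s _ => ?_
    rw [Finset.mul_sum]
  rw [h0]
  have h1 : ∑ Q ∈ Icc 1 Y, 1 / (Nat.totient Q : ℝ) *
      ∑ r ∈ Q.divisors.filter (fun r => 2 ≤ r), pS f lam X (Q / r) r ≤
      ∑ x ∈ (Icc 1 Y).sigma (fun Q => Q.divisors.filter (fun r => 2 ≤ r)),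
        1 / (Nat.totient (x.1 / x.2) : ℝ) *
          (1 / (Nat.totient x.2 : ℝ) * pS f lam X (x.1 / x.2) x.2) := by
    rw [Finset.sum_sigma]
    refine Finset.sum_le_sum fun Q hQ => ?_
    rw [Finset.mul_sum]
    refine Finset.sum_le_sum fun r hr => ?_
    have hrQ : r ∣ Q := Nat.dvd_of_mem_divisors (Finset.mem_filter.1 hr).1
    have hQ1 := (Finset.mem_Icc.1 hQ).1
    have hr0 : 0 < r := Nat.pos_of_dvd_of_pos hrQ (by omega)
    have hm0 : 0 < Q / r := Nat.div_pos (Nat.le_of_dvd (by omega) hrQ) hr0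
    have hφr : (0 : ℝ) < Nat.totient r := by exact_mod_cast Nat.totient_pos.2 hr0
    have hφm : (0 : ℝ) < Nat.totient (Q / r) := by exact_mod_cast Nat.totient_pos.2 hm0
    have h2 : (Nat.totient r : ℝ) * Nat.totient (Q / r) ≤ Nat.totient Q := by
      have := Nat.totient_super_multiplicative r (Q / r)
      rw [Nat.mul_div_cancel' hrQ] at this
      exact_mod_cast this
    have h3 : 1 / (Nat.totient Q : ℝ) ≤ 1 / ((Nat.totient r : ℝ) * Nat.totient (Q / r)) :=
      one_div_le_one_div_of_le (by positivity) h2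
    calc 1 / (Nat.totient Q : ℝ) * pS f lam X (Q / r) r
        ≤ 1 / ((Nat.totient r : ℝ) * Nat.totient (Q / r)) * pS f lam X (Q / r) r :=
          mul_le_mul_of_nonneg_right h3 (hp0 _ _)
      _ = _ := by
          show _ = 1 / (Nat.totient (Q / r) : ℝ) *
            (1 / (Nat.totient r : ℝ) * pS f lam X (Q / r) r)
          field_simp
  refine h1.trans ?_
  let τ : ((_ : ℕ) × ℕ) → ℕ × ℕ := fun x => (x.1 / x.2, x.2)
  have hinj : Set.InjOn τ ((Icc 1 Y).sigma (fun Q => Q.divisors.filter (fun r => 2 ≤ r)) :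
      Finset ((_ : ℕ) × ℕ)) := by
    rintro ⟨q, r⟩ hx ⟨q', r'⟩ hy hxy
    simp only [Finset.coe_sigma, Set.mem_sigma_iff, Finset.mem_coe] at hx hy
    simp only [τ, Prod.mk.injEq] at hxy
    obtain ⟨h2, rfl⟩ := hxy
    have h3 : r ∣ q := Nat.dvd_of_mem_divisors (Finset.mem_filter.1 hx.2).1
    have h4 : r ∣ q' := Nat.dvd_of_mem_divisors (Finset.mem_filter.1 hy.2).1
    have : q = q' := by
      rw [← Nat.mul_div_cancel' h3, ← Nat.mul_div_cancel' h4, h2]
    rw [this]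
  have h5 : ∑ x ∈ (Icc 1 Y).sigma (fun Q => Q.divisors.filter (fun r => 2 ≤ r)),
        1 / (Nat.totient (x.1 / x.2) : ℝ) *
          (1 / (Nat.totient x.2 : ℝ) * pS f lam X (x.1 / x.2) x.2) =
      ∑ y ∈ ((Icc 1 Y).sigma (fun Q => Q.divisors.filter (fun r => 2 ≤ r))).image τ,
        1 / (Nat.totient y.1 : ℝ) * (1 / (Nat.totient y.2 : ℝ) * pS f lam X y.1 y.2) := by
    rw [Finset.sum_image hinj]
  rw [h5]
  refine Finset.sum_le_sum_of_subset_of_nonneg ?_ ?_
  · intro y hy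
    obtain ⟨⟨q, r⟩, hx, rfl⟩ := Finset.mem_image.1 hy
    simp only [Finset.mem_sigma, Finset.mem_Icc, Finset.mem_filter] at hx
    obtain ⟨⟨hq1, hqN⟩, hr, hr2⟩ := hx
    have hrq : r ∣ q := Nat.dvd_of_mem_divisors hr
    have hr0 : 0 < r := by omega
    have hrN : r ≤ q := Nat.le_of_dvd (by omega) hrq
    have hm0 : 0 < q / r := Nat.div_pos hrN hr0
    have hmN : q / r ≤ q := Nat.div_le_self q r
    simp only [τ, Finset.mem_product, Finset.mem_Icc]
    omega
  · intro y _ _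
    exact mul_nonneg (by positivity) (mul_nonneg (by positivity) (hp0 _ _))

end Pool.Agent.CM.B
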