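import Pool.Agent.Lib.MP_0da313_nt.CM.S

set_option autoImplicit false

/-!
[CM t2] The sum over `q` in the Chen weight.
-/

namespace Pool.Agent.CM.S

open Finset Filter
open Pool.Agent.CH.S (th Pr gd)

private lemma t2_mem {a w p : ℕ} : p ∈ Pr a w ↔ p < w ∧ p.Prime ∧ a ≤ p := by
  simp [Pr]

/-- `log t ≤ (t - 1/t)/2` for `t ≥ 1` -/
private lemma t2_log {t : ℝ} (ht : 1 ≤ t) : Real.log t ≤ (t - 1 / t) / 2 := by
  have h0 : 0 < t := by linarith
  have h1 : Real.log t ≤ Real.sinh (Real.log t) :=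
    Real.self_le_sinh_iff.2 (Real.log_nonneg ht)
  rw [Real.sinh_log h0] at h1
  rw [one_div]
  exact h1

private lemma t2_logc {i : ℕ} (h : i < 272) :
    Real.log ((273 - (i : ℝ)) / (272 - (i : ℝ))) ≤
      (2 * (272 - (i : ℝ)) + 1) / (2 * (272 - (i : ℝ)) * (273 - (i : ℝ))) := by
  have hi : (i : ℝ) < 272 := by exact_mod_cast h
  have h1 : (0 : ℝ) < 272 - (i : ℝ) := by linarith
  have h2 : (0 : ℝ) < 273 - (i : ℝ) := by linarith
  have h3 : 1 ≤ (273 - (i : ℝ)) / (272 - (i : ℝ)) := by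
    rw [one_le_div h1]
    linarith
  refine (t2_log h3).trans (le_of_eq ?_)
  field_simp
  ring

theorem p_t2 : S_t2 := by
  intro hmer u hanti hpos C δ hC hδ
  obtain ⟨Cm, hCm, hM⟩ := hmer
  -- the limit of the bound
  have hlog : Tendsto (fun n : ℕ => Real.log (n : ℝ)) atTop atTop :=
    Real.tendsto_log_atTop.comp tendsto_natCast_atTop_atTop
  have hinv : ∀ c : ℝ, Tendsto (fun n : ℕ => c / Real.log (n : ℝ)) atTop (nhds 0) := fun c =>
    hlog.const_div_atTop c
  have hpow : Tendsto (fun n : ℕ => (n : ℝ) ^ (1 / 11 : ℝ) - 1) atTop atTop := by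
    have h1 : Tendsto (fun n : ℕ => (n : ℝ) ^ (1 / 11 : ℝ)) atTop atTop :=
      (tendsto_rpow_atTop (by norm_num : (0 : ℝ) < 1 / 11)).comp tendsto_natCast_atTop_atTop
    exact tendsto_atTop_add_const_right _ (-1) h1
  have hη : Tendsto (fun n : ℕ => 1 / ((n : ℝ) ^ (1 / 11 : ℝ) - 1)) atTop (nhds 0) :=
    hpow.const_div_atTop 1
  have hlim : Tendsto (fun n : ℕ => (1 + 1 / ((n : ℝ) ^ (1 / 11 : ℝ) - 1)) *
      (∑ i ∈ (Icc 90 222 : Finset ℕ), (1 + u ((i : ℝ) / 50)) *
          ((2 * (272 - (i : ℝ)) + 1) / (2 * (272 - (i : ℝ)) * (273 - (i : ℝ))) +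
            11 * Cm / Real.log (n : ℝ)) +
        (1 + u (89 / 50)) * ((550 / 549 - 549 / 550) / 2 + Real.log C / Real.log (n : ℝ) +
          11 * Cm / Real.log (n : ℝ)))) atTop
      (nhds ((1 + 0) * (∑ i ∈ (Icc 90 222 : Finset ℕ), (1 + u ((i : ℝ) / 50)) *
          ((2 * (272 - (i : ℝ)) + 1) / (2 * (272 - (i : ℝ)) * (273 - (i : ℝ))) + 0) +
        (1 + u (89 / 50)) * ((550 / 549 - 549 / 550) / 2 + 0 + 0)))) := by
    refine (tendsto_const_nhds.add hη).mul (Tendsto.add ?_ ?_)
    · refine tendsto_finsetSum _ fun i _ => ?_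
      exact tendsto_const_nhds.mul (tendsto_const_nhds.add (hinv _))
    · exact tendsto_const_nhds.mul ((tendsto_const_nhds.add (hinv _)).add (hinv _))
  have hval : (1 + 0) * (∑ i ∈ (Icc 90 222 : Finset ℕ), (1 + u ((i : ℝ) / 50)) *
          ((2 * (272 - (i : ℝ)) + 1) / (2 * (272 - (i : ℝ)) * (273 - (i : ℝ))) + 0) +
        (1 + u (89 / 50)) * ((550 / 549 - 549 / 550) / 2 + 0 + 0)) = T2n u := by
    unfold T2n
    simp only [add_zero, one_mul]
  rw [hval] at hlim
  have hev1 := (tendsto_order.1 hlim).2 (T2n u + δ) (by linarith)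
  have hev2 : ∀ᶠ n : ℕ in atTop, (550 : ℝ) * (1 + Real.log C) ≤ Real.log n :=
    hlog.eventually_ge_atTop _
  filter_upwards [hev1, hev2] with n hn1 hn2
  have hC1 : (1 : ℝ) ≤ C := by exact_mod_cast hC
  have hlC : 0 ≤ Real.log C := Real.log_nonneg hC1
  set L : ℝ := Real.log n with hL
  have hL550 : 550 ≤ L := by nlinarith
  have hL0 : 0 < L := by linarith
  have hn0 : (0 : ℝ) < n := by
    rcases Nat.eq_zero_or_pos n with h | h
    · exfalso
      rw [h, Nat.cast_zero, Real.log_zero] at hL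
      linarith
    · exact_mod_cast h
  have hl11 : Real.log ((n : ℝ) ^ (1 / 11 : ℝ)) = L / 11 := by
    rw [Real.log_rpow hn0]
    ring
  have hpow1 : Real.exp (L / 11) = (n : ℝ) ^ (1 / 11 : ℝ) := by
    rw [← hl11, Real.exp_log (Real.rpow_pos_of_pos hn0 _)]
  have hpow2 : 2 ≤ (n : ℝ) ^ (1 / 11 : ℝ) := by
    rw [← hpow1]
    have := Real.add_one_le_exp (L / 11)
    linarith
  have hlD : 0 < lD n := Real.rpow_pos_of_pos hn0 _
  have hllD : Real.log (lD n) = 273 / 550 * L := by
    unfold lD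
    rw [Real.log_rpow hn0]
  -- facts on the primes
  have hq : ∀ q ∈ Pr (kz n) (ky C n), 2 ≤ (q : ℝ) ∧ L / 11 ≤ Real.log q ∧
      Real.log q ≤ (L + Real.log C) / 3 ∧ (n : ℝ) ^ (1 / 11 : ℝ) ≤ q := by
    intro q hq
    rw [t2_mem] at hq
    have h2 : (2 : ℝ) ≤ q := by exact_mod_cast hq.2.1.two_le
    have h3 : (n : ℝ) ^ (1 / 11 : ℝ) ≤ q := by
      have := hq.2.2
      unfold kz at this
      rwa [Nat.ceil_le] at this
    have h4 : (q : ℝ) < ((C * n : ℕ) : ℝ) ^ (1 / 3 : ℝ) := by
      have := hq.1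
      unfold ky at this
      rwa [Nat.lt_ceil] at this
    refine ⟨h2, ?_, ?_, h3⟩
    · rw [← hl11]
      exact Real.log_le_log (Real.rpow_pos_of_pos hn0 _) h3
    · have h5 : (0 : ℝ) < ((C * n : ℕ) : ℝ) := by
        push_cast
        positivity
      have h6 := Real.log_le_log (by linarith) h4.le
      rw [Real.log_rpow h5] at h6
      have h7 : Real.log ((C * n : ℕ) : ℝ) = Real.log C + L := by
        push_cast
        rw [Real.log_mul (by linarith) hn0.ne']
      rw [h7] at h6
      linarith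
  set s : ℕ → ℝ := fun q => Real.log (lD n / q) / Real.log ((n : ℝ) ^ (1 / 11 : ℝ)) with hs
  have hsq : ∀ q ∈ Pr (kz n) (ky C n), 50 * s q = 273 - 550 * (Real.log q / L) := by
    intro q hq'
    have h2 := (hq q hq').1
    rw [hs]
    beta_reduce
    rw [hl11, Real.log_div hlD.ne' (by linarith), hllD]
    field_simp
    ring
  have hs89 : ∀ q ∈ Pr (kz n) (ky C n), 89 ≤ 50 * s q := by
    intro q hq'
    rw [hsq q hq']
    have h1 := (hq q hq').2.2.1
    have h2 : Real.log q / L ≤ 184 / 550 := by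
      rw [div_le_iff₀ hL0]
      linarith
    linarith
  set cl : ℕ → ℕ := fun q => min 222 ⌊50 * s q⌋₊ with hcl
  have hclm : ∀ q ∈ Pr (kz n) (ky C n), cl q ∈ Icc 89 222 := by
    intro q hq'
    rw [Finset.mem_Icc, hcl]
    beta_reduce
    have h1 : 89 ≤ ⌊50 * s q⌋₊ := by
      apply Nat.le_floor
      exact_mod_cast hs89 q hq'
    exact ⟨le_min (by norm_num) h1, min_le_left _ _⟩
  have hclle : ∀ q ∈ Pr (kz n) (ky C n), (cl q : ℝ) ≤ 50 * s q := by
    intro q hq'
    have h1 : (cl q : ℝ) ≤ (⌊50 * s q⌋₊ : ℝ) := by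
      exact_mod_cast min_le_right _ _
    exact h1.trans (Nat.floor_le (by linarith [hs89 q hq']))
  -- the terms
  have hη0 : 0 ≤ 1 / ((n : ℝ) ^ (1 / 11 : ℝ) - 1) := by
    apply div_nonneg zero_le_one
    linarith
  set η : ℝ := 1 / ((n : ℝ) ^ (1 / 11 : ℝ) - 1) with hηd
  have hterm : ∀ q ∈ Pr (kz n) (ky C n), gd q * (1 + u (s q)) ≤
      (1 + η) * (1 + u ((cl q : ℝ) / 50)) * (1 / (q : ℝ)) := by
    intro q hq'
    obtain ⟨h2, _, _, h5⟩ := hq q hq'
    have hc := Finset.mem_Icc.1 (hclm q hq')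
    have hc89 : (89 : ℝ) ≤ cl q := by exact_mod_cast hc.1
    have hcs := hclle q hq'
    have h6 : u (s q) ≤ u ((cl q : ℝ) / 50) := by
      apply hanti
      · linarith
      · linarith
    have h7 : 0 < u ((cl q : ℝ) / 50) := hpos _ (by linarith)
    have h8 : gd q ≤ (1 + η) * (1 / (q : ℝ)) := by
      unfold gd
      have h9 : 0 < (q : ℝ) - 1 := by linarith
      have h10 : 1 / ((q : ℝ) - 1) ≤ η := by
        rw [hηd]
        apply one_div_le_one_div_of_le
        · linarith
        · linarith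
      have h11 : 1 / ((q : ℝ) - 1) = (1 + 1 / ((q : ℝ) - 1)) * (1 / (q : ℝ)) := by
        field_simp
        ring
      rw [h11]
      apply mul_le_mul_of_nonneg_right _ (by positivity)
      linarith
    have h12 : 0 ≤ gd q := by
      unfold gd
      apply div_nonneg zero_le_one
      linarith
    calc gd q * (1 + u (s q)) ≤ gd q * (1 + u ((cl q : ℝ) / 50)) :=
          mul_le_mul_of_nonneg_left (by linarith) h12
      _ ≤ ((1 + η) * (1 / (q : ℝ))) * (1 + u ((cl q : ℝ) / 50)) :=
          mul_le_mul_of_nonneg_right h8 (by linarith)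
      _ = _ := by ring
  -- the sums over the classes
  have hcls : ∀ i ∈ (Icc 90 222 : Finset ℕ), ∑ q ∈ (Pr (kz n) (ky C n)).filter (fun q => cl q = i),
      1 / (q : ℝ) ≤ (2 * (272 - (i : ℝ)) + 1) / (2 * (272 - (i : ℝ)) * (273 - (i : ℝ))) +
        11 * Cm / L := by
    intro i hi
    rw [Finset.mem_Icc] at hi
    have hi1 : (i : ℝ) ≤ 222 := by exact_mod_cast hi.2
    have hx : (50 : ℝ) ≤ 272 - (i : ℝ) := by linarith
    have ha : 50 / 550 * L ≤ (272 - (i : ℝ)) / 550 * L :=
      mul_le_mul_of_nonneg_right (by linarith) hL0.le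
    have hab : (272 - (i : ℝ)) / 550 * L ≤ (273 - (i : ℝ)) / 550 * L :=
      mul_le_mul_of_nonneg_right (by linarith) hL0.le
    have h1 := hM ((Pr (kz n) (ky C n)).filter (fun q => cl q = i))
      (Real.exp ((272 - (i : ℝ)) / 550 * L)) (Real.exp ((273 - (i : ℝ)) / 550 * L))
      (by
        have := Real.add_one_le_exp ((272 - (i : ℝ)) / 550 * L)
        linarith)
      (Real.exp_le_exp.2 hab)
      (by
        intro q hq'
        rw [Finset.mem_filter] at hq'
        obtain ⟨hq1, hq2⟩ := hq'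
        obtain ⟨g1, g2, _, _⟩ := hq q hq1
        have hs1 := hsq q hq1
        have hs2 := hclle q hq1
        rw [hq2, hs1] at hs2
        have hq0 : (0 : ℝ) < q := by linarith
        refine ⟨(t2_mem.1 hq1).2.1, ?_, ?_⟩
        · rw [← Real.le_log_iff_exp_le hq0]
          by_cases h222 : i = 222
          · have h222' : (i : ℝ) = 222 := by exact_mod_cast h222
            rw [h222']
            linarith
          · have hlt : i < 222 := by omega
            have hf : ⌊50 * s q⌋₊ = i := by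
              rw [hcl] at hq2
              beta_reduce at hq2
              omega
            have h3 := Nat.lt_floor_add_one (50 * s q)
            rw [hf, hs1] at h3
            have h4 : (272 - (i : ℝ)) / 550 ≤ Real.log q / L := by linarith
            rwa [le_div_iff₀ hL0] at h4
        · rw [← Real.log_le_iff_le_exp hq0]
          have h4 : Real.log q / L ≤ (273 - (i : ℝ)) / 550 := by linarith
          rwa [div_le_iff₀ hL0] at h4)
    rw [Real.log_exp, Real.log_exp] at h1
    have h2 : (273 - (i : ℝ)) / 550 * L / ((272 - (i : ℝ)) / 550 * L) =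
        (273 - (i : ℝ)) / (272 - (i : ℝ)) := by
      have : (272 - (i : ℝ)) ≠ 0 := by linarith
      field_simp
    rw [h2] at h1
    have h3 := t2_logc (i := i) (by omega)
    have h4 : Cm / ((272 - (i : ℝ)) / 550 * L) ≤ 11 * Cm / L := by
      rw [div_le_div_iff₀ (by positivity) hL0]
      have h5 : Cm * L ≤ Cm * (11 * ((272 - (i : ℝ)) / 550 * L)) :=
        mul_le_mul_of_nonneg_left (by linarith) hCm
      linarith
    linarith
  have hcls89 : ∑ q ∈ (Pr (kz n) (ky C n)).filter (fun q => cl q = 89),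
      1 / (q : ℝ) ≤ (550 / 549 - 549 / 550) / 2 + Real.log C / L + 11 * Cm / L := by
    have h1 := hM ((Pr (kz n) (ky C n)).filter (fun q => cl q = 89))
      (Real.exp (183 / 550 * L)) (Real.exp ((L + Real.log C) / 3))
      (by
        have := Real.add_one_le_exp (183 / 550 * L)
        linarith)
      (Real.exp_le_exp.2 (by linarith))
      (by
        intro q hq'
        rw [Finset.mem_filter] at hq'
        obtain ⟨hq1, hq2⟩ := hq'
        obtain ⟨g1, g2, g3, _⟩ := hq q hq1
        have hs1 := hsq q hq1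
        have hq0 : (0 : ℝ) < q := by linarith
        refine ⟨(t2_mem.1 hq1).2.1, ?_, ?_⟩
        · rw [← Real.le_log_iff_exp_le hq0]
          have hf : ⌊50 * s q⌋₊ = 89 := by
            rw [hcl] at hq2
            beta_reduce at hq2
            omega
          have h3 := Nat.lt_floor_add_one (50 * s q)
          rw [hf, hs1] at h3
          have h4 : 183 / 550 ≤ Real.log q / L := by
            push_cast at h3
            linarith
          rwa [le_div_iff₀ hL0] at h4
        · rw [← Real.log_le_iff_le_exp hq0]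
          exact g3)
    rw [Real.log_exp, Real.log_exp] at h1
    have h2 : (L + Real.log C) / 3 / (183 / 550 * L) = 550 / 549 * (1 + Real.log C / L) := by
      field_simp
      ring
    rw [h2] at h1
    have h0 : 0 ≤ Real.log C / L := div_nonneg hlC hL0.le
    have h3 : Real.log (550 / 549 * (1 + Real.log C / L)) ≤
        (550 / 549 - 549 / 550) / 2 + Real.log C / L := by
      rw [Real.log_mul (by norm_num) (by linarith)]
      have h4 := t2_log (t := 550 / 549) (by norm_num)
      have h5 := Real.log_le_sub_one_of_pos (show 0 < 1 + Real.log C / L by linarith)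
      have h6 : (550 / 549 - 1 / (550 / 549)) / 2 = ((550 : ℝ) / 549 - 549 / 550) / 2 := by
        norm_num
      rw [h6] at h4
      linarith
    have h4 : Cm / (183 / 550 * L) ≤ 11 * Cm / L := by
      rw [div_le_div_iff₀ (by positivity) hL0]
      have h5 : Cm * L ≤ Cm * (11 * (183 / 550 * L)) :=
        mul_le_mul_of_nonneg_left (by linarith) hCm
      linarith
    linarith
  -- assembly
  have hu0 : ∀ i ∈ (Icc 89 222 : Finset ℕ), 0 ≤ (1 + η) * (1 + u ((i : ℝ) / 50)) := by
    intro i hi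
    rw [Finset.mem_Icc] at hi
    have h1 : (89 : ℝ) ≤ i := by exact_mod_cast hi.1
    have h2 := hpos ((i : ℝ) / 50) (by linarith)
    apply mul_nonneg <;> linarith
  refine le_trans ?_ hn1.le
  have hfib : ∑ q ∈ Pr (kz n) (ky C n), gd q * (1 + u (s q)) =
      ∑ i ∈ Icc 89 222, ∑ q ∈ (Pr (kz n) (ky C n)).filter (fun q => cl q = i),
        gd q * (1 + u (s q)) := (Finset.sum_fiberwise_of_maps_to hclm _).symm
  rw [hfib]
  have hstep : ∀ i ∈ (Icc 89 222 : Finset ℕ), ∑ q ∈ (Pr (kz n) (ky C n)).filter (fun q => cl q = i),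
        gd q * (1 + u (s q)) ≤ (1 + η) * (1 + u ((i : ℝ) / 50)) *
        ∑ q ∈ (Pr (kz n) (ky C n)).filter (fun q => cl q = i), 1 / (q : ℝ) := by
    intro i _
    rw [Finset.mul_sum]
    refine Finset.sum_le_sum fun q hq' => ?_
    rw [Finset.mem_filter] at hq'
    have := hterm q hq'.1
    rwa [hq'.2] at this
  refine (Finset.sum_le_sum hstep).trans ?_
  have hIcc : (Icc 89 222 : Finset ℕ) = insert 89 (Icc 90 222) := by
    ext x
    simp only [Finset.mem_insert, Finset.mem_Icc]
    omega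
  rw [hIcc, Finset.sum_insert (by simp), add_comm]
  have key1 : ∑ i ∈ (Icc 90 222 : Finset ℕ), (1 + η) * (1 + u ((i : ℝ) / 50)) *
      ∑ q ∈ (Pr (kz n) (ky C n)).filter (fun q => cl q = i), 1 / (q : ℝ) ≤
      (1 + η) * ∑ i ∈ (Icc 90 222 : Finset ℕ), (1 + u ((i : ℝ) / 50)) *
          ((2 * (272 - (i : ℝ)) + 1) / (2 * (272 - (i : ℝ)) * (273 - (i : ℝ))) +
            11 * Cm / L) := by
    rw [Finset.mul_sum (Icc 90 222 : Finset ℕ) _ (1 + η)]
    refine Finset.sum_le_sum fun i hi => ?_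
    have h1 := hcls i hi
    have h2 := hu0 i (by rw [Finset.mem_Icc] at hi ⊢; omega)
    calc _ ≤ (1 + η) * (1 + u ((i : ℝ) / 50)) *
        ((2 * (272 - (i : ℝ)) + 1) / (2 * (272 - (i : ℝ)) * (273 - (i : ℝ))) + 11 * Cm / L) :=
          mul_le_mul_of_nonneg_left h1 h2
      _ = _ := by ring
  have key2 : (1 + η) * (1 + u (((89 : ℕ) : ℝ) / 50)) *
      ∑ q ∈ (Pr (kz n) (ky C n)).filter (fun q => cl q = 89), 1 / (q : ℝ) ≤
      (1 + η) * ((1 + u (89 / 50)) * ((550 / 549 - 549 / 550) / 2 + Real.log C / L +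
          11 * Cm / L)) := by
    have h2 := hu0 89 (by simp)
    calc _ ≤ (1 + η) * (1 + u (((89 : ℕ) : ℝ) / 50)) *
        ((550 / 549 - 549 / 550) / 2 + Real.log C / L + 11 * Cm / L) :=
          mul_le_mul_of_nonneg_left hcls89 h2
      _ = _ := by
        push_cast
        ring
  have key := add_le_add key1 key2
  rw [← mul_add] at key
  exact key

end Pool.Agent.CM.S
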