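import Pool.Agent.Lib.MP_0da313_nt.CM.B

set_option autoImplicit false

/-!
Project CM, section B, piece tI: type I sums with the window `wd`.
-/

namespace Pool.Agent.CM.B

open Finset Filter
open ArithmeticFunction (vonMangoldt)
open Pool.Agent.MP89da58 (tri primChars)
open Pool.Agent.CH (thP)

private theorem tI_mono {a b : ℝ} (h : |b| ≤ |a|) : tri a ≤ tri b := by
  unfold tri
  exact max_le_max le_rfl (by linarith)

private theorem tI_nonneg (a : ℝ) : 0 ≤ tri a := le_max_left _ _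

private theorem tI_le_one (a : ℝ) : tri a ≤ 1 := by
  unfold tri
  exact max_le (by norm_num) (by linarith [abs_nonneg a])

private theorem tI_up (c X : ℝ) (hc : 0 ≤ c) (d n : ℕ) (hd : 1 ≤ d) (hn : 1 ≤ n)
    (h : ((d * (n + 1) : ℕ) : ℝ) ≤ X) :
    tri (c * Real.log (((d * n : ℕ) : ℝ) / X)) ≤ tri (c * Real.log (((d * (n + 1) : ℕ) : ℝ) / X)) := by
  have h0 : (0 : ℝ) < ((d * n : ℕ) : ℝ) := by
    have : 0 < d * n := Nat.mul_pos hd hn
    exact_mod_cast this
  have h1 : ((d * n : ℕ) : ℝ) ≤ ((d * (n + 1) : ℕ) : ℝ) := by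
    exact_mod_cast Nat.mul_le_mul_left d (Nat.le_succ n)
  have hX : 0 < X := lt_of_lt_of_le (lt_of_lt_of_le h0 h1) h
  have e1 : Real.log (((d * n : ℕ) : ℝ) / X) ≤ Real.log (((d * (n + 1) : ℕ) : ℝ) / X) :=
    Real.log_le_log (div_pos h0 hX) (div_le_div_of_nonneg_right h1 hX.le)
  have e2 : Real.log (((d * (n + 1) : ℕ) : ℝ) / X) ≤ 0 :=
    Real.log_nonpos (div_nonneg (h0.le.trans h1) hX.le) ((div_le_one hX).2 h)
  apply tI_mono
  rw [abs_mul, abs_mul, abs_of_nonneg hc, abs_of_nonpos e2, abs_of_nonpos (e1.trans e2)]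
  exact mul_le_mul_of_nonneg_left (by linarith) hc

private theorem tI_down (c X : ℝ) (hc : 0 ≤ c) (hX : 0 < X) (d n : ℕ)
    (h : X < ((d * n : ℕ) : ℝ)) :
    tri (c * Real.log (((d * (n + 1) : ℕ) : ℝ) / X)) ≤ tri (c * Real.log (((d * n : ℕ) : ℝ) / X)) := by
  have h0 : (0 : ℝ) < ((d * n : ℕ) : ℝ) := hX.trans h
  have h1 : ((d * n : ℕ) : ℝ) ≤ ((d * (n + 1) : ℕ) : ℝ) := by
    exact_mod_cast Nat.mul_le_mul_left d (Nat.le_succ n)
  have e1 : Real.log (((d * n : ℕ) : ℝ) / X) ≤ Real.log (((d * (n + 1) : ℕ) : ℝ) / X) :=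
    Real.log_le_log (div_pos h0 hX) (div_le_div_of_nonneg_right h1 hX.le)
  have e2 : 0 ≤ Real.log (((d * n : ℕ) : ℝ) / X) :=
    Real.log_nonneg ((one_le_div hX).2 h.le)
  apply tI_mono
  rw [abs_mul, abs_mul, abs_of_nonneg hc, abs_of_nonneg e2, abs_of_nonneg (e2.trans e1)]
  exact mul_le_mul_of_nonneg_left e1 hc

/-- the variation of the window -/
private theorem tI_var (c X : ℝ) (hc : 0 ≤ c) (hX : 0 < X) (d : ℕ) (hd : 1 ≤ d) (g : ℕ → ℝ)
    (hg : ∀ n, g n = tri (c * Real.log (((d * n : ℕ) : ℝ) / X))) (N : ℕ) (hN : 1 ≤ N) :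
    (((d * N : ℕ) : ℝ) ≤ X → ∑ n ∈ Ico 1 N, |g n - g (n + 1)| ≤ g N) ∧
      (X < ((d * N : ℕ) : ℝ) → ∑ n ∈ Ico 1 N, |g n - g (n + 1)| + g N ≤ 3) := by
  have g0 : ∀ n, 0 ≤ g n := fun n => by rw [hg]; exact tI_nonneg _
  have g1 : ∀ n, g n ≤ 1 := fun n => by rw [hg]; exact tI_le_one _
  induction N, hN using Nat.le_induction with
  | base =>
    rw [Ico_self, sum_empty]
    exact ⟨fun _ => g0 1, fun _ => by linarith [g1 1]⟩
  | succ N hN ih =>
    rw [sum_Ico_succ_top hN]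
    have hle : ((d * N : ℕ) : ℝ) ≤ ((d * (N + 1) : ℕ) : ℝ) := by
      exact_mod_cast Nat.mul_le_mul_left d (Nat.le_succ N)
    refine ⟨fun h => ?_, fun h => ?_⟩
    · have hm : g N ≤ g (N + 1) := by
        rw [hg, hg]
        exact tI_up c X hc d N hd hN h
      have := ih.1 (hle.trans h)
      rw [abs_of_nonpos (by linarith)]
      linarith
    · rcases le_or_gt ((d * N : ℕ) : ℝ) X with h2 | h2
      · have h3 := ih.1 h2
        have h4 : |g N - g (N + 1)| ≤ 1 := by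
          rw [abs_le]
          constructor
          · linarith [g0 N, g1 (N + 1)]
          · linarith [g1 N, g0 (N + 1)]
        linarith [g1 N, g1 (N + 1)]
      · have hm : g (N + 1) ≤ g N := by
          rw [hg, hg]
          exact tI_down c X hc hX d N h2
        have := ih.2 h2
        rw [abs_of_nonneg (by linarith)]
        linarith

private theorem tI_var' (c X : ℝ) (hc : 0 ≤ c) (hX : 0 < X) (d : ℕ) (hd : 1 ≤ d) (g : ℕ → ℝ)
    (hg : ∀ n, g n = tri (c * Real.log (((d * n : ℕ) : ℝ) / X))) (N : ℕ) (hN : 1 ≤ N) :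
    ∑ n ∈ Ico 1 N, |g n - g (n + 1)| + g N ≤ 3 := by
  have h := tI_var c X hc hX d hd g hg N hN
  have g1 : g N ≤ 1 := by rw [hg]; exact tI_le_one _
  rcases le_or_gt ((d * N : ℕ) : ℝ) X with h2 | h2
  · linarith [h.1 h2]
  · exact h.2 h2

/-- Abel summation -/
private theorem tI_abel (x : ℕ → ℂ) (g : ℕ → ℝ) (N : ℕ) :
    ∑ n ∈ Icc 1 N, x n * (g n : ℂ) =
      (∑ m ∈ Icc 1 N, x m) * (g N : ℂ) +
        ∑ n ∈ range N, (∑ m ∈ Icc 1 n, x m) * ((g n - g (n + 1) : ℝ) : ℂ) := by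
  induction N with
  | zero => simp
  | succ N ih =>
    rw [sum_Icc_succ_top (by omega), ih, sum_Icc_succ_top (by omega), sum_range_succ]
    push_cast
    ring

private theorem tI_abel_le (x : ℕ → ℂ) (g : ℕ → ℝ) (r : ℝ) (hr : 0 ≤ r)
    (hx : ∀ N, ‖∑ m ∈ Icc 1 N, x m‖ ≤ r) (N : ℕ) (hN : 1 ≤ N) :
    ‖∑ n ∈ Icc 1 N, x n * (g n : ℂ)‖ ≤
      r * (∑ n ∈ Ico 1 N, |g n - g (n + 1)| + |g N|) := by
  rw [tI_abel]
  refine (norm_add_le _ _).trans ?_
  have h1 : ‖(∑ m ∈ Icc 1 N, x m) * (g N : ℂ)‖ ≤ r * |g N| := by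
    rw [norm_mul, Complex.norm_real, Real.norm_eq_abs]
    exact mul_le_mul_of_nonneg_right (hx N) (abs_nonneg _)
  have h2 : ‖∑ n ∈ range N, (∑ m ∈ Icc 1 n, x m) * ((g n - g (n + 1) : ℝ) : ℂ)‖ ≤
      r * ∑ n ∈ Ico 1 N, |g n - g (n + 1)| := by
    rw [range_eq_Ico, sum_eq_sum_Ico_succ_bot (by omega), mul_sum]
    simp only [Icc_eq_empty_of_lt Nat.zero_lt_one, sum_empty, zero_mul, zero_add]
    refine (norm_sum_le _ _).trans (sum_le_sum fun n _ => ?_)
    rw [norm_mul, Complex.norm_real, Real.norm_eq_abs]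
    exact mul_le_mul_of_nonneg_right (hx n) (abs_nonneg _)
  linarith

theorem p_tI : S_tI := by
  intro lam X d N r χ hlam hX hd hr hχ
  have : NeZero r := ⟨by omega⟩
  have hr0 : (0 : ℝ) ≤ r := Nat.cast_nonneg r
  have hx : ∀ N : ℕ, ‖∑ m ∈ Icc 1 N, χ ((m : ℕ) : ZMod r)‖ ≤ r := fun N =>
    Pool.Agent.MP89da58.norm_sum_Icc_char_le χ hχ N
  rcases Nat.eq_zero_or_pos N with rfl | hN
  · simp only [Icc_eq_empty_of_lt Nat.zero_lt_one, sum_empty, norm_zero, Nat.cast_zero, zero_add,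
      Real.log_one, mul_zero, le_refl, and_true]
    positivity
  have hc : (0 : ℝ) ≤ lam := by linarith
  have hg : ∀ n, wd lam X (d * n) =
      tri (lam * Real.log (((d * n : ℕ) : ℝ) / X)) := fun n => rfl
  have hV := tI_var' lam _ hc hX d hd (fun n => wd lam X (d * n)) hg N hN
  have g0 : ∀ n, 0 ≤ wd lam X (d * n) := fun n => by rw [hg]; exact tI_nonneg _
  have g1 : ∀ n, wd lam X (d * n) ≤ 1 := fun n => by rw [hg]; exact tI_le_one _
  constructor
  · have h := tI_abel_le (fun n => χ (n : ZMod r)) (fun n => wd lam X (d * n)) r hr0 hx N hN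
    rw [abs_of_nonneg (g0 N)] at h
    calc _ ≤ _ := h
      _ ≤ r * 3 := mul_le_mul_of_nonneg_left hV hr0
      _ = 3 * r := by ring
  · have h := tI_abel_le (fun n => χ (n : ZMod r)) (fun n => Real.log n * wd lam X (d * n)) r hr0
      hx N hN
    have hlogN : 0 ≤ Real.log (N : ℝ) := Real.log_natCast_nonneg N
    have hlogN1 : Real.log (N : ℝ) ≤ Real.log ((N : ℝ) + 1) := by
      have : (0 : ℝ) < N := by exact_mod_cast hN
      exact Real.log_le_log this (by linarith)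
    have hV2 : ∑ n ∈ Ico 1 N, |Real.log (n : ℝ) * wd lam X (d * n) -
        Real.log ((n + 1 : ℕ) : ℝ) * wd lam X (d * (n + 1))| ≤
        Real.log N * ∑ n ∈ Ico 1 N, |wd lam X (d * n) - wd lam X (d * (n + 1))| + Real.log N := by
      have hstep : ∀ n ∈ Ico 1 N, |Real.log (n : ℝ) * wd lam X (d * n) -
          Real.log ((n + 1 : ℕ) : ℝ) * wd lam X (d * (n + 1))| ≤
          Real.log N * |wd lam X (d * n) - wd lam X (d * (n + 1))| +
            (Real.log ((n + 1 : ℕ) : ℝ) - Real.log (n : ℝ)) := by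
        intro n hn
        rw [mem_Ico] at hn
        have hn0 : (0 : ℝ) < n := by exact_mod_cast hn.1
        have hle : Real.log (n : ℝ) ≤ Real.log ((n + 1 : ℕ) : ℝ) := by
          apply Real.log_le_log hn0
          push_cast
          linarith
        have hleN : Real.log (n : ℝ) ≤ Real.log (N : ℝ) := by
          apply Real.log_le_log hn0
          exact_mod_cast hn.2.le
        have hln : 0 ≤ Real.log (n : ℝ) := Real.log_natCast_nonneg n
        have e : Real.log (n : ℝ) * wd lam X (d * n) -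
            Real.log ((n + 1 : ℕ) : ℝ) * wd lam X (d * (n + 1)) =
            Real.log (n : ℝ) * (wd lam X (d * n) - wd lam X (d * (n + 1))) -
              (Real.log ((n + 1 : ℕ) : ℝ) - Real.log (n : ℝ)) * wd lam X (d * (n + 1)) := by ring
        rw [e]
        refine (abs_sub _ _).trans ?_
        rw [abs_mul, abs_mul, abs_of_nonneg hln, abs_of_nonneg (sub_nonneg.2 hle),
          abs_of_nonneg (g0 (n + 1))]
        apply add_le_add
        · exact mul_le_mul_of_nonneg_right hleN (abs_nonneg _)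
        · calc _ ≤ (Real.log ((n + 1 : ℕ) : ℝ) - Real.log (n : ℝ)) * 1 :=
              mul_le_mul_of_nonneg_left (g1 (n + 1)) (sub_nonneg.2 hle)
            _ = _ := mul_one _
      refine (sum_le_sum hstep).trans ?_
      rw [sum_add_distrib, ← mul_sum]
      have htel : ∑ n ∈ Ico 1 N, (Real.log ((n + 1 : ℕ) : ℝ) - Real.log (n : ℝ)) =
          Real.log (N : ℝ) - Real.log ((1 : ℕ) : ℝ) :=
        sum_Ico_sub (fun n : ℕ => Real.log (n : ℝ)) hN
      rw [htel, Nat.cast_one, Real.log_one, sub_zero]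
    rw [abs_of_nonneg (mul_nonneg hlogN (g0 N))] at h
    have e : ∀ n : ℕ, χ (n : ZMod r) * (Real.log n : ℂ) * (wd lam X (d * n) : ℂ) =
        χ (n : ZMod r) * ((Real.log n * wd lam X (d * n) : ℝ) : ℂ) := by
      intro n
      push_cast
      ring
    simp only [e]
    refine h.trans ?_
    calc _ ≤ r * (Real.log N * ∑ n ∈ Ico 1 N, |wd lam X (d * n) - wd lam X (d * (n + 1))| +
            Real.log N + Real.log N * wd lam X (d * N)) := by
          apply mul_le_mul_of_nonneg_left _ hr0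
          linarith
      _ = r * (Real.log N * (∑ n ∈ Ico 1 N, |wd lam X (d * n) - wd lam X (d * (n + 1))| +
            wd lam X (d * N)) + Real.log N) := by ring
      _ ≤ r * (Real.log N * 3 + Real.log N) := by
          apply mul_le_mul_of_nonneg_left _ hr0
          linarith [mul_le_mul_of_nonneg_left hV hlogN]
      _ = 4 * r * Real.log N := by ring
      _ ≤ 4 * r * Real.log (N + 1) := mul_le_mul_of_nonneg_left hlogN1 (by positivity)

end Pool.Agent.CM.B
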