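import Pool.Agent.Lib.MP_0da313_nt.CM.S
import Pool.Agent.Lib.MP_d610d0_nt.CH.P.Stm

set_option autoImplicit false

/-!
[CM v3] The product of the primes between the two sifting limits.
-/

namespace Pool.Agent.CM.S

open Finset Filter
open Pool.Agent.CH.S (th Pr gd V)

private lemma v3_mem {a w p : ℕ} : p ∈ Pr a w ↔ p < w ∧ p.Prime ∧ a ≤ p := by
  simp [Pr]

private lemma v3_V {a w : ℕ} (ha : 3 ≤ a) :
    V a w ≤ Real.exp (-∑ p ∈ Pr a w, 1 / (p : ℝ)) := by
  unfold V
  rw [← Finset.sum_neg_distrib, Real.exp_sum]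
  apply Finset.prod_le_prod
  · intro p hp
    rw [v3_mem] at hp
    have h3 : (3 : ℝ) ≤ p := by exact_mod_cast le_trans ha hp.2.2
    unfold gd
    rw [sub_nonneg, div_le_one (by linarith)]
    linarith
  · intro p hp
    rw [v3_mem] at hp
    have h3 : (3 : ℝ) ≤ p := by exact_mod_cast le_trans ha hp.2.2
    have h1 : 1 / (p : ℝ) ≤ gd p := by
      unfold gd
      apply one_div_le_one_div_of_le
      · linarith
      · linarith
    have h2 := Real.add_one_le_exp (-(1 / (p : ℝ)))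
    linarith

theorem p_v3 : S_v3 := by
  rintro ⟨C, hC⟩ δ hδ
  have hlog : Tendsto (fun n : ℕ => Real.log (n : ℝ)) atTop atTop :=
    Real.tendsto_log_atTop.comp tendsto_natCast_atTop_atTop
  have hinv : ∀ c : ℝ, Tendsto (fun n : ℕ => c / Real.log (n : ℝ)) atTop (nhds 0) := fun c =>
    hlog.const_div_atTop c
  have h11 : Tendsto (fun n : ℕ => Real.log (n : ℝ) / 11 - Real.log 2) atTop atTop :=
    tendsto_atTop_add_const_right _ (-Real.log 2) (hlog.atTop_div_const (by norm_num))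
  have hexp : Tendsto (fun n : ℕ => Real.exp (|C| / (Real.log (n : ℝ) / 11 - Real.log 2))) atTop
      (nhds (Real.exp 0)) :=
    (Real.continuous_exp.tendsto 0).comp (h11.const_div_atTop |C|)
  have hlim : Tendsto (fun n : ℕ => (1 / 11) / (91 / 550 - Real.log 2 / Real.log (n : ℝ)) *
      Real.exp (|C| / (Real.log (n : ℝ) / 11 - Real.log 2))) atTop
      (nhds ((1 / 11) / (91 / 550 - 0) * Real.exp 0)) := by
    refine Tendsto.mul ?_ hexp
    refine tendsto_const_nhds.div (tendsto_const_nhds.sub (hinv _)) (by norm_num)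
  have hval : (1 / 11) / (91 / 550 - 0) * Real.exp 0 = (50 / 91 : ℝ) := by
    rw [Real.exp_zero]
    norm_num
  rw [hval] at hlim
  have hev1 := (tendsto_order.1 hlim).2 ((50 / 91) * (1 + δ)) (by linarith)
  have hev2 : ∀ᶠ n : ℕ in atTop, (100 : ℝ) ≤ Real.log n := hlog.eventually_ge_atTop _
  filter_upwards [hev1, hev2] with n hn1 hn2
  set L : ℝ := Real.log n with hL
  have hL0 : 0 < L := by linarith
  have hn0 : (0 : ℝ) < n := by
    rcases Nat.eq_zero_or_pos n with h | h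
    · exfalso
      rw [h, Nat.cast_zero, Real.log_zero] at hL
      linarith
    · exact_mod_cast h
  have hl2 : Real.log 2 ≤ 1 := by
    have := Real.log_two_lt_d9
    linarith
  have hl2' : 0 < Real.log 2 := Real.log_pos (by norm_num)
  have hl11 : Real.log ((n : ℝ) ^ (1 / 11 : ℝ)) = L / 11 := by
    rw [Real.log_rpow hn0]
    ring
  have hl91 : Real.log ((n : ℝ) ^ (91 / 550 : ℝ)) = 91 / 550 * L := by
    rw [Real.log_rpow hn0]
  have hA0 : 0 < (n : ℝ) ^ (1 / 11 : ℝ) := Real.rpow_pos_of_pos hn0 _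
  have hB0 : 0 < (n : ℝ) ^ (91 / 550 : ℝ) := Real.rpow_pos_of_pos hn0 _
  have hA : 4 ≤ (n : ℝ) ^ (1 / 11 : ℝ) := by
    have h1 := Real.add_one_le_exp (Real.log ((n : ℝ) ^ (1 / 11 : ℝ)))
    rw [Real.exp_log hA0, hl11] at h1
    linarith
  have hAB : (n : ℝ) ^ (1 / 11 : ℝ) ≤ (n : ℝ) ^ (91 / 550 : ℝ) := by
    rw [← Real.log_le_log_iff hA0 hB0, hl11, hl91]
    linarith
  have hkk : kz n ≤ k3 n := Nat.ceil_le_ceil hAB
  refine ⟨?_, hkk⟩
  -- the integers `a' = kz n - 1`, `b' = k3 n - 1`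
  obtain ⟨a, ha⟩ : ∃ a, kz n = a + 1 := ⟨kz n - 1, by
    have : 0 < kz n := Nat.ceil_pos.2 hA0
    omega⟩
  obtain ⟨b, hb⟩ : ∃ b, k3 n = b + 1 := ⟨k3 n - 1, by
    have : 0 < k3 n := Nat.ceil_pos.2 hB0
    omega⟩
  have ha1 : (n : ℝ) ^ (1 / 11 : ℝ) ≤ (a : ℝ) + 1 := by
    have h := Nat.le_ceil ((n : ℝ) ^ (1 / 11 : ℝ))
    have h' : ((kz n : ℕ) : ℝ) = (a : ℝ) + 1 := by
      rw [ha]
      push_cast
      ring
    rw [← h']
    exact h
  have ha2 : (a : ℝ) ≤ (n : ℝ) ^ (1 / 11 : ℝ) := by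
    have h := Nat.ceil_lt_add_one hA0.le
    have h' : ((kz n : ℕ) : ℝ) = (a : ℝ) + 1 := by
      rw [ha]
      push_cast
      ring
    have h'' : ((kz n : ℕ) : ℝ) < (n : ℝ) ^ (1 / 11 : ℝ) + 1 := h
    linarith
  have hb1 : (n : ℝ) ^ (91 / 550 : ℝ) ≤ (b : ℝ) + 1 := by
    have h := Nat.le_ceil ((n : ℝ) ^ (91 / 550 : ℝ))
    have h' : ((k3 n : ℕ) : ℝ) = (b : ℝ) + 1 := by
      rw [hb]
      push_cast
      ring
    rw [← h']
    exact h
  have ha3 : 3 ≤ a := by
    have : (3 : ℝ) ≤ a := by linarith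
    exact_mod_cast this
  have hab : a ≤ b := by omega
  have ha0 : (0 : ℝ) < a := by exact_mod_cast (by omega : 0 < a)
  have hb0 : (0 : ℝ) < b := by exact_mod_cast (by omega : 0 < b)
  have hla1 : L / 11 - Real.log 2 ≤ Real.log a := by
    rw [← hl11, ← Real.log_div hA0.ne' (by norm_num)]
    apply Real.log_le_log (by positivity)
    linarith
  have hla2 : Real.log a ≤ L / 11 := by
    rw [← hl11]
    exact Real.log_le_log ha0 ha2
  have hlb1 : 91 / 550 * L - Real.log 2 ≤ Real.log b := by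
    rw [← hl91, ← Real.log_div hB0.ne' (by norm_num)]
    apply Real.log_le_log (by positivity)
    linarith
  have hla0 : 0 < Real.log a := by linarith
  have hlb0 : 0 < Real.log b := by linarith
  have hS := hC a b (by omega) hab
  have hPr : Pr (kz n) (k3 n) = (Ioc a b).filter Nat.Prime := by
    ext p
    rw [v3_mem, Finset.mem_filter, Finset.mem_Ioc, ha, hb]
    constructor
    · rintro ⟨h1, h2, h3⟩
      exact ⟨⟨by omega, by omega⟩, h2⟩
    · rintro ⟨⟨h1, h2⟩, h3⟩
      exact ⟨by omega, h3, by omega⟩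
  have h1 := v3_V (a := kz n) (w := k3 n) (by omega)
  rw [hPr] at h1
  refine h1.trans ?_
  have h2 := (abs_le.1 hS).1
  have h3 : -∑ p ∈ (Ioc a b).filter Nat.Prime, 1 / (p : ℝ) ≤
      -Real.log (Real.log b / Real.log a) + |C| / (L / 11 - Real.log 2) := by
    have h4 : C / Real.log a ≤ |C| / (L / 11 - Real.log 2) := by
      calc C / Real.log a ≤ |C| / Real.log a :=
            div_le_div_of_nonneg_right (le_abs_self C) hla0.le
        _ ≤ |C| / (L / 11 - Real.log 2) :=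
            div_le_div_of_nonneg_left (abs_nonneg C) (by linarith) hla1
    linarith
  refine (Real.exp_le_exp.2 h3).trans ?_
  rw [Real.exp_add, Real.exp_neg, Real.exp_log (by positivity), inv_div]
  refine le_trans ?_ hn1.le
  apply mul_le_mul_of_nonneg_right _ (Real.exp_pos _).le
  have h5 : 0 < 91 / 550 - Real.log 2 / L := by
    have : Real.log 2 / L ≤ 1 / 100 := by
      rw [div_le_div_iff₀ hL0 (by norm_num)]
      linarith
    linarith
  rw [div_le_div_iff₀ hlb0 h5]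
  have h6 : Real.log a * (91 / 550 - Real.log 2 / L) ≤
      L / 11 * (91 / 550 - Real.log 2 / L) := mul_le_mul_of_nonneg_right hla2 h5.le
  have h7 : L / 11 * (91 / 550 - Real.log 2 / L) = 1 / 11 * (91 / 550 * L - Real.log 2) := by
    field_simp
  rw [h7] at h6
  linarith

end Pool.Agent.CM.S
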