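import Pool.Agent.Lib.MP_0da313_nt.CM.L

set_option autoImplicit false

/-!
[CM win]: location of the windows.
-/

namespace Pool.Agent.CM.L

open Finset Filter
open Pool.Agent.MP89da58 (tri)

theorem win_tri_le {a b : ℝ} (h : |b| ≤ |a|) : tri a ≤ tri b := by
  unfold tri
  exact max_le_max le_rfl (by linarith)

theorem win_log_ub {s : ℝ} (h : |s| ≤ 1 / 2) : |Real.log (1 + s)| ≤ |s| * (1 + 2 * |s|) := by
  have hs := abs_le.mp h
  have hpos : (0 : ℝ) < 1 + s := by linarith [hs.1]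
  have h1 : Real.log (1 + s) ≤ s := by
    have := Real.log_le_sub_one_of_pos hpos
    linarith
  have h2 : 1 - (1 + s)⁻¹ ≤ Real.log (1 + s) := Real.one_sub_inv_le_log_of_pos hpos
  rcases le_total 0 s with h0 | h0
  · have hl : 0 ≤ Real.log (1 + s) := Real.log_nonneg (by linarith)
    rw [abs_of_nonneg hl, abs_of_nonneg h0]
    nlinarith
  · have hl : Real.log (1 + s) ≤ 0 := by linarith
    rw [abs_of_nonpos hl, abs_of_nonpos h0]
    have h3 : (1 + s)⁻¹ ≤ 1 - s * (1 + 2 * (-s)) := by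
      rw [inv_le_comm₀ hpos (by nlinarith [hs.1])]
      rw [inv_le_iff_one_le_mul₀ (by nlinarith [hs.1])]
      nlinarith [hs.1, mul_nonneg (neg_nonneg.mpr h0) (neg_nonneg.mpr h0)]
    linarith

theorem win_log_lb {s : ℝ} (h : |s| ≤ 1 / 2) : |s| * (1 - |s|) ≤ |Real.log (1 + s)| := by
  have hs := abs_le.mp h
  have hpos : (0 : ℝ) < 1 + s := by linarith [hs.1]
  have h1 : Real.log (1 + s) ≤ s := by
    have := Real.log_le_sub_one_of_pos hpos
    linarith
  have h2 : 1 - (1 + s)⁻¹ ≤ Real.log (1 + s) := Real.one_sub_inv_le_log_of_pos hpos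
  rcases le_total 0 s with h0 | h0
  · have hl : 0 ≤ Real.log (1 + s) := Real.log_nonneg (by linarith)
    rw [abs_of_nonneg hl, abs_of_nonneg h0]
    have h3 : (1 + s)⁻¹ ≤ 1 - s * (1 - s) := by
      rw [inv_le_iff_one_le_mul₀ hpos]
      nlinarith [mul_nonneg h0 (mul_nonneg h0 h0)]
    linarith
  · have hl : Real.log (1 + s) ≤ 0 := by linarith
    rw [abs_of_nonpos hl, abs_of_nonpos h0]
    nlinarith

/-- The data of one form at `n`. `U = |u|`, `h = hw n`, `T = t n`. -/
structure WD (u T X h κ la : ℝ) : Prop where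
  hu : u ≠ 0
  hh : 0 < h
  hT : 1000 * (|u| * h) ≤ T
  hX1 : 99999 / 100000 * T ≤ X
  hX2 : X ≤ 100001 / 100000 * T
  hκ1 : 99 / 100 ≤ κ
  hκ2 : κ ≤ 1
  hla : la = κ * (T / (|u| * h))

namespace WD

variable {u T X h κ la : ℝ} (H : WD u T X h κ la)
include H

theorem U : 0 < |u| := abs_pos.mpr H.hu
theorem Uh : 0 < |u| * h := mul_pos H.U H.hh
theorem Tp : 0 < T := by linarith [H.hT, H.Uh]
theorem Xp : 0 < X := by linarith [H.hX1, H.Tp]
theorem kp : 0 < κ := by linarith [H.hκ1]

theorem la_ge : 990 ≤ la := by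
  rw [H.hla]
  have h1 : 1000 ≤ T / (|u| * h) := by
    rw [le_div_iff₀ H.Uh]
    exact H.hT
  nlinarith [H.hκ1]

/-- `la * |s| = κ (T / X) (|w| / h)`. -/
theorem las (w : ℝ) : la * |u * w / X| = κ * (T / X) * (|w| / h) := by
  rw [H.hla, abs_div, abs_mul, abs_of_pos H.Xp]
  have h1 := H.U.ne'
  have h2 := H.hh.ne'
  have h3 := H.Xp.ne'
  field_simp

theorem TX1 : 9999 / 10000 ≤ T / X := by
  rw [le_div_iff₀ H.Xp]
  nlinarith [H.hX2, H.Tp]

theorem TX2 : T / X ≤ 10001 / 10000 := by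
  rw [div_le_iff₀ H.Xp]
  nlinarith [H.hX1, H.Tp]

theorem one_add (w : ℝ) : (X + u * w) / X = 1 + u * w / X := by
  rw [add_div, div_self H.Xp.ne']

theorem loc {w : ℝ} (hp : 0 < X + u * w) (hl : |la * Real.log ((X + u * w) / X)| < 1) :
    |w| ≤ 102 / 100 * h := by
  have hla := H.la_ge
  rw [H.one_add] at hl
  set s := u * w / X with hs
  have hpos : 0 < 1 + s := by
    rw [hs, ← H.one_add]
    exact div_pos hp H.Xp
  have h1 : Real.log (1 + s) ≤ s := by
    have := Real.log_le_sub_one_of_pos hpos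
    linarith
  have h2 : 1 - (1 + s)⁻¹ ≤ Real.log (1 + s) := Real.one_sub_inv_le_log_of_pos hpos
  have h2' : s / (1 + s) ≤ Real.log (1 + s) := by
    have : s / (1 + s) = 1 - (1 + s)⁻¹ := by field_simp; ring
    rw [this]; exact h2
  have hl' := abs_lt.mp hl
  have h3 : -1 < la * s := by nlinarith [hl'.1]
  have h4 : la * (s / (1 + s)) < 1 := by nlinarith [hl'.2]
  have h5 : la * s < 1 + s := by
    rw [← mul_div_assoc, div_lt_one hpos] at h4
    exact h4
  have h6 : s < 1 / 989 := by nlinarith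
  have h7 : la * |s| ≤ 1 + 1 / 989 := by
    rcases abs_cases s with ⟨h, _⟩ | ⟨h, _⟩ <;> rw [h] <;> nlinarith
  rw [hs, H.las] at h7
  have hk := H.hκ1
  have hTX := H.TX1
  have hq : 0 ≤ |w| / h := div_nonneg (abs_nonneg _) H.hh.le
  have h8 : 98990 / 100000 ≤ κ * (T / X) := by nlinarith
  have h9 : |w| / h ≤ 102 / 100 := by
    by_contra hc
    rw [not_le] at hc
    nlinarith
  rw [div_le_iff₀ H.hh] at h9
  exact h9

theorem small {w : ℝ} (hw : |w| ≤ 102 / 100 * h) : |u * w / X| ≤ 11 / 10000 := by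
  rw [abs_div, abs_mul, abs_of_pos H.Xp, div_le_iff₀ H.Xp]
  have h1 : |u| * |w| ≤ |u| * (102 / 100 * h) := mul_le_mul_of_nonneg_left hw H.U.le
  nlinarith [H.hT, H.hX1, H.Tp]

theorem bds {w : ℝ} (hw : |w| ≤ 102 / 100 * h) : X / 3 ≤ X + u * w ∧ X + u * w ≤ 3 * X := by
  have h1 := abs_le.mp (H.small hw)
  have h2 : X + u * w = X * (1 + u * w / X) := by
    have := H.Xp.ne'
    field_simp
  rw [h2]
  constructor <;> nlinarith [H.Xp, h1.1, h1.2]

theorem ub {w : ℝ} (hw : |w| ≤ 102 / 100 * h) :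
    |la * Real.log ((X + u * w) / X)| ≤ κ * (1003 / 1000) * (|w| / h) := by
  have hla := H.la_ge
  rw [H.one_add, abs_mul, abs_of_nonneg (by linarith : (0 : ℝ) ≤ la)]
  have hs := H.small hw
  have h1 := win_log_ub (s := u * w / X) (by linarith)
  have h2 : la * |Real.log (1 + u * w / X)| ≤ la * |u * w / X| * (1 + 2 * |u * w / X|) := by
    calc la * |Real.log (1 + u * w / X)| ≤ la * (|u * w / X| * (1 + 2 * |u * w / X|)) :=
          mul_le_mul_of_nonneg_left h1 (by linarith)
      _ = _ := by ring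
  refine h2.trans ?_
  rw [H.las]
  have hq : 0 ≤ |w| / h := div_nonneg (abs_nonneg _) H.hh.le
  have hk := H.kp
  have h3 : κ * (T / X) * (|w| / h) ≤ κ * (10001 / 10000) * (|w| / h) :=
    mul_le_mul_of_nonneg_right (mul_le_mul_of_nonneg_left H.TX2 hk.le) hq
  have h4 : 0 ≤ κ * (10001 / 10000) * (|w| / h) := by positivity
  calc κ * (T / X) * (|w| / h) * (1 + 2 * |u * w / X|)
      ≤ κ * (10001 / 10000) * (|w| / h) * (1 + 2 * (11 / 10000)) := by
        apply mul_le_mul h3 _ (by positivity) h4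
        linarith
    _ ≤ κ * (1003 / 1000) * (|w| / h) := by nlinarith [mul_nonneg hk.le hq]

theorem lb {w : ℝ} (hw : |w| ≤ 102 / 100 * h) :
    κ * (998 / 1000) * (|w| / h) ≤ |la * Real.log ((X + u * w) / X)| := by
  have hla := H.la_ge
  rw [H.one_add, abs_mul, abs_of_nonneg (by linarith : (0 : ℝ) ≤ la)]
  have hs := H.small hw
  have h1 := win_log_lb (s := u * w / X) (by linarith)
  have h2 : la * |u * w / X| * (1 - |u * w / X|) ≤ la * |Real.log (1 + u * w / X)| := by
    calc la * |u * w / X| * (1 - |u * w / X|) = la * (|u * w / X| * (1 - |u * w / X|)) := by ring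
      _ ≤ _ := mul_le_mul_of_nonneg_left h1 (by linarith)
  refine le_trans ?_ h2
  rw [H.las]
  have hq : 0 ≤ |w| / h := div_nonneg (abs_nonneg _) H.hh.le
  have hk := H.kp
  have h3 : κ * (9999 / 10000) * (|w| / h) ≤ κ * (T / X) * (|w| / h) :=
    mul_le_mul_of_nonneg_right (mul_le_mul_of_nonneg_left H.TX1 hk.le) hq
  have h4 : 0 ≤ κ * (9999 / 10000) * (|w| / h) := by positivity
  calc κ * (998 / 1000) * (|w| / h)
      ≤ κ * (9999 / 10000) * (|w| / h) * (1 - 11 / 10000) := by nlinarith [mul_nonneg hk.le hq]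
    _ ≤ κ * (T / X) * (|w| / h) * (1 - |u * w / X|) := by
        apply mul_le_mul h3 _ (by norm_num) (h4.trans h3)
        linarith

end WD

theorem p_win : S_win := by
  intro ι _ _ D F
  have ht : ∀ l, 0 < F.t l ∧ 100 ≤ F.la l := by
    intro l
    have hu : 0 < |(F.u l : ℝ)| := abs_pos.mpr (by exact_mod_cast F.hu l)
    have h1 : 0 < |(F.u l : ℝ)| * F.hw := mul_pos hu F.hhw
    have h2 : 1000 * (|(F.u l : ℝ)| * F.hw) ≤ F.t l := F.hth l
    refine ⟨by linarith, ?_⟩
    unfold Fam.la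
    have h3 : 1000 ≤ F.t l / (|(F.u l : ℝ)| * F.hw) := by
      rw [le_div_iff₀ h1]
      exact h2
    split_ifs <;> nlinarith
  refine ⟨ht, ?_⟩
  -- eventually facts
  have hev : ∀ᶠ n : ℕ in atTop, ∀ l, |(F.c l : ℝ)| ≤ 1 / 100000 * (F.t l * n) ∧
      2 ≤ F.t l * n := by
    rw [Filter.eventually_all]
    intro l
    have hl : Tendsto (fun n : ℕ => F.t l * (n : ℝ)) atTop atTop :=
      tendsto_natCast_atTop_atTop.const_mul_atTop (ht l).1
    filter_upwards [hl.eventually_ge_atTop (100000 * |(F.c l : ℝ)|), hl.eventually_ge_atTop 2]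
      with n h1 h2
    exact ⟨by linarith, h2⟩
  filter_upwards [hev, Filter.eventually_gt_atTop 0] with n hn hn0
  have hnR : (0 : ℝ) < n := by exact_mod_cast hn0
  set κ : Option ι → ℝ := fun l => if l = none then 1 else 99 / 100 with hκ
  have H : ∀ l, WD (F.u l) (F.t l * n) (F.X n l) (F.hw * n) (κ l) (F.la l) := by
    intro l
    have hc := abs_le.mp (hn l).1
    refine ⟨by exact_mod_cast F.hu l, mul_pos F.hhw hnR, ?_, ?_, ?_, ?_, ?_, ?_⟩
    · have h2 : 1000 * (|(F.u l : ℝ)| * F.hw) ≤ F.t l := F.hth l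
      calc 1000 * (|(F.u l : ℝ)| * (F.hw * n)) = 1000 * (|(F.u l : ℝ)| * F.hw) * n := by ring
        _ ≤ F.t l * n := mul_le_mul_of_nonneg_right h2 hnR.le
    · unfold Fam.X; linarith [hc.1]
    · unfold Fam.X; linarith [hc.2]
    · simp only [hκ]; split_ifs <;> norm_num
    · simp only [hκ]; split_ifs <;> norm_num
    · unfold Fam.la
      simp only [hκ]
      congr 1
      rw [← mul_assoc, mul_div_mul_right _ _ hnR.ne']
  -- value of the form
  have hL : ∀ l (x : ℤ), (F.L n l x : ℝ) = F.X n l + F.u l * ((x : ℝ) - F.xi * n) := by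
    intro l x
    unfold Fam.L Fam.v Fam.X Fam.t
    push_cast
    ring
  have hN : ∀ l (x : ℤ), 0 < F.L n l x → ((F.L n l x).toNat : ℝ) = F.L n l x := by
    intro l x h
    have : ((F.L n l x).toNat : ℤ) = F.L n l x := Int.toNat_of_nonneg h.le
    exact_mod_cast this
  have hwi : ∀ l (x : ℤ), 0 < F.L n l x → F.wi n l (F.L n l x).toNat =
      tri (F.la l * Real.log ((F.X n l + F.u l * ((x : ℝ) - F.xi * n)) / F.X n l)) := by
    intro l x h
    unfold Fam.wi wd
    rw [hN l x h, hL l x]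
  have hloc : ∀ l (x : ℤ), 0 < F.L n l x → F.wi n l (F.L n l x).toNat ≠ 0 →
      |(x : ℝ) - F.xi * n| ≤ 102 / 100 * (F.hw * n) := by
    intro l x h h0
    rw [hwi l x h] at h0
    apply (H l).loc
    · rw [← hL l x]; exact_mod_cast h
    · by_contra hc
      rw [not_lt] at hc
      apply h0
      unfold tri
      exact max_eq_left (by linarith)
  refine ⟨?_, ?_, ?_⟩
  · intro l
    have hc := abs_le.mp (hn l).1
    have := (hn l).2
    unfold Fam.X
    linarith [hc.1]
  · intro l x h h0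
    have hw := hloc l x h h0
    have hw' := abs_le.mp hw
    have hh : 0 < F.hw * n := mul_pos F.hhw hnR
    have hx0 : 4 * (F.hw * n) ≤ F.xi * n := by
      have := mul_le_mul_of_nonneg_right F.hxi0 hnR.le
      linarith
    have hx1 : F.xi * n ≤ n - 4 * (F.hw * n) := by
      have := mul_le_mul_of_nonneg_right F.hxi1 hnR.le
      linarith
    refine ⟨?_, ?_, ?_⟩
    · have : (0 : ℝ) < x := by linarith [hw'.1]
      exact_mod_cast this
    · have : (x : ℝ) < n := by linarith [hw'.2]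
      exact_mod_cast this
    · intro l'
      rw [hL l' x]
      exact (H l').bds hw
  · intro i x h h0
    have hw := hloc none x h h0
    have hi : 0 < F.L n (some i) x := by
      have h1 := ((H (some i)).bds hw).1
      have h2 : (0 : ℝ) < F.L n (some i) x := by
        rw [hL]
        have := (H (some i)).Xp
        linarith
      exact_mod_cast h2
    rw [hwi none x h, hwi (some i) x hi]
    apply win_tri_le
    refine ((H (some i)).ub hw).trans (le_trans ?_ ((H none).lb hw))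
    have hq : 0 ≤ |(x : ℝ) - F.xi * n| / (F.hw * n) :=
      div_nonneg (abs_nonneg _) (mul_pos F.hhw hnR).le
    simp only [hκ, if_true, reduceCtorEq, if_false]
    nlinarith

end Pool.Agent.CM.L
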