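import Pool.Agent.Lib.MP_0da313_nt.CM.F

set_option autoImplicit false
set_option linter.unusedSectionVars false

/-!
Project CM, piece wm: the size of the weights at the points without small prime factors.
-/

namespace Pool.Agent.CM.F

open Finset Filter Polynomial
open ArithmeticFunction (cardFactors)
open Pool.Agent.MP89da58 (bil pw nn supp part kapD)
open Pool.Agent.MT (PJf ZI Dl)
open Pool.Agent.BVall (om rhoW PK lev RepB Dens)
open Pool.Agent.Lib.MP_0da313_nt (Admissible lineRestrict val singV W)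
open Pool.Agent.CH (thP)
open Pool.Agent.CH.S (th Pr gd RepC V)
open Pool.Agent.CM.W (WPk yM)

variable {ι : Type} [Fintype ι] [DecidableEq ι] {D : ℕ}

/-- the centres of the windows are at most a constant times `n` -/
lemma cm_wm_X_le (F : Fam ι D) : ∃ C : ℕ, 1 ≤ C ∧ ∀ n : ℕ, 1 ≤ n → ∀ l, 3 * F.X n l ≤ C * n := by
  refine ⟨⌈∑ l : Option ι, 3 * (|F.t l| + |(F.c l : ℝ)|)⌉₊ + 1, by omega, ?_⟩
  intro n hn l
  have hn1 : (1 : ℝ) ≤ n := by exact_mod_cast hn
  have h1 : 3 * (|F.t l| + |(F.c l : ℝ)|) ≤ ∑ l : Option ι, 3 * (|F.t l| + |(F.c l : ℝ)|) :=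
    Finset.single_le_sum (f := fun l : Option ι => 3 * (|F.t l| + |(F.c l : ℝ)|))
      (fun i _ => by positivity) (Finset.mem_univ l)
  have h2 := Nat.le_ceil (∑ l : Option ι, 3 * (|F.t l| + |(F.c l : ℝ)|))
  have h3 : F.t l ≤ |F.t l| := le_abs_self _
  have h4 : (F.c l : ℝ) ≤ |(F.c l : ℝ)| := le_abs_self _
  have h5 : F.X n l ≤ (|F.t l| + |(F.c l : ℝ)|) * n := by
    unfold Fam.X
    have h6 : F.t l * n ≤ |F.t l| * n := mul_le_mul_of_nonneg_right h3 (by positivity)
    have h7 : |(F.c l : ℝ)| * 1 ≤ |(F.c l : ℝ)| * n :=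
      mul_le_mul_of_nonneg_left hn1 (abs_nonneg _)
    nlinarith
  push_cast
  nlinarith

/-- the values of the forms at the points of the window of `none` -/
lemma cm_wm_vals (F : Fam ι D) {n : ℕ} (hX : ∀ l, 1 ≤ F.X n l)
    (hw : ∀ (l : Option ι) (x : ℤ), 0 < F.L n l x → F.wi n l (F.L n l x).toNat ≠ 0 →
    0 < x ∧ x < n ∧ ∀ l', F.X n l' / 3 ≤ F.L n l' x ∧ (F.L n l' x : ℝ) ≤ 3 * F.X n l')
    {x : ℤ} (ha : F.a0 n (F.L n none x).toNat ≠ 0) :
    0 < x ∧ x < n ∧ ∀ l', 0 < F.L n l' x ∧ (F.L n l' x : ℝ) ≤ 3 * F.X n l' := by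
  unfold Fam.a0 at ha
  have h1 : thP (F.L n none x).toNat ≠ 0 := left_ne_zero_of_mul ha
  have h2 : F.wi n none (F.L n none x).toNat ≠ 0 := right_ne_zero_of_mul ha
  have h3 : 0 < F.L n none x := by
    by_contra h
    have h4 : (F.L n none x).toNat = 0 := Int.toNat_of_nonpos (not_lt.1 h)
    rw [h4] at h1
    apply h1
    unfold thP
    rw [if_neg Nat.not_prime_zero]
  obtain ⟨h4, h5, h6⟩ := hw none x h3 h2
  refine ⟨h4, h5, fun l' => ⟨?_, (h6 l').2⟩⟩
  have h7 := (h6 l').1
  have h8 := hX l'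
  have h9 : (0 : ℝ) < F.L n l' x := by linarith
  exact_mod_cast h9

open Classical in
/-- the size of the weights at one point -/
lemma cm_wm_point (F : Fam ι D) {n Cc z B0 B : ℕ} (hN0 : F.N0 ≤ n) (hC : Cc < z)
    (hCn : ∀ l, 3 * F.X n l ≤ Cc * n) (hzB : n ≤ z ^ B0) (hz1 : 1 < z) {P : Finset ℕ}
    (hP : ∀ p ∈ P, p.Prime) {g : (PJf P → Option ι) → ℝ} (hg : ∀ α, |g α| ≤ B) {x : ℤ}
    (hv : ∀ l', 0 < F.L n l' x ∧ (F.L n l' x : ℝ) ≤ 3 * F.X n l') (hR : F.Rg n z x) :
    ZI (DF F n P) g x ^ 2 ≤ (2 ^ (Fintype.card ι * (B0 + 1)) * (B : ℝ)) ^ 2 := by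
  have key : |ZI (DF F n P) g x| ≤ 2 ^ (Fintype.card ι * (B0 + 1)) * (B : ℝ) := by
    apply Pool.Agent.MT.abs_ZI_le (DF F n P) x (Fintype.card ι * (B0 + 1)) g B hg
    have h0 : ∀ l : ι, (univ.filter (fun j : PJf P => DF F n P j l x)).card ≤ B0 + 1 := by
      intro l
      have hm := (hv (some l)).1
      have hm2 := (hv (some l)).2
      have h1 := Pool.Agent.MT.card_dvd_le hP (A := F.L n (some l) x) hm.ne'
      have h2 : (univ.filter (fun j : PJf P => DF F n P j l x)).card ≤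
          cardFactors (F.L n (some l) x).natAbs := by
        refine le_trans (Finset.card_le_card ?_) h1
        intro j hj
        rw [Finset.mem_filter] at hj ⊢
        exact ⟨hj.1, hj.2⟩
      refine h2.trans ?_
      have h3 := Pool.Agent.Lib.MP_0da313_nt.pow_cardFactors_le
        (N := (F.L n (some l) x).natAbs) (z := z) (Int.natAbs_ne_zero.mpr hm.ne') (by
          intro p hp hpd
          by_contra hlt
          apply hR p hp (not_le.1 hlt).le
          have h4 : (p : ℤ) ∣ F.L n (some l) x := Int.natCast_dvd.2 hpd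
          rw [F.hG n hN0 (some l), Polynomial.eval_mul]
          apply Dvd.dvd.mul_right
          have e : Polynomial.eval x (C (F.u (some l)) * X + C (F.b (some l) * n + F.c (some l)) :
              ℤ[X]) = F.L n (some l) x := by
            simp [Fam.L, Fam.v]
          rw [e]
          exact h4)
      have h5 : (F.L n (some l) x).natAbs ≤ Cc * n := by
        have h6 : (((F.L n (some l) x).natAbs : ℤ) : ℝ) ≤ Cc * n := by
          rw [Int.natCast_natAbs, abs_of_pos hm]
          exact hm2.trans (hCn _)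
        exact_mod_cast h6
      have hn0 : 0 < n := by
        rcases Nat.eq_zero_or_pos n with h | h
        · exfalso
          have h7 : (F.L n (some l) x).natAbs ≤ 0 := h5.trans (by rw [h, Nat.mul_zero])
          have := Int.natAbs_pos.2 hm.ne'
          omega
        · exact h
      have h6 : z ^ cardFactors (F.L n (some l) x).natAbs < z ^ (B0 + 1) := by
        calc z ^ cardFactors (F.L n (some l) x).natAbs ≤ (F.L n (some l) x).natAbs := h3
          _ ≤ Cc * n := h5
          _ < z * n := Nat.mul_lt_mul_of_pos_right hC hn0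
          _ ≤ z * z ^ B0 := Nat.mul_le_mul_left _ hzB
          _ = z ^ (B0 + 1) := by rw [pow_succ]; ring
      exact ((Nat.pow_lt_pow_iff_right hz1).mp h6).le
    refine (Finset.sum_le_sum (fun l _ => h0 l)).trans ?_
    rw [Finset.sum_const, Finset.card_univ, smul_eq_mul]
  rw [← sq_abs (ZI (DF F n P) g x)]
  exact pow_le_pow_left₀ (abs_nonneg _) key 2

theorem p_wm : S_wm := by
  intro hwin
  classical
  intro ι _ _ _ D F B0 M B hD hB0 hM
  obtain ⟨C, hC1, hC⟩ := cm_wm_X_le F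
  obtain ⟨_, hev⟩ := hwin ι D F
  filter_upwards [hev, eventually_ge_atTop 1, eventually_ge_atTop F.N0,
    eventually_gt_atTop (C ^ B0)] with n h1 hn1 hn0 hnC
  intro n' P hPar g hg x ha hR
  obtain ⟨hX, hw, _⟩ := h1
  obtain ⟨_, _, hv⟩ := cm_wm_vals F hX hw ha
  have hzC : C < z0 D n' := by
    by_contra h
    have h2 : z0 D n' ^ B0 ≤ C ^ B0 := Nat.pow_le_pow_left (not_lt.1 h) _
    have h3 := hPar.hzB
    omega
  convert cm_wm_point F hn0 hzC (hC n hn1) hPar.hzB (by omega) (fun p hp => (hPar.hP p hp).1)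
    (B := B) (fun α => hg.bd α) hv hR using 1

end Pool.Agent.CM.F
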