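import Pool.Agent.Lib.MP_0da313_nt.CM.L
import Pool.Agent.Lib.MP_0da313_nt.MT.Det

set_option autoImplicit false

/-!
Project CM, section L: the prime factors of the weights.
-/

namespace Pool.Agent.CM.L

open Finset Filter Polynomial
open Pool.Agent.MT (card_large_le)

theorem p_P : S_P := by
  classical
  intro ι _ _ D F B0 hB0
  set dt : ℕ → Option ι → Option ι → ℤ := fun n l l' => F.u l * F.v n l' - F.u l' * F.v n l with hdt
  have h2 : ∀ l l' : Option ι, ∃ C : ℕ, ∀ n : ℕ, 1 ≤ n → (dt n l l').natAbs ≤ C * n := by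
    intro l l'
    refine ⟨(F.u l * F.b l' - F.u l' * F.b l).natAbs + (F.u l * F.c l' - F.u l' * F.c l).natAbs,
      fun n hn => ?_⟩
    have e1 : dt n l l' = (F.u l * F.b l' - F.u l' * F.b l) * n +
        (F.u l * F.c l' - F.u l' * F.c l) := by
      simp only [hdt]
      unfold Fam.v
      ring
    rw [e1]
    refine (Int.natAbs_add_le _ _).trans ?_
    rw [Int.natAbs_mul, Int.natAbs_natCast, add_mul]
    apply Nat.add_le_add_left
    exact Nat.le_mul_of_pos_right _ hn
  choose C hC using h2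
  obtain ⟨A, hA⟩ : ∃ A : ℕ, A = ∑ l, ∑ l', C l l' + ∑ l, (F.u l).natAbs + 2 +
    2 * (Fintype.card (Option ι) ^ 2 * (B0 + 1)) := ⟨_, rfl⟩
  refine eventually_atTop.2 ⟨F.N0 + A ^ B0 + 1, fun n hn z R hz => ?_⟩
  have hAz : A ≤ z := by
    by_contra h
    have h1 : z ^ B0 ≤ A ^ B0 := Nat.pow_le_pow_left (by omega) B0
    omega
  have hC' : ∀ l l', C l l' ≤ z := by
    intro l l'
    have e1 : C l l' ≤ ∑ l', C l l' :=
      Finset.single_le_sum (f := fun l' => C l l') (fun i _ => Nat.zero_le _) (Finset.mem_univ l')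
    have e2 : ∑ l', C l l' ≤ ∑ l, ∑ l', C l l' :=
      Finset.single_le_sum (f := fun l => ∑ l', C l l') (fun i _ => Nat.zero_le _)
        (Finset.mem_univ l)
    omega
  have hu' : ∀ l, (F.u l).natAbs ≤ z := by
    intro l
    have e1 : (F.u l).natAbs ≤ ∑ l, (F.u l).natAbs :=
      Finset.single_le_sum (f := fun l => (F.u l).natAbs) (fun i _ => Nat.zero_le _)
        (Finset.mem_univ l)
    omega
  have hdt0 : ∀ l l', l ≠ l' → dt n l l' ≠ 0 := fun l l' h => F.hdet n (by omega) l l' h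
  have hdtle : ∀ l l', (dt n l l').natAbs ≤ z ^ (B0 + 1) := by
    intro l l'
    calc (dt n l l').natAbs ≤ C l l' * n := hC l l' n (by omega)
      _ ≤ z * z ^ B0 := Nat.mul_le_mul (hC' l l') hz
      _ = z ^ (B0 + 1) := by rw [pow_succ]; ring
  refine ⟨?_, ?_, ?_⟩
  · intro l p hp hzp h
    have h3 := Nat.le_of_dvd (Int.natAbs_pos.2 (F.hu l)) h
    have h4 := hu' l
    omega
  · intro l l' hll s hs
    exact card_large_le (hdt0 l l' hll) (z := z) (by omega) (hdtle l l') s hs
  · set P : Finset ℕ := (Icc 1 R).filter (fun p => p.Prime ∧ z < p ∧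
      ∀ l l', l ≠ l' → ¬ (p : ℤ) ∣ dt n l l') with hP
    set Ex : Finset ℕ := (Icc 1 R).filter (fun p => p.Prime ∧ z < p ∧
      ¬ ∀ l l', l ≠ l' → ¬ (p : ℤ) ∣ dt n l l') with hEx
    refine ⟨P, Ex, ?_, ?_, ?_, ?_⟩
    · intro p hp
      rw [hP, Finset.mem_filter, Finset.mem_Icc] at hp
      exact ⟨hp.2.1, hp.2.2.1, hp.1.2⟩
    · intro p hp l l' h
      rw [hP, Finset.mem_filter, Finset.mem_Icc] at hp
      exact hp.2.2.2 l l' h
    · intro p hp hzp hpR
      by_cases h : ∀ l l', l ≠ l' → ¬ (p : ℤ) ∣ dt n l l'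
      · left
        rw [hP, Finset.mem_filter, Finset.mem_Icc]
        exact ⟨⟨hp.one_le, hpR⟩, hp, hzp, h⟩
      · right
        rw [hEx, Finset.mem_filter, Finset.mem_Icc]
        exact ⟨⟨hp.one_le, hpR⟩, hp, hzp, h⟩
    · have hcard : Ex.card ≤ Fintype.card (Option ι) ^ 2 * (B0 + 1) := by
        have hsub : Ex ⊆ (univ : Finset (Option ι × Option ι)).biUnion (fun x =>
            (Icc 1 R).filter (fun p => p.Prime ∧ z < p ∧ x.1 ≠ x.2 ∧
              (p : ℤ) ∣ dt n x.1 x.2)) := by
          intro p hp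
          rw [hEx, Finset.mem_filter] at hp
          obtain ⟨hp1, hp2, hp3, hp4⟩ := hp
          push Not at hp4
          obtain ⟨l, l', h, h'⟩ := hp4
          rw [Finset.mem_biUnion]
          exact ⟨(l, l'), Finset.mem_univ _, Finset.mem_filter.2 ⟨hp1, hp2, hp3, h, h'⟩⟩
        refine (Finset.card_le_card hsub).trans (Finset.card_biUnion_le.trans ?_)
        have h3 : ∀ x ∈ (univ : Finset (Option ι × Option ι)), ((Icc 1 R).filter (fun p =>
            p.Prime ∧ z < p ∧ x.1 ≠ x.2 ∧ (p : ℤ) ∣ dt n x.1 x.2)).card ≤ B0 + 1 := by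
          intro x _
          by_cases hx : x.1 = x.2
          · rw [Finset.card_eq_zero.2]
            · omega
            · rw [Finset.filter_eq_empty_iff]
              rintro p _ ⟨_, _, h, _⟩
              exact h hx
          · apply card_large_le (hdt0 _ _ hx) (z := z) (by omega) (hdtle _ _)
            intro p hp
            rw [Finset.mem_filter] at hp
            exact ⟨hp.2.1, hp.2.2.1, hp.2.2.2.2⟩
        refine (Finset.sum_le_card_nsmul _ _ _ h3).trans ?_
        rw [smul_eq_mul, Finset.card_univ, Fintype.card_prod, sq]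
      have hz0 : (0 : ℝ) < z := by
        have : 0 < z := by omega
        exact_mod_cast this
      have h3 : ∑ p ∈ Ex, 1 / (p : ℝ) ≤ ∑ _p ∈ Ex, 1 / (z : ℝ) := by
        apply Finset.sum_le_sum
        intro p hp
        rw [hEx, Finset.mem_filter] at hp
        apply one_div_le_one_div_of_le hz0
        exact_mod_cast hp.2.2.1.le
      refine h3.trans ?_
      rw [Finset.sum_const, nsmul_eq_mul, mul_one_div, div_le_div_iff₀ hz0 (by norm_num)]
      have h4 : (Ex.card : ℝ) ≤ ((Fintype.card (Option ι) ^ 2 * (B0 + 1) : ℕ) : ℝ) := by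
        exact_mod_cast hcard
      have h5 : ((2 * (Fintype.card (Option ι) ^ 2 * (B0 + 1)) : ℕ) : ℝ) ≤ z := by
        exact_mod_cast (show 2 * (Fintype.card (Option ι) ^ 2 * (B0 + 1)) ≤ z by omega)
      push_cast at h4 h5
      linarith

end Pool.Agent.CM.L
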