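import Pool.Agent.Lib.MP_0da313_nt.CM.B

set_option autoImplicit false

/-!
Piece [CM SCP]: small conductors for `log p` on the primes.
-/

namespace Pool.Agent.CM.B

open Finset Filter
open Pool.Agent.MP89da58 (tri primChars)
open Pool.Agent.CH (thP)
open Pool.Agent.CH.V (pz)

private theorem cm_SCP_mono {a b : ℝ} (h : |b| ≤ |a|) : tri a ≤ tri b := by
  unfold tri
  exact max_le_max le_rfl (by linarith)

private theorem cm_SCP_nonneg (a : ℝ) : 0 ≤ tri a := le_max_left _ _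

private theorem cm_SCP_le_one (a : ℝ) : tri a ≤ 1 := by
  unfold tri
  exact max_le (by norm_num) (by linarith [abs_nonneg a])

private theorem cm_SCP_up (c X : ℝ) (hc : 0 ≤ c) (n : ℕ) (hn : 1 ≤ n)
    (h : ((n + 1 : ℕ) : ℝ) ≤ X) :
    tri (c * Real.log ((n : ℝ) / X)) ≤ tri (c * Real.log (((n + 1 : ℕ) : ℝ) / X)) := by
  have h0 : (0 : ℝ) < (n : ℝ) := by exact_mod_cast hn
  have h1 : (n : ℝ) ≤ ((n + 1 : ℕ) : ℝ) := by
    exact_mod_cast (Nat.le_succ n)
  have hX : 0 < X := lt_of_lt_of_le (lt_of_lt_of_le h0 h1) h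
  have e1 : Real.log ((n : ℝ) / X) ≤ Real.log (((n + 1 : ℕ) : ℝ) / X) :=
    Real.log_le_log (div_pos h0 hX) (div_le_div_of_nonneg_right h1 hX.le)
  have e2 : Real.log (((n + 1 : ℕ) : ℝ) / X) ≤ 0 :=
    Real.log_nonpos (div_nonneg (h0.le.trans h1) hX.le) ((div_le_one hX).2 h)
  apply cm_SCP_mono
  rw [abs_mul, abs_mul, abs_of_nonneg hc, abs_of_nonpos e2, abs_of_nonpos (e1.trans e2)]
  exact mul_le_mul_of_nonneg_left (by linarith) hc

private theorem cm_SCP_down (c X : ℝ) (hc : 0 ≤ c) (hX : 0 < X) (n : ℕ)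
    (h : X < (n : ℝ)) :
    tri (c * Real.log (((n + 1 : ℕ) : ℝ) / X)) ≤ tri (c * Real.log ((n : ℝ) / X)) := by
  have h0 : (0 : ℝ) < (n : ℝ) := hX.trans h
  have h1 : (n : ℝ) ≤ ((n + 1 : ℕ) : ℝ) := by
    exact_mod_cast (Nat.le_succ n)
  have e1 : Real.log ((n : ℝ) / X) ≤ Real.log (((n + 1 : ℕ) : ℝ) / X) :=
    Real.log_le_log (div_pos h0 hX) (div_le_div_of_nonneg_right h1 hX.le)
  have e2 : 0 ≤ Real.log ((n : ℝ) / X) :=
    Real.log_nonneg ((one_le_div hX).2 h.le)
  apply cm_SCP_mono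
  rw [abs_mul, abs_mul, abs_of_nonneg hc, abs_of_nonneg e2, abs_of_nonneg (e2.trans e1)]
  exact mul_le_mul_of_nonneg_left e1 hc

/-- the variation of the window -/
private theorem cm_SCP_var (c X : ℝ) (hc : 0 ≤ c) (hX : 0 < X) (g : ℕ → ℝ)
    (hg : ∀ n : ℕ, g n = tri (c * Real.log ((n : ℝ) / X))) (N : ℕ) (hN : 1 ≤ N) :
    ((N : ℝ) ≤ X → ∑ n ∈ Ico 1 N, |g n - g (n + 1)| ≤ g N) ∧
      (X < (N : ℝ) → ∑ n ∈ Ico 1 N, |g n - g (n + 1)| + g N ≤ 3) := by
  have g0 : ∀ n, 0 ≤ g n := fun n => by rw [hg]; exact cm_SCP_nonneg _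
  have g1 : ∀ n, g n ≤ 1 := fun n => by rw [hg]; exact cm_SCP_le_one _
  induction N, hN using Nat.le_induction with
  | base =>
    rw [Ico_self, sum_empty]
    exact ⟨fun _ => g0 1, fun _ => by linarith [g1 1]⟩
  | succ N hN ih =>
    rw [sum_Ico_succ_top hN]
    have hle : (N : ℝ) ≤ ((N + 1 : ℕ) : ℝ) := by
      exact_mod_cast (Nat.le_succ N)
    refine ⟨fun h => ?_, fun h => ?_⟩
    · have hm : g N ≤ g (N + 1) := by
        rw [hg, hg]
        exact cm_SCP_up c X hc N hN h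
      have := ih.1 (hle.trans h)
      rw [abs_of_nonpos (by linarith)]
      linarith
    · rcases le_or_gt (N : ℝ) X with h2 | h2
      · have h3 := ih.1 h2
        have h4 : |g N - g (N + 1)| ≤ 1 := by
          rw [abs_le]
          constructor
          · linarith [g0 N, g1 (N + 1)]
          · linarith [g1 N, g0 (N + 1)]
        linarith [g1 N, g1 (N + 1)]
      · have hm : g (N + 1) ≤ g N := by
          rw [hg, hg]
          exact cm_SCP_down c X hc hX N h2
        have := ih.2 h2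
        rw [abs_of_nonneg (by linarith)]
        linarith

private theorem cm_SCP_var' (c X : ℝ) (hc : 0 ≤ c) (hX : 0 < X) (g : ℕ → ℝ)
    (hg : ∀ n : ℕ, g n = tri (c * Real.log ((n : ℝ) / X))) (N : ℕ) (hN : 1 ≤ N) :
    ∑ n ∈ Ico 1 N, |g n - g (n + 1)| + g N ≤ 3 := by
  have h := cm_SCP_var c X hc hX g hg N hN
  have g1 : g N ≤ 1 := by rw [hg]; exact cm_SCP_le_one _
  rcases le_or_gt (N : ℝ) X with h2 | h2
  · linarith [h.1 h2]
  · exact h.2 h2

/-- Abel summation -/
private theorem cm_SCP_abel (x : ℕ → ℂ) (g : ℕ → ℝ) (N : ℕ) :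
    ∑ n ∈ Icc 1 N, x n * (g n : ℂ) =
      (∑ m ∈ Icc 1 N, x m) * (g N : ℂ) +
        ∑ n ∈ range N, (∑ m ∈ Icc 1 n, x m) * ((g n - g (n + 1) : ℝ) : ℂ) := by
  induction N with
  | zero => simp
  | succ N ih =>
    rw [sum_Icc_succ_top (by omega), ih, sum_Icc_succ_top (by omega), sum_range_succ]
    push_cast
    ring

private theorem cm_SCP_abel_le (x : ℕ → ℂ) (g : ℕ → ℝ) (r : ℝ) (N : ℕ) (hN : 1 ≤ N)
    (hx : ∀ n, n ≤ N → ‖∑ m ∈ Icc 1 n, x m‖ ≤ r) :
    ‖∑ n ∈ Icc 1 N, x n * (g n : ℂ)‖ ≤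
      r * (∑ n ∈ Ico 1 N, |g n - g (n + 1)| + |g N|) := by
  rw [cm_SCP_abel]
  refine (norm_add_le _ _).trans ?_
  have h1 : ‖(∑ m ∈ Icc 1 N, x m) * (g N : ℂ)‖ ≤ r * |g N| := by
    rw [norm_mul, Complex.norm_real, Real.norm_eq_abs]
    exact mul_le_mul_of_nonneg_right (hx N le_rfl) (abs_nonneg _)
  have h2 : ‖∑ n ∈ range N, (∑ m ∈ Icc 1 n, x m) * ((g n - g (n + 1) : ℝ) : ℂ)‖ ≤
      r * ∑ n ∈ Ico 1 N, |g n - g (n + 1)| := by
    rw [range_eq_Ico, sum_eq_sum_Ico_succ_bot (by omega), mul_sum]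
    simp only [Icc_eq_empty_of_lt Nat.zero_lt_one, sum_empty, zero_mul, zero_add]
    refine (norm_sum_le _ _).trans (sum_le_sum fun n hn => ?_)
    rw [norm_mul, Complex.norm_real, Real.norm_eq_abs]
    exact mul_le_mul_of_nonneg_right (hx n (mem_Ico.1 hn).2.le) (abs_nonneg _)
  linarith

/-- the variation of `log n` times the window -/
private theorem cm_SCP_logvar (c X : ℝ) (hc : 0 ≤ c) (hX : 0 < X) (g : ℕ → ℝ)
    (hg : ∀ n : ℕ, g n = tri (c * Real.log ((n : ℝ) / X))) (N : ℕ) (hN : 1 ≤ N) :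
    ∑ n ∈ Ico 1 N, |Real.log (n : ℝ) * g n - Real.log ((n + 1 : ℕ) : ℝ) * g (n + 1)| +
      |Real.log (N : ℝ) * g N| ≤ 4 * Real.log N := by
  have g0 : ∀ n, 0 ≤ g n := fun n => by rw [hg]; exact cm_SCP_nonneg _
  have g1 : ∀ n, g n ≤ 1 := fun n => by rw [hg]; exact cm_SCP_le_one _
  have hlogN : 0 ≤ Real.log (N : ℝ) := Real.log_natCast_nonneg N
  have hV := cm_SCP_var' c X hc hX g hg N hN
  have hV2 : ∑ n ∈ Ico 1 N, |Real.log (n : ℝ) * g n - Real.log ((n + 1 : ℕ) : ℝ) * g (n + 1)| ≤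
      Real.log N * ∑ n ∈ Ico 1 N, |g n - g (n + 1)| + Real.log N := by
    have hstep : ∀ n ∈ Ico 1 N,
        |Real.log (n : ℝ) * g n - Real.log ((n + 1 : ℕ) : ℝ) * g (n + 1)| ≤
        Real.log N * |g n - g (n + 1)| + (Real.log ((n + 1 : ℕ) : ℝ) - Real.log (n : ℝ)) := by
      intro n hn
      rw [mem_Ico] at hn
      have hn0 : (0 : ℝ) < n := by exact_mod_cast hn.1
      have hle : Real.log (n : ℝ) ≤ Real.log ((n + 1 : ℕ) : ℝ) := by
        apply Real.log_le_log hn0
        push_cast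
        linarith
      have hleN : Real.log (n : ℝ) ≤ Real.log (N : ℝ) := by
        apply Real.log_le_log hn0
        exact_mod_cast hn.2.le
      have hln : 0 ≤ Real.log (n : ℝ) := Real.log_natCast_nonneg n
      have e : Real.log (n : ℝ) * g n - Real.log ((n + 1 : ℕ) : ℝ) * g (n + 1) =
          Real.log (n : ℝ) * (g n - g (n + 1)) -
            (Real.log ((n + 1 : ℕ) : ℝ) - Real.log (n : ℝ)) * g (n + 1) := by ring
      rw [e]
      refine (abs_sub _ _).trans ?_
      rw [abs_mul, abs_mul, abs_of_nonneg hln, abs_of_nonneg (sub_nonneg.2 hle),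
        abs_of_nonneg (g0 (n + 1))]
      apply add_le_add
      · exact mul_le_mul_of_nonneg_right hleN (abs_nonneg _)
      · calc _ ≤ (Real.log ((n + 1 : ℕ) : ℝ) - Real.log (n : ℝ)) * 1 :=
            mul_le_mul_of_nonneg_left (g1 (n + 1)) (sub_nonneg.2 hle)
          _ = _ := mul_one _
    refine (sum_le_sum hstep).trans ?_
    rw [sum_add_distrib, ← mul_sum]
    have htel : ∑ n ∈ Ico 1 N, (Real.log ((n + 1 : ℕ) : ℝ) - Real.log (n : ℝ)) =
        Real.log (N : ℝ) - Real.log ((1 : ℕ) : ℝ) :=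
      sum_Ico_sub (fun n : ℕ => Real.log (n : ℝ)) hN
    rw [htel, Nat.cast_one, Real.log_one, sub_zero]
  rw [abs_of_nonneg (mul_nonneg hlogN (g0 N))]
  calc _ ≤ Real.log N * ∑ n ∈ Ico 1 N, |g n - g (n + 1)| + Real.log N +
        Real.log N * g N := by linarith
    _ = Real.log N * (∑ n ∈ Ico 1 N, |g n - g (n + 1)| + g N) + Real.log N := by ring
    _ ≤ Real.log N * 3 + Real.log N := by
        linarith [mul_le_mul_of_nonneg_left hV hlogN]
    _ = 4 * Real.log N := by ring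

/-- outside of the window -/
private theorem cm_SCP_out (lam X : ℝ) (hlam : 1 ≤ lam) (hX : 0 < X) (n : ℕ) (hn : 1 ≤ n)
    (h : (n : ℝ) ≤ X / 3) : wd lam X n = 0 := by
  have hn0 : (0 : ℝ) < n := by exact_mod_cast hn
  have h1 : (n : ℝ) / X ≤ 1 / 3 := by
    rw [div_le_iff₀ hX]
    linarith
  have h2 : Real.log ((n : ℝ) / X) ≤ -1 := by
    have h3 : Real.log ((n : ℝ) / X) ≤ Real.log (Real.exp (-1)) := by
      apply Real.log_le_log (div_pos hn0 hX)
      refine h1.trans ?_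
      rw [Real.exp_neg, ← one_div]
      exact one_div_le_one_div_of_le (Real.exp_pos 1) Real.exp_one_lt_three.le
    rwa [Real.log_exp] at h3
  unfold wd tri
  apply max_eq_left
  have h4 : 1 ≤ |lam * Real.log ((n : ℝ) / X)| := by
    rw [abs_mul, abs_of_pos (by linarith : (0 : ℝ) < lam), abs_of_nonpos (by linarith)]
    nlinarith
  linarith

theorem p_SCP : S_SCP := by
  intro hP lam hlam A B
  obtain ⟨C0, hC⟩ := hP (A + 2) (B + 1) 1 le_rfl
  have h3 : Tendsto (fun X : ℝ => 3 * X) atTop atTop :=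
    tendsto_id.const_mul_atTop (by norm_num)
  have hev := h3.eventually hC
  have hlog := Real.tendsto_log_atTop.eventually_ge_atTop (24 : ℝ)
  filter_upwards [hev, hlog, eventually_ge_atTop (27 : ℝ)] with X hX hL h27
  intro f hf s hs1 hs r χ hr hrB hχ
  have hf' : f = thP := hf
  subst hf'
  have hX0 : 0 < X := by linarith
  set N := ⌊3 * X⌋₊ with hNdef
  have hN : 1 ≤ N := by
    rw [hNdef]
    apply Nat.le_floor
    rw [Nat.cast_one]
    linarith
  have hNX : (N : ℝ) ≤ 3 * X := Nat.floor_le (by linarith)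
  have hlog3 : Real.log (3 * X) = Real.log 3 + Real.log X :=
    Real.log_mul (by norm_num) hX0.ne'
  have hlog3p : 0 ≤ Real.log 3 := Real.log_nonneg (by norm_num)
  have hlog32 : Real.log 3 ≤ 2 := by
    have := Real.log_le_sub_one_of_pos (by norm_num : (0 : ℝ) < 3)
    linarith
  have hL3 : Real.log X ≤ Real.log (3 * X) := by linarith
  have hL3' : Real.log (3 * X) ≤ 2 * Real.log X := by linarith
  -- the condition at `s`
  have hsX : (s : ℝ) ≤ X / 3 := by
    refine hs.trans ?_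
    have e1 : X ^ (2 / 3 : ℝ) * X ^ (1 / 3 : ℝ) = X := by
      rw [← Real.rpow_add hX0]
      norm_num
    have e2 : (3 : ℝ) ≤ X ^ (1 / 3 : ℝ) := by
      have h1 : (27 : ℝ) ^ (1 / 3 : ℝ) ≤ X ^ (1 / 3 : ℝ) :=
        Real.rpow_le_rpow (by norm_num) h27 (by norm_num)
      have h2 : (27 : ℝ) ^ (1 / 3 : ℝ) = 3 := by
        rw [show (27 : ℝ) = 3 ^ (3 : ℝ) by norm_num, ← Real.rpow_mul (by norm_num)]
        norm_num
      rwa [h2] at h1
    have e3 : 0 < X ^ (2 / 3 : ℝ) := Real.rpow_pos_of_pos hX0 _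
    rw [le_div_iff₀ (by norm_num)]
    nlinarith
  -- the coefficients
  let x : ℕ → ℂ := fun n => if n.Prime then χ (n : ZMod r) else 0
  let g : ℕ → ℝ := fun n => wd lam X n
  have hTw : Tw thP lam X s χ =
      ∑ n ∈ Icc 1 N, x n * ((Real.log (n : ℝ) * g n : ℝ) : ℂ) := by
    unfold Tw
    rw [sum_filter]
    refine sum_congr rfl fun n hn => ?_
    rw [mem_Icc] at hn
    by_cases hp : n.Prime
    · have e1 : thP n = Real.log n := if_pos hp
      have e2 : x n = χ (n : ZMod r) := if_pos hp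
      by_cases hc : n.Coprime s
      · rw [if_pos hc, e1, e2]
        push_cast
        ring
      · have hd : n ∣ s := by
          by_contra hnd
          exact hc ((Nat.Prime.coprime_iff_not_dvd hp).2 hnd)
        have hle : (n : ℝ) ≤ X / 3 := by
          have : n ≤ s := Nat.le_of_dvd hs1 hd
          exact le_trans (by exact_mod_cast this) hsX
        have e3 : g n = 0 := cm_SCP_out lam X hlam hX0 n hn.1 hle
        rw [if_neg hc, e3, mul_zero, Complex.ofReal_zero, mul_zero]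
    · have e1 : thP n = 0 := if_neg hp
      have e2 : x n = 0 := if_neg hp
      rw [e1, e2, zero_mul]
      split_ifs <;> simp
  -- the partial sums
  have hx : ∀ n, n ≤ N → ‖∑ m ∈ Icc 1 n, x m‖ ≤ 3 * X / Real.log (3 * X) ^ (A + 2) := by
    intro n hn
    have h1 : (r : ℝ) ≤ Real.log (3 * X) ^ (B + 1) := by
      refine hrB.trans ?_
      calc Real.log X ^ B ≤ Real.log (3 * X) ^ B :=
            pow_le_pow_left₀ (by linarith) hL3 B
        _ = Real.log (3 * X) ^ B * 1 := (mul_one _).symm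
        _ ≤ Real.log (3 * X) ^ B * Real.log (3 * X) :=
            mul_le_mul_of_nonneg_left (by linarith) (pow_nonneg (by linarith) _)
        _ = Real.log (3 * X) ^ (B + 1) := (pow_succ _ _).symm
    have h2 : |(0 : ℝ)| ≤ (3 * X) ^ (1 : ℝ) := by
      rw [abs_zero]
      positivity
    have h3 : (n : ℝ) ≤ 3 * X := le_trans (by exact_mod_cast hn) hNX
    have h4 := hX r χ (by omega) h1 hχ 0 h2 (Or.inl hr) 0 n h3
    have h5 : ∑ m ∈ Icc 1 n, x m =
        ∑ m ∈ (Ioc 0 n).filter Nat.Prime, χ (m : ZMod r) * pz (-0) m := by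
      rw [sum_filter]
      refine sum_congr (by ext m; simp [Nat.succ_le_iff]) fun m _ => ?_
      have e : pz (-0) m = 1 := by
        unfold pz
        simp
      rw [e, mul_one]
    rw [h5]
    exact h4
  have hab := cm_SCP_abel_le x (fun n => Real.log (n : ℝ) * g n) _ N hN hx
  have hvar := cm_SCP_logvar lam X (by linarith) hX0 g (fun n => rfl) N hN
  rw [hTw]
  refine hab.trans ?_
  have hlogN : Real.log (N : ℝ) ≤ 2 * Real.log X := by
    refine le_trans ?_ hL3'
    apply Real.log_le_log (by exact_mod_cast hN) hNX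
  have hK : 3 * X / Real.log (3 * X) ^ (A + 2) ≤ 3 * X / Real.log X ^ (A + 2) := by
    apply div_le_div_of_nonneg_left (by linarith) (pow_pos (by linarith) _)
    exact pow_le_pow_left₀ (by linarith) hL3 _
  have hK0 : 0 ≤ 3 * X / Real.log X ^ (A + 2) := by
    apply div_nonneg (by linarith) (pow_nonneg (by linarith) _)
  have hK1 : 0 ≤ 3 * X / Real.log (3 * X) ^ (A + 2) := by
    apply div_nonneg (by linarith) (pow_nonneg (by linarith) _)
  calc _ ≤ 3 * X / Real.log (3 * X) ^ (A + 2) * (4 * Real.log N) :=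
        mul_le_mul_of_nonneg_left hvar hK1
    _ ≤ 3 * X / Real.log X ^ (A + 2) * (8 * Real.log X) := by
        apply mul_le_mul hK (by linarith) _ hK0
        have : 0 ≤ Real.log (N : ℝ) := Real.log_natCast_nonneg N
        linarith
    _ = (24 / Real.log X) * (X / Real.log X ^ A) := by
        have hL0 : Real.log X ≠ 0 := by linarith
        field_simp
        ring
    _ ≤ 1 * (X / Real.log X ^ A) := by
        apply mul_le_mul_of_nonneg_right
        · rw [div_le_one (by linarith)]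
          exact hL
        · exact div_nonneg hX0.le (pow_nonneg (by linarith) _)
    _ = X / Real.log X ^ A := one_mul _

end Pool.Agent.CM.B
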