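import Pool.Agent.Lib.MP_0da313_nt.CM.M
import Mathlib.NumberTheory.Chebyshev

set_option autoImplicit false

/-!
Project CM, section M, piece m1: the mass of the primes in a window.
`tri u = ∫_0^1 [|u| ≤ s] ds`, and for a given `s` the sum is a difference of two Chebyshev functions.
-/

namespace Pool.Agent.CM.M

open Finset Filter
open Pool.Agent.MP89da58 (tri)
open Pool.Agent.CH (thP)
open ArithmeticFunction (vonMangoldt)

/-- the triangle as an average of indicator functions of intervals -/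
private theorem m1_tri (u : ℝ) :
    tri u = ∫ s in Set.Icc (0 : ℝ) 1, (Set.Ici |u|).indicator (fun _ => (1 : ℝ)) s := by
  have h : Set.Icc (0 : ℝ) 1 ∩ Set.Ici |u| = Set.Icc |u| 1 := by
    ext s
    simp only [Set.mem_inter_iff, Set.mem_Icc, Set.mem_Ici]
    constructor
    · rintro ⟨⟨-, h1⟩, h2⟩
      exact ⟨h2, h1⟩
    · rintro ⟨h1, h2⟩
      exact ⟨⟨(abs_nonneg u).trans h1, h2⟩, h1⟩
  rw [MeasureTheory.setIntegral_indicator measurableSet_Ici, h, MeasureTheory.setIntegral_const,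
    Real.volume_real_Icc]
  unfold tri
  rw [max_comm, smul_eq_mul, mul_one]

private theorem m1_int (u : ℝ) : MeasureTheory.IntegrableOn
    ((Set.Ici |u|).indicator (fun _ => (1 : ℝ))) (Set.Icc (0 : ℝ) 1) := by
  apply MeasureTheory.Integrable.indicator _ measurableSet_Ici
  exact MeasureTheory.integrableOn_const (by simp) (by simp)

/-- for one value of `s` -/
private theorem m1_one (X lam K s : ℝ) (N : ℕ) (hlam : 1 ≤ lam) (hX : 12 ≤ X)
    (hN : N = ⌊3 * X⌋₊)
    (hK : ∀ M : ℕ, X / 4 ≤ M → |∑ n ∈ Icc 1 M, thP n - M| ≤ K * M)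
    (hK0 : 0 ≤ K) (hs0 : 0 ≤ s) (hs1 : s ≤ 1) :
    |∑ n ∈ Icc 1 N, thP n *
      (Set.Ici |lam * Real.log (n / X)|).indicator (fun _ => (1 : ℝ)) s -
        X * (Real.exp (s / lam) - Real.exp (-(s / lam)))| ≤ 6 * K * X + 2 := by
  have hX0 : 0 < X := by linarith
  have hl0 : 0 < lam := by linarith
  obtain ⟨y, hy⟩ : ∃ y : ℝ, y = s / lam := ⟨_, rfl⟩
  rw [← hy]
  have hy0 : 0 ≤ y := by rw [hy]; exact div_nonneg hs0 hl0.le
  have hy1 : y ≤ 1 := by
    rw [hy, div_le_one hl0]
    linarith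
  have he1 : Real.exp y ≤ 2.75 := by
    have h1 := Real.exp_one_lt_d9
    have h2 := Real.exp_le_exp.2 hy1
    linarith
  have he2 : 1 / 2.75 ≤ Real.exp (-y) := by
    rw [Real.exp_neg, ← one_div]
    exact one_div_le_one_div_of_le (Real.exp_pos y) he1
  set a : ℕ := ⌈X * Real.exp (-y)⌉₊ with ha
  set b : ℕ := ⌊X * Real.exp y⌋₊ with hb
  have hxa : X * (1 / 2.75) ≤ X * Real.exp (-y) := mul_le_mul_of_nonneg_left he2 hX0.le
  have hxb : X * Real.exp y ≤ X * 2.75 := mul_le_mul_of_nonneg_left he1 hX0.le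
  have ha1 : X * Real.exp (-y) ≤ a := Nat.le_ceil _
  have ha2 : (a : ℝ) < X * Real.exp (-y) + 1 := Nat.ceil_lt_add_one (by positivity)
  have hb1 : (b : ℝ) ≤ X * Real.exp y := Nat.floor_le (by positivity)
  have hb2 : X * Real.exp y < b + 1 := Nat.lt_floor_add_one _
  have ha4 : X / 4 + 1 ≤ a := by
    have : X / 4 + 1 ≤ X * (1 / 2.75) := by
      norm_num
      linarith
    linarith
  have ha0 : 1 ≤ a := by
    have : (1 : ℝ) ≤ a := by linarith
    exact_mod_cast this
  have hmono : X * Real.exp (-y) ≤ X * Real.exp y :=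
    mul_le_mul_of_nonneg_left (Real.exp_le_exp.2 (by linarith)) hX0.le
  have hbN : b ≤ N := by
    rw [hN, hb]
    apply Nat.floor_le_floor
    linarith
  have hab : a ≤ b + 1 := by
    have : (a : ℝ) < b + 2 := by linarith
    have h : a < b + 2 := by exact_mod_cast this
    omega
  -- the condition
  have hcond : ∀ n ∈ Icc 1 N, (s ∈ Set.Ici |lam * Real.log (n / X)|) ↔ (a ≤ n ∧ n ≤ b) := by
    intro n hn
    have hn1 : 1 ≤ n := (Finset.mem_Icc.1 hn).1
    have hnr : (0 : ℝ) < n := by exact_mod_cast hn1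
    have hnx : 0 < (n : ℝ) / X := by positivity
    rw [Set.mem_Ici, abs_mul, abs_of_pos hl0, mul_comm, ← le_div_iff₀ hl0, ← hy, abs_le,
      Real.le_log_iff_exp_le hnx, Real.log_le_iff_le_exp hnx, le_div_iff₀ hX0, div_le_iff₀ hX0,
      ha, hb, Nat.ceil_le, Nat.le_floor_iff (by positivity), mul_comm (Real.exp (-y)) X,
      mul_comm (Real.exp y) X]
  have hF : ∑ n ∈ Icc 1 N, thP n *
      (Set.Ici |lam * Real.log (n / X)|).indicator (fun _ => (1 : ℝ)) s =
      ∑ n ∈ Icc 1 b, thP n - ∑ n ∈ Icc 1 (a - 1), thP n := by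
    have h1 : ∑ n ∈ Icc 1 N, thP n *
        (Set.Ici |lam * Real.log (n / X)|).indicator (fun _ => (1 : ℝ)) s =
        ∑ n ∈ (Icc 1 N).filter (fun n => a ≤ n ∧ n ≤ b), thP n := by
      rw [Finset.sum_filter]
      apply Finset.sum_congr rfl
      intro n hn
      by_cases h : a ≤ n ∧ n ≤ b
      · rw [if_pos h, Set.indicator_of_mem ((hcond n hn).2 h), mul_one]
      · rw [if_neg h, Set.indicator_of_notMem (fun h' => h ((hcond n hn).1 h')), mul_zero]
    have h2 : (Icc 1 N).filter (fun n => a ≤ n ∧ n ≤ b) = Ioc (a - 1) b := by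
      ext n
      rw [Finset.mem_filter, Finset.mem_Icc, Finset.mem_Ioc]
      omega
    have h3 : Icc 1 b = Ioc 0 b := by
      ext n
      rw [Finset.mem_Icc, Finset.mem_Ioc]
      omega
    have h4 : Icc 1 (a - 1) = Ioc 0 (a - 1) := by
      ext n
      rw [Finset.mem_Icc, Finset.mem_Ioc]
      omega
    rw [h1, h2, h3, h4, eq_sub_iff_add_eq, add_comm,
      Finset.sum_Ioc_consecutive (fun n => thP n) (Nat.zero_le _) (by omega)]
  have hacast : ((a - 1 : ℕ) : ℝ) = a - 1 := by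
    rw [Nat.cast_sub (by omega)]
    simp
  have hKb := hK b (by linarith)
  have hKa := hK (a - 1) (by rw [hacast]; linarith)
  rw [hacast] at hKa
  have e1 : K * b ≤ K * (2.75 * X) := mul_le_mul_of_nonneg_left (by linarith) hK0
  have e2 : K * ((a : ℝ) - 1) ≤ K * (2.75 * X) := by
    apply mul_le_mul_of_nonneg_left _ hK0
    linarith
  have e3 : K * (2.75 * X) + K * (2.75 * X) ≤ 6 * K * X := by
    have : 0 ≤ K * X := by positivity
    nlinarith
  rw [hF]
  rw [abs_le] at hKa hKb ⊢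
  constructor <;> linarith [hKa.1, hKa.2, hKb.1, hKb.2]

private theorem m1_F (X lam : ℝ) (hlam : 1 ≤ lam) :
    ∫ s in Set.Icc (0 : ℝ) 1, X * (Real.exp (s / lam) - Real.exp (-(s / lam))) =
      mu lam * X := by
  have hl0 : lam ≠ 0 := by linarith
  rw [MeasureTheory.integral_Icc_eq_integral_Ioc, ← intervalIntegral.integral_of_le zero_le_one]
  have h1 : ∀ s ∈ Set.uIcc (0 : ℝ) 1,
      HasDerivAt (fun s => X * (lam * (Real.exp (s / lam) + Real.exp (-(s / lam)))))
        (X * (Real.exp (s / lam) - Real.exp (-(s / lam)))) s := by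
    intro s _
    have h2 : HasDerivAt (fun s : ℝ => s / lam) (1 / lam) s := (hasDerivAt_id s).div_const lam
    have h3 := (h2.exp.add h2.neg.exp).const_mul lam
    have h4 := h3.const_mul X
    have h5 : X * (Real.exp (s / lam) - Real.exp (-(s / lam))) =
        X * (lam * (Real.exp (s / lam) * (1 / lam) + Real.exp (-(s / lam)) * -(1 / lam))) := by
      field_simp
      ring
    rw [h5]
    exact h4
  rw [intervalIntegral.integral_eq_sub_of_hasDerivAt h1
    (Continuous.intervalIntegrable (by fun_prop) _ _)]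
  unfold mu
  rw [Real.cosh_eq]
  simp
  ring

/-- the sum over a window -/
private theorem m1_sum (X lam K : ℝ) (N : ℕ) (hlam : 1 ≤ lam) (hX : 12 ≤ X)
    (hN : N = ⌊3 * X⌋₊)
    (hK : ∀ M : ℕ, X / 4 ≤ M → |∑ n ∈ Icc 1 M, thP n - M| ≤ K * M)
    (hK0 : 0 ≤ K) :
    |∑ n ∈ Icc 1 N, thP n * tri (lam * Real.log (n / X)) - mu lam * X| ≤ 6 * K * X + 2 := by
  have h1 : ∑ n ∈ Icc 1 N, thP n * tri (lam * Real.log (n / X)) =
      ∫ s in Set.Icc (0 : ℝ) 1, ∑ n ∈ Icc 1 N, thP n *
        (Set.Ici |lam * Real.log (n / X)|).indicator (fun _ => (1 : ℝ)) s := by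
    rw [MeasureTheory.integral_finsetSum]
    · apply Finset.sum_congr rfl
      intro n _
      rw [m1_tri, MeasureTheory.integral_const_mul]
    · intro n _
      exact (m1_int _).const_mul _
  have hint1 : MeasureTheory.IntegrableOn (fun s => ∑ n ∈ Icc 1 N, thP n *
        (Set.Ici |lam * Real.log (n / X)|).indicator (fun _ => (1 : ℝ)) s)
        (Set.Icc (0 : ℝ) 1) := by
    apply MeasureTheory.integrable_finsetSum
    intro n _
    exact (m1_int _).const_mul _
  have hint2 : MeasureTheory.IntegrableOn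
      (fun s : ℝ => X * (Real.exp (s / lam) - Real.exp (-(s / lam)))) (Set.Icc (0 : ℝ) 1) := by
    apply ContinuousOn.integrableOn_Icc
    fun_prop
  rw [h1, ← m1_F X lam hlam, ← MeasureTheory.integral_sub hint1 hint2]
  have h3 := MeasureTheory.norm_setIntegral_le_of_norm_le_const (μ := MeasureTheory.volume)
    (s := Set.Icc (0 : ℝ) 1)
    (f := fun s => ∑ n ∈ Icc 1 N, thP n *
        (Set.Ici |lam * Real.log (n / X)|).indicator (fun _ => (1 : ℝ)) s -
          X * (Real.exp (s / lam) - Real.exp (-(s / lam))))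
    (C := 6 * K * X + 2) (by simp) (fun s hs => by
      rw [Real.norm_eq_abs]
      exact m1_one X lam K s N hlam hX hN hK hK0 hs.1 hs.2)
  rw [Real.norm_eq_abs, Real.volume_real_Icc] at h3
  simpa using h3

/-- the prime number theorem for `thP` -/
private theorem m1_pnt (hPNT : CH.P.R_PNT) (δ : ℝ) (hδ : 0 < δ) :
    ∀ᶠ M : ℕ in atTop, |∑ n ∈ Icc 1 M, thP n - M| ≤ δ * M := by
  obtain ⟨C, hC⟩ := hPNT 1
  have h1 : ∀ᶠ M : ℕ in atTop, 2 * |C| / δ ≤ Real.log M :=
    (Real.tendsto_log_atTop.comp tendsto_natCast_atTop_atTop).eventually_ge_atTop _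
  have h2 : ∀ᶠ x : ℝ in atTop, 2 * Real.sqrt x * Real.log x ≤ δ / 2 * x := by
    have h := (isLittleO_log_rpow_atTop (r := 1 / 2) (by norm_num)).def (c := δ / 4)
      (by positivity)
    filter_upwards [h, eventually_ge_atTop 1] with x hx hx1
    rw [Real.norm_of_nonneg (Real.log_nonneg hx1), Real.norm_of_nonneg (by positivity),
      ← Real.sqrt_eq_rpow] at hx
    have hs : 0 ≤ Real.sqrt x := Real.sqrt_nonneg x
    calc 2 * Real.sqrt x * Real.log x ≤ 2 * Real.sqrt x * (δ / 4 * Real.sqrt x) :=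
          mul_le_mul_of_nonneg_left hx (by positivity)
      _ = δ / 2 * (Real.sqrt x * Real.sqrt x) := by ring
      _ = δ / 2 * x := by rw [Real.mul_self_sqrt (by linarith)]
  filter_upwards [h1, (tendsto_natCast_atTop_atTop (R := ℝ)).eventually h2,
    eventually_ge_atTop 3] with M hM1 hM2 hM3
  have hMr : (3 : ℝ) ≤ M := by exact_mod_cast hM3
  have hL0 : 0 < Real.log M := Real.log_pos (by linarith)
  have hψ : ∑ n ∈ Icc 1 M, vonMangoldt n = Chebyshev.psi M := by
    rw [Chebyshev.psi, Nat.floor_natCast]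
    rfl
  have hθ : ∑ n ∈ Icc 1 M, thP n = Chebyshev.theta M := by
    rw [Chebyshev.theta, Nat.floor_natCast, Finset.sum_filter]
    rfl
  have h3 := hC M (by omega)
  rw [hψ, pow_one] at h3
  rw [hθ]
  have h4 := Chebyshev.psi_sub_theta_le (x := (M : ℝ)) (by linarith)
  have h5 := Chebyshev.theta_le_psi (M : ℝ)
  have h6 : C * M / Real.log M ≤ δ / 2 * M := by
    rw [div_le_iff₀ hL0]
    rw [div_le_iff₀ hδ] at hM1
    have h7 : C ≤ |C| := le_abs_self C
    have h8 : |C| ≤ Real.log M * δ / 2 := by linarith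
    calc C * M ≤ (Real.log M * δ / 2) * M :=
          mul_le_mul_of_nonneg_right (h7.trans h8) (by linarith)
      _ = δ / 2 * M * Real.log M := by ring
  rw [abs_le] at h3 ⊢
  constructor <;> linarith [h3.1, h3.2]

theorem p_m1 : S_m1 := by
  intro hPNT lam δ hlam hδ
  have h1 := m1_pnt hPNT (δ / 12) (by positivity)
  rw [eventually_atTop] at h1
  obtain ⟨M0, hM0⟩ := h1
  filter_upwards [eventually_ge_atTop (12 : ℝ), eventually_ge_atTop (4 * (M0 : ℝ)),
    eventually_ge_atTop (4 / δ)] with X hX1 hX2 hX3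
  have h2 := m1_sum X lam (δ / 12) ⌊3 * X⌋₊ hlam hX1 rfl (fun M hM => by
    apply hM0
    have : (M0 : ℝ) ≤ M := by linarith
    exact_mod_cast this) (by positivity)
  have h3 : ∑ n ∈ Icc 1 ⌊3 * X⌋₊, thP n * wd lam X n =
      ∑ n ∈ Icc 1 ⌊3 * X⌋₊, thP n * tri (lam * Real.log (n / X)) := rfl
  rw [h3]
  refine h2.trans ?_
  rw [div_le_iff₀ hδ] at hX3
  linarith

end Pool.Agent.CM.M
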