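import Pool.Agent.Lib.MP_0da313_nt.CM.F

set_option autoImplicit false

/-!
[CM pw1]: the pointwise lower bound.
-/

namespace Pool.Agent.CM.F

open Finset Filter Polynomial
open ArithmeticFunction (cardFactors)
open Pool.Agent.MP89da58 (bil pw nn supp part kapD)
open Pool.Agent.MT (PJf ZI Dl)
open Pool.Agent.BVall (om rhoW PK lev RepB Dens mem_PK)
open Pool.Agent.Lib.MP_0da313_nt (Admissible lineRestrict val singV W small)
open Pool.Agent.CH (thP)
open Pool.Agent.CH.S (th Pr gd RepC V)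
open Pool.Agent.CM.W (WPk yM)

theorem cm_pw1_a0 {ι : Type} [Fintype ι] [DecidableEq ι] {D : ℕ} (F : Fam ι D) {n : ℕ} {x : ℤ}
    (h : F.a0 n (F.L n none x).toNat ≠ 0) :
    0 < F.L n none x ∧ (F.L n none x).toNat.Prime ∧ F.wi n none (F.L n none x).toNat ≠ 0 := by
  unfold Fam.a0 at h
  have h1 := left_ne_zero_of_mul h
  have h2 := right_ne_zero_of_mul h
  have hp : (F.L n none x).toNat.Prime := by
    by_contra hc
    apply h1
    unfold thP
    rw [if_neg hc]
  refine ⟨?_, hp, h2⟩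
  have := hp.pos
  omega

theorem cm_pw1_yM {M n : ℕ} (hM : 1 ≤ M) : (yM M n : ℝ) ≤ (n : ℝ) ^ (1 / 1000 : ℝ) := by
  unfold yM
  push_cast
  have hn0 : (0 : ℝ) ≤ n := Nat.cast_nonneg n
  have hMr : (0 : ℝ) < M := by exact_mod_cast hM
  have h1 : (⌊(n : ℝ) ^ (1 / (1000 * M) : ℝ)⌋₊ : ℝ) ≤ (n : ℝ) ^ (1 / (1000 * M) : ℝ) :=
    Nat.floor_le (by positivity)
  calc (⌊(n : ℝ) ^ (1 / (1000 * M) : ℝ)⌋₊ : ℝ) ^ M ≤ ((n : ℝ) ^ (1 / (1000 * M) : ℝ)) ^ M :=
        pow_le_pow_left₀ (Nat.cast_nonneg _) h1 M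
    _ = (n : ℝ) ^ (1 / 1000 : ℝ) := by
        rw [← Real.rpow_natCast, ← Real.rpow_mul hn0]
        congr 1
        field_simp

theorem cm_pw1_ev (C : ℕ) {t c : ℝ} (ht : 0 < t) :
    ∀ᶠ n : ℕ in atTop, 3 * ((kz n : ℝ) + ky C n) < t * n + c := by
  have hcast : Tendsto (fun n : ℕ => (n : ℝ)) atTop atTop := tendsto_natCast_atTop_atTop
  obtain ⟨R, hR⟩ : ∃ R : ℝ, R = 3 * (1 + (C : ℝ) ^ (1 / 3 : ℝ)) + 7 + |c| := ⟨_, rfl⟩
  have hC0 : (0 : ℝ) ≤ (C : ℝ) ^ (1 / 3 : ℝ) := by positivity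
  have ev := hcast.eventually ((tendsto_rpow_atTop (show (0 : ℝ) < 1 / 2 by norm_num)).eventually_ge_atTop
    (R / t + 1))
  filter_upwards [ev, eventually_ge_atTop 1] with n h1 hn1
  have hnR : (1 : ℝ) ≤ n := by exact_mod_cast hn1
  have hn0 : (0 : ℝ) < n := by linarith
  obtain ⟨s, hs⟩ : ∃ s : ℝ, s = (n : ℝ) ^ (1 / 2 : ℝ) := ⟨_, rfl⟩
  rw [← hs] at h1
  have hss : s * s = n := by
    rw [hs, ← Real.rpow_add hn0]
    norm_num
  have hRt : 0 ≤ R / t := by
    rw [hR]; positivity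
  have hs1 : 1 ≤ s := by linarith
  have hts : R ≤ t * s := by
    have h2 : R / t ≤ s := by linarith
    rw [div_le_iff₀ ht] at h2
    linarith
  have hk1 : (kz n : ℝ) ≤ s + 1 := by
    unfold kz
    have h2 := (Nat.ceil_lt_add_one (show (0 : ℝ) ≤ (n : ℝ) ^ (1 / 11 : ℝ) by positivity)).le
    have h3 : (n : ℝ) ^ (1 / 11 : ℝ) ≤ s := by
      rw [hs]
      exact Real.rpow_le_rpow_of_exponent_le hnR (by norm_num)
    linarith
  have hk2 : (ky C n : ℝ) ≤ (C : ℝ) ^ (1 / 3 : ℝ) * s + 1 := by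
    unfold ky
    have h2 := (Nat.ceil_lt_add_one
      (show (0 : ℝ) ≤ ((C * n : ℕ) : ℝ) ^ (1 / 3 : ℝ) by positivity)).le
    have h3 : ((C * n : ℕ) : ℝ) ^ (1 / 3 : ℝ) ≤ (C : ℝ) ^ (1 / 3 : ℝ) * s := by
      push_cast
      rw [Real.mul_rpow (Nat.cast_nonneg _) (Nat.cast_nonneg _), hs]
      apply mul_le_mul_of_nonneg_left _ hC0
      exact Real.rpow_le_rpow_of_exponent_le hnR (by norm_num)
    linarith
  have h4 : R * s ≤ t * n := by
    rw [← hss]
    nlinarith
  have h5 : R * s = 3 * (s + (C : ℝ) ^ (1 / 3 : ℝ) * s) + (7 + |c|) * s := by rw [hR]; ring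
  have h6 : (7 + |c|) * 1 ≤ (7 + |c|) * s :=
    mul_le_mul_of_nonneg_left hs1 (by positivity)
  have h7 := neg_abs_le c
  linarith

theorem cm_pw1_z (D n' : ℕ) : z0 D n' ≤ lev (2 * D) n' := by
  unfold z0 lev
  have h1 : 1 ≤ ∏ p ∈ small (2 * D), p := by
    apply Nat.one_le_iff_ne_zero.2
    rw [Finset.prod_ne_zero_iff]
    intro p hp
    exact (Finset.mem_filter.1 hp).2.ne_zero
  calc 2 ^ (2 ^ (2 * D + n')) ≤ 1 * 2 ^ (2 ^ (2 * D + n') * (16 * (2 * D) + 6)) := by
        rw [one_mul]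
        apply Nat.pow_le_pow_right (by norm_num)
        exact Nat.le_mul_of_pos_right _ (by omega)
    _ ≤ _ := Nat.mul_le_mul_right _ h1

theorem cm_pw1_cv {C n m : ℕ} : 0 ≤ cv (al C n) m := by
  unfold cv
  apply Finset.sum_nonneg
  intro k _
  apply mul_nonneg
  · unfold al
    split_ifs <;> norm_num
  · split_ifs <;> norm_num

open Classical in
theorem cm_pw1_pt {ι : Type} [Fintype ι] [DecidableEq ι] {D C n n' : ℕ} (F : Fam ι D)
    (hpt : S.R_pt) (hchn : R_chn) (hn : F.N0 ≤ n) {Fp Fm : (ℕ → ℝ) → ℝ} (hF : Pre D n' Fp Fm)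
    (x : ℤ) (i : ι) (hN : (F.L n none x).toNat.Prime) (hNk : kz n ≤ (F.L n none x).toNat)
    (hNy : ky C n ≤ (F.L n none x).toNat) (hzk : z0 D n' < kz n) (hk2 : 2 ≤ kz n)
    (hm0 : 0 < F.L n (some i) x) (hmC : F.L n (some i) x < C * n)
    (zi zl : ℝ) (hz : (∀ p : ℕ, p.Prime → (p : ℤ) ∣ F.L n (some i) x → kz n ≤ p) → zl = zi) :
    F12 Fp Fm (z0 D n' + 1) (kz n) (ky C n) (lD n) (F.ri n (z0 D n') none (some i) x) * zi ^ 2 -
      1 / 2 * ((if F.Rg n (z0 D n') x then cv (al C n) (F.L n (some i) x).toNat else 0) *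
        zi ^ 2) ≤
    if F.Rg n (z0 D n') x then zl ^ 2 *
      ((if cardFactors (F.L n (some i) x).toNat ≤ 2 then (1 : ℝ) else 0) +
        (if ∃ q : ℕ, q.Prime ∧ kz n ≤ q ∧ q ^ 2 ∣ (F.L n (some i) x).toNat then 1 else 0))
      else 0 := by
  obtain ⟨z, hzd⟩ : ∃ z, z = z0 D n' := ⟨_, rfl⟩
  rw [← hzd] at hzk ⊢
  set ρ := F.ri n z none (some i) x with hρ
  have h01 : ∀ p, 0 ≤ ρ p ∧ ρ p ≤ 1 := by
    intro p
    rw [hρ]
    unfold Fam.ri
    split_ifs <;> norm_num
  have hpre := hF.pt ρ (fun p _ => h01 p)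
  have hmain := (hpt (PK (2 * D) n') (z + 1) (kz n) (ky C n) (kz n) (lD n) Fp Fm ρ h01
    hpre.1 hpre.2).1
  set f12 := F12 Fp Fm (z + 1) (kz n) (ky C n) (lD n) ρ with hf12
  have hL0 : 0 < F.L n none x := by
    have := hN.pos
    omega
  have hNd : ∀ p : ℕ, p.Prime → p < (F.L n none x).toNat → ¬ (p : ℤ) ∣ F.L n none x := by
    intro p hp hlt hd
    have h1 : (p : ℤ) ∣ ((F.L n none x).toNat : ℤ) := by
      rwa [Int.toNat_of_nonneg hL0.le]
    have h2 : p ∣ (F.L n none x).toNat := by exact_mod_cast h1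
    rcases (Nat.dvd_prime hN).1 h2 with h3 | h3
    · exact hp.one_lt.ne' h3
    · omega
  have hGx : (F.G n).eval x = F.L n none x * (F.Gc n none).eval x := by
    rw [F.hG n hn none, eval_mul]
    congr 1
    simp [Fam.L, Fam.v]
  have hGi : F.L n (some i) x ∣ (F.G n).eval x := by
    rw [F.hG n hn (some i), eval_mul]
    have : (Polynomial.C (F.u (some i)) * Polynomial.X +
        Polynomial.C (F.b (some i) * (n : ℤ) + F.c (some i)) : ℤ[X]).eval x =
        F.L n (some i) x := by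
      simp [Fam.L, Fam.v]
    rw [this]
    exact dvd_mul_right _ _
  -- values of the indicator
  have hρ1 : ∀ p : ℕ, p.Prime → p ≤ z → (p : ℤ) ∣ (F.G n).eval x → ρ p = 1 := by
    intro p hp hpz hd
    have hnd := hNd p hp (by omega)
    rw [hρ]
    unfold Fam.ri
    rw [if_pos]
    refine ⟨?_, hnd⟩
    rw [if_pos hpz]
    rw [hGx] at hd
    exact ((Nat.prime_iff_prime_int.1 hp).dvd_or_dvd hd).resolve_left hnd
  have hρ2 : ∀ p : ℕ, p.Prime → z < p → p < (F.L n none x).toNat →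
      (p : ℤ) ∣ F.L n (some i) x → ρ p = 1 := by
    intro p hp hpz hlt hd
    rw [hρ]
    unfold Fam.ri
    rw [if_pos]
    refine ⟨?_, hNd p hp hlt⟩
    rw [if_neg (by omega)]
    exact hd
  have hW0 : ∀ (s : Finset ℕ) (p : ℕ), p ∈ s → ρ p = 1 → W ρ s = 0 := by
    intro s p hp h1
    unfold W
    exact Finset.prod_eq_zero hp (by rw [h1, sub_self])
  have hcv : 0 ≤ cv (al C n) (F.L n (some i) x).toNat := cm_pw1_cv
  have hzi2 : 0 ≤ zi ^ 2 := sq_nonneg _
  have hzl2 : 0 ≤ zl ^ 2 := sq_nonneg _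
  have hos : (0 : ℝ) ≤ (if cardFactors (F.L n (some i) x).toNat ≤ 2 then (1 : ℝ) else 0) +
        (if ∃ q : ℕ, q.Prime ∧ kz n ≤ q ∧ q ^ 2 ∣ (F.L n (some i) x).toNat then 1 else 0) := by
    split_ifs <;> norm_num
  by_cases hR : F.Rg n z x
  · rw [if_pos hR, if_pos hR]
    by_cases hd : ∃ p : ℕ, p.Prime ∧ z < p ∧ p < kz n ∧ (p : ℤ) ∣ F.L n (some i) x
    · obtain ⟨p, hp, hpz, hpk, hdv⟩ := hd
      have h1 : W ρ (Pr (z + 1) (kz n)) = 0 := by
        apply hW0 _ p _ (hρ2 p hp hpz (by omega) hdv)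
        unfold Pr
        rw [Finset.mem_filter, Finset.mem_range]
        exact ⟨hpk, hp, by omega⟩
      rw [h1, mul_zero, zero_mul] at hmain
      have h2 : f12 * zi ^ 2 ≤ 0 := mul_nonpos_of_nonpos_of_nonneg hmain hzi2
      have h3 : 0 ≤ cv (al C n) (F.L n (some i) x).toNat * zi ^ 2 := mul_nonneg hcv hzi2
      have h4 := mul_nonneg hzl2 hos
      linarith
    · push Not at hd
      have hall : ∀ p : ℕ, p.Prime → (p : ℤ) ∣ F.L n (some i) x → kz n ≤ p := by
        intro p hp hdv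
        by_contra hc
        rcases Nat.lt_or_ge z p with h | h
        · exact hd p hp h (by omega) hdv
        · exact hR p hp h (hdv.trans hGi)
      have h1 : W ρ (PK (2 * D) n') = 1 := by
        unfold W
        apply Finset.prod_eq_one
        intro p hp
        have hp' := mem_PK.1 hp
        have hpz : p ≤ z := by rw [hzd]; exact hp'.2
        have h0 : ρ p = 0 := by
          rw [hρ]
          unfold Fam.ri
          rw [if_neg]
          intro hQ
          have h1 := hQ.1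
          rw [if_pos hpz] at h1
          apply hR p hp'.1 hpz
          rw [hGx]
          exact dvd_mul_of_dvd_right h1 _
        rw [h0, sub_zero]
      have h2 : W ρ (Pr (z + 1) (kz n)) = 1 := by
        unfold W
        apply Finset.prod_eq_one
        intro p hp
        unfold Pr at hp
        rw [Finset.mem_filter, Finset.mem_range] at hp
        have h0 : ρ p = 0 := by
          rw [hρ]
          unfold Fam.ri
          rw [if_neg]
          intro hQ
          have h1 := hQ.1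
          rw [if_neg (by omega)] at h1
          exact hd p hp.2.1 (by omega) hp.1 h1
        rw [h0, sub_zero]
      have h3 : (((Pr (kz n) (ky C n)).filter
          (fun q => q ∣ (F.L n (some i) x).toNat)).card : ℝ) ≤ ∑ q ∈ Pr (kz n) (ky C n), ρ q := by
        rw [Finset.card_filter]
        push_cast
        apply Finset.sum_le_sum
        intro q hq
        unfold Pr at hq
        rw [Finset.mem_filter, Finset.mem_range] at hq
        split_ifs with hqd
        · apply le_of_eq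
          symm
          apply hρ2 q hq.2.1 (by omega) (by omega)
          have h5 : (q : ℤ) ∣ ((F.L n (some i) x).toNat : ℤ) := by exact_mod_cast hqd
          rwa [Int.toNat_of_nonneg hm0.le] at h5
        · exact (h01 q).1
      rw [h1, h2, one_mul, one_mul] at hmain
      have h4 := hchn C n (F.L n (some i) x).toNat (by omega) (by
          have : ((F.L n (some i) x).toNat : ℤ) < ((C * n : ℕ) : ℤ) := by
            rw [Int.toNat_of_nonneg hm0.le]
            push_cast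
            exact hmC
          exact_mod_cast this) hk2 (by
          intro p hp hdv
          apply hall p hp
          have h5 : (p : ℤ) ∣ ((F.L n (some i) x).toNat : ℤ) := by exact_mod_cast hdv
          rwa [Int.toNat_of_nonneg hm0.le] at h5)
      rw [hz hall]
      have h5 : f12 - 1 / 2 * cv (al C n) (F.L n (some i) x).toNat ≤
          (if cardFactors (F.L n (some i) x).toNat ≤ 2 then (1 : ℝ) else 0) +
          (if ∃ q : ℕ, q.Prime ∧ kz n ≤ q ∧ q ^ 2 ∣ (F.L n (some i) x).toNat then 1 else 0) := by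
        linarith
      have h6 := mul_le_mul_of_nonneg_left h5 hzi2
      linarith
  · rw [if_neg hR, if_neg hR, zero_mul, mul_zero, sub_zero]
    have hex : ∃ p : ℕ, p.Prime ∧ p ≤ z ∧ (p : ℤ) ∣ (F.G n).eval x := by
      by_contra hc
      push Not at hc
      exact hR (fun p hp hpz => hc p hp hpz)
    obtain ⟨p, hp, hpz, hdv⟩ := hex
    have h1 : W ρ (PK (2 * D) n') = 0 := by
      apply hW0 _ p _ (hρ1 p hp hpz hdv)
      rw [mem_PK]
      refine ⟨hp, ?_⟩
      rw [hzd] at hpz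
      exact hpz
    rw [h1, zero_mul, zero_mul] at hmain
    exact mul_nonpos_of_nonpos_of_nonneg hmain hzi2

theorem p_pw1 : S_pw1 := by
  intro hpt hchn hwin ι _ _ _ D F C B0 M hD hB0 hM hC
  have hwinF := hwin ι D F
  have ev1 := cm_pw1_ev C (c := (F.c none : ℝ)) (hwinF.1 none).1
  filter_upwards [hwinF.2, hC, ev1, eventually_ge_atTop (F.N0 + 2)] with n hwin hC ev1 hn
  intro n' P hPar Fp Fm hF B A V1 τ lam lami hW x i ha
  obtain ⟨hL0, hNp, hwi⟩ := cm_pw1_a0 F ha
  obtain ⟨hX1, hw2, -⟩ := hwin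
  obtain ⟨-, -, hloc⟩ := hw2 none x hL0 hwi
  have hnR : (1 : ℝ) < n := by exact_mod_cast (show 1 < n by omega)
  have hN1 : (kz n : ℝ) + ky C n < (F.L n none x : ℝ) := by
    have h1 := (hloc none).1
    have h2 : F.X n none = F.t none * n + F.c none := rfl
    linarith
  have hN2 : kz n + ky C n < (F.L n none x).toNat := by
    have h1 : ((kz n + ky C n : ℕ) : ℝ) < ((F.L n none x : ℤ) : ℝ) := by push_cast; exact hN1
    have h2 : ((kz n + ky C n : ℕ) : ℤ) < F.L n none x := by exact_mod_cast h1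
    omega
  have hm0 : 0 < F.L n (some i) x := by
    have h1 := (hloc (some i)).1
    have h2 := hX1 (some i)
    have h3 : (0 : ℝ) < (F.L n (some i) x : ℝ) := by linarith
    exact_mod_cast h3
  have hmC : F.L n (some i) x < C * n := by
    have h1 := (hloc (some i)).2
    have h2 := hC (some i)
    have h3 : (F.L n (some i) x : ℝ) < C * n := by linarith
    exact_mod_cast h3
  have hnk : (n : ℝ) ^ (1 / 1000 : ℝ) < (n : ℝ) ^ (1 / 11 : ℝ) :=
    Real.rpow_lt_rpow_of_exponent_lt hnR (by norm_num)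
  have hkz : (n : ℝ) ^ (1 / 11 : ℝ) ≤ kz n := Nat.le_ceil _
  have hlev1 : (1 : ℝ) ≤ (lev (2 * D) n' : ℝ) := by
    have : 1 ≤ lev (2 * D) n' := by
      have := cm_pw1_z D n'
      have h2 : 1 ≤ z0 D n' := Nat.one_le_two_pow
      omega
    exact_mod_cast this
  have hzk : z0 D n' < kz n := by
    have h1 : (z0 D n' : ℝ) ≤ (lev (2 * D) n' : ℝ) := by exact_mod_cast cm_pw1_z D n'
    have h2 : (lev (2 * D) n' : ℝ) ≤ (lev (2 * D) n' : ℝ) ^ 3 := by
      calc (lev (2 * D) n' : ℝ) = (lev (2 * D) n' : ℝ) ^ 1 := (pow_one _).symm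
        _ ≤ _ := pow_le_pow_right₀ hlev1 (by norm_num)
    have h3 := hPar.hlev
    have h4 : (z0 D n' : ℝ) < (kz n : ℝ) := by linarith
    exact_mod_cast h4
  have hk2 : 2 ≤ kz n := by
    have h1 : (1 : ℝ) < kz n := lt_of_lt_of_le (Real.one_lt_rpow hnR (by norm_num)) hkz
    have h2 : 1 < kz n := by exact_mod_cast h1
    omega
  refine cm_pw1_pt F hpt hchn (by omega) hF x i hNp (by omega) (by omega) hzk hk2 hm0 hmC _ _ ?_
  intro hall
  apply hW.link
  intro j hj
  unfold DF Dl at hj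
  have hj' := hPar.hP j.1 j.2
  have h1 := hall j.1 hj'.1 hj
  have h2 : ((j : ℕ) : ℝ) ≤ (yM M n : ℝ) := by exact_mod_cast hj'.2.2
  have h3 := cm_pw1_yM (n := n) hM
  have h4 : ((kz n : ℕ) : ℝ) ≤ ((j : ℕ) : ℝ) := by exact_mod_cast h1
  linarith

end Pool.Agent.CM.F
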