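import Pool.Agent.Lib.MP_0da313_nt.CM.S

set_option autoImplicit false

/-!
[CM v1] Mertens' product and the range of the presieve.
-/

namespace Pool.Agent.CM.S

open Finset Filter
open Pool.Agent.CH.S (th Pr gd V Mer)

theorem p_v1 : S_v1 := by
  intro htel hmer B0 hB0
  obtain ⟨a0, ha0, hM⟩ := hmer (1 / 100) (by norm_num)
  have hlog : Tendsto (fun n : ℕ => Real.log (n : ℝ)) atTop atTop :=
    Real.tendsto_log_atTop.comp tendsto_natCast_atTop_atTop
  filter_upwards [hlog.eventually_ge_atTop 100, eventually_ge_atTop (a0 ^ B0)] with n hn1 hn2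
  intro z hz1 hz2
  have hz : a0 ≤ z := by
    by_contra h
    have h1 : z ^ B0 < a0 ^ B0 := Nat.pow_lt_pow_left (by omega) (by omega)
    omega
  set L : ℝ := Real.log n with hL
  have hn0 : (0 : ℝ) < n := by
    rcases Nat.eq_zero_or_pos n with h | h
    · exfalso
      rw [h, Nat.cast_zero, Real.log_zero] at hL
      linarith
    · exact_mod_cast h
  have hw0 : 0 < (n : ℝ) ^ (1 / 11 : ℝ) := Real.rpow_pos_of_pos hn0 _
  have hl11 : Real.log ((n : ℝ) ^ (1 / 11 : ℝ)) = L / 11 := by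
    rw [Real.log_rpow hn0]
    ring
  have hx0 : 0 < (n : ℝ) ^ (1 / 1000 : ℝ) := Real.rpow_pos_of_pos hn0 _
  have hz3 : (3 : ℝ) ≤ z := by exact_mod_cast le_trans ha0 hz
  have haw : ((z + 1 : ℕ) : ℝ) ≤ (n : ℝ) ^ (1 / 11 : ℝ) := by
    have h1 : 2 * (n : ℝ) ^ (1 / 1000 : ℝ) ≤ (n : ℝ) ^ (1 / 11 : ℝ) := by
      rw [← Real.log_le_log_iff (by positivity) hw0, hl11,
        Real.log_mul (by norm_num) hx0.ne', Real.log_rpow hn0]
      have := Real.log_two_lt_d9
      linarith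
    push_cast
    linarith
  have h1 := hM (z + 1) (by omega) (z + 1) le_rfl ((n : ℝ) ^ (1 / 11 : ℝ)) haw
  rw [hl11] at h1
  have h2 : Real.log (z : ℝ) ≤ Real.log ((z + 1 : ℕ) : ℝ) := by
    apply Real.log_le_log (by linarith)
    push_cast
    linarith
  have h3 : 0 ≤ Real.log (z : ℝ) := Real.log_nonneg (by linarith)
  have h4 : (1 + 1 / 100) * V (z + 1) ⌈(n : ℝ) ^ (1 / 11 : ℝ)⌉₊ * (L / 11) =
      101 / 1100 * (V (z + 1) (kz n) * L) := by
    unfold kz
    ring
  rw [h4] at h1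
  exact ⟨by linarith, ((htel (z + 1) (by omega)).1 (kz n)).2⟩

end Pool.Agent.CM.S
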